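import Mathlib
import Pool.Agent.Lib.MP_ca0fc2_an.XC.AD

set_option autoImplicit false

open Metric Set Filter MeasureTheory
open scoped NNReal
open Pool.Agent.Lib.MP_ca0fc2_an

/-! # `N` arbitrary functions and functions in `A(D)` -/

namespace Pool.Agent.MPca0fc2.SP

open Pool.Agent.MPca0fc2AD

/-- The corona theorem on `D` for `N` bounded holomorphic functions and `M` functions of the algebra
`A(D)` of the continuous functions on the closure of `D` which are holomorphic on `D`. -/
def MixedQ1 {n : ℕ} (N M : ℕ) (D : Set (EuclideanSpace ℂ (Fin n))) : Prop :=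
  ∀ (f : Fin N → EuclideanSpace ℂ (Fin n) → ℂ) (g : Fin M → EuclideanSpace ℂ (Fin n) → ℂ),
    (∀ j, IsHinf D (f j)) → (∀ i, DifferentiableOn ℂ (g i) D ∧ ContinuousOn (g i) (closure D)) →
    (∃ δ > 0, ∀ z ∈ D, δ ≤ ∑ j, ‖f j z‖ ^ 2 + ∑ i, ‖g i z‖ ^ 2) →
    ∃ (h : Fin N → EuclideanSpace ℂ (Fin n) → ℂ) (k : Fin M → EuclideanSpace ℂ (Fin n) → ℂ),
      (∀ j, IsHinf D (h j)) ∧ (∀ i, IsHinf D (k i)) ∧
      ∀ z ∈ D, ∑ j, f j z * h j z + ∑ i, g i z * k i z = 1

/-- `N` arbitrary functions and functions in `A(D)` -/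
theorem mixed {n N M : ℕ} (hn : 2 ≤ n) (hN : 1 ≤ N)
    (hQ : ∀ m, 2 ≤ m → m ≤ n → ∀ D : Set (EuclideanSpace ℂ (Fin m)), IsStrictlyPscDomain D →
      Q1On N D) {D : Set (EuclideanSpace ℂ (Fin n))} (hD : IsStrictlyPscDomain D) :
    MixedQ1 N M D := by
  intro f g hf hg hδ
  have hloc := ((Pool.Agent.MPca0fc2AD.result hn hN).out 0 4).1 hQ
  obtain ⟨U, ρ₀, hh, c, hs, -⟩ := Pool.Agent.MPca0fc2.LV.support_of_domain hD
  have hDo : IsOpen D := by
    rw [hs.eq]
    exact hs.dρ.continuousOn.isOpen_inter_preimage hs.opn (isOpen_Iio (a := (0:ℝ)))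
  have hcpt : IsCompact (closure D) := by
    rw [Pool.Agent.MPca0fc2.FD.sup_closure hs]
    exact hs.cpt
  obtain ⟨δ, hδ0, hδ⟩ := hδ
  have hgb : ∀ i, ∃ C : ℝ, ∀ z ∈ closure D, ‖g i z‖ ≤ C := fun i =>
    hcpt.exists_bound_of_continuousOn (hg i).2
  have hgH : ∀ i, IsHinf D (g i) := fun i =>
    ⟨(hg i).1, (hgb i).imp fun C hC z hz => hC z (subset_closure hz)⟩
  obtain ⟨F, hF⟩ : ∃ F : Fin (N + M) → EuclideanSpace ℂ (Fin n) → ℂ, F = Fin.append f g :=
    ⟨_, rfl⟩
  have hFl : ∀ j, F (Fin.castAdd M j) = f j := fun j => by rw [hF, Fin.append_left]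
  have hFr : ∀ i, F (Fin.natAdd N i) = g i := fun i => by rw [hF, Fin.append_right]
  have hFH : ∀ j, IsHinf D (F j) := by
    intro j
    refine Fin.addCases (fun j => ?_) (fun i => ?_) j
    · rw [hFl]
      exact hf j
    · rw [hFr]
      exact hgH i
  have hsum : ∀ (u : Fin (N + M) → ℂ), ∑ j, u j =
      ∑ j, u (Fin.castAdd M j) + ∑ i, u (Fin.natAdd N i) := fun u => Fin.sum_univ_add u
  choose hFd K hK using hFH
  obtain ⟨C, h, h1, h2, h3⟩ := Pool.Agent.MPca0fc2.FD.fibre_loc' hn hs (f := F)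
    (M := ∑ j, |K j|) hFd (fun j z hz => (hK j z hz).trans ((le_abs_self _).trans
      (Finset.single_le_sum (f := fun j => |K j|) (fun _ _ => abs_nonneg _)
        (Finset.mem_univ j)))) (by
    intro p hp
    by_cases hpD : p ∈ D
    · refine Pool.Agent.MPca0fc2.FD.solv_interior hDo hFd hδ0 (fun z hz => ?_) hpD
      have h4 : ∑ j, ‖F j z‖ ^ 2 = ∑ j, ‖f j z‖ ^ 2 + ∑ i, ‖g i z‖ ^ 2 := by
        rw [Fin.sum_univ_add]
        simp only [hFl, hFr]
      rw [h4]
      exact hδ z hz
    have hpf : p ∈ frontier D := ⟨hp, by rwa [hDo.interior_eq]⟩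
    by_cases hg0 : ∃ i, g i p ≠ 0
    · -- one of the continuous functions does not vanish at `p`
      obtain ⟨i, hi⟩ := hg0
      have hc := ((hg i).2 p hp).norm
      have hpos : ‖g i p‖ / 2 < ‖g i p‖ := by
        have := norm_pos_iff.2 hi
        linarith
      obtain ⟨r, hr, hrb⟩ := Metric.mem_nhdsWithin_iff.1 (hc (Ioi_mem_nhds hpos))
      have hlow : ∀ z ∈ D ∩ ball p r, ‖g i p‖ / 2 < ‖g i z‖ := fun z hz =>
        hrb ⟨hz.2, subset_closure hz.1⟩
      have hpp := norm_pos_iff.2 hi
      have hne : ∀ z ∈ D ∩ ball p r, g i z ≠ 0 := fun z hz h0 => by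
        have := hlow z hz
        rw [h0, norm_zero] at this
        linarith
      refine ⟨r, hr, 2 / ‖g i p‖, fun j z => if j = Fin.natAdd N i then (g i z)⁻¹ else 0,
        fun j => ?_, fun j z hz => ?_, fun z hz => ?_⟩
      · by_cases hj : j = Fin.natAdd N i
        · simp only [hj, if_true]
          exact ((hg i).1.mono inter_subset_left).inv hne
        · simp only [hj, if_false]
          exact differentiableOn_const _
      · by_cases hj : j = Fin.natAdd N i
        · simp only [hj, if_true]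
          rw [norm_inv]
          have h5 := hlow z hz
          rw [inv_le_comm₀ (by linarith) (by positivity), inv_div]
          exact h5.le
        · simp only [hj, if_false]
          rw [norm_zero]
          positivity
      · rw [Finset.sum_eq_single (Fin.natAdd N i)]
        · simp only [if_true, hFr]
          exact mul_inv_cancel₀ (hne z hz)
        · intro j _ hj
          simp only [hj, if_false, mul_zero]
        · intro h0
          exact absurd (Finset.mem_univ _) h0
    · -- all continuous functions vanish at `p`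
      push Not at hg0
      have hc : ContinuousWithinAt (fun z => ∑ i, ‖g i z‖ ^ 2) (closure D) p := by
        refine tendsto_finsetSum _ fun i _ => ?_
        exact (((hg i).2 p hp).norm).pow 2
      have h0 : ∑ i, ‖g i p‖ ^ 2 = 0 := by
        refine Finset.sum_eq_zero fun i _ => ?_
        rw [hg0 i, norm_zero]
        norm_num
      obtain ⟨s, hs0, hsb⟩ := Metric.mem_nhdsWithin_iff.1
        (hc (Iio_mem_nhds (show ∑ i, ‖g i p‖ ^ 2 < δ / 2 by rw [h0]; positivity)))
      have hf' : ∀ j, IsHinf (D ∩ ball p s) (f j) := fun j =>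
        ⟨(hf j).1.mono inter_subset_left, (hf j).2.imp fun A hA z hz => hA z hz.1⟩
      obtain ⟨δ', hδ', hA⟩ := exists_of_uniform hf' ⟨δ / 2, by positivity, fun z hz => by
        have h5 := hδ z hz.1
        have h6 : ∑ i, ‖g i z‖ ^ 2 < δ / 2 := hsb ⟨hz.2, subset_closure hz.1⟩
        linarith⟩
      obtain ⟨A, hA'⟩ := hloc δ' hδ'
      obtain ⟨r, hr, hU⟩ := hA' D hD p hpf s hs0
      obtain ⟨h, hh1, hh2⟩ := hA _ A hU
      choose hd B hB using hh1
      refine ⟨r, hr, ∑ j, |B j|, Fin.append h (fun _ _ => 0), fun j => ?_, fun j z hz => ?_,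
        fun z hz => ?_⟩
      · refine Fin.addCases (fun j => ?_) (fun i => ?_) j
        · rw [Fin.append_left]
          exact hd j
        · rw [Fin.append_right]
          exact differentiableOn_const _
      · have h7 : 0 ≤ ∑ j, |B j| := Finset.sum_nonneg fun j _ => abs_nonneg _
        refine Fin.addCases (fun j => ?_) (fun i => ?_) j
        · rw [Fin.append_left]
          exact (hB j z hz).trans ((le_abs_self _).trans
            (Finset.single_le_sum (f := fun j => |B j|) (fun _ _ => abs_nonneg _)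
              (Finset.mem_univ j)))
        · rw [Fin.append_right]
          simpa using h7
      · rw [Fin.sum_univ_add]
        simp only [hFl, hFr, Fin.append_left, Fin.append_right, mul_zero,
          Finset.sum_const_zero, add_zero]
        exact hh2 z hz)
  refine ⟨fun j => h (Fin.castAdd M j), fun i => h (Fin.natAdd N i), fun j => ⟨h1 _, C, h2 _⟩,
    fun i => ⟨h1 _, C, h2 _⟩, fun z hz => ?_⟩
  have h4 := h3 z hz
  rw [Fin.sum_univ_add] at h4
  simp only [hFl, hFr] at h4
  exact h4


end Pool.Agent.MPca0fc2.SP
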