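import Mathlib
import Pool.Agent.Lib.MP_ca0fc2_an.CE.H0
import Pool.Agent.Lib.MP_ca0fc2_an.CE.H1
import Pool.Agent.Lib.MP_ca0fc2_an.CE.H2
import Pool.Agent.Lib.MP_ca0fc2_an.CE.F2
import Pool.Agent.Lib.MP_ca0fc2_an.CE.D1
import Pool.Agent.Lib.MP_ca0fc2_an.PV.M6
import Pool.Agent.Lib.MP_ca0fc2_an.PV.Q4

set_option autoImplicit false
set_option linter.unusedSectionVars false

open Metric Set MeasureTheory Filter Topology
open scoped InnerProductSpace ENNReal ContDiff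

/-! # From smooth to holomorphic solutions, relative to a complex subspace -/

namespace Pool.Agent.MPca0fc2.SP

open Pool.Agent.MPca0fc2.PT
open Pool.Agent.MPca0fc2.QT
open Pool.Agent.MPca0fc2.TS
open Pool.Agent.MPca0fc2.TE
open Pool.Agent.MPca0fc2.TK
open Pool.Agent.MPca0fc2.VK
open Pool.Agent.MPca0fc2.PV
open Pool.Agent.MPca0fc2.CE

variable {E : Type*} [NormedAddCommGroup E] [InnerProductSpace ℂ E] [FiniteDimensional ℂ E]
  [MeasurableSpace E] [BorelSpace E]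

private theorem S1_Th_mono {W W' : ℕ → ℝ} (hW0 : ∀ i, 0 ≤ W i) (hW : Summable W)
    (hW' : Summable W') (h : ∀ i, W i ≤ W' i) {ρ : ℝ} (hρ : 0 < ρ) : Th W ρ ≤ Th W' ρ := by
  have hW'0 : ∀ i, 0 ≤ W' i := fun i => (hW0 i).trans (h i)
  exact (Th_sum hW0 hW hρ).tsum_le_tsum
    (fun i => mul_le_mul_of_nonneg_right (h i) (qq_pos (by positivity)).1.le)
    (Th_sum hW'0 hW' hρ)

/-- `CE.smoothH` for an arbitrary projection `P`, with a given solution on its range. -/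
theorem smoothP (hE : 2 ≤ Module.finrank ℂ E) {P : E →L[ℂ] E} (hP : Prj P) {n : ℕ}
    {F : Fin n → E → ℂ} (hF : ∀ j, DifferentiableOn ℂ (F j) (ball 0 1)) {B : ℝ}
    (hFB : ∀ j, ∀ z ∈ ball (0 : E) 1, ‖F j z‖ ≤ B) {g : Fin n → E → ℂ} {A : ℝ}
    (hg1 : ∀ j, DifferentiableOn ℂ (fun z => g j (P z)) (ball 0 1))
    (hg2 : ∀ z ∈ ball (0 : E) 1, ∑ j, F j (P z) * g j (P z) = 1 ∧ ∀ j, ‖g j (P z)‖ ≤ A)
    {W : ℕ → ℝ} (hW0 : ∀ i, 0 ≤ W i)
    (hW : Summable W) {s : ℝ} (hs : 0 < s) (hs1 : s ≤ 1 / 8) {ν : Measure E} (hν : Car ν)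
    {R : E → Fin n → ℂ} (hR2 : ContDiffOn ℝ 2 R (ball 0 1))
    (hR : ∀ z ∈ ball (0 : E) 1, ∑ j, F j z * R z j = 1 ∧ ‖R z‖ ≤ B ∧
      ∀ ξ : E, ‖D01 R z ξ‖ ≤
        B * (Th W (ro P z) + Tc s 2 ν z) * gau (1 - ‖z‖ ^ 2) z ξ) :
    ∃ (h : Fin n → E → ℂ) (C : ℝ), (∀ j, DifferentiableOn ℂ (h j) (ball 0 1)) ∧
      ∀ z ∈ ball (0 : E) 1, ∑ j, F j z * h j z = 1 ∧ (∀ j, h j (P z) = g j (P z)) ∧
        ∀ j, ‖h j z‖ ≤ C := by
  obtain ⟨m, hdim⟩ : ∃ m, Module.finrank ℂ E = m + 1 := ⟨Module.finrank ℂ E - 1, by omega⟩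
  have hm : 1 ≤ m := by omega
  have hnt : Nontrivial E := Module.nontrivial_of_finrank_pos (R := ℂ) (by omega)
  have hE1 : ∃ ζ : E, ‖ζ‖ = 1 := by
    obtain ⟨x, hx⟩ := exists_ne (0 : E)
    have hx0 : ‖x‖ ≠ 0 := norm_ne_zero_iff.2 hx
    refine ⟨((‖x‖⁻¹ : ℝ) : ℂ) • x, ?_⟩
    rw [norm_smul, Complex.norm_real, norm_inv, norm_norm, inv_mul_cancel₀ hx0]
  set μ : Measure E := Measure.addHaar with hμ
  have hro : ∀ z : E, ‖z‖ < 1 → 0 < ro P z := fun z hz => (ro_pos hP hz).1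
  -- the new measure and the new sequence
  obtain ⟨ν', hν', hν'0, hTT⟩ := car_half hE1 hν
  obtain ⟨W', hW'def⟩ : ∃ W' : ℕ → ℝ, W' = fun i => W i + (if i = 0 then 1 else 0) := ⟨_, rfl⟩
  have hWW' : ∀ i, W i ≤ W' i := by
    intro i
    rw [hW'def]
    show W i ≤ W i + (if i = 0 then 1 else 0)
    split_ifs <;> linarith
  have hW'0 : ∀ i, 0 ≤ W' i := fun i => (hW0 i).trans (hWW' i)
  have hW's : Summable W' := by
    rw [hW'def]
    refine hW.add ?_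
    refine summable_of_ne_finset_zero (s := {0}) ?_
    intro i hi
    rw [Finset.mem_singleton] at hi
    rw [if_neg hi]
  have hW'1 : 0 < W' 0 := by
    rw [hW'def]
    show 0 < W 0 + (if (0 : ℕ) = 0 then (1 : ℝ) else 0)
    rw [if_pos rfl]
    linarith [hW0 0]
  have hT0 : ∀ z : E, ‖z‖ < 1 → 0 ≤ Th W' (ro P z) := fun z hz => Th_nonneg hW'0 (hro z hz)
  have hS : 0 ≤ ∑' i, W' i := tsum_nonneg hW'0
  have hTle : ∀ z : E, ‖z‖ < 1 → Th W' (ro P z) ≤ ∑' i, W' i := fun z hz =>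
    Th_le hW'0 hW's (hro z hz)
  obtain ⟨C2, hC2, hTc2⟩ := Tc_le (E := E) hE1 hs 2
  obtain ⟨C1, hC1, hTc1⟩ := Tc_le (E := E) hE1 hs 1
  have hG2 : ∀ x ∈ ball (0 : E) 1, 0 ≤ Tc s 2 ν' x ∧ Tc s 2 ν' x ≤ (∑' i, W' i) + C2 := by
    intro x hx
    refine ⟨Tc_nonneg hν' 2 hx, ?_⟩
    linarith [hTc2 ν' hν' x hx]
  have hG1 : ∀ x ∈ ball (0 : E) 1, 0 ≤ Th W' (ro P x) ∧
      Th W' (ro P x) ≤ (∑' i, W' i) + C2 := by
    intro x hx
    refine ⟨hT0 x (mem_ball_zero_iff.mp hx), ?_⟩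
    linarith [hTle x (mem_ball_zero_iff.mp hx)]
  have haem1 : AEMeasurable (fun x => Th W' (ro P x)) (μ.restrict (ball 0 1)) :=
    Th_aem μ hP hW'0 hW's
  have haem2 : AEMeasurable (Tc s 2 ν') (μ.restrict (ball 0 1)) :=
    (Tc_cont hE1 hν' hs 2).aemeasurable measurableSet_ball
  obtain ⟨Φ, hΦdef⟩ : ∃ Φ : E → ℝ, Φ = fun x => Th W' (ro P x) + Tc s 2 ν' x := ⟨_, rfl⟩
  have hΦB : ∀ x ∈ ball (0 : E) 1, 0 ≤ Φ x ∧ Φ x ≤ 2 * ((∑' i, W' i) + C2) := by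
    intro x hx
    rw [hΦdef]
    constructor
    · exact add_nonneg (hG1 x hx).1 (hG2 x hx).1
    · show Th W' (ro P x) + Tc s 2 ν' x ≤ _
      linarith [(hG1 x hx).2, (hG2 x hx).2]
  have hνB : OnB (nuG μ m (m + 3) Φ) := nuG_OnB μ (by omega) hΦB
  obtain ⟨CO, hCO, hOm⟩ := pv_Om μ hm hdim
  obtain ⟨CL, hCL, hlow⟩ := pv_low μ hm hdim
  obtain ⟨CT, hCT, hOT⟩ := OmG_Tc3 μ hm hdim hs hs1
  obtain ⟨CM, hCM, hlowT⟩ := OmG_low3 μ hm hdim hs hs1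
  have hsum : ∀ y ∈ ball (0 : E) 1, Om (nuG μ m (m + 3) Φ) (m + 3) y =
      Om (nuG μ m (m + 3) (fun x => Th W' (ro P x))) (m + 3) y +
        Om (nuG μ m (m + 3) (Tc s 2 ν')) (m + 3) y := by
    intro y hy
    rw [hΦdef]
    exact OmG_add μ (by omega) haem1 haem2 hG1 hG2 hy
  obtain ⟨Λ, hΛdef⟩ : ∃ Λ : ℝ, Λ = CO + CT := ⟨_, rfl⟩
  have hΛ : 0 < Λ := by rw [hΛdef]; linarith
  have hOmΛ : ∀ y ∈ ball (0 : E) 1, Om (nuG μ m (m + 3) Φ) (m + 3) y ≤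
      Λ * (Th W' (ro P y) + Tc s 1 ν' y) := by
    intro y hy
    have hy1 : ‖y‖ < 1 := mem_ball_zero_iff.mp hy
    have h1 := hOm P hP W' hW'0 hW's _ haem1
      (fun x hx => ⟨hT0 x (mem_ball_zero_iff.mp hx), le_rfl⟩) y hy1
    have h2 := hOT ν' hν' y hy
    have h3 := hT0 y hy1
    have h4 : 0 ≤ Tc s 1 ν' y := Tc_nonneg hν' 1 hy
    rw [hsum y hy, hΛdef]
    nlinarith [mul_nonneg hCO.le h4, mul_nonneg hCT.le h3]
  have hΦlow : ∀ y ∈ ball (0 : E) 1, Φ y ≤ (CL + CM) * Om (nuG μ m (m + 3) Φ) (m + 3) y := by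
    intro y hy
    have hy1 : ‖y‖ < 1 := mem_ball_zero_iff.mp hy
    have h1 := hlow P hP W' hW'0 hW's y hy1
    have h2 := hlowT ν' hν' y hy
    have h3 : 0 ≤ Om (nuG μ m (m + 3) (fun x => Th W' (ro P x))) (m + 3) y := Om_nonneg hy1
    have h4 : 0 ≤ Om (nuG μ m (m + 3) (Tc s 2 ν')) (m + 3) y := Om_nonneg hy1
    rw [hsum y hy, hΦdef]
    show Th W' (ro P y) + Tc s 2 ν' y ≤ _
    nlinarith [mul_nonneg hCL.le h4, mul_nonneg hCM.le h3]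
  -- the compensating function
  obtain ⟨G, hGdef⟩ : ∃ G : E → ℂ, G = fun z => Complex.exp (-(Fc ν' z)) := ⟨_, rfl⟩
  have hGh : DifferentiableOn ℂ G (ball 0 1) := by
    rw [hGdef]
    exact (fc_holo hE1 hν').neg.cexp
  have hG0 : ∀ z ∈ ball (0 : E) 1, G z ≠ 0 := by
    intro z _
    rw [hGdef]
    exact Complex.exp_ne_zero _
  have hGn : ∀ z : E, ‖G z‖ = Real.exp (-(Fc ν' z).re) := by
    intro z
    rw [hGdef]
    show ‖Complex.exp (-(Fc ν' z))‖ = _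
    rw [Complex.norm_exp, Complex.neg_re]
  have hGn1 : ∀ z ∈ ball (0 : E) 1, ‖G z‖ ≤ 1 := by
    intro z hz
    rw [hGn z]
    have := (fc_re hE1 hν' hz).2.1
    exact Real.exp_le_one_iff.mpr (by linarith)
  have hGp : ∃ (a : ℕ) (c : ℝ), ∀ z ∈ ball (0 : E) 1, ‖G z‖ ≤ c * (1 / (1 - ‖z‖ ^ 2)) ^ a := by
    refine ⟨0, 1, fun z hz => ?_⟩
    rw [pow_zero, mul_one]
    exact hGn1 z hz
  -- the weight
  obtain ⟨b, hb⟩ : ∃ b : Fin 0 → E → ℝ, ∀ i, Dst 1 (b i) := ⟨fun i => i.elim0, fun i => i.elim0⟩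
  obtain ⟨J, CQ, hCQ, hVW⟩ := VW_mix hE1 (Cm2_ro hP) (ro_cont hP) hW'0 hW's hW'1 0
    one_pos hs hs1 hb hν' hν'0 hΛ
  have hPsi : ∀ z : E, Psi s b z = 0 := by
    intro z
    unfold Psi
    exact Finset.sum_of_isEmpty _
  obtain ⟨Q, hQdef⟩ : ∃ Q : E → ℝ, Q = fun z =>
      Λ * (Th W' (ro P z) + Tc s 1 ν' z + Psi s b z) * Real.exp (Fc ν' z).re := ⟨_, rfl⟩
  have hQ : VW J CQ Q := by
    rw [hQdef]
    exact hVW
  have hQe : ∀ z : E, Q z = Λ * ((Th W' (ro P z) + Tc s 1 ν' z) * Real.exp (Fc ν' z).re) := by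
    intro z
    rw [hQdef]
    show Λ * (Th W' (ro P z) + Tc s 1 ν' z + Psi s b z) * Real.exp (Fc ν' z).re = _
    rw [hPsi z]
    ring
  have hexp : ∀ z : E, Real.exp (Fc ν' z).re * Real.exp (-(Fc ν' z).re) = 1 := by
    intro z
    rw [← Real.exp_add]
    simp
  have hQG : ∀ z : E, Q z * ‖G z‖ = Λ * (Th W' (ro P z) + Tc s 1 ν' z) := by
    intro z
    rw [hQe z, hGn z]
    calc Λ * ((Th W' (ro P z) + Tc s 1 ν' z) * Real.exp (Fc ν' z).re) *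
          Real.exp (-(Fc ν' z).re)
        = Λ * (Th W' (ro P z) + Tc s 1 ν' z) *
          (Real.exp (Fc ν' z).re * Real.exp (-(Fc ν' z).re)) := by ring
      _ = _ := by rw [hexp z, mul_one]
  have hOQ : ∀ y ∈ ball (0 : E) 1, Om (nuG μ m (m + 3) Φ) (m + 3) y ≤ Q y * ‖G y‖ := by
    intro y hy
    rw [hQG y]
    exact hOmΛ y hy
  -- the integral along the geodesic
  obtain ⟨CG, hCG, hmix⟩ := GI_mix (E := E) hE1 hs (by linarith : s ≤ 1)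
  have hTcont : ContinuousOn (fun x => Th W' (ro P x)) (ball (0 : E) 1) :=
    (Th_cont hW'0 hW's).comp (f := fun x => ro P x) (ro_cont hP)
      (fun x hx => hro x (mem_ball_zero_iff.mp hx))
  have hGIQ : ∀ z : E, GI Q P z = Λ * GI (fun x => (Th W' (ro P x) + Tc s 1 ν' x) *
      Real.exp (Fc ν' x).re) P z := by
    intro z
    unfold GI
    rw [← integral_const_mul]
    refine integral_congr_ae (Filter.Eventually.of_forall fun t => ?_)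
    show Q (pt P t z) * (rr P z / (1 - t ^ 2 * rr P z ^ 2)) = _
    rw [hQe]
    ring
  have hGIT : ∀ z ∈ ball (0 : E) 1, GI (fun x => Th W' (ro P x)) P z ≤
      200 * 1 * ∑' i, W' i := fun z hz =>
    pv_GI hP zero_le_one hW'0 hW's hT0 (fun y _ => by rw [one_mul]) (mem_ball_zero_iff.mp hz)
  obtain ⟨K, hKdef⟩ : ∃ K : ℝ, K = Λ * ((∑' i, W' i) + C1) +
      Λ * (CG * (1 + 200 * 1 * ∑' i, W' i)) := ⟨_, rfl⟩
  have hK1 : 0 ≤ Λ * ((∑' i, W' i) + C1) := by positivity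
  have hK2 : 0 ≤ Λ * (CG * (1 + 200 * 1 * ∑' i, W' i)) := by positivity
  have hK0 : 0 ≤ K := by rw [hKdef]; linarith
  have hGIK : ∀ z ∈ ball (0 : E) 1, ‖G z‖ * (Q z + GI Q P z) ≤ K := by
    intro z hz
    have hz1 : ‖z‖ < 1 := mem_ball_zero_iff.mp hz
    have h1 : ‖G z‖ * Q z ≤ Λ * ((∑' i, W' i) + C1) := by
      rw [mul_comm, hQG z]
      refine mul_le_mul_of_nonneg_left ?_ hΛ.le
      linarith [hTle z hz1, hTc1 ν' hν' z hz]
    have h2 := hmix ν' hν' P hP (fun x => Th W' (ro P x)) hTcont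
      (fun x hx => hT0 x (mem_ball_zero_iff.mp hx)) z hz
    have h3 : CG * (1 + GI (fun x => Th W' (ro P x)) P z) ≤
        CG * (1 + 200 * 1 * ∑' i, W' i) :=
      mul_le_mul_of_nonneg_left (by linarith [hGIT z hz]) hCG.le
    have h4 : ‖G z‖ * GI Q P z ≤ Λ * (CG * (1 + 200 * 1 * ∑' i, W' i)) := by
      rw [hGIQ z, hGn z]
      calc Real.exp (-(Fc ν' z).re) * (Λ * GI (fun x => (Th W' (ro P x) + Tc s 1 ν' x) *
            Real.exp (Fc ν' x).re) P z)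
          = Λ * (Real.exp (-(Fc ν' z).re) * GI (fun x => (Th W' (ro P x) + Tc s 1 ν' x) *
            Real.exp (Fc ν' x).re) P z) := by ring
        _ ≤ _ := mul_le_mul_of_nonneg_left (h2.trans h3) hΛ.le
    rw [hKdef, mul_add]
    linarith
  -- the constant
  have hBL : 0 ≤ 2 * |B| * (CL + CM) := by positivity
  have hOmC : ∀ y ∈ ball (0 : E) 1, Om (nuG μ m (m + 3) Φ) (m + 3) y ≤
      K + |B| + 2 * |B| * (CL + CM) := by
    intro y hy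
    have h1 := hOmΛ y hy
    have h2 : Λ * (Th W' (ro P y) + Tc s 1 ν' y) ≤ Λ * ((∑' i, W' i) + C1) := by
      refine mul_le_mul_of_nonneg_left ?_ hΛ.le
      linarith [hTle y (mem_ball_zero_iff.mp hy), hTc1 ν' hν' y hy]
    have h3 : Λ * ((∑' i, W' i) + C1) ≤ K := by rw [hKdef]; linarith
    linarith [abs_nonneg B]
  have hRC : ∀ z ∈ ball (0 : E) 1, ‖R z‖ ≤ K + |B| + 2 * |B| * (CL + CM) := by
    intro z hz
    have h1 := (hR z hz).2.1.trans (le_abs_self B)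
    linarith
  have hRD : ∀ z ∈ ball (0 : E) 1, ∀ ξ : E,
      ‖D01 R z ξ‖ ≤ (K + |B| + 2 * |B| * (CL + CM)) *
        Om (nuG μ m (m + 3) Φ) (m + 3) z * gau (1 - ‖z‖ ^ 2) z ξ := by
    intro z hz ξ
    have hz1 : ‖z‖ < 1 := mem_ball_zero_iff.mp hz
    have hd : 0 ≤ 1 - ‖z‖ ^ 2 := by nlinarith [norm_nonneg z]
    have hg : 0 ≤ gau (1 - ‖z‖ ^ 2) z ξ := by
      rw [gau]
      positivity
    have hO : 0 ≤ Om (nuG μ m (m + 3) Φ) (m + 3) z := Om_nonneg hz1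
    refine ((hR z hz).2.2 ξ).trans (mul_le_mul_of_nonneg_right ?_ hg)
    have ht0 : 0 ≤ Th W (ro P z) := Th_nonneg hW0 (hro z hz1)
    have ht1 : Th W (ro P z) ≤ Th W' (ro P z) := S1_Th_mono hW0 hW hW's hWW' (hro z hz1)
    have ht2 : 0 ≤ Tc s 2 ν z := Tc_nonneg hν 2 hz
    have ht3 : Tc s 2 ν z ≤ 2 * Tc s 2 ν' z := hTT s hs.le 2 z hz
    have ht4 : Th W (ro P z) + Tc s 2 ν z ≤ 2 * Φ z := by
      rw [hΦdef]
      show Th W (ro P z) + Tc s 2 ν z ≤ 2 * (Th W' (ro P z) + Tc s 2 ν' z)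
      linarith [hT0 z hz1]
    calc B * (Th W (ro P z) + Tc s 2 ν z) ≤ |B| * (Th W (ro P z) + Tc s 2 ν z) :=
          mul_le_mul_of_nonneg_right (le_abs_self _) (by linarith)
      _ ≤ |B| * (2 * Φ z) := mul_le_mul_of_nonneg_left ht4 (abs_nonneg _)
      _ ≤ |B| * (2 * ((CL + CM) * Om (nuG μ m (m + 3) Φ) (m + 3) z)) :=
          mul_le_mul_of_nonneg_left (mul_le_mul_of_nonneg_left (hΦlow z hz) two_pos.le)
            (abs_nonneg _)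
      _ = 2 * |B| * (CL + CM) * Om (nuG μ m (m + 3) Φ) (m + 3) z := by ring
      _ ≤ _ := by
          refine mul_le_mul_of_nonneg_right ?_ hO
          linarith [abs_nonneg B]
  have hGIC : ∀ z ∈ ball (0 : E) 1, ‖G z‖ * (Q z + GI Q P z) ≤
      K + |B| + 2 * |B| * (CL + CM) := by
    intro z hz
    linarith [hGIK z hz, abs_nonneg B]
  obtain ⟨h, C, hh, hhz⟩ := coreV μ hm hdim hF hFB hP hg1
    (fun z hz => hg2 z hz) hνB hOmC hR2 hRC (fun z hz => (hR z hz).1) hRD hCQ hGh hG0 hGp hQ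
    hOQ hGIC
  exact ⟨h, C, hh, fun z hz => hhz z hz⟩

end Pool.Agent.MPca0fc2.SP
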