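import Mathlib
import Pool.Agent.Lib.MP_ca0fc2_an.SP.S1
import Pool.Agent.Lib.MP_ca0fc2_an.CE.H6
import Pool.Agent.Lib.MP_ca0fc2_an.PV.V4

set_option autoImplicit false
set_option linter.unusedSectionVars false

open Metric Set MeasureTheory Filter Topology
open scoped InnerProductSpace ENNReal ContDiff

/-! # Functions which are tame off a complex subspace -/

namespace Pool.Agent.MPca0fc2.SP

open Pool.Agent.Lib.MP_ca0fc2_an
open Pool.Agent.MPca0fc2.PT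
open Pool.Agent.MPca0fc2.QT
open Pool.Agent.MPca0fc2.TS
open Pool.Agent.MPca0fc2.TE
open Pool.Agent.MPca0fc2.TK
open Pool.Agent.MPca0fc2.VK
open Pool.Agent.MPca0fc2.PV
open Pool.Agent.MPca0fc2.CE

variable {E : Type*} [NormedAddCommGroup E] [InnerProductSpace ℂ E] [FiniteDimensional ℂ E]
  [MeasurableSpace E] [BorelSpace E]

/-- Corona data with `N` functions have bounded solutions on the range of `P`. -/
def SlN (N : ℕ) (P : E →L[ℂ] E) : Prop :=
  ∀ F : Fin N → E → ℂ, (∀ j, DifferentiableOn ℂ (F j) (ball 0 1)) →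
    (∃ B : ℝ, ∀ j, ∀ z ∈ ball (0 : E) 1, ‖F j z‖ ≤ B) →
    (∃ δ > 0, ∀ z ∈ ball (0 : E) 1, δ ≤ ∑ j, ‖F j z‖ ^ 2) →
    ∃ (g : Fin N → E → ℂ) (A : ℝ), (∀ j, DifferentiableOn ℂ (fun z => g j (P z)) (ball 0 1)) ∧
      ∀ z ∈ ball (0 : E) 1, ∑ j, F j (P z) * g j (P z) = 1 ∧ ∀ j, ‖g j (P z)‖ ≤ A

theorem car_zero : Car (0 : Measure E) :=
  ⟨by simp, fun ζ _ r _ => by simp⟩

theorem pt_le {P : E →L[ℂ] E} (h : Prj P) {r : ℝ} (hr0 : 0 ≤ r) (hr : r ≤ 1) (z : E) :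
    ‖pt P r z‖ ≤ ‖z‖ := by
  have h1 := Dp_eq h r z
  have h2 := pyth h z
  unfold Dp at h1
  have h3 : r ^ 2 * ‖z - P z‖ ^ 2 ≤ 1 * ‖z - P z‖ ^ 2 :=
    mul_le_mul_of_nonneg_right (by nlinarith) (by positivity)
  refine le_of_sq_le_sq ?_ (norm_nonneg _)
  linarith

theorem pt_diff (P : E →L[ℂ] E) (r : ℝ) : Differentiable ℂ (fun z : E => pt P r z) := by
  have h : (fun z : E => pt P r z) = fun z => P z + (r : ℂ) • (z - P z) := rfl
  rw [h]
  exact P.differentiable.add ((differentiable_id.sub P.differentiable).const_smul (r : ℂ))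

end Pool.Agent.MPca0fc2.SP
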