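import Mathlib
import Pool.Agent.Lib.MP_ca0fc2_an.SP.S3
import Pool.Agent.Lib.MP_ca0fc2_an.CE.H12

set_option autoImplicit false
set_option linter.unusedSectionVars false

open Metric Set MeasureTheory Filter Topology
open scoped InnerProductSpace ENNReal ContDiff

/-! # One arbitrary function and functions which are tame off a complex subspace -/

namespace Pool.Agent.MPca0fc2.SP

open Pool.Agent.Lib.MP_ca0fc2_an
open Pool.Agent.MPca0fc2.PT
open Pool.Agent.MPca0fc2.QT
open Pool.Agent.MPca0fc2.TS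
open Pool.Agent.MPca0fc2.TE
open Pool.Agent.MPca0fc2.TK
open Pool.Agent.MPca0fc2.VK
open Pool.Agent.MPca0fc2.PV
open Pool.Agent.MPca0fc2.CE

variable {E : Type*} [NormedAddCommGroup E] [InnerProductSpace ℂ E] [FiniteDimensional ℂ E]
  [MeasurableSpace E] [BorelSpace E]

theorem exists_unit (hE : 2 ≤ Module.finrank ℂ E) : ∃ ζ : E, ‖ζ‖ = 1 := by
  have hnt : Nontrivial E := Module.nontrivial_of_finrank_pos (R := ℂ) (by omega)
  obtain ⟨x, hx⟩ := exists_ne (0 : E)
  have hx0 : ‖x‖ ≠ 0 := norm_ne_zero_iff.2 hx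
  refine ⟨((‖x‖⁻¹ : ℝ) : ℂ) • x, ?_⟩
  rw [norm_smul, Complex.norm_real, norm_inv, norm_norm, inv_mul_cancel₀ hx0]

end Pool.Agent.MPca0fc2.SP
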