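import Mathlib
import Pool.Agent.Lib.MP_ca0fc2_an.SP.S4
import Pool.Agent.Lib.MP_ca0fc2_an.VK.E7

set_option autoImplicit false
set_option linter.unusedSectionVars false

open Metric Set MeasureTheory Filter Topology
open scoped InnerProductSpace ENNReal ContDiff

/-! # The closed algebra generated by tame functions and the functions of one function -/

namespace Pool.Agent.MPca0fc2.SP

open Pool.Agent.Lib.MP_ca0fc2_an
open Pool.Agent.MPca0fc2.PT
open Pool.Agent.MPca0fc2.QT
open Pool.Agent.MPca0fc2.TS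
open Pool.Agent.MPca0fc2.TE
open Pool.Agent.MPca0fc2.TK
open Pool.Agent.MPca0fc2.VK
open Pool.Agent.MPca0fc2.PV
open Pool.Agent.MPca0fc2.CE

variable {n : ℕ}

/-- Solutions on the range of a projection from Q1. -/
theorem sl_of_q1 (hn : 2 ≤ n) {N : ℕ} (V : Submodule ℂ (EuclideanSpace ℂ (Fin n)))
    (hQ : 2 ≤ Module.finrank ℂ V → Pool.Agent.MPca0fc2AD.Q1On N
      (ball (0 : EuclideanSpace ℂ (Fin (Module.finrank ℂ V))) 1)) :
    SlN N V.starProjection := by
  rintro F hF ⟨B, hB⟩ ⟨δ, hδ, hFδ⟩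
  obtain ⟨lam, hlam⟩ : ∃ lam : ℝ, lam = √N * |B| + 1 := ⟨_, rfl⟩
  have hlam0 : 0 < lam := by rw [hlam]; positivity
  have hlam1 : 1 ≤ lam := by
    have : 0 ≤ √N * |B| := by positivity
    rw [hlam]
    linarith
  have hnorm : ∀ j z, ‖(lam : ℂ)⁻¹ * F j z‖ ^ 2 = ‖F j z‖ ^ 2 / lam ^ 2 := by
    intro j z
    rw [norm_mul, norm_inv, Complex.norm_real, Real.norm_of_nonneg hlam0.le]
    field_simp
  obtain ⟨A, g, h1, h2⟩ := slice_g hn (f := fun j z => (lam : ℂ)⁻¹ * F j z) (δ := δ / lam ^ 2)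
    (fun j => (hF j).const_mul _) (by positivity) (by
      intro z hz
      simp only [hnorm]
      rw [← Finset.sum_div]
      constructor
      · exact div_le_div_of_nonneg_right (hFδ z hz) (by positivity)
      · rw [div_le_one (by positivity)]
        calc ∑ j, ‖F j z‖ ^ 2 ≤ ∑ _j : Fin N, |B| ^ 2 := by
              refine Finset.sum_le_sum fun j _ => ?_
              exact pow_le_pow_left₀ (norm_nonneg _) ((hB j z hz).trans (le_abs_self B)) 2
          _ = N * |B| ^ 2 := by simp
          _ = (√N * |B|) ^ 2 := by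
              rw [mul_pow, Real.sq_sqrt (Nat.cast_nonneg N)]
          _ ≤ lam ^ 2 := by
              refine pow_le_pow_left₀ (by positivity) ?_ 2
              rw [hlam]
              linarith) V hQ
  refine ⟨fun j z => (lam : ℂ)⁻¹ * g j z, |A|, fun j => (h1 j).const_mul _, fun z hz => ?_⟩
  obtain ⟨h3, h4⟩ := h2 z hz
  constructor
  · rw [← h3]
    refine Finset.sum_congr rfl fun j _ => ?_
    ring
  · intro j
    have h5 : ‖g j (V.starProjection z)‖ ^ 2 ≤ A ^ 2 :=
      (Finset.single_le_sum (f := fun j => ‖g j (V.starProjection z)‖ ^ 2)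
        (fun i _ => sq_nonneg _) (Finset.mem_univ j)).trans h4
    have h6 : ‖g j (V.starProjection z)‖ ≤ |A| := by
      rw [← sq_abs A] at h5
      exact (sq_le_sq₀ (norm_nonneg _) (abs_nonneg _)).1 h5
    rw [norm_mul, norm_inv, Complex.norm_real, Real.norm_of_nonneg hlam0.le]
    calc lam⁻¹ * ‖g j (V.starProjection z)‖ ≤ 1 * |A| :=
          mul_le_mul (inv_le_one_of_one_le₀ hlam1) h6 (norm_nonneg _) zero_le_one
      _ = |A| := one_mul _

end Pool.Agent.MPca0fc2.SP
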