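import Mathlib
import Pool.Agent.Lib.MP_ca0fc2_an.SP.S1

set_option autoImplicit false
set_option linter.unusedSectionVars false

open Metric Set MeasureTheory Filter Topology
open scoped InnerProductSpace ENNReal ContDiff

/-! # The cell theorem with two levels, relative to a complex subspace -/

namespace Pool.Agent.MPca0fc2.SP

open Pool.Agent.MPca0fc2.PT
open Pool.Agent.MPca0fc2.QT
open Pool.Agent.MPca0fc2.TS
open Pool.Agent.MPca0fc2.TE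
open Pool.Agent.MPca0fc2.TK
open Pool.Agent.MPca0fc2.VK
open Pool.Agent.MPca0fc2.PV
open Pool.Agent.MPca0fc2.CE

variable {E : Type*} [NormedAddCommGroup E] [InnerProductSpace ℂ E] [FiniteDimensional ℂ E]
  [MeasurableSpace E] [BorelSpace E]

/-- The cell theorem with two levels: the functions `b` are tame only where the functions `u` are small. -/
theorem cellP2 (hE : 2 ≤ Module.finrank ℂ E) {P : E →L[ℂ] E} (hP : Prj P) {N l q : ℕ}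
    {f : Fin N → E → ℂ} {b : Fin l → E → ℂ} {u : Fin q → E → ℂ}
    (hf : ∀ j, DifferentiableOn ℂ (f j) (ball 0 1)) (hb : ∀ i, DifferentiableOn ℂ (b i) (ball 0 1))
    (hu : ∀ i, DifferentiableOn ℂ (u i) (ball 0 1)) {B : ℝ}
    (hfB : ∀ j, ∀ z ∈ ball (0 : E) 1, ‖f j z‖ ≤ B) (hbB : ∀ i, ∀ z ∈ ball (0 : E) 1, ‖b i z‖ ≤ B)
    (huB : ∀ i, ∀ z ∈ ball (0 : E) 1, ‖u i z‖ ≤ B) {r : ℝ} (hr : 0 < r) {k : Fin N → E → ℂ}
    (hk : ∀ j, DifferentiableOn ℂ (k j)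
      {z | z ∈ ball (0 : E) 1 ∧ ∑ i, ‖u i z‖ ^ 2 < r ^ 2 ∧ ∑ i, ‖b i z‖ ^ 2 < r ^ 2})
    (hkz : ∀ z ∈ ball (0 : E) 1, ∑ i, ‖u i z‖ ^ 2 < r ^ 2 → ∑ i, ‖b i z‖ ^ 2 < r ^ 2 →
      ∑ j, f j z * k j z = 1 ∧ ∀ j, ‖k j z‖ ≤ B)
    {W : ℕ → ℝ} (hW : Summable W) {s L : ℝ} (hs : 0 < s) (hs1 : s ≤ 1 / 8) (hL : 0 < L)
    {ν : Measure E} (hν : Car ν)
    (huW : ∀ (n : ℕ) (z : E), z ∈ ball (0 : E) 1 → 2 ^ n * ro P z ≤ 1 →
      ∀ i, Real.sqrt (IG2 (u i) z) ≤ W n + L * Tc s 2 ν z)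
    (hbW : ∀ (n : ℕ) (z : E), z ∈ ball (0 : E) 1 → ∑ i, ‖u i z‖ ^ 2 < r ^ 2 →
      2 ^ n * ro P z ≤ 1 → ∀ i, Real.sqrt (IG2 (b i) z) ≤ W n + L * Tc s 2 ν z)
    {g : Fin (N + l + q) → E → ℂ} {A : ℝ}
    (hg1 : ∀ j, DifferentiableOn ℂ (fun z => g j (P z)) (ball 0 1))
    (hg2 : ∀ z ∈ ball (0 : E) 1, ∑ j, (Fin.append (Fin.append f b) u) j (P z) * g j (P z) = 1 ∧
      ∀ j, ‖g j (P z)‖ ≤ A) :
    ∃ (h : Fin N → E → ℂ) (h' : Fin l → E → ℂ) (h'' : Fin q → E → ℂ) (C : ℝ),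
      (∀ j, DifferentiableOn ℂ (h j) (ball 0 1)) ∧ (∀ i, DifferentiableOn ℂ (h' i) (ball 0 1)) ∧
      (∀ i, DifferentiableOn ℂ (h'' i) (ball 0 1)) ∧ ∀ z ∈ ball (0 : E) 1,
        ∑ j, f j z * h j z + ∑ i, b i z * h' i z + ∑ i, u i z * h'' i z = 1 ∧
          (∀ j, ‖h j z‖ ≤ C) ∧ (∀ i, ‖h' i z‖ ≤ C) ∧ ∀ i, ‖h'' i z‖ ≤ C := by
  classical
  have hW0 : ∀ i, 0 ≤ (fun i => |W i|) i := fun i => abs_nonneg _
  have hWs : Summable fun i => |W i| := hW.abs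
  obtain ⟨Φ, hΦ⟩ : ∃ Φ : E → ℝ, Φ = fun z => Th (fun i => |W i|) (ro P z) + Tc s 2 ν z := ⟨_, rfl⟩
  have hro : ∀ z ∈ ball (0 : E) 1, 0 < ro P z ∧ ro P z ≤ 1 := fun z hz =>
    ro_pos hP (mem_ball_zero_iff.mp hz)
  have hΦ0 : ∀ z ∈ ball (0 : E) 1, 0 ≤ Φ z := fun z hz => by
    rw [hΦ]
    exact add_nonneg (Th_nonneg hW0 (hro z hz).1) (Tc_nonneg hν 2 hz)
  have hgau : ∀ z ∈ ball (0 : E) 1, ∀ ξ : E, 0 ≤ gau (1 - ‖z‖ ^ 2) z ξ := fun z hz ξ => by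
    have hz1 : ‖z‖ < 1 := mem_ball_zero_iff.mp hz
    have hd : 0 ≤ 1 - ‖z‖ ^ 2 := by nlinarith [norm_nonneg z]
    rw [gau]
    positivity
  have hgr : ∀ (v : E → ℂ) (z : E), z ∈ ball (0 : E) 1 →
      (∀ n : ℕ, 2 ^ n * ro P z ≤ 1 → Real.sqrt (IG2 v z) ≤ W n + L * Tc s 2 ν z) → ∀ ξ : E,
      ‖fderiv ℂ v z ξ‖ ≤ (3 * (2 + L)) * Φ z * gau (1 - ‖z‖ ^ 2) z ξ := by
    intro v z hz hv ξ
    obtain ⟨n, hn, hWn⟩ := Th_ge hW0 hWs (hro z hz).1 (hro z hz).2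
    have h1 := grad_le (u := v) (mem_ball_zero_iff.mp hz) ξ
    have h2 : Real.sqrt (IG2 v z) ≤ (2 + L) * Φ z := by
      rw [hΦ]
      have e1 := hv n hn
      have e2 := le_abs_self (W n)
      have e3 : 0 ≤ Th (fun i => |W i|) (ro P z) := Th_nonneg hW0 (hro z hz).1
      have e4 : 0 ≤ Tc s 2 ν z := Tc_nonneg hν 2 hz
      have e5 : |W n| ≤ 2 * Th (fun i => |W i|) (ro P z) := hWn
      have e6 : 0 ≤ L * Th (fun i => |W i|) (ro P z) := mul_nonneg hL.le e3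
      change Real.sqrt (IG2 v z) ≤ (2 + L) * (Th (fun i => |W i|) (ro P z) + Tc s 2 ν z)
      nlinarith
    have h3 := hgau z hz ξ
    calc ‖fderiv ℂ v z ξ‖ ≤ 3 * Real.sqrt (IG2 v z) * gau (1 - ‖z‖ ^ 2) z ξ := h1
      _ ≤ 3 * ((2 + L) * Φ z) * gau (1 - ‖z‖ ^ 2) z ξ := by gcongr
      _ = (3 * (2 + L)) * Φ z * gau (1 - ‖z‖ ^ 2) z ξ := by ring
  -- the open sets
  have hcu : ContinuousOn (fun z => ∑ i, ‖u i z‖ ^ 2) (ball (0 : E) 1) :=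
    continuousOn_finsetSum _ fun i _ => ((hu i).continuousOn.norm.pow 2)
  have hcb : ContinuousOn (fun z => ∑ i, ‖b i z‖ ^ 2) (ball (0 : E) 1) :=
    continuousOn_finsetSum _ fun i _ => ((hb i).continuousOn.norm.pow 2)
  obtain ⟨Ω, hΩ⟩ : ∃ Ω : Set E, Ω = {z | z ∈ ball (0 : E) 1 ∧ ∑ i, ‖u i z‖ ^ 2 < r ^ 2} := ⟨_, rfl⟩
  have hΩo : IsOpen Ω := by
    rw [hΩ]
    exact hcu.isOpen_inter_preimage isOpen_ball (isOpen_Iio (a := r ^ 2))
  have hΩB : Ω ⊆ ball (0 : E) 1 := by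
    rw [hΩ]
    exact fun z hz => hz.1
  have hΩu : ∀ z ∈ Ω, ∑ i, ‖u i z‖ ^ 2 < r ^ 2 := by
    rw [hΩ]
    exact fun z hz => hz.2
  have hUe : {z | z ∈ Ω ∧ ∑ i, ‖b i z‖ ^ 2 < r ^ 2} =
      {z | z ∈ ball (0 : E) 1 ∧ ∑ i, ‖u i z‖ ^ 2 < r ^ 2 ∧ ∑ i, ‖b i z‖ ^ 2 < r ^ 2} := by
    rw [hΩ]
    ext z
    exact and_assoc
  have hUo : IsOpen {z | z ∈ ball (0 : E) 1 ∧ ∑ i, ‖u i z‖ ^ 2 < r ^ 2 ∧
      ∑ i, ‖b i z‖ ^ 2 < r ^ 2} := by
    rw [← hUe]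
    exact (hcb.mono hΩB).isOpen_inter_preimage hΩo (isOpen_Iio (a := r ^ 2))
  have hB6 : 0 ≤ |B| + 3 * (2 + L) := by positivity
  have hBB : B ≤ |B| + 3 * (2 + L) := by linarith [le_abs_self B]
  have h66 : 3 * (2 + L) ≤ |B| + 3 * (2 + L) := by linarith [abs_nonneg B]
  -- first level
  obtain ⟨R₁, C₁, hR₁c, hR₁⟩ := glue_R hΩo hΩB (f := f) (b := b)
    (fun i => (hb i).mono hΩB) (B := |B| + 3 * (2 + L)) (fun i z hz => (hbB i z (hΩB hz)).trans hBB) hr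
    (Φ := Φ) (fun z hz => hΦ0 z (hΩB hz)) (k := fun z j => k j z)
    (by
      rw [hUe]
      exact contDiffOn_pi.2 fun j => age_hol_c2 hUo (hk j))
    (fun z hz hzb => by
      have h1 := hkz z (hΩB hz) (hΩu z hz) hzb
      refine ⟨h1.1, ?_, ?_⟩
      · rw [pi_norm_le_iff_of_nonneg hB6]
        exact fun j => (h1.2 j).trans hBB
      · intro ξ
        have h2 : DifferentiableAt ℂ (fun z => (fun j => k j z : Fin N → ℂ)) z := by
          rw [differentiableAt_pi]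
          exact fun j => (hk j).differentiableAt (hUo.mem_nhds ⟨hΩB hz, hΩu z hz, hzb⟩)
        rw [D01_holo h2, zero_apply, norm_zero]
        exact mul_nonneg (mul_nonneg hB6 (hΦ0 z (hΩB hz))) (hgau z (hΩB hz) ξ))
    (fun z hz i ξ => by
      refine (hgr (b i) z (hΩB hz) (fun n hn => hbW n z (hΩB hz) (hΩu z hz) hn i) ξ).trans ?_
      exact mul_le_mul_of_nonneg_right (mul_le_mul_of_nonneg_right h66 (hΦ0 z (hΩB hz)))
        (hgau z (hΩB hz) ξ))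
  -- second level
  have hB7 : 0 ≤ |C₁| + (|B| + 3 * (2 + L)) := by positivity
  have hC₁B : C₁ ≤ |C₁| + (|B| + 3 * (2 + L)) := by linarith [le_abs_self C₁]
  have hB67 : |B| + 3 * (2 + L) ≤ |C₁| + (|B| + 3 * (2 + L)) := by linarith [abs_nonneg C₁]
  obtain ⟨R, C₂, hRc, hR⟩ := glue_R isOpen_ball (subset_refl (ball (0 : E) 1))
    (f := Fin.append f b) (b := u) hu (B := |C₁| + (|B| + 3 * (2 + L)))
    (fun i z hz => (huB i z hz).trans (hBB.trans hB67)) hr (Φ := Φ) hΦ0 (k := R₁)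
    (by
      rw [← hΩ]
      exact hR₁c)
    (fun z hz hzu => by
      have hz' : z ∈ Ω := by
        rw [hΩ]
        exact ⟨hz, hzu⟩
      refine ⟨(hR₁ z hz').1, (hR₁ z hz').2.1.trans hC₁B, fun ξ => ((hR₁ z hz').2.2 ξ).trans ?_⟩
      exact mul_le_mul_of_nonneg_right (mul_le_mul_of_nonneg_right hC₁B (hΦ0 z hz))
        (hgau z hz ξ))
    (fun z hz i ξ => by
      refine (hgr (u i) z hz (fun n hn => huW n z hz hn i) ξ).trans ?_
      exact mul_le_mul_of_nonneg_right (mul_le_mul_of_nonneg_right (h66.trans hB67) (hΦ0 z hz))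
        (hgau z hz ξ))
  have hF : ∀ j, DifferentiableOn ℂ (Fin.append (Fin.append f b) u j) (ball 0 1) := by
    intro j
    refine Fin.addCases (fun i => ?_) (fun i => ?_) j
    · rw [Fin.append_left]
      refine Fin.addCases (fun i => ?_) (fun i => ?_) i
      · rw [Fin.append_left]; exact hf i
      · rw [Fin.append_right]; exact hb i
    · rw [Fin.append_right]; exact hu i
  have hB8 : B ≤ |B| + |C₂| := by linarith [le_abs_self B, abs_nonneg C₂]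
  have hFB : ∀ j, ∀ z ∈ ball (0 : E) 1, ‖Fin.append (Fin.append f b) u j z‖ ≤ |B| + |C₂| := by
    intro j
    refine Fin.addCases (fun i => ?_) (fun i => ?_) j
    · rw [Fin.append_left]
      refine Fin.addCases (fun i => ?_) (fun i => ?_) i
      · rw [Fin.append_left]; exact fun z hz => (hfB i z hz).trans hB8
      · rw [Fin.append_right]; exact fun z hz => (hbB i z hz).trans hB8
    · rw [Fin.append_right]; exact fun z hz => (huB i z hz).trans hB8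
  have hC₂B : C₂ ≤ |B| + |C₂| := by linarith [abs_nonneg B, le_abs_self C₂]
  obtain ⟨h, C, hh, hhz⟩ := smoothP hE hP hF hFB hg1 hg2 hW0 hWs hs hs1 hν hRc (fun z hz =>
    ⟨(hR z hz).1, (hR z hz).2.1.trans hC₂B, fun ξ => ((hR z hz).2.2 ξ).trans (by
      have h1 := mul_le_mul_of_nonneg_right (mul_le_mul_of_nonneg_right hC₂B (hΦ0 z hz))
        (hgau z hz ξ)
      have h2 : Φ z = Th (fun i => |W i|) (ro P z) + Tc s 2 ν z := by rw [hΦ]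
      rw [h2] at h1 ⊢
      exact h1)⟩)
  refine ⟨fun j => h (Fin.castAdd q (Fin.castAdd l j)), fun i => h (Fin.castAdd q (Fin.natAdd N i)),
    fun i => h (Fin.natAdd (N + l) i), C, fun j => hh _, fun i => hh _, fun i => hh _, ?_⟩
  intro z hz
  obtain ⟨h1, -, h3⟩ := hhz z hz
  refine ⟨?_, fun j => h3 _, fun i => h3 _, fun i => h3 _⟩
  rw [Fin.sum_univ_add, Fin.sum_univ_add] at h1
  simp only [Fin.append_left, Fin.append_right] at h1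
  exact h1

end Pool.Agent.MPca0fc2.SP
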