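import Mathlib
import Pool.Agent.Lib.MP_ca0fc2_an.SP.S6
import Pool.Agent.Lib.MP_ca0fc2_an.SP.S7

set_option autoImplicit false
set_option linter.unusedSectionVars false

open Metric Set MeasureTheory Filter Topology
open scoped InnerProductSpace ENNReal ContDiff

/-! # Functions which are tame near a boundary point off a complex subspace -/

namespace Pool.Agent.MPca0fc2.SP

open Pool.Agent.Lib.MP_ca0fc2_an
open Pool.Agent.MPca0fc2.PT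
open Pool.Agent.MPca0fc2.QT
open Pool.Agent.MPca0fc2.TS
open Pool.Agent.MPca0fc2.TE
open Pool.Agent.MPca0fc2.TK
open Pool.Agent.MPca0fc2.VK
open Pool.Agent.MPca0fc2.PV
open Pool.Agent.MPca0fc2.CE

variable {E : Type*} [NormedAddCommGroup E] [InnerProductSpace ℂ E] [FiniteDimensional ℂ E]
  [MeasurableSpace E] [BorelSpace E]

/-- Corona data with `N` functions and the function `1 - ⟪p, z⟫` have bounded solutions on the range of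
`P`. -/
def SlM (N : ℕ) (P : E →L[ℂ] E) (p : E) : Prop :=
  ∀ F : Fin N → E → ℂ, (∀ j, DifferentiableOn ℂ (F j) (ball 0 1)) →
    (∃ B : ℝ, ∀ j, ∀ z ∈ ball (0 : E) 1, ‖F j z‖ ≤ B) →
    (∃ δ > 0, ∀ z ∈ ball (0 : E) 1, δ ≤ ∑ j, ‖F j z‖ ^ 2 + ‖1 - ⟪p, z⟫_ℂ‖ ^ 2) →
    ∃ (g : Fin N → E → ℂ) (g' : E → ℂ) (A : ℝ),
      (∀ j, DifferentiableOn ℂ (fun z => g j (P z)) (ball 0 1)) ∧
      DifferentiableOn ℂ (fun z => g' (P z)) (ball 0 1) ∧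
      ∀ z ∈ ball (0 : E) 1, ∑ j, F j (P z) * g j (P z) + (1 - ⟪p, P z⟫_ℂ) * g' (P z) = 1 ∧
        (∀ j, ‖g j (P z)‖ ≤ A) ∧ ‖g' (P z)‖ ≤ A

theorem HH_le_ro {P : E →L[ℂ] E} (hP : Prj P) {b z : E} (hb : b ∈ range P) (hb1 : ‖b‖ < 1)
    (hz : ‖z‖ < 1) : PT.HH b z ≤ ro P z := by
  obtain ⟨x, rfl⟩ := hb
  have hpy := pyth hP z
  have hPz : ‖P z‖ < 1 := by
    have h1 : ‖P z‖ ^ 2 ≤ ‖z‖ ^ 2 := by nlinarith [sq_nonneg ‖z - P z‖]
    exact (le_of_sq_le_sq h1 (norm_nonneg _)).trans_lt hz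
  have h1 : PT.HH (P x) (P z) ≤ 1 := HH_le_one hb1 hPz
  have h2 : ⟪P x, z⟫_ℂ = ⟪P x, P z⟫_ℂ := by
    rw [← hP.sa, hP.idem]
  have hd : 0 < 1 - ‖z‖ ^ 2 := by nlinarith [norm_nonneg z]
  have hs : 0 < 1 - ‖P z‖ ^ 2 := by nlinarith [norm_nonneg (P z)]
  have h3 : PT.HH (P x) z = PT.HH (P x) (P z) * ro P z := by
    unfold PT.HH ro
    rw [h2]
    field_simp
  rw [h3]
  exact mul_le_of_le_one_left (div_nonneg hd.le hs.le) h1

theorem le_ro {P : E →L[ℂ] E} (hP : Prj P) {z : E} (hz : ‖z‖ < 1) : 1 - ‖z‖ ^ 2 ≤ ro P z := by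
  have hpy := pyth hP z
  have hd : 0 < 1 - ‖z‖ ^ 2 := by nlinarith [norm_nonneg z]
  have hs : 0 < 1 - ‖P z‖ ^ 2 := by nlinarith [norm_nonneg (z - P z)]
  unfold ro
  rw [le_div_iff₀ hs]
  nlinarith [sq_nonneg ‖P z‖]

theorem affine_sum {P : E →L[ℂ] E} (hP : Prj P) (p : E) : ∃ W : ℕ → ℝ, (∀ i, 0 ≤ W i) ∧
    Summable W ∧ ∀ (n : ℕ) (z : E), z ∈ ball (0 : E) 1 → 2 ^ n * ro P z ≤ 1 →
      Real.sqrt (IG2 (fun z => 1 - ⟪p, z⟫_ℂ) z) ≤ W n := by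
  refine ⟨fun n => ‖p‖ * (√(1 / 2)) ^ n, fun n => by positivity, ?_, ?_⟩
  · refine Summable.mul_left _ (summable_geometric_of_lt_one (Real.sqrt_nonneg _) ?_)
    rw [Real.sqrt_lt' one_pos]
    norm_num
  · intro n z hz hn
    have hz1 : ‖z‖ < 1 := mem_ball_zero_iff.1 hz
    have hro : ro P z ≤ (1 / 2) ^ n := by
      rw [one_div, inv_pow, ← one_div, le_div_iff₀ (by positivity), mul_comm]
      exact hn
    have h1 : HasFDerivAt (fun z : E => 1 - ⟪p, z⟫_ℂ) (-(innerSL ℂ p)) z := by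
      have h2 := (hasFDerivAt_const (𝕜 := ℂ) (1 : ℂ) z).sub ((innerSL ℂ p).hasFDerivAt (x := z))
      rw [zero_sub] at h2
      exact h2
    have h3 : IG2 (fun z => 1 - ⟪p, z⟫_ℂ) z ≤ (1 - ‖z‖ ^ 2) * ‖p‖ ^ 2 := by
      unfold IG2
      rw [h1.fderiv]
      have h4 : ‖(-(innerSL ℂ p) : E →L[ℂ] ℂ)‖ = ‖p‖ := by rw [norm_neg, innerSL_apply_norm]
      rw [h4]
      have hd : 0 ≤ 1 - ‖z‖ ^ 2 := by nlinarith [norm_nonneg z]
      refine mul_le_mul_of_nonneg_left ?_ hd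
      nlinarith [sq_nonneg ‖(-(innerSL ℂ p) : E →L[ℂ] ℂ) z‖]
    have h5 : IG2 (fun z => 1 - ⟪p, z⟫_ℂ) z ≤ (‖p‖ * (√(1 / 2)) ^ n) ^ 2 := by
      rw [mul_pow, ← pow_mul, mul_comm n 2, pow_mul, Real.sq_sqrt (by norm_num)]
      calc _ ≤ (1 - ‖z‖ ^ 2) * ‖p‖ ^ 2 := h3
        _ ≤ (1 / 2) ^ n * ‖p‖ ^ 2 :=
            mul_le_mul_of_nonneg_right ((le_ro hP hz1).trans hro) (sq_nonneg _)
        _ = _ := mul_comm _ _
    exact Real.sqrt_le_iff.2 ⟨by positivity, h5⟩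

private theorem S8_dist {p z : E} (hp : ‖p‖ = 1) (hz : ‖z‖ < 1) {s : ℝ} (hs : 0 < s)
    (h : ‖1 - ⟪p, z⟫_ℂ‖ < s ^ 2 / 2) : ‖z - p‖ < s := by
  have h1 : ‖z - p‖ ^ 2 = ‖z‖ ^ 2 - 2 * RCLike.re ⟪z, p⟫_ℂ + ‖p‖ ^ 2 := norm_sub_sq z p
  have h2 : RCLike.re ⟪z, p⟫_ℂ = (⟪p, z⟫_ℂ).re := by
    rw [← inner_conj_symm z p]; exact Complex.conj_re _
  have h3 : (1 - ⟪p, z⟫_ℂ).re ≤ ‖1 - ⟪p, z⟫_ℂ‖ := Complex.re_le_norm _
  rw [Complex.sub_re, Complex.one_re] at h3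
  rw [h2, hp] at h1
  have h4 : ‖z‖ ^ 2 < 1 := by
    have := norm_nonneg z
    nlinarith
  have h5 : ‖z - p‖ ^ 2 < s ^ 2 := by rw [h1]; nlinarith
  exact lt_of_pow_lt_pow_left₀ 2 hs.le h5

/-- The cell theorem near the boundary point `p`. -/
theorem cellL (hE : 2 ≤ Module.finrank ℂ E) {P : E →L[ℂ] E} (hP : Prj P) {p : E} (hp : ‖p‖ = 1)
    {N l : ℕ} {f k : Fin N → E → ℂ} {b : Fin l → E → ℂ} {B : ℝ}
    (hf : ∀ j, DifferentiableOn ℂ (f j) (ball 0 1)) (hfB : ∀ j, ∀ z ∈ ball (0 : E) 1, ‖f j z‖ ≤ B)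
    (hb : ∀ i, MixN 1 (range P) p (b i)) {r : ℝ} (hr : 0 < r)
    (hk : ∀ j, DifferentiableOn ℂ (k j) {z | z ∈ ball (0 : E) 1 ∧ ‖z - p‖ < r ∧ ∀ i, ‖b i z‖ < r})
    (hkz : ∀ z ∈ ball (0 : E) 1, ‖z - p‖ < r → (∀ i, ‖b i z‖ < r) →
      ∑ j, f j z * k j z = 1 ∧ ∀ j, ‖k j z‖ ≤ B)
    (hg : ∃ (g : Fin N → E → ℂ) (g₁ : Fin l → E → ℂ) (g' : E → ℂ) (A : ℝ),
      (∀ j, DifferentiableOn ℂ (fun z => g j (P z)) (ball 0 1)) ∧
      (∀ j, DifferentiableOn ℂ (fun z => g₁ j (P z)) (ball 0 1)) ∧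
      DifferentiableOn ℂ (fun z => g' (P z)) (ball 0 1) ∧
      ∀ z ∈ ball (0 : E) 1, ∑ j, f j (P z) * g j (P z) + ∑ j, b j (P z) * g₁ j (P z) +
          (1 - ⟪p, P z⟫_ℂ) * g' (P z) = 1 ∧
        (∀ j, ‖g j (P z)‖ ≤ A) ∧ (∀ j, ‖g₁ j (P z)‖ ≤ A) ∧ ‖g' (P z)‖ ≤ A) :
    ∃ (h : Fin N → E → ℂ) (h' : Fin l → E → ℂ) (h₀ : E → ℂ) (C : ℝ),
      (∀ j, DifferentiableOn ℂ (h j) (ball 0 1)) ∧ (∀ i, DifferentiableOn ℂ (h' i) (ball 0 1)) ∧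
      DifferentiableOn ℂ h₀ (ball 0 1) ∧
      ∀ z ∈ ball (0 : E) 1,
        ∑ j, f j z * h j z + ∑ i, b i z * h' i z + (1 - ⟪p, z⟫_ℂ) * h₀ z = 1 ∧
          (∀ j, ‖h j z‖ ≤ C) ∧ (∀ i, ‖h' i z‖ ≤ C) ∧ ‖h₀ z‖ ≤ C := by
  classical
  have hE1 := exists_unit hE
  obtain ⟨t, Wb, s, L, ν, ht0, hWb0, hWbs, hs, hs1, hL, hν, hWb⟩ := Mix_common hE1 hb
  obtain ⟨Wu, hWu0, hWus, hWu⟩ := affine_sum hP p
  choose hbd hbC hbT using hb
  choose C hC using hbC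
  obtain ⟨g, g₁, g', A, hg1, hg2, hg3, hg4⟩ := hg
  obtain ⟨B', hB'⟩ : ∃ B' : ℝ, B' = |B| + ∑ i, |C i| + 2 := ⟨_, rfl⟩
  have hCs : 0 ≤ ∑ i, |C i| := Finset.sum_nonneg fun i _ => abs_nonneg _
  have hBB : B ≤ B' := by rw [hB']; linarith [le_abs_self B]
  have hCB : ∀ i, C i ≤ B' := fun i => by
    have h1 : |C i| ≤ ∑ i, |C i| :=
      Finset.single_le_sum (f := fun i => |C i|) (fun _ _ => abs_nonneg _) (Finset.mem_univ i)
    rw [hB']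
    linarith [le_abs_self (C i), abs_nonneg B]
  obtain ⟨u, hu⟩ : ∃ u : Fin 1 → E → ℂ, u = fun _ z => 1 - ⟪p, z⟫_ℂ := ⟨_, rfl⟩
  have huz : ∀ z, ∑ i, ‖u i z‖ ^ 2 = ‖1 - ⟪p, z⟫_ℂ‖ ^ 2 := fun z => by
    rw [Fin.sum_univ_one, hu]
  have hud : ∀ i, DifferentiableOn ℂ (u i) (ball 0 1) := fun i => by
    rw [hu]
    exact (differentiableOn_const _).sub (innerSL ℂ p).differentiable.differentiableOn
  have huB : ∀ i, ∀ z ∈ ball (0 : E) 1, ‖u i z‖ ≤ B' := fun i z hz => by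
    have hz1 := mem_ball_zero_iff.1 hz
    rw [hu]
    refine (norm_sub_le _ _).trans ?_
    rw [norm_one]
    have h2 : ‖⟪p, z⟫_ℂ‖ ≤ ‖p‖ * ‖z‖ := norm_inner_le_norm _ _
    rw [hp, one_mul] at h2
    rw [hB']
    linarith [abs_nonneg B]
  obtain ⟨r', hr'⟩ : ∃ r' : ℝ, r' = min r (min (r ^ 2 / 2) (t ^ 2 / 2)) := ⟨_, rfl⟩
  have hr'0 : 0 < r' := by
    rw [hr']
    exact lt_min hr (lt_min (by positivity) (by positivity))
  have hrr : r' ≤ r := by rw [hr']; exact min_le_left _ _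
  have hrr2 : r' ≤ r ^ 2 / 2 := by rw [hr']; exact (min_le_right _ _).trans (min_le_left _ _)
  have hrt : r' ≤ t ^ 2 / 2 := by rw [hr']; exact (min_le_right _ _).trans (min_le_right _ _)
  have hcell : ∀ z ∈ ball (0 : E) 1, ∑ i, ‖u i z‖ ^ 2 < r' ^ 2 → ‖z - p‖ < r ∧ ‖z - p‖ < t := by
    intro z hz h1
    rw [huz] at h1
    have h2 : ‖1 - ⟪p, z⟫_ℂ‖ < r' := lt_of_pow_lt_pow_left₀ 2 hr'0.le h1
    exact ⟨S8_dist hp (mem_ball_zero_iff.1 hz) hr (h2.trans_le hrr2),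
      S8_dist hp (mem_ball_zero_iff.1 hz) ht0 (h2.trans_le hrt)⟩
  have hcellb : ∀ z : E, ∑ i, ‖b i z‖ ^ 2 < r' ^ 2 → ∀ i, ‖b i z‖ < r := by
    intro z h1 i
    have h3 : ‖b i z‖ ^ 2 ≤ ∑ i, ‖b i z‖ ^ 2 :=
      Finset.single_le_sum (f := fun i => ‖b i z‖ ^ 2) (fun _ _ => by positivity)
        (Finset.mem_univ i)
    exact (lt_of_pow_lt_pow_left₀ 2 hr'0.le (h3.trans_lt h1)).trans_le hrr
  have hpow : ∀ {u : E → ℂ} {z : E}, IG2 u z ^ ((1 : ℝ) / 2) = Real.sqrt (IG2 u z) :=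
    fun {u z} => (Real.sqrt_eq_rpow _).symm
  obtain ⟨h, h', h'', C', hh, hh', hh'', hfin⟩ := cellP2 hE hP (f := f) (b := b) (u := u) hf hbd hud
    (B := B') (fun j z hz => (hfB j z hz).trans hBB) (fun i z hz => (hC i z hz).trans (hCB i)) huB
    hr'0 (k := k) (fun j => (hk j).mono fun z hz =>
      ⟨hz.1, (hcell z hz.1 hz.2.1).1, hcellb z hz.2.2⟩)
    (fun z hz h1 h2 => ⟨(hkz z hz (hcell z hz h1).1 (hcellb z h2)).1, fun j =>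
      ((hkz z hz (hcell z hz h1).1 (hcellb z h2)).2 j).trans hBB⟩)
    (W := fun n => Wb n + Wu n) (hWbs.add hWus) hs hs1 hL hν
    (fun n z hz hn i => by
      have h1 := hWu n z hz hn
      have h2 := hWb0 n
      have h3 := mul_nonneg hL.le (Tc_nonneg hν (s := s) 2 hz)
      rw [hu]
      linarith)
    (fun n z hz h1 hn i => by
      have h2 := hWb i n z hz (hcell z hz h1).2 (fun b hb hb1 =>
        (mul_le_mul_of_nonneg_left (HH_le_ro hP hb hb1 (mem_ball_zero_iff.1 hz))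
          (by positivity)).trans hn)
      rw [hpow] at h2
      linarith [hWu0 n])
    (g := Fin.append (Fin.append g g₁) fun _ => g') (A := A) (fun j => by
      refine Fin.addCases (fun i => ?_) (fun i => ?_) j
      · rw [Fin.append_left]
        refine Fin.addCases (fun i => ?_) (fun i => ?_) i
        · rw [Fin.append_left]; exact hg1 i
        · rw [Fin.append_right]; exact hg2 i
      · rw [Fin.append_right]; exact hg3)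
    (fun z hz => by
      obtain ⟨e1, e2, e3, e4⟩ := hg4 z hz
      constructor
      · rw [Fin.sum_univ_add, Fin.sum_univ_add]
        simp only [Fin.append_left, Fin.append_right]
        rw [Fin.sum_univ_one, hu]
        exact e1
      · intro j
        refine Fin.addCases (fun i => ?_) (fun i => ?_) j
        · rw [Fin.append_left]
          refine Fin.addCases (fun i => ?_) (fun i => ?_) i
          · rw [Fin.append_left]; exact e2 i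
          · rw [Fin.append_right]; exact e3 i
        · rw [Fin.append_right]; exact e4)
  refine ⟨h, h', h'' 0, C', hh, hh', hh'' 0, fun z hz => ?_⟩
  obtain ⟨e1, e2, e3, e4⟩ := hfin z hz
  rw [Fin.sum_univ_one, hu] at e1
  exact ⟨e1, e2, e3, e4 0⟩

end Pool.Agent.MPca0fc2.SP
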