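import Mathlib
import Pool.Agent.Lib.MP_ca0fc2_an.SP.S8
import Pool.Agent.Lib.MP_ca0fc2_an.PV.W6

set_option autoImplicit false
set_option linter.unusedSectionVars false

open Metric Set MeasureTheory Filter Topology
open scoped InnerProductSpace ENNReal ContDiff

/-! # Local theory at a boundary point -/

namespace Pool.Agent.MPca0fc2.SP

open Pool.Agent.Lib.MP_ca0fc2_an
open Pool.Agent.MPca0fc2.PT
open Pool.Agent.MPca0fc2.QT
open Pool.Agent.MPca0fc2.TS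
open Pool.Agent.MPca0fc2.TE
open Pool.Agent.MPca0fc2.TK
open Pool.Agent.MPca0fc2.VK
open Pool.Agent.MPca0fc2.PV
open Pool.Agent.MPca0fc2.CE

variable {E : Type*} [NormedAddCommGroup E] [InnerProductSpace ℂ E] [FiniteDimensional ℂ E]
  [MeasurableSpace E] [BorelSpace E]

/-- The functions whose invariant gradient is summable in the distance to the range of `P`. -/
def CS (P : E →L[ℂ] E) (u : E → ℂ) : Prop :=
  DifferentiableOn ℂ u (ball 0 1) ∧ (∃ C : ℝ, ∀ z ∈ ball (0 : E) 1, ‖u z‖ ≤ C) ∧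
    ∃ W : ℕ → ℝ, Summable W ∧ ∀ (n : ℕ) (z : E), z ∈ ball (0 : E) 1 → 2 ^ n * ro P z ≤ 1 →
      Real.sqrt (IG2 u z) ≤ W n

theorem mix_of {S : Set E} {p : E} {u : E → ℂ} (h1 : DifferentiableOn ℂ u (ball 0 1))
    (h2 : ∃ C : ℝ, ∀ z ∈ ball (0 : E) 1, ‖u z‖ ≤ C) {r : ℝ} (hr : 0 < r) {W : ℕ → ℝ}
    (hW : Summable W)
    (h : ∀ (k : ℕ) (z : E), z ∈ ball (0 : E) 1 → ‖z - p‖ < r →
        (∀ b ∈ S, ‖b‖ < 1 → 2 ^ k * PT.HH b z ≤ 1) → Real.sqrt (IG2 u z) ≤ W k) :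
    MixN 1 S p u := by
  refine ⟨h1, h2, r, hr, W, 1 / 8, 1, 0, hW, by norm_num, le_rfl, one_pos, car_zero,
    fun k z hz hzp hS => ?_⟩
  have h3 := h k z hz hzp hS
  have h4 := Tc_nonneg (E := E) car_zero (s := 1 / 8) 2 hz
  rw [← Real.sqrt_eq_rpow]
  linarith

theorem CS.mix_in {P : E →L[ℂ] E} (hP : Prj P) {u : E → ℂ} (h : CS P u) (p : E) :
    MixN 1 (range P) p u := by
  obtain ⟨h1, h2, W, hW, h3⟩ := h
  refine mix_of h1 h2 one_pos hW fun k z hz _ hS => h3 k z hz ?_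
  have hz1 : ‖z‖ < 1 := mem_ball_zero_iff.1 hz
  have hpy := pyth hP z
  have hPz : ‖P z‖ < 1 := by
    have h1 : ‖P z‖ ^ 2 ≤ ‖z‖ ^ 2 := by nlinarith [sq_nonneg ‖z - P z‖]
    exact (le_of_sq_le_sq h1 (norm_nonneg _)).trans_lt hz1
  have h4 := hS (P z) ⟨z, rfl⟩ hPz
  have h5 : PT.HH (P z) z = ro P z := by
    have h6 : ⟪P z, z⟫_ℂ = ((‖P z‖ ^ 2 : ℝ) : ℂ) := by
      rw [← hP.idem z, hP.sa, hP.idem]
      rw [inner_self_eq_norm_sq_to_K]
      norm_cast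
    unfold PT.HH ro
    rw [h6]
    have h7 : ‖(1 : ℂ) - ((‖P z‖ ^ 2 : ℝ) : ℂ)‖ = 1 - ‖P z‖ ^ 2 := by
      rw [← Complex.ofReal_one, ← Complex.ofReal_sub, Complex.norm_real, Real.norm_of_nonneg]
      nlinarith [norm_nonneg (P z)]
    rw [h7]
    have h8 : 0 < 1 - ‖P z‖ ^ 2 := by nlinarith [norm_nonneg (P z)]
    field_simp
  rw [h5] at h4
  exact h4

theorem CS.mix_off {P : E →L[ℂ] E} {S : Set E} (hS0 : (0 : E) ∈ S) {u : E → ℂ} (h : CS P u)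
    {p : E} (hPp : ‖P p‖ < 1) : MixN 1 S p u := by
  obtain ⟨h1, ⟨C, h2⟩, W, hW, h3⟩ := h
  obtain ⟨B, hB⟩ := W6_IG_bdd h1 h2
  obtain ⟨c, hc⟩ : ∃ c : ℝ, c = (1 - ‖P p‖ ^ 2) / 2 := ⟨_, rfl⟩
  have hc0 : 0 < c := by rw [hc]; nlinarith [norm_nonneg (P p)]
  obtain ⟨r, hr, hrc⟩ : ∃ r > 0, ∀ z : E, ‖z - p‖ < r → c < 1 - ‖P z‖ ^ 2 := by
    have hcont : Continuous fun z : E => 1 - ‖P z‖ ^ 2 := by fun_prop
    have h4 : ∀ᶠ z in 𝓝 p, c < 1 - ‖P z‖ ^ 2 :=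
      (hcont.tendsto p).eventually (lt_mem_nhds (show c < 1 - ‖P p‖ ^ 2 by
        rw [hc]; nlinarith [norm_nonneg (P p)]))
    obtain ⟨r, hr, h5⟩ := Metric.eventually_nhds_iff.1 h4
    exact ⟨r, hr, fun z hz => h5 (by rwa [dist_eq_norm])⟩
  obtain ⟨m, hm⟩ := pow_unbounded_of_one_lt (1 / c) (by norm_num : (1 : ℝ) < 2)
  have hmc : 1 < 2 ^ m * c := by
    rw [div_lt_iff₀ hc0] at hm
    exact hm
  refine mix_of h1 ⟨C, h2⟩ hr (W := fun k => if k < m then B else W (k - m)) ?_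
    fun k z hz hzp hS => ?_
  · refine (summable_nat_add_iff m).1 ?_
    simpa using hW
  · have hz1 : ‖z‖ < 1 := mem_ball_zero_iff.1 hz
    by_cases hk : k < m
    · simp only [hk, if_true]
      rw [Real.sqrt_eq_rpow]
      exact hB z hz
    · simp only [hk, if_false]
      have h4 := hS 0 hS0 (by simp)
      have h5 : PT.HH 0 z = 1 - ‖z‖ ^ 2 := by
        unfold PT.HH
        simp
      rw [h5] at h4
      have h6 := hrc z hzp
      refine h3 _ z hz ?_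
      have hd : 0 < 1 - ‖z‖ ^ 2 := by nlinarith [norm_nonneg z]
      have h7 : (2 : ℝ) ^ k = 2 ^ (k - m) * 2 ^ m := by
        rw [← pow_add]
        congr 1
        omega
      unfold ro
      rw [← mul_div_assoc, div_le_one (hc0.trans h6)]
      have h8 : (0 : ℝ) < 2 ^ (k - m) := by positivity
      have h9 : (2 : ℝ) ^ (k - m) * (1 - ‖z‖ ^ 2) * (2 ^ m * c) ≤ c := by
        calc (2 : ℝ) ^ (k - m) * (1 - ‖z‖ ^ 2) * (2 ^ m * c)
            = (2 ^ k * (1 - ‖z‖ ^ 2)) * c := by rw [h7]; ring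
          _ ≤ 1 * c := mul_le_mul_of_nonneg_right h4 hc0.le
          _ = c := one_mul c
      have h10 : (2 : ℝ) ^ (k - m) * (1 - ‖z‖ ^ 2) ≤
          (2 : ℝ) ^ (k - m) * (1 - ‖z‖ ^ 2) * (2 ^ m * c) :=
        le_mul_of_one_le_right (by positivity) hmc.le
      linarith

theorem mix_bh {S : Set E} {p : E} {u : E → ℂ} (h : MixN 1 S p u) : BH (fun _ : Unit => u) := by
  obtain ⟨h1, ⟨C, hC⟩, -⟩ := h
  exact ⟨fun _ => h1, C, fun _ => hC⟩

/-- algebras -/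
theorem mix_adjoin (hE : 2 ≤ Module.finrank ℂ E) {S : Set E} {p : E} {A : Set (E → ℂ)}
    (hA : ∀ u ∈ A, MixN 1 S p u) {u : E → ℂ} (hu : u ∈ Algebra.adjoin ℂ A) : MixN 1 S p u := by
  have hE1 := exists_unit hE
  induction hu using Algebra.adjoin_induction with
  | mem u hu => exact hA u hu
  | algebraMap c => exact MixN.const one_pos S p c
  | add u v _ _ hu hv => exact hu.add hE1 (Or.inl rfl) hv
  | mul u v _ _ hu hv => exact hu.mul hE1 (Or.inl rfl) hv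

theorem dist_lt {p z : E} (hp : ‖p‖ = 1) (hz : ‖z‖ < 1) {s : ℝ} (hs : 0 < s)
    (h : ‖1 - ⟪p, z⟫_ℂ‖ < s ^ 2 / 2) : ‖z - p‖ < s := by
  have h1 : ‖z - p‖ ^ 2 = ‖z‖ ^ 2 - 2 * RCLike.re ⟪z, p⟫_ℂ + ‖p‖ ^ 2 := norm_sub_sq z p
  have h2 : RCLike.re ⟪z, p⟫_ℂ = (⟪p, z⟫_ℂ).re := by
    rw [← inner_conj_symm z p]; exact Complex.conj_re _
  have h3 : (1 - ⟪p, z⟫_ℂ).re ≤ ‖1 - ⟪p, z⟫_ℂ‖ := Complex.re_le_norm _
  rw [Complex.sub_re, Complex.one_re] at h3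
  rw [h2, hp] at h1
  have h4 : ‖z‖ ^ 2 < 1 := by
    have := norm_nonneg z
    nlinarith
  have h5 : ‖z - p‖ ^ 2 < s ^ 2 := by rw [h1]; nlinarith
  exact lt_of_pow_lt_pow_left₀ 2 hs.le h5

/-- bounds near `p` bound the values of the characters over `p` -/
theorem bound_near {X : Char Unit E} {p : E} (hp : ‖p‖ = 1) (hX : Over X p) {u : E → ℂ}
    (hu : BH (fun _ : Unit => u)) {s : ℝ} (hs : 0 < s) {C : ℝ} (hC : 0 ≤ C)
    (h : ∀ z ∈ ball (0 : E) 1, ‖z - p‖ < s → ‖u z‖ ≤ C) : ‖X.φ (fun _ => u)‖ ≤ C := by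
  have hw : ∀ z ∈ ball (0 : E) 1, ‖⟪p, z⟫_ℂ‖ ≤ 1 := fun z hz => by
    have h2 : ‖⟪p, z⟫_ℂ‖ ≤ ‖p‖ * ‖z‖ := norm_inner_le_norm _ _
    rw [hp, one_mul] at h2
    exact h2.trans (mem_ball_zero_iff.1 hz).le
  have hBH : BH (fun (_ : Unit) (z : E) => (2⁻¹ : ℂ) * (1 + ⟪p, z⟫_ℂ)) :=
    (BH.const (I := Unit) (E := E) (2⁻¹ : ℂ)).mul
      ((BH.const (I := Unit) (E := E) 1).add (BH.inner (I := Unit) p))
  refine X.bound_loc hu hBH ?_ ?_ (η := s ^ 2 / 8) (by positivity) hC ?_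
  · have h1 := X.map_mul (BH.const (I := Unit) (E := E) (2⁻¹ : ℂ))
      ((BH.const (I := Unit) (E := E) 1).add (BH.inner (I := Unit) p))
    have h2 := X.map_add (BH.const (I := Unit) (E := E) 1) (BH.inner (I := Unit) p)
    have h3 : X.φ (fun (_ : Unit) (z : E) => (2⁻¹ : ℂ) * (1 + ⟪p, z⟫_ℂ)) =
      X.φ (fun _ _ => (2⁻¹ : ℂ)) * X.φ (fun _ z => 1 + ⟪p, z⟫_ℂ) := h1
    have h4 : X.φ (fun _ z => 1 + ⟪p, z⟫_ℂ) = X.φ (fun _ _ => (1 : ℂ)) +
      X.φ (fun _ z => ⟪p, z⟫_ℂ) := h2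
    rw [h3, h4, X.map_const, X.map_const, hX p, inner_self_eq_norm_sq_to_K, hp]
    norm_num
  · intro _ z hz
    rw [norm_mul]
    have h1 : ‖1 + ⟪p, z⟫_ℂ‖ ≤ 2 := by
      refine (norm_add_le _ _).trans ?_
      rw [norm_one]
      linarith [hw z hz]
    rw [norm_inv, Complex.norm_ofNat]
    linarith
  · refine Filter.Eventually.of_forall fun _ z hz h1 => h z hz ?_
    rw [norm_mul, norm_inv, Complex.norm_ofNat] at h1
    have h2 : 2 * (1 - s ^ 2 / 8) < ‖1 + ⟪p, z⟫_ℂ‖ := by linarith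
    have h3 : ‖z - p‖ ^ 2 = ‖z‖ ^ 2 - 2 * RCLike.re ⟪z, p⟫_ℂ + ‖p‖ ^ 2 := norm_sub_sq z p
    have h4 : RCLike.re ⟪z, p⟫_ℂ = (⟪p, z⟫_ℂ).re := by
      rw [← inner_conj_symm z p]; exact Complex.conj_re _
    have hz1 := mem_ball_zero_iff.1 hz
    have h5 : ‖1 + ⟪p, z⟫_ℂ‖ ^ 2 = 1 + 2 * (⟪p, z⟫_ℂ).re + ‖⟪p, z⟫_ℂ‖ ^ 2 := by
      rw [Complex.sq_norm, Complex.sq_norm, Complex.normSq_apply, Complex.normSq_apply,
        Complex.add_re, Complex.add_im, Complex.one_re, Complex.one_im]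
      ring
    have h6 := hw z hz
    have h7 := norm_nonneg ⟪p, z⟫_ℂ
    rw [h4, hp] at h3
    have h8 : ‖z‖ ^ 2 < 1 := by
      have := norm_nonneg z
      nlinarith
    have h9 : ‖⟪p, z⟫_ℂ‖ ^ 2 ≤ 1 := by nlinarith
    have h10 : ‖z - p‖ ^ 2 < s ^ 2 := by
      rcases lt_or_ge (1 - s ^ 2 / 8) 0 with h11 | h11
      · have h12 : -1 ≤ (⟪p, z⟫_ℂ).re := by
          have := Complex.abs_re_le_norm ⟪p, z⟫_ℂ
          have := neg_abs_le (⟪p, z⟫_ℂ).re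
          linarith
        nlinarith
      · have h12 : (2 * (1 - s ^ 2 / 8)) ^ 2 ≤ ‖1 + ⟪p, z⟫_ℂ‖ ^ 2 :=
          pow_le_pow_left₀ (by linarith) h2.le 2
        nlinarith [sq_nonneg (s ^ 2)]
    exact lt_of_pow_lt_pow_left₀ 2 hs.le h10

theorem over_aff {p : E} (hp : ‖p‖ = 1) {X : Char Unit E} (hX : Over X p) :
    X.φ (fun _ z => 1 - ⟪p, z⟫_ℂ) = 0 := by
  have h1 := X.map_sub (BH.const (I := Unit) (E := E) 1) (BH.inner (I := Unit) p)
  have h2 : X.φ (fun _ z => 1 - ⟪p, z⟫_ℂ) = X.φ (fun _ _ => (1 : ℂ)) - X.φ (fun _ z => ⟪p, z⟫_ℂ) := h1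
  rw [h2, X.map_const, hX p, inner_self_eq_norm_sq_to_K, hp]
  norm_num

theorem char_sub {X : Char Unit E} {u : E → ℂ} (hu : BH (fun _ : Unit => u)) :
    X.φ (fun _ z => u z - X.φ (fun _ => u)) = 0 := by
  have h1 := X.map_sub hu (BH.const (I := Unit) (E := E) (X.φ (fun _ => u)))
  have h2 : X.φ (fun _ z => u z - X.φ (fun _ => u)) =
      X.φ (fun _ => u) - X.φ (fun _ _ => X.φ (fun _ => u)) := h1
  rw [h2, X.map_const, sub_self]

/-- sums of products with functions in the kernel are in the kernel -/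
theorem char_sum (X : Char Unit E) {N : ℕ} {b h : Fin N → E → ℂ}
    (hb : ∀ i, BH (fun _ : Unit => b i)) (hh : ∀ i, BH (fun _ : Unit => h i))
    (h0 : ∀ i, X.φ (fun _ => b i) = 0) :
    BH (fun (_ : Unit) z => ∑ i, b i z * h i z) ∧ X.φ (fun _ z => ∑ i, b i z * h i z) = 0 := by
  have h1 : ∀ k ∈ (Finset.univ : Finset (Fin N)), BH (fun (_ : Unit) z => b k z * h k z) :=
    fun k _ => (hb k).mul (hh k)
  refine ⟨BH.sum h1, ?_⟩
  rw [X.map_sum h1]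
  apply Finset.sum_eq_zero
  intro k _
  rw [X.map_mul (hb k) (hh k), h0 k, zero_mul]

/-- A solution of the equation with `f`, `b` and `1 - ⟪p, z⟫` is impossible if all vanish at a
character over `p`. -/
theorem contra {p : E} (hp : ‖p‖ = 1) {X : Char Unit E} (hX : Over X p) {N l : ℕ}
    {f : Fin N → E → ℂ} {b : Fin l → E → ℂ} (hf : ∀ j, BH (fun _ : Unit => f j))
    (hb : ∀ j, BH (fun _ : Unit => b j)) (hf0 : ∀ j, X.φ (fun _ => f j) = 0)
    (hb0 : ∀ j, X.φ (fun _ => b j) = 0)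
    (hs : ∃ (h : Fin N → E → ℂ) (h' : Fin l → E → ℂ) (h₀ : E → ℂ) (C : ℝ),
      (∀ j, DifferentiableOn ℂ (h j) (ball 0 1)) ∧ (∀ i, DifferentiableOn ℂ (h' i) (ball 0 1)) ∧
      DifferentiableOn ℂ h₀ (ball 0 1) ∧
      ∀ z ∈ ball (0 : E) 1,
        ∑ j, f j z * h j z + ∑ i, b i z * h' i z + (1 - ⟪p, z⟫_ℂ) * h₀ z = 1 ∧
          (∀ j, ‖h j z‖ ≤ C) ∧ (∀ i, ‖h' i z‖ ≤ C) ∧ ‖h₀ z‖ ≤ C) : False := by
  obtain ⟨h, h', h₀, C, hh, hh', hh₀, hfin⟩ := hs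
  obtain ⟨e1, e2⟩ := char_sum X (b := f) (h := h) hf
    (fun j => ⟨fun _ => hh j, C, fun _ z hz => (hfin z hz).2.1 j⟩) hf0
  obtain ⟨e3, e4⟩ := char_sum X (b := b) (h := h') hb
    (fun j => ⟨fun _ => hh' j, C, fun _ z hz => (hfin z hz).2.2.1 j⟩) hb0
  have hB0 : BH (fun (_ : Unit) => h₀) := ⟨fun _ => hh₀, C, fun _ z hz => (hfin z hz).2.2.2⟩
  have hB1 : BH (fun (_ : Unit) (z : E) => 1 - ⟪p, z⟫_ℂ) :=
    (BH.const (I := Unit) (E := E) 1).sub (BH.inner (I := Unit) p)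
  have h1 := X.map_add e1 e3
  rw [e2, e4, add_zero] at h1
  have h2 := X.map_mul hB1 hB0
  rw [over_aff hp hX, zero_mul] at h2
  have h3 := X.map_add (e1.add e3) (hB1.mul hB0)
  rw [h1, h2, add_zero] at h3
  have h4 : X.φ (fun _ z => (∑ j, f j z * h j z + ∑ i, b i z * h' i z) +
      (1 - ⟪p, z⟫_ℂ) * h₀ z) = X.φ (fun _ _ => (1 : ℂ)) :=
    X.congr (BH.const 1) fun _ z hz => (hfin z hz).1
  rw [X.map_const] at h4
  exact one_ne_zero (h4.symm.trans h3)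

/-- One arbitrary function and functions which near `p` are uniform limits of tame functions. -/
theorem loc_one (hE : 2 ≤ Module.finrank ℂ E) {P : E →L[ℂ] E} (hP : Prj P) {p : E} (hp : ‖p‖ = 1)
    {N : ℕ} (hS : SlM N P p)
    {F : Fin N → E → ℂ} (hF : ∀ j, DifferentiableOn ℂ (F j) (ball 0 1)) {B : ℝ}
    (hFB : ∀ j, ∀ z ∈ ball (0 : E) 1, ‖F j z‖ ≤ B) {δ : ℝ} (hδ : 0 < δ)
    (hFδ : ∀ z ∈ ball (0 : E) 1, δ ≤ ∑ j, ‖F j z‖ ^ 2) (j₀ : Fin N)
    (hT : ∀ j, j ≠ j₀ → ∀ ε > 0, ∃ v, MixN 1 (range P) p v ∧ ∃ s > 0, ∀ z ∈ ball (0 : E) 1,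
      ‖z - p‖ < s → ‖F j z - v z‖ ≤ ε)
    (X : Char Unit E) (hX : Over X p) : ∃ j, X.φ (fun _ => F j) ≠ 0 := by
  classical
  by_contra hcon
  push Not at hcon
  have hBf : ∀ j, BH fun (_ : Unit) => F j := fun j => ⟨fun _ => hF j, B, fun _ => hFB j⟩
  have hN0 : (0 : ℝ) ≤ N := Nat.cast_nonneg N
  obtain ⟨ε, hε⟩ : ∃ ε : ℝ, ε = √(δ / (16 * (N + 1))) := ⟨_, rfl⟩
  have hε0 : 0 < ε := by rw [hε]; exact Real.sqrt_pos.2 (by positivity)
  have hε2 : ε ^ 2 = δ / (16 * (N + 1)) := by rw [hε]; exact Real.sq_sqrt (by positivity)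
  have hch : ∀ j, ∃ v, MixN 1 (range P) p v ∧ ∃ s > 0, (j ≠ j₀ → ∀ z ∈ ball (0 : E) 1,
      ‖z - p‖ < s → ‖F j z - v z‖ ≤ ε) := by
    intro j
    by_cases hj : j = j₀
    · exact ⟨fun _ => 0, MixN.const one_pos _ p 0, 1, one_pos, fun h => absurd hj h⟩
    · obtain ⟨v, h1, s, hs, h2⟩ := hT j hj ε hε0
      exact ⟨v, h1, s, hs, fun _ => h2⟩
  choose v hv t ht hFv' using hch
  obtain ⟨s, hs, hst⟩ : ∃ s : ℝ, 0 < s ∧ ∀ j, s ≤ t j := by
    rcases isEmpty_or_nonempty (Fin N) with h | h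
    · exact ⟨1, one_pos, fun j => (h.false j).elim⟩
    · refine ⟨Finset.univ.inf' Finset.univ_nonempty t, ?_, fun j => Finset.inf'_le _ (Finset.mem_univ j)⟩
      rw [Finset.lt_inf'_iff]
      exact fun j _ => ht j
  have hFv : ∀ j, j ≠ j₀ → ∀ z ∈ ball (0 : E) 1, ‖z - p‖ < s → ‖F j z - v j z‖ ≤ ε :=
    fun j hj z hz hzp => hFv' j hj z hz (hzp.trans_le (hst j))
  have hc : ∀ j, j ≠ j₀ → ‖X.φ (fun _ => v j)‖ ≤ ε := by
    intro j hj
    have h1 : X.φ (fun _ => v j) = X.φ (fun _ z => v j z - F j z) := by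
      have h2 := X.map_sub (mix_bh (hv j)) (hBf j)
      have h3 : X.φ (fun _ z => v j z - F j z) = X.φ (fun _ => v j) - X.φ (fun _ => F j) := h2
      rw [h3, hcon j, sub_zero]
    rw [h1]
    refine bound_near hp hX ((mix_bh (hv j)).sub (hBf j)) hs hε0.le fun z hz hzp => ?_
    rw [norm_sub_rev]
    exact hFv j hj z hz hzp
  obtain ⟨F', hF'⟩ : ∃ F' : Fin N → E → ℂ, F' = fun j =>
      if j = j₀ then F j else fun z => v j z - X.φ (fun _ => v j) := ⟨_, rfl⟩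
  have h0 : F' j₀ = F j₀ := by rw [hF']; simp
  have h1 : ∀ j, j ≠ j₀ → F' j = fun z => v j z - X.φ (fun _ => v j) := fun j hj => by
    rw [hF']; simp [hj]
  have hd : ∀ j, ∀ z ∈ ball (0 : E) 1, ‖z - p‖ < s → ‖F j z - F' j z‖ ≤ 2 * ε := by
    intro j z hz hzp
    by_cases hj : j = j₀
    · rw [hj, h0, sub_self, norm_zero]; positivity
    · rw [h1 j hj]
      have e1 := hFv j hj z hz hzp
      have e2 := hc j hj
      calc ‖F j z - (v j z - X.φ (fun _ => v j))‖ = ‖(F j z - v j z) + X.φ (fun _ => v j)‖ := by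
            congr 1; ring
        _ ≤ ‖F j z - v j z‖ + ‖X.φ (fun _ => v j)‖ := norm_add_le _ _
        _ ≤ 2 * ε := by linarith
  have hF'd : ∀ j, DifferentiableOn ℂ (F' j) (ball 0 1) := by
    intro j
    by_cases hj : j = j₀
    · rw [hj, h0]; exact hF j₀
    · rw [h1 j hj]; exact (hv j).1.sub_const _
  obtain ⟨B', hB', hF'B⟩ : ∃ B' : ℝ, 0 ≤ B' ∧ ∀ j, ∀ z ∈ ball (0 : E) 1, ‖F' j z‖ ≤ B' := by
    choose C hC using fun j => (hv j).2.1
    refine ⟨|B| + ∑ j, |C j| + ∑ j, ‖X.φ (fun _ => v j)‖, by positivity, fun j z hz => ?_⟩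
    have e0 : |C j| ≤ ∑ j, |C j| :=
      Finset.single_le_sum (f := fun j => |C j|) (fun _ _ => abs_nonneg _) (Finset.mem_univ j)
    have e1 : ‖X.φ (fun _ => v j)‖ ≤ ∑ j, ‖X.φ (fun _ => v j)‖ :=
      Finset.single_le_sum (f := fun j => ‖X.φ (fun _ => v j)‖) (fun _ _ => norm_nonneg _)
        (Finset.mem_univ j)
    by_cases hj : j = j₀
    · rw [hj, h0]
      have e2 := hFB j₀ z hz
      have e3 : 0 ≤ ∑ j, |C j| := Finset.sum_nonneg fun _ _ => abs_nonneg _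
      have e4 : 0 ≤ ∑ j, ‖X.φ (fun _ => v j)‖ := Finset.sum_nonneg fun _ _ => norm_nonneg _
      linarith [le_abs_self B]
    · rw [h1 j hj]
      have e2 := hC j z hz
      have e3 := norm_sub_le (v j z) (X.φ (fun _ => v j))
      linarith [le_abs_self (C j), abs_nonneg B]
  have hF'δ : ∀ z ∈ ball (0 : E) 1, ‖z - p‖ < s → δ / 4 ≤ ∑ j, ‖F' j z‖ ^ 2 := by
    intro z hz hzp
    have e1 := hFδ z hz
    have e2 : ∀ j, ‖F j z‖ ^ 2 ≤ 2 * ‖F' j z‖ ^ 2 + 8 * ε ^ 2 := by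
      intro j
      have e3 := hd j z hz hzp
      have e4 : ‖F j z‖ ≤ ‖F' j z‖ + 2 * ε := by
        have := norm_sub_norm_le (F j z) (F' j z)
        linarith
      have e5 := norm_nonneg (F j z)
      have e6 : ‖F j z‖ ^ 2 ≤ (‖F' j z‖ + 2 * ε) ^ 2 := pow_le_pow_left₀ e5 e4 2
      nlinarith [sq_nonneg (‖F' j z‖ - 2 * ε)]
    have e7 : ∑ j, ‖F j z‖ ^ 2 ≤ ∑ j, (2 * ‖F' j z‖ ^ 2 + 8 * ε ^ 2) :=
      Finset.sum_le_sum fun j _ => e2 j
    rw [Finset.sum_add_distrib, ← Finset.mul_sum, Finset.sum_const, Finset.card_univ,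
      Fintype.card_fin, nsmul_eq_mul, hε2] at e7
    have e8 : (N : ℝ) * (8 * (δ / (16 * (N + 1)))) ≤ δ / 2 := by
      rw [show (N : ℝ) * (8 * (δ / (16 * (N + 1)))) = (δ / 2) * (N / (N + 1)) by field_simp; ring]
      refine mul_le_of_le_one_right (by positivity) ?_
      rw [div_le_one (by positivity)]
      linarith
    linarith
  -- the solution on the range of `P`
  obtain ⟨g, g', A, hg1, hg2, hg3⟩ := hS F' hF'd ⟨B', hF'B⟩
    ⟨min (δ / 4) ((s ^ 2 / 2) ^ 2), lt_min (by positivity) (by positivity), fun z hz => by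
      have e2 : 0 ≤ ∑ j, ‖F' j z‖ ^ 2 := Finset.sum_nonneg fun j _ => sq_nonneg _
      by_cases hzp : ‖z - p‖ < s
      · exact (min_le_left _ _).trans (by nlinarith [hF'δ z hz hzp, sq_nonneg ‖1 - ⟪p, z⟫_ℂ‖])
      · have e3 : s ^ 2 / 2 ≤ ‖1 - ⟪p, z⟫_ℂ‖ := by
          by_contra h4
          exact hzp (dist_lt hp (mem_ball_zero_iff.1 hz) hs (not_le.1 h4))
        have e4 : (s ^ 2 / 2) ^ 2 ≤ ‖1 - ⟪p, z⟫_ℂ‖ ^ 2 := pow_le_pow_left₀ (by positivity) e3 2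
        exact (min_le_right _ _).trans (by linarith)⟩
  -- the tame functions
  obtain ⟨b, hbd⟩ : ∃ b : Fin N → E → ℂ, b = fun j => if j = j₀ then fun _ => 0 else F' j :=
    ⟨_, rfl⟩
  have hb0 : b j₀ = fun _ => 0 := by rw [hbd]; simp
  have hb1 : ∀ j, j ≠ j₀ → b j = F' j := fun j hj => by rw [hbd]; simp [hj]
  have hbT : ∀ j, MixN 1 (range P) p (b j) := by
    intro j
    by_cases hj : j = j₀
    · rw [hj, hb0]; exact MixN.const one_pos _ p 0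
    · rw [hb1 j hj, h1 j hj]; exact (hv j).sub_const _
  obtain ⟨r, hr⟩ : ∃ r : ℝ, r = min s (√(δ / (8 * (N + 1)))) := ⟨_, rfl⟩
  have hr0 : 0 < r := by rw [hr]; exact lt_min hs (Real.sqrt_pos.2 (by positivity))
  have hrs : r ≤ s := by rw [hr]; exact min_le_left _ _
  have hr2 : N * r ^ 2 ≤ δ / 8 := by
    have e1 : r ≤ √(δ / (8 * (N + 1))) := by rw [hr]; exact min_le_right _ _
    have e2 : r ^ 2 ≤ δ / (8 * (N + 1)) := by
      have := pow_le_pow_left₀ hr0.le e1 2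
      rwa [Real.sq_sqrt (by positivity)] at this
    calc N * r ^ 2 ≤ N * (δ / (8 * (N + 1))) := mul_le_mul_of_nonneg_left e2 hN0
      _ = (δ / 8) * (N / (N + 1)) := by field_simp
      _ ≤ δ / 8 := by
          refine mul_le_of_le_one_right (by positivity) ?_
          rw [div_le_one (by positivity)]
          linarith
  obtain ⟨q, hq⟩ : ∃ q : ℝ, q = √(δ / 8) := ⟨_, rfl⟩
  have hq0 : 0 < q := by rw [hq]; exact Real.sqrt_pos.2 (by positivity)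
  have hq2 : q ^ 2 = δ / 8 := by rw [hq]; exact Real.sq_sqrt (by positivity)
  have hlow : ∀ z ∈ ball (0 : E) 1, ‖z - p‖ < r → (∀ i, ‖b i z‖ < r) → q ≤ ‖F' j₀ z‖ := by
    intro z hz hzp hbz
    have e1 := hF'δ z hz (hzp.trans_le hrs)
    have e2 : ∑ j, ‖F' j z‖ ^ 2 = ‖F' j₀ z‖ ^ 2 + ∑ j, ‖b j z‖ ^ 2 := by
      rw [← Finset.add_sum_erase _ _ (Finset.mem_univ j₀),
        ← Finset.add_sum_erase _ (fun j => ‖b j z‖ ^ 2) (Finset.mem_univ j₀), hb0]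
      rw [norm_zero, zero_pow two_ne_zero, zero_add]
      congr 1
      refine Finset.sum_congr rfl fun j hj => ?_
      rw [hb1 j (Finset.ne_of_mem_erase hj)]
    have e3 : ∑ j, ‖b j z‖ ^ 2 ≤ N * r ^ 2 := by
      calc ∑ j, ‖b j z‖ ^ 2 ≤ ∑ _j : Fin N, r ^ 2 :=
            Finset.sum_le_sum fun j _ => pow_le_pow_left₀ (norm_nonneg _) (hbz j).le 2
        _ = N * r ^ 2 := by simp
    have e4 : q ^ 2 ≤ ‖F' j₀ z‖ ^ 2 := by
      rw [hq2]
      linarith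
    exact (sq_le_sq₀ hq0.le (norm_nonneg _)).1 e4
  obtain ⟨B'', hB''⟩ : ∃ B'' : ℝ, B'' = B' + q⁻¹ := ⟨_, rfl⟩
  have hqi : 0 < q⁻¹ := inv_pos.2 hq0
  have hsol := cellL hE hP hp (f := F') (b := b) (B := B'') hF'd
    (fun j z hz => (hF'B j z hz).trans (by rw [hB'']; linarith)) hbT hr0
    (k := fun j z => if j = j₀ then (F' j₀ z)⁻¹ else 0) (fun j => by
      by_cases hj : j = j₀
      · simp only [hj, if_true]
        refine ((hF'd j₀).mono fun z hz => hz.1).inv fun z hz h0 => ?_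
        have h1 := hlow z hz.1 hz.2.1 hz.2.2
        rw [h0, norm_zero] at h1
        linarith
      · simp only [hj, if_false]
        exact differentiableOn_const _)
    (fun z hz hzp hzb => by
      have h1 := hlow z hz hzp hzb
      have h2 : F' j₀ z ≠ 0 := fun h0 => by
        rw [h0, norm_zero] at h1
        linarith
      constructor
      · rw [Finset.sum_eq_single j₀]
        · simp only [if_true]
          exact mul_inv_cancel₀ h2
        · intro j _ hj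
          simp [hj]
        · exact fun h0 => absurd (Finset.mem_univ _) h0
      · intro j
        by_cases hj : j = j₀
        · simp only [hj, if_true]
          rw [norm_inv, hB'']
          exact (inv_anti₀ hq0 h1).trans (by linarith)
        · simp only [hj, if_false, norm_zero]
          rw [hB'']
          linarith)
    ⟨g, fun _ _ => 0, g', |A|, hg1, fun _ => differentiableOn_const _, hg2, fun z hz => by
      obtain ⟨e1, e2, e3⟩ := hg3 z hz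
      refine ⟨?_, fun j => (e2 j).trans (le_abs_self A), fun _ => by simp,
        e3.trans (le_abs_self A)⟩
      simp only [mul_zero, Finset.sum_const_zero, add_zero]
      exact e1⟩
  refine contra hp hX (f := F') (b := b) (fun j => ⟨fun _ => hF'd j, B', fun _ => hF'B j⟩)
    (fun j => mix_bh (hbT j)) ?_ ?_ hsol
  · intro j
    by_cases hj : j = j₀
    · rw [hj, h0]; exact hcon j₀
    · rw [h1 j hj]; exact char_sub (mix_bh (hv j))
  · intro j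
    by_cases hj : j = j₀
    · rw [hj, hb0]; exact X.map_const 0
    · rw [hb1 j hj, h1 j hj]; exact char_sub (mix_bh (hv j))

end Pool.Agent.MPca0fc2.SP
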