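import Mathlib
import Pool.Agent.Lib.MP_ca0fc2_an.SP.S9
import Pool.Agent.Lib.MP_ca0fc2_an.TB.J1

set_option autoImplicit false
set_option linter.unusedSectionVars false

open Metric Set MeasureTheory Filter Topology
open scoped InnerProductSpace ENNReal ContDiff

/-! # Characters and functions which are tame near a boundary point off a complex subspace -/

namespace Pool.Agent.MPca0fc2.SP

open Pool.Agent.Lib.MP_ca0fc2_an
open Pool.Agent.MPca0fc2.PT
open Pool.Agent.MPca0fc2.QT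
open Pool.Agent.MPca0fc2.TS
open Pool.Agent.MPca0fc2.TE
open Pool.Agent.MPca0fc2.TK
open Pool.Agent.MPca0fc2.VK
open Pool.Agent.MPca0fc2.PV
open Pool.Agent.MPca0fc2.CE

section general

variable {E : Type*} [NormedAddCommGroup E] [InnerProductSpace ℂ E] [FiniteDimensional ℂ E]
  [MeasurableSpace E] [BorelSpace E]

theorem low {n : ℕ} {F R : Fin n → ℂ} {C : ℝ} (h : ∑ j, F j * R j = 1)
    (hR : ∀ j, ‖R j‖ ≤ C) : ((C ^ 2 + 1) * (n + 1))⁻¹ ≤ ∑ j, ‖F j‖ ^ 2 := by
  have h1 : (1 : ℝ) ≤ C * ∑ j, ‖F j‖ := by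
    calc (1 : ℝ) = ‖∑ j, F j * R j‖ := by rw [h, norm_one]
      _ ≤ ∑ j, ‖F j * R j‖ := norm_sum_le _ _
      _ ≤ ∑ j, C * ‖F j‖ := by
          refine Finset.sum_le_sum fun j _ => ?_
          rw [norm_mul, mul_comm]
          exact mul_le_mul_of_nonneg_right (hR j) (norm_nonneg _)
      _ = C * ∑ j, ‖F j‖ := by rw [Finset.mul_sum]
  have h2 : (∑ j, ‖F j‖) ^ 2 ≤ n * ∑ j, ‖F j‖ ^ 2 := by
    have := sq_sum_le_card_mul_sum_sq (s := (Finset.univ : Finset (Fin n))) (f := fun j => ‖F j‖)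
    simpa using this
  have h0 : 0 ≤ ∑ j, ‖F j‖ := Finset.sum_nonneg fun j _ => norm_nonneg _
  have hS : 0 ≤ ∑ j, ‖F j‖ ^ 2 := Finset.sum_nonneg fun j _ => sq_nonneg _
  have h3 : (1 : ℝ) ≤ C ^ 2 * (n * ∑ j, ‖F j‖ ^ 2) := by
    calc (1 : ℝ) ≤ (C * ∑ j, ‖F j‖) ^ 2 := by nlinarith
      _ = C ^ 2 * (∑ j, ‖F j‖) ^ 2 := by ring
      _ ≤ C ^ 2 * (n * ∑ j, ‖F j‖ ^ 2) := mul_le_mul_of_nonneg_left h2 (sq_nonneg _)
  have hn : (0 : ℝ) ≤ n := Nat.cast_nonneg n
  rw [inv_le_iff_one_le_mul₀' (by positivity)]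
  nlinarith [mul_nonneg (sq_nonneg C) hS, mul_nonneg hn hS]

/-- data `f`, tame functions `b` with the value `0` at a character over `p`, and a bounded solution for
`f` near `p` where the `b i` are small -/
theorem cell_charL (hE : 2 ≤ Module.finrank ℂ E) {P : E →L[ℂ] E} (hP : Prj P) {p : E}
    (hp : ‖p‖ = 1) (hS : ∀ N, SlM N P p) {X : Char Unit E} (hX : Over X p) {N l : ℕ}
    {f k : Fin N → E → ℂ} {b : Fin l → E → ℂ}
    (hb : ∀ i, MixN 1 (range P) p (b i)) (hb0 : ∀ i, X.φ (fun _ => b i) = 0) {B r : ℝ} (hr : 0 < r)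
    (hf : ∀ j, DifferentiableOn ℂ (f j) (ball 0 1)) (hfB : ∀ j, ∀ z ∈ ball (0 : E) 1, ‖f j z‖ ≤ B)
    (hk : ∀ j, DifferentiableOn ℂ (k j) {z | z ∈ ball (0 : E) 1 ∧ ‖z - p‖ < r ∧ ∀ i, ‖b i z‖ < r})
    (hkz : ∀ z ∈ ball (0 : E) 1, ‖z - p‖ < r → (∀ i, ‖b i z‖ < r) →
      ∑ j, f j z * k j z = 1 ∧ ∀ j, ‖k j z‖ ≤ B) : ∃ j, X.φ (fun _ => f j) ≠ 0 := by
  classical
  by_contra hno
  push Not at hno
  choose C hC using fun i => (hb i).2.1
  obtain ⟨B', hB'⟩ : ∃ B' : ℝ, B' = |B| + ∑ i, |C i| := ⟨_, rfl⟩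
  have hCs : 0 ≤ ∑ i, |C i| := Finset.sum_nonneg fun i _ => abs_nonneg _
  have hBB : B ≤ B' := by rw [hB']; linarith [le_abs_self B]
  have hCB : ∀ i, C i ≤ B' := fun i => by
    have h1 : |C i| ≤ ∑ i, |C i| :=
      Finset.single_le_sum (f := fun i => |C i|) (fun _ _ => abs_nonneg _) (Finset.mem_univ i)
    rw [hB']
    linarith [le_abs_self (C i), abs_nonneg B]
  obtain ⟨g, g', A, hg1, hg2, hg3⟩ := hS (N + l) (Fin.append f b) (fun j => by
      refine Fin.addCases (fun i => ?_) (fun i => ?_) j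
      · rw [Fin.append_left]; exact hf i
      · rw [Fin.append_right]; exact (hb i).1)
    ⟨B', fun j => by
      refine Fin.addCases (fun i => ?_) (fun i => ?_) j
      · rw [Fin.append_left]; exact fun z hz => (hfB i z hz).trans hBB
      · rw [Fin.append_right]; exact fun z hz => (hC i z hz).trans (hCB i)⟩
    ⟨min (min (r ^ 2) ((r ^ 2 / 2) ^ 2)) (((B ^ 2 + 1) * ((N : ℝ) + 1))⁻¹),
      lt_min (lt_min (by positivity) (by positivity)) (by positivity), fun z hz => by
        rw [Fin.sum_univ_add]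
        simp only [Fin.append_left, Fin.append_right]
        have e1 : 0 ≤ ∑ j, ‖f j z‖ ^ 2 := Finset.sum_nonneg fun j _ => sq_nonneg _
        have e2 : 0 ≤ ∑ i, ‖b i z‖ ^ 2 := Finset.sum_nonneg fun j _ => sq_nonneg _
        have e3 : 0 ≤ ‖1 - ⟪p, z⟫_ℂ‖ ^ 2 := sq_nonneg _
        by_cases hzp : ‖z - p‖ < r
        · by_cases hbz : ∀ i, ‖b i z‖ < r
          · obtain ⟨h2, h3⟩ := hkz z hz hzp hbz
            have h4 := low h2 h3
            exact (min_le_right _ _).trans (by linarith)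
          · push Not at hbz
            obtain ⟨i, hi⟩ := hbz
            have h5 : ‖b i z‖ ^ 2 ≤ ∑ i, ‖b i z‖ ^ 2 :=
              Finset.single_le_sum (f := fun i => ‖b i z‖ ^ 2) (fun _ _ => by positivity)
                (Finset.mem_univ i)
            have h6 : r ^ 2 ≤ ‖b i z‖ ^ 2 := pow_le_pow_left₀ hr.le hi 2
            exact ((min_le_left _ _).trans (min_le_left _ _)).trans (by linarith)
        · have h4 : r ^ 2 / 2 ≤ ‖1 - ⟪p, z⟫_ℂ‖ := by
            by_contra h4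
            exact hzp (dist_lt hp (mem_ball_zero_iff.1 hz) hr (not_le.1 h4))
          have h5 : (r ^ 2 / 2) ^ 2 ≤ ‖1 - ⟪p, z⟫_ℂ‖ ^ 2 :=
            pow_le_pow_left₀ (by positivity) h4 2
          exact ((min_le_left _ _).trans (min_le_right _ _)).trans (by linarith)⟩
  have hsol := cellL hE hP hp (f := f) (b := b) (B := B') hf
    (fun j z hz => (hfB j z hz).trans hBB) hb hr (k := k) hk
    (fun z hz hzp hzb => ⟨(hkz z hz hzp hzb).1, fun j => ((hkz z hz hzp hzb).2 j).trans hBB⟩)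
    ⟨fun j => g (Fin.castAdd l j), fun i => g (Fin.natAdd N i), g', A, fun j => hg1 _,
      fun i => hg1 _, hg2, fun z hz => by
        obtain ⟨e1, e2, e3⟩ := hg3 z hz
        refine ⟨?_, fun j => e2 _, fun i => e2 _, e3⟩
        rw [Fin.sum_univ_add] at e1
        simp only [Fin.append_left, Fin.append_right] at e1
        exact e1⟩
  exact contra hp hX (f := f) (b := b) (fun j => ⟨fun _ => hf j, B, fun _ => hfB j⟩)
    (fun j => mix_bh (hb j)) hno hb0 hsol

/-- The tame functions are good at `p`, if the corona theorem holds on the range of `P`. -/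
theorem goodL (hE : 2 ≤ Module.finrank ℂ E) {P : E →L[ℂ] E} (hP : Prj P) {p : E} (hp : ‖p‖ = 1)
    (hS : ∀ N, SlM N P p) : GoodC p {u | MixN 1 (range P) p u} {u | MixN 1 (range P) p u} := by
  classical
  refine ⟨?_, ?_, ?_, fun c => MixN.const one_pos _ p c⟩
  · intro X hX m a ha s hs N f k B hf hfB hk hfk
    exact cell_charL hE hP hp hS hX (b := fun i z => a i z - X.φ (fun _ => a i)) (k := k)
      (fun i => (ha i).sub_const _) (fun i => char_sub (mix_bh (ha i))) hs hf hfB hk hfk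
  · intro X hX m a ha N v hv s hs
    by_contra hno
    push Not at hno
    obtain ⟨b, hb⟩ : ∃ b : Fin (m + N) → E → ℂ, b = Fin.append
      (fun i z => a i z - X.φ (fun _ => a i)) (fun j z => v j z - X.φ (fun _ => v j)) := ⟨_, rfl⟩
    have hbl : ∀ i : Fin m, b (Fin.castAdd N i) = fun z => a i z - X.φ (fun _ => a i) := fun i => by
      rw [hb]; exact Fin.append_left _ _ i
    have hbr : ∀ j : Fin N, b (Fin.natAdd m j) = fun z => v j z - X.φ (fun _ => v j) := fun j => by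
      rw [hb]; exact Fin.append_right _ _ j
    have hlow : ∀ z ∈ ball (0 : E) 1, ‖z - p‖ < s → ¬ ∀ i, ‖b i z‖ < s := by
      intro z hz hzp hcon
      obtain ⟨j, hj⟩ := hno z hz hzp fun i => by
        have h2 := hcon (Fin.castAdd N i)
        rw [hbl] at h2
        exact h2
      have h2 := hcon (Fin.natAdd m j)
      rw [hbr] at h2
      exact absurd h2 (not_lt.2 hj)
    obtain ⟨j, -⟩ := cell_charL hE hP hp hS hX (N := 0) (f := fun i => i.elim0) (b := b)
      (k := fun i => i.elim0) (B := 0) (fun i => by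
        refine Fin.addCases (fun i => ?_) (fun j => ?_) i
        · rw [hbl]; exact (ha i).sub_const _
        · rw [hbr]; exact (hv j).sub_const _)
      (fun i => by
        refine Fin.addCases (fun i => ?_) (fun j => ?_) i
        · rw [hbl]; exact char_sub (mix_bh (ha i))
        · rw [hbr]; exact char_sub (mix_bh (hv j)))
      hs (fun i => i.elim0) (fun i => i.elim0) (fun i => i.elim0)
      (fun z hz hzp h => absurd h (hlow z hz hzp))
    exact j.elim0
  · rintro u (hu | hu)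
    · exact ⟨hu.1, hu.2.1⟩
    · exact ⟨hu.1, hu.2.1⟩

end general

variable {n : ℕ}

end Pool.Agent.MPca0fc2.SP
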