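import Mathlib
import Pool.Agent.Lib.MP_ca0fc2_an.SP.S10

set_option autoImplicit false
set_option linter.unusedSectionVars false

open Metric Set MeasureTheory Filter Topology
open scoped InnerProductSpace ENNReal ContDiff

/-! # Families of complex subspaces -/

namespace Pool.Agent.MPca0fc2.SP

open Pool.Agent.Lib.MP_ca0fc2_an
open Pool.Agent.MPca0fc2.PT
open Pool.Agent.MPca0fc2.QT
open Pool.Agent.MPca0fc2.TS
open Pool.Agent.MPca0fc2.TE
open Pool.Agent.MPca0fc2.TK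
open Pool.Agent.MPca0fc2.VK
open Pool.Agent.MPca0fc2.PV
open Pool.Agent.MPca0fc2.CE

section general

variable {E : Type*} [NormedAddCommGroup E] [InnerProductSpace ℂ E] [FiniteDimensional ℂ E]
  [MeasurableSpace E] [BorelSpace E]

/-- The bounded holomorphic functions with `u (P z + r (z - P z)) → u z` uniformly as `r → 1`. -/
def AS (P : E →L[ℂ] E) (u : E → ℂ) : Prop :=
  DifferentiableOn ℂ u (ball 0 1) ∧ (∃ C : ℝ, ∀ z ∈ ball (0 : E) 1, ‖u z‖ ≤ C) ∧
    ∀ ε > 0, ∃ r₀ < 1, ∀ r : ℝ, r₀ ≤ r → r < 1 → ∀ z ∈ ball (0 : E) 1,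
      ‖u z - u (P z + (r : ℂ) • (z - P z))‖ ≤ ε

/-- the functions `F (P z + r (z - P z))`, `r < 1` -/
theorem CS.push {P : E →L[ℂ] E} (hP : Prj P) {r : ℝ} (hr0 : 0 ≤ r) (hr : r < 1)
    {F : E → ℂ} (hF : DifferentiableOn ℂ F (ball 0 1)) {C : ℝ}
    (hC : ∀ z ∈ ball (0 : E) 1, ‖F z‖ ≤ C) : CS P (fun z => F (pt P r z)) := by
  have hC0 : 0 ≤ C := (norm_nonneg _).trans (hC 0 (mem_ball_self one_pos))
  have hκ0 : 0 < 1 - r ^ 2 := by nlinarith
  have hmap : ∀ z ∈ ball (0 : E) 1, pt P r z ∈ ball (0 : E) 1 := fun z hz => by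
    rw [mem_ball_zero_iff] at hz ⊢
    exact (pt_le hP hr0 hr.le z).trans_lt hz
  have hdiff : DifferentiableOn ℂ (fun z => F (pt P r z)) (ball 0 1) :=
    hF.comp (pt_diff P r).differentiableOn hmap
  refine ⟨hdiff, ⟨C, fun z hz => hC _ (hmap z hz)⟩,
    fun k => 15 * (C + 1) / (1 - r ^ 2) * (√(1 / 2)) ^ k, ?_, ?_⟩
  · refine Summable.mul_left _ (summable_geometric_of_lt_one (Real.sqrt_nonneg _) ?_)
    rw [Real.sqrt_lt' one_pos]
    norm_num
  · intro k z hz hk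
    have hz1 : ‖z‖ < 1 := mem_ball_zero_iff.1 hz
    have hro : ro P z ≤ (1 / 2) ^ k := by
      rw [one_div, inv_pow, ← one_div, le_div_iff₀ (by positivity), mul_comm]
      exact hk
    have hC1 : (0 : ℝ) < C + 1 := by linarith
    have hFs : DifferentiableOn ℂ (fun z => (((C + 1)⁻¹ : ℝ) : ℂ) * F z) (ball 0 1) :=
      (differentiableOn_const _).mul hF
    have hFsM : ∀ z ∈ ball (0 : E) 1, ‖(((C + 1)⁻¹ : ℝ) : ℂ) * F z‖ ≤ 1 := fun z hz => by
      rw [norm_mul, Complex.norm_real, Real.norm_of_nonneg (by positivity),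
        inv_mul_le_iff₀ hC1, mul_one]
      linarith [hC z hz]
    have h5 := pv_grad hP hr0 hr hFs hFsM hz1
    have hda : DifferentiableAt ℂ (fun z => F (pt P r z)) z :=
      hdiff.differentiableAt (isOpen_ball.mem_nhds hz)
    have h6 : IG2 (fun z => (((C + 1)⁻¹ : ℝ) : ℂ) * F (pt P r z)) z =
        ((C + 1)⁻¹) ^ 2 * IG2 (fun z => F (pt P r z)) z := by
      unfold IG2
      rw [fderiv_const_mul hda, smul_apply, norm_smul, norm_smul,
        Complex.norm_real, Real.norm_of_nonneg (by positivity)]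
      ring
    have h7 : IG2 (fun z => F (pt P r z)) z ≤
        (15 * (C + 1) / (1 - r ^ 2) * (√(1 / 2)) ^ k) ^ 2 := by
      have h8 : ((C + 1)⁻¹) ^ 2 * IG2 (fun z => F (pt P r z)) z ≤
          225 / (1 - r ^ 2) ^ 2 * (1 / 2) ^ k := by
        rw [← h6]
        exact h5.trans (mul_le_mul_of_nonneg_left hro (by positivity))
      rw [inv_pow, inv_mul_le_iff₀ (by positivity)] at h8
      have h10 : (15 * (C + 1) / (1 - r ^ 2) * (√(1 / 2)) ^ k) ^ 2 =
          (15 * (C + 1) / (1 - r ^ 2)) ^ 2 * (1 / 2) ^ k := by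
        rw [mul_pow, ← pow_mul, mul_comm k 2, pow_mul, Real.sq_sqrt (by norm_num)]
      refine h8.trans (le_of_eq ?_)
      rw [h10]
      generalize 1 - r ^ 2 = κ
      ring
    exact Real.sqrt_le_iff.2 ⟨by positivity, h7⟩

/-- uniform limits of tame functions -/
theorem AS.approx {P : E →L[ℂ] E} (hP : Prj P) {u : E → ℂ} (h : AS P u) {ε : ℝ} (hε : 0 < ε) :
    ∃ v, CS P v ∧ ∀ z ∈ ball (0 : E) 1, ‖u z - v z‖ ≤ ε := by
  obtain ⟨h1, ⟨C, hC⟩, h2⟩ := h
  obtain ⟨r₀, hr₀, h3⟩ := h2 ε hε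
  have hr : max r₀ 0 < 1 := max_lt hr₀ one_pos
  exact ⟨_, CS.push hP (le_max_right r₀ 0) hr h1 hC, fun z hz =>
    h3 (max r₀ 0) (le_max_left _ _) hr z hz⟩

theorem RegC.adjoin (hE : 2 ≤ Module.finrank ℂ E) {S : Set E} {p : E} {A : Set (E → ℂ)}
    (hA : ∀ u ∈ A, u ∈ RegC {u | MixN 1 S p u} p) {u : E → ℂ} (hu : u ∈ Algebra.adjoin ℂ A) :
    u ∈ RegC {u | MixN 1 S p u} p := by
  have hE1 := exists_unit hE
  induction hu using Algebra.adjoin_induction with
  | mem u hu => exact hA u hu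
  | algebraMap c =>
    exact ⟨differentiableOn_const c, ⟨‖c‖, fun _ _ => le_rfl⟩, fun ε hε =>
      ⟨fun _ => c, MixN.const one_pos S p c, 1, one_pos, fun z _ _ => by
        rw [show (algebraMap ℂ (E → ℂ) c) z = c from rfl, sub_self, norm_zero]
        exact hε.le⟩⟩
  | add u v _ _ hu hv =>
    obtain ⟨hu1, ⟨C, hC⟩, hu2⟩ := hu
    obtain ⟨hv1, ⟨C', hC'⟩, hv2⟩ := hv
    refine ⟨hu1.add hv1, ⟨C + C', fun z hz => (norm_add_le _ _).trans
      (add_le_add (hC z hz) (hC' z hz))⟩, fun ε hε => ?_⟩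
    obtain ⟨F, hF, s, hs, h1⟩ := hu2 (ε / 2) (by positivity)
    obtain ⟨G, hG, t, ht, h2⟩ := hv2 (ε / 2) (by positivity)
    refine ⟨fun z => F z + G z, MixN.add hE1 (Or.inl rfl) hF hG, min s t, lt_min hs ht,
      fun z hz hzp => ?_⟩
    have e1 := h1 z hz (hzp.trans_le (min_le_left _ _))
    have e2 := h2 z hz (hzp.trans_le (min_le_right _ _))
    calc ‖(u + v) z - (F z + G z)‖ = ‖(u z - F z) + (v z - G z)‖ := by
          congr 1
          rw [Pi.add_apply]
          ring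
      _ ≤ ‖u z - F z‖ + ‖v z - G z‖ := norm_add_le _ _
      _ ≤ ε := by linarith
  | mul u v _ _ hu hv =>
    obtain ⟨hu1, ⟨C, hC⟩, hu2⟩ := hu
    obtain ⟨hv1, ⟨C', hC'⟩, hv2⟩ := hv
    have hC0 : 0 ≤ C := (norm_nonneg _).trans (hC 0 (mem_ball_self one_pos))
    have hC0' : 0 ≤ C' := (norm_nonneg _).trans (hC' 0 (mem_ball_self one_pos))
    refine ⟨hu1.mul hv1, ⟨C * C', fun z hz => by
      rw [Pi.mul_apply, norm_mul]
      exact mul_le_mul (hC z hz) (hC' z hz) (norm_nonneg _) hC0⟩, fun ε hε => ?_⟩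
    obtain ⟨η, hη⟩ : ∃ η : ℝ, η = min 1 (ε / (C + C' + 1)) := ⟨_, rfl⟩
    have hη0 : 0 < η := by rw [hη]; exact lt_min one_pos (by positivity)
    have hη1 : η ≤ 1 := by rw [hη]; exact min_le_left _ _
    have hη2 : η * (C + C' + 1) ≤ ε := by
      have : η ≤ ε / (C + C' + 1) := by rw [hη]; exact min_le_right _ _
      rwa [le_div_iff₀ (by positivity)] at this
    obtain ⟨F, hF, s, hs, h1⟩ := hu2 η hη0
    obtain ⟨G, hG, t, ht, h2⟩ := hv2 η hη0
    refine ⟨fun z => F z * G z, MixN.mul hE1 (Or.inl rfl) hF hG, min s t, lt_min hs ht,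
      fun z hz hzp => ?_⟩
    have e1 := h1 z hz (hzp.trans_le (min_le_left _ _))
    have e2 := h2 z hz (hzp.trans_le (min_le_right _ _))
    have e3 : ‖G z‖ ≤ C' + 1 := by
      have e4 := norm_sub_norm_le (G z) (v z)
      rw [norm_sub_rev] at e4
      linarith [hC' z hz]
    calc ‖(u * v) z - (F z * G z)‖ = ‖u z * (v z - G z) + (u z - F z) * G z‖ := by
          congr 1
          rw [Pi.mul_apply]
          ring
      _ ≤ ‖u z‖ * ‖v z - G z‖ + ‖u z - F z‖ * ‖G z‖ := by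
          refine (norm_add_le _ _).trans ?_
          rw [norm_mul, norm_mul]
      _ ≤ C * η + η * (C' + 1) := by
          refine add_le_add (mul_le_mul (hC z hz) e2 (norm_nonneg _) hC0)
            (mul_le_mul e1 e3 (norm_nonneg _) hη0.le)
      _ = η * (C + C' + 1) := by ring
      _ ≤ ε := hη2

theorem prj_star (V : Submodule ℂ E) : Prj (V.starProjection : E →L[ℂ] E) := by
  refine ⟨fun x => ?_, fun x y => ?_⟩
  · exact Submodule.starProjection_eq_self_iff.2 (V.starProjection_apply_mem x)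
  · exact V.inner_starProjection_left_eq_right x y

end general

variable {n : ℕ}

end Pool.Agent.MPca0fc2.SP
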