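import Mathlib
import Pool.Agent.Lib.MP_ca0fc2_an.SP.S11

set_option autoImplicit false
set_option linter.unusedSectionVars false

open Metric Set MeasureTheory Filter Topology
open scoped InnerProductSpace ENNReal ContDiff

/-! # The functions with summable gradient are uniformly continuous along the orthogonal planes -/

namespace Pool.Agent.MPca0fc2.SP

open Pool.Agent.Lib.MP_ca0fc2_an
open Pool.Agent.MPca0fc2.PT
open Pool.Agent.MPca0fc2.QT
open Pool.Agent.MPca0fc2.TS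
open Pool.Agent.MPca0fc2.TE
open Pool.Agent.MPca0fc2.TK
open Pool.Agent.MPca0fc2.VK
open Pool.Agent.MPca0fc2.PV
open Pool.Agent.MPca0fc2.CE

variable {E : Type*} [NormedAddCommGroup E] [InnerProductSpace ℂ E] [FiniteDimensional ℂ E]
  [MeasurableSpace E] [BorelSpace E]

theorem P_pt {P : E →L[ℂ] E} (hP : Prj P) (t : ℝ) (z : E) : P (pt P t z) = P z := by
  unfold pt
  rw [map_add, map_smul, map_sub, hP.idem, sub_self, smul_zero, add_zero]

/-- the quantities of one point -/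
structure Pt (P : E →L[ℂ] E) (z : E) (X : ℝ) : Prop where
  nonneg : 0 ≤ X
  lt : X < 1
  ro : ∀ t : ℝ, ro P (pt P t z) = 1 - t ^ 2 * X ^ 2
  pos : 0 < 1 - ‖P z‖ ^ 2
  norm : ‖z - P z‖ ^ 2 = X ^ 2 * (1 - ‖P z‖ ^ 2)

theorem exists_Pt {P : E →L[ℂ] E} (hP : Prj P) {z : E} (hz : z ∈ ball (0 : E) 1) :
    ∃ X, Pt P z X := by
  have hz1 : ‖z‖ < 1 := mem_ball_zero_iff.1 hz
  have hpy := pyth hP z
  have hz2 : ‖z‖ ^ 2 < 1 := by nlinarith [norm_nonneg z]
  have ha : 0 < 1 - ‖P z‖ ^ 2 := by nlinarith [sq_nonneg ‖z - P z‖]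
  obtain ⟨X, hX⟩ : ∃ X : ℝ, X = √(‖z - P z‖ ^ 2 / (1 - ‖P z‖ ^ 2)) := ⟨_, rfl⟩
  have hX2 : X ^ 2 = ‖z - P z‖ ^ 2 / (1 - ‖P z‖ ^ 2) := by
    rw [hX]; exact Real.sq_sqrt (by positivity)
  have hX0 : 0 ≤ X := by rw [hX]; exact Real.sqrt_nonneg _
  refine ⟨X, hX0, ?_, fun t => ?_, ha, ?_⟩
  · have h1 : X ^ 2 < 1 := by
      rw [hX2, div_lt_one ha]
      linarith
    nlinarith
  · unfold PV.ro
    rw [P_pt hP, Dp_eq hP, hX2]
    unfold Dp
    field_simp
  · rw [hX2]
    field_simp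

/-- variation on a segment -/
theorem seg {P : E →L[ℂ] E} (hP : Prj P) {u : E → ℂ} (hu : DifferentiableOn ℂ u (ball 0 1))
    {z : E} (hz : z ∈ ball (0 : E) 1) {X : ℝ} (hX : Pt P z X) {t' t K θ : ℝ} (h0 : 0 ≤ t')
    (h1 : t' ≤ t) (h2 : t ≤ 1) (hK : ∀ s ∈ Icc t' t, Real.sqrt (IG2 u (pt P s z)) ≤ K)
    (hθ : 0 < θ) (hθt : θ ≤ 1 - t ^ 2 * X ^ 2) :
    ‖u (pt P t z) - u (pt P t' z)‖ ≤ 6 * K * (X * (t - t')) / θ := by
  have hz1 : ‖z‖ < 1 := mem_ball_zero_iff.1 hz
  have hXn := hX.nonneg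
  have hK0 : 0 ≤ K := (Real.sqrt_nonneg _).trans (hK t' ⟨le_rfl, h1⟩)
  have hptb : ∀ s ∈ Icc t' t, pt P s z ∈ ball (0 : E) 1 := fun s hs => by
    rw [mem_ball_zero_iff]
    exact (pt_le hP (h0.trans hs.1) (hs.2.trans h2) z).trans_lt hz1
  have hder : ∀ s ∈ Icc t' t, HasDerivAt (fun s : ℝ => u (pt P s z))
      (fderiv ℂ u (pt P s z) (z - P z)) s := by
    intro s hs
    have e1 : HasDerivAt (fun s : ℝ => pt P s z) (z - P z) s := by
      have e2 : HasDerivAt (fun s : ℝ => (s : ℂ)) 1 s := Complex.ofRealCLM.hasDerivAt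
      have e3 := (e2.smul_const (z - P z)).const_add (P z)
      rw [one_smul] at e3
      exact e3
    have e4 : HasFDerivAt u ((fderiv ℂ u (pt P s z)).restrictScalars ℝ) (pt P s z) :=
      ((hu.differentiableAt (isOpen_ball.mem_nhds (hptb s hs))).hasFDerivAt).restrictScalars ℝ
    exact e4.comp_hasDerivAt s e1
  have hbd : ∀ s ∈ Icc t' t, ‖fderiv ℂ u (pt P s z) (z - P z)‖ ≤ 6 * K * X / θ := by
    intro s hs
    have hs0 : 0 ≤ s := h0.trans hs.1
    have hs1 : s ≤ 1 := hs.2.trans h2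
    have e1 := grad_le (u := u) (mem_ball_zero_iff.1 (hptb s hs)) (z - P z)
    have ha := hX.pos
    have hro := hX.ro s
    have hθs : θ ≤ 1 - s ^ 2 * X ^ 2 := by
      have : s ^ 2 ≤ t ^ 2 := pow_le_pow_left₀ hs0 hs.2 2
      nlinarith [mul_le_mul_of_nonneg_right this (sq_nonneg X)]
    have hq : 0 < 1 - s ^ 2 * X ^ 2 := hθ.trans_le hθs
    have hD : 1 - ‖pt P s z‖ ^ 2 = (1 - s ^ 2 * X ^ 2) * (1 - ‖P z‖ ^ 2) := by
      unfold PV.ro at hro
      rw [P_pt hP, div_eq_iff ha.ne'] at hro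
      exact hro
    have hin : ⟪pt P s z, z - P z⟫_ℂ = ((s * ‖z - P z‖ ^ 2 : ℝ) : ℂ) := by
      have e2 : ⟪P z, z - P z⟫_ℂ = 0 := by
        rw [hP.sa, map_sub, hP.idem, sub_self, inner_zero_right]
      unfold pt
      rw [inner_add_left, e2, zero_add, inner_smul_left, Complex.conj_ofReal,
        inner_self_eq_norm_sq_to_K, Complex.ofReal_mul, Complex.ofReal_pow]
      rfl
    have hgau : gau (1 - ‖pt P s z‖ ^ 2) (pt P s z) (z - P z) ≤ 2 * X / (1 - s ^ 2 * X ^ 2) := by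
      unfold gau
      rw [hin, hD, Complex.norm_real, Real.norm_of_nonneg (by positivity), hX.norm]
      have e3 : ‖z - P z‖ = X * √(1 - ‖P z‖ ^ 2) := by
        have e4 := hX.norm
        have e5 : ‖z - P z‖ = √(‖z - P z‖ ^ 2) := (Real.sqrt_sq (norm_nonneg _)).symm
        rw [e5, e4, Real.sqrt_mul (sq_nonneg X), Real.sqrt_sq hXn]
      rw [e3, Real.sqrt_mul hq.le]
      have e6 : s * (X ^ 2 * (1 - ‖P z‖ ^ 2)) / ((1 - s ^ 2 * X ^ 2) * (1 - ‖P z‖ ^ 2)) =
          s * X ^ 2 / (1 - s ^ 2 * X ^ 2) := by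
        field_simp
      have e7 : X * √(1 - ‖P z‖ ^ 2) / (√(1 - s ^ 2 * X ^ 2) * √(1 - ‖P z‖ ^ 2)) =
          X / √(1 - s ^ 2 * X ^ 2) := by
        have := (Real.sqrt_pos.2 ha).ne'
        field_simp
      rw [e6, e7]
      have e8 : s * X ^ 2 / (1 - s ^ 2 * X ^ 2) ≤ X / (1 - s ^ 2 * X ^ 2) := by
        refine div_le_div_of_nonneg_right ?_ hq.le
        have := hX.lt
        nlinarith [mul_le_mul_of_nonneg_left hs1 (sq_nonneg X)]
      have e9 : X / √(1 - s ^ 2 * X ^ 2) ≤ X / (1 - s ^ 2 * X ^ 2) := by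
        refine div_le_div_of_nonneg_left hXn hq ?_
        have e10 : 1 - s ^ 2 * X ^ 2 ≤ 1 := by nlinarith [mul_nonneg (sq_nonneg s) (sq_nonneg X)]
        exact Real.le_sqrt_of_sq_le (by nlinarith)
      calc _ ≤ X / (1 - s ^ 2 * X ^ 2) + X / (1 - s ^ 2 * X ^ 2) := add_le_add e8 e9
        _ = 2 * X / (1 - s ^ 2 * X ^ 2) := by ring
    have e11 : 2 * X / (1 - s ^ 2 * X ^ 2) ≤ 2 * X / θ :=
      div_le_div_of_nonneg_left (by positivity) hθ hθs
    calc ‖fderiv ℂ u (pt P s z) (z - P z)‖ ≤ 3 * Real.sqrt (IG2 u (pt P s z)) *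
          gau (1 - ‖pt P s z‖ ^ 2) (pt P s z) (z - P z) := e1
      _ ≤ 3 * K * (2 * X / θ) := by
          refine mul_le_mul (mul_le_mul_of_nonneg_left (hK s hs) (by norm_num))
            (hgau.trans e11) ?_ (by positivity)
          have e12 : 0 ≤ 1 - ‖pt P s z‖ ^ 2 := by rw [hD]; positivity
          unfold gau
          positivity
      _ = 6 * K * X / θ := by ring
  have h3 := Convex.norm_image_sub_le_of_norm_hasDerivWithin_le (f := fun s : ℝ => u (pt P s z))
    (f' := fun s => fderiv ℂ u (pt P s z) (z - P z)) (s := Icc t' t)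
    (C := 6 * K * X / θ) (x := t') (y := t) (fun s hs => (hder s hs).hasDerivWithinAt) hbd
    (convex_Icc t' t) ⟨le_rfl, h1⟩ ⟨h1, le_rfl⟩
  rw [Real.norm_of_nonneg (by linarith)] at h3
  refine h3.trans (le_of_eq ?_)
  ring

theorem CS.as {P : E →L[ℂ] E} (hP : Prj P) {u : E → ℂ} (h : CS P u) : AS P u := by
  obtain ⟨hu, ⟨C, hC⟩, W, hW, hWb⟩ := h
  obtain ⟨B₀, hB₀⟩ := W6_IG_bdd hu hC
  obtain ⟨B, hBd⟩ : ∃ B : ℝ, B = |B₀| + 1 := ⟨_, rfl⟩
  have hB0 : 0 < B := by rw [hBd]; positivity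
  have hB : ∀ z ∈ ball (0 : E) 1, Real.sqrt (IG2 u z) ≤ B := fun z hz => by
    have := hB₀ z hz
    rw [← Real.sqrt_eq_rpow] at this
    rw [hBd]
    linarith [le_abs_self B₀]
  -- the chain
  have chain : ∀ z ∈ ball (0 : E) 1, ∀ X, Pt P z X → ∀ r : ℝ, 0 ≤ r → r < 1 → ∀ J : ℕ, 1 ≤ J →
      ∀ m : ℕ, ∀ t ∈ Icc r 1, (1 / 2 : ℝ) ^ (J + m) ≤ 1 - t ^ 2 * X ^ 2 →
        ‖u (pt P t z) - u (pt P r z)‖ ≤
          6 * B * 2 ^ J * (1 - r) + 6 * ∑ i ∈ Finset.range m, |W (J + i)| := by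
    intro z hz X hX r hr0 hr1 J hJ m
    have hz1 : ‖z‖ < 1 := mem_ball_zero_iff.1 hz
    have hXn := hX.nonneg
    have hptb : ∀ s : ℝ, 0 ≤ s → s ≤ 1 → pt P s z ∈ ball (0 : E) 1 := fun s hs hs1 => by
      rw [mem_ball_zero_iff]
      exact (pt_le hP hs hs1 z).trans_lt hz1
    induction m with
    | zero =>
      intro t ht hθ
      rw [add_zero] at hθ
      have e1 := seg hP hu hz hX hr0 ht.1 ht.2 (K := B)
        (fun s hs => hB _ (hptb s (hr0.trans hs.1) (hs.2.trans ht.2)))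
        (θ := (1 / 2 : ℝ) ^ J) (by positivity) hθ
      refine e1.trans ?_
      rw [Finset.sum_range_zero, mul_zero, add_zero, div_le_iff₀ (by positivity)]
      have e2 : (2 : ℝ) ^ J * (1 / 2) ^ J = 1 := by
        rw [← mul_pow]; norm_num
      have e3 : X * (t - r) ≤ 1 - r := by
        have := hX.lt
        nlinarith [ht.1, ht.2]
      calc 6 * B * (X * (t - r)) ≤ 6 * B * (1 - r) := by
            exact mul_le_mul_of_nonneg_left e3 (by positivity)
        _ = 6 * B * 2 ^ J * (1 - r) * (1 / 2) ^ J := by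
            linear_combination (-(6 * B * (1 - r))) * e2
    | succ m ih =>
      intro t ht hθ
      have hWn : 0 ≤ |W (J + m)| := abs_nonneg _
      rw [Finset.sum_range_succ]
      by_cases hc : (1 / 2 : ℝ) ^ (J + m) ≤ 1 - t ^ 2 * X ^ 2
      · have := ih t ht hc
        linarith
      · push Not at hc
        have hpow1 : (1 / 2 : ℝ) ^ (J + m) ≤ 1 / 2 := by
          calc (1 / 2 : ℝ) ^ (J + m) ≤ (1 / 2) ^ 1 :=
                pow_le_pow_of_le_one (by norm_num) (by norm_num) (by omega)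
            _ = 1 / 2 := pow_one _
        have hpow0 : (0 : ℝ) < (1 / 2) ^ (J + m) := by positivity
        have hXpos : 0 < X := by
          rcases hXn.lt_or_eq with h1 | h1
          · exact h1
          · rw [← h1] at hc
            norm_num at hc
            linarith
        have ht0 : 0 ≤ t := hr0.trans ht.1
        -- the point `t'`
        obtain ⟨t', hr', ht't, ht'1, ht'2⟩ : ∃ t' : ℝ, r ≤ t' ∧ t' ≤ t ∧
            1 - t' ^ 2 * X ^ 2 ≤ (1 / 2 : ℝ) ^ (J + m) ∧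
            ‖u (pt P t' z) - u (pt P r z)‖ ≤
              6 * B * 2 ^ J * (1 - r) + 6 * ∑ i ∈ Finset.range m, |W (J + i)| := by
          by_cases hrr : 1 - r ^ 2 * X ^ 2 ≤ (1 / 2 : ℝ) ^ (J + m)
          · refine ⟨r, le_rfl, ht.1, hrr, ?_⟩
            rw [sub_self, norm_zero]
            have e1 : 0 ≤ ∑ i ∈ Finset.range m, |W (J + i)| :=
              Finset.sum_nonneg fun _ _ => abs_nonneg _
            have e2 : 0 ≤ 6 * B * 2 ^ J * (1 - r) := by
              have : 0 ≤ 1 - r := by linarith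
              positivity
            linarith
          · push Not at hrr
            obtain ⟨t', ht'⟩ : ∃ t' : ℝ, t' = √(1 - (1 / 2 : ℝ) ^ (J + m)) / X := ⟨_, rfl⟩
            have ht'0 : 0 ≤ t' := by rw [ht']; positivity
            have ht'X : t' ^ 2 * X ^ 2 = 1 - (1 / 2 : ℝ) ^ (J + m) := by
              rw [ht', div_pow, Real.sq_sqrt (by linarith)]
              field_simp
            have e1 : r ≤ t' := by
              have h1 : r ^ 2 ≤ t' ^ 2 := by
                have : r ^ 2 * X ^ 2 ≤ t' ^ 2 * X ^ 2 := by rw [ht'X]; linarith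
                exact le_of_mul_le_mul_right this (by positivity)
              exact le_of_sq_le_sq h1 ht'0
            have e2 : t' ≤ t := by
              have h1 : t' ^ 2 ≤ t ^ 2 := by
                have : t' ^ 2 * X ^ 2 ≤ t ^ 2 * X ^ 2 := by rw [ht'X]; linarith
                exact le_of_mul_le_mul_right this (by positivity)
              exact le_of_sq_le_sq h1 ht0
            exact ⟨t', e1, e2, by rw [ht'X]; linarith, ih t' ⟨e1, e2.trans ht.2⟩
              (by rw [ht'X]; linarith)⟩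
        have ht'0 : 0 ≤ t' := hr0.trans hr'
        have e1 := seg hP hu hz hX ht'0 ht't ht.2 (K := |W (J + m)|)
          (fun s hs => by
            have hs0 : 0 ≤ s := ht'0.trans hs.1
            refine (hWb (J + m) _ (hptb s hs0 (hs.2.trans ht.2)) ?_).trans (le_abs_self _)
            rw [hX.ro s]
            have e2 : 1 - s ^ 2 * X ^ 2 ≤ (1 / 2 : ℝ) ^ (J + m) := by
              have h1 : t' ^ 2 ≤ s ^ 2 := pow_le_pow_left₀ ht'0 hs.1 2
              nlinarith [mul_le_mul_of_nonneg_right h1 (sq_nonneg X)]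
            calc (2 : ℝ) ^ (J + m) * (1 - s ^ 2 * X ^ 2) ≤ 2 ^ (J + m) * (1 / 2) ^ (J + m) :=
                  mul_le_mul_of_nonneg_left e2 (by positivity)
              _ = 1 := by rw [← mul_pow]; norm_num)
          (θ := (1 / 2 : ℝ) ^ (J + (m + 1))) (by positivity) hθ
        have e3 : X * (t - t') ≤ (1 / 2 : ℝ) ^ (J + (m + 1)) := by
          have h1 : (1 / 2 : ℝ) ^ (J + m) = 2 * (1 / 2) ^ (J + (m + 1)) := by
            rw [← add_assoc, pow_succ]; ring
          have h2 : (t ^ 2 - t' ^ 2) * X ^ 2 ≤ (1 / 2 : ℝ) ^ (J + (m + 1)) := by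
            rw [h1] at ht'1
            linarith
          have h3 : 1 / 2 ≤ t' * X := by
            have h4 : (1 / 2 : ℝ) ^ 2 ≤ (t' * X) ^ 2 := by
              rw [mul_pow]
              linarith
            exact le_of_sq_le_sq h4 (by positivity)
          have h5 : 1 ≤ (t + t') * X := by nlinarith
          have h6 : 0 ≤ X * (t - t') := mul_nonneg hXn (by linarith)
          calc X * (t - t') ≤ X * (t - t') * ((t + t') * X) := le_mul_of_one_le_right h6 h5
            _ = (t ^ 2 - t' ^ 2) * X ^ 2 := by ring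
            _ ≤ _ := h2
        have e4 : ‖u (pt P t z) - u (pt P t' z)‖ ≤ 6 * |W (J + m)| := by
          refine e1.trans ?_
          rw [div_le_iff₀ (by positivity)]
          exact mul_le_mul_of_nonneg_left e3 (by positivity)
        calc ‖u (pt P t z) - u (pt P r z)‖ =
            ‖(u (pt P t z) - u (pt P t' z)) + (u (pt P t' z) - u (pt P r z))‖ := by
              congr 1; ring
          _ ≤ ‖u (pt P t z) - u (pt P t' z)‖ + ‖u (pt P t' z) - u (pt P r z)‖ := norm_add_le _ _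
          _ ≤ _ := by linarith
  refine ⟨hu, ⟨C, hC⟩, fun ε hε => ?_⟩
  have hWa : Summable fun i => |W i| := hW.abs
  -- the tail
  have htail := tendsto_sum_nat_add fun i => |W i|
  obtain ⟨J, hJ1, hJ⟩ : ∃ J : ℕ, 1 ≤ J ∧ ∑' i, |W (i + J)| < ε / 12 := by
    have h1 := (htail.eventually (gt_mem_nhds (show (0 : ℝ) < ε / 12 by positivity))).and
      (Filter.eventually_ge_atTop 1)
    obtain ⟨J, h2, h3⟩ := h1.exists
    exact ⟨J, h3, h2⟩
  refine ⟨max 0 (1 - ε / (12 * B * 2 ^ J)), max_lt one_pos (by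
    have : 0 < ε / (12 * B * 2 ^ J) := by positivity
    linarith), fun r hr hr1 z hz => ?_⟩
  have hr0 : 0 ≤ r := (le_max_left _ _).trans hr
  have hr2 : 1 - r ≤ ε / (12 * B * 2 ^ J) := by
    have := (le_max_right _ _).trans hr
    linarith
  obtain ⟨X, hX⟩ := exists_Pt hP hz
  have hXn := hX.nonneg
  have hX1 : 0 < 1 - X ^ 2 := by
    have := hX.lt
    nlinarith
  obtain ⟨m, hm⟩ := exists_pow_lt_of_lt_one hX1 (show (1 / 2 : ℝ) < 1 by norm_num)
  have h1 := chain z hz X hX r hr0 hr1 J hJ1 m 1 ⟨hr1.le, le_rfl⟩ (by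
    rw [one_pow, one_mul]
    refine le_trans ?_ hm.le
    exact pow_le_pow_of_le_one (by norm_num) (by norm_num) (by omega))
  rw [pt_one] at h1
  have h2 : 6 * B * 2 ^ J * (1 - r) ≤ ε / 2 := by
    calc 6 * B * 2 ^ J * (1 - r) ≤ 6 * B * 2 ^ J * (ε / (12 * B * 2 ^ J)) :=
          mul_le_mul_of_nonneg_left hr2 (by positivity)
      _ = ε / 2 := by field_simp; ring
  have h3 : ∑ i ∈ Finset.range m, |W (J + i)| ≤ ε / 12 := by
    have h4 : Summable fun i => |W (i + J)| := (summable_nat_add_iff J).2 hWa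
    calc ∑ i ∈ Finset.range m, |W (J + i)| = ∑ i ∈ Finset.range m, |W (i + J)| :=
          Finset.sum_congr rfl fun i _ => by rw [add_comm]
      _ ≤ ∑' i, |W (i + J)| := h4.sum_le_tsum _ fun _ _ => abs_nonneg _
      _ ≤ ε / 12 := hJ.le
  exact h1.trans (by linarith)

end Pool.Agent.MPca0fc2.SP
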