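import Mathlib
import Pool.Agent.Lib.MP_ca0fc2_an.SP.S12

set_option autoImplicit false
set_option linter.unusedSectionVars false

open Metric Set MeasureTheory Filter Topology
open scoped InnerProductSpace ENNReal ContDiff

/-! # Functions which are polynomials along the orthogonal planes -/

namespace Pool.Agent.MPca0fc2.SP

open Pool.Agent.Lib.MP_ca0fc2_an
open Pool.Agent.MPca0fc2.PT
open Pool.Agent.MPca0fc2.QT
open Pool.Agent.MPca0fc2.TS
open Pool.Agent.MPca0fc2.TE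
open Pool.Agent.MPca0fc2.TK
open Pool.Agent.MPca0fc2.VK
open Pool.Agent.MPca0fc2.PV
open Pool.Agent.MPca0fc2.CE

/-- Cauchy estimates for the coefficients of a polynomial -/
theorem coeff_le {d : ℕ} {c : Fin (d + 1) → ℂ} {M : ℝ}
    (h : ∀ t : ℂ, ‖t‖ ≤ 1 → ‖∑ i, c i * t ^ (i : ℕ)‖ ≤ M) (i : Fin (d + 1)) : ‖c i‖ ≤ M := by
  have hM : 0 ≤ M := (norm_nonneg _).trans (h 0 (by simp))
  have hc : ∀ j : Fin (d + 1), ∀ z ∈ sphere (0 : ℂ) 1,
      c j * z ^ (j : ℕ) * (z ^ ((i : ℕ) + 1))⁻¹ = c j * (z - 0) ^ ((j : ℤ) - (i : ℤ) - 1) := by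
    intro j z hz
    have hz0 : z ≠ 0 := by
      rintro rfl
      simp at hz
    rw [sub_zero, mul_assoc]
    congr 1
    rw [← zpow_natCast z (j : ℕ), ← zpow_natCast z ((i : ℕ) + 1), ← zpow_neg, ← zpow_add₀ hz0]
    congr 1
    push_cast
    ring
  have h1 : (∮ z in C(0, 1), (∑ j, c j * z ^ (j : ℕ)) * (z ^ ((i : ℕ) + 1))⁻¹) =
      c i * (2 * Real.pi * Complex.I) := by
    have e1 : (∮ z in C(0, 1), (∑ j, c j * z ^ (j : ℕ)) * (z ^ ((i : ℕ) + 1))⁻¹) =
        ∮ z in C(0, 1), ∑ j, c j * (z - 0) ^ ((j : ℤ) - (i : ℤ) - 1) := by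
      refine circleIntegral.integral_congr zero_le_one fun z hz => ?_
      show (∑ j, c j * z ^ (j : ℕ)) * (z ^ ((i : ℕ) + 1))⁻¹ =
        ∑ j : Fin (d + 1), c j * (z - 0) ^ ((j : ℤ) - (i : ℤ) - 1)
      rw [Finset.sum_mul]
      exact Finset.sum_congr rfl fun j _ => hc j z hz
    have hint : ∀ j ∈ (Finset.univ : Finset (Fin (d + 1))),
        CircleIntegrable (fun z : ℂ => c j * (z - 0) ^ ((j : ℤ) - (i : ℤ) - 1)) 0 1 := by
      intro j _
      refine ContinuousOn.circleIntegrable zero_le_one ?_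
      refine continuousOn_const.mul (ContinuousOn.zpow₀ (by fun_prop) _ fun z hz => Or.inl ?_)
      intro h0
      rw [sub_zero] at h0
      rw [h0] at hz
      simp at hz
    rw [e1, circleIntegral.integral_fun_sum hint]
    rw [Finset.sum_eq_single i]
    · rw [circleIntegral.integral_const_mul]
      have e2 : ((i : ℤ) - (i : ℤ) - 1) = -1 := by ring
      rw [e2]
      congr 1
      simp only [zpow_neg_one]
      exact circleIntegral.integral_sub_inv_of_mem_ball (by simp)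
    · intro j _ hj
      rw [circleIntegral.integral_const_mul, circleIntegral.integral_sub_zpow_of_ne, mul_zero]
      intro h0
      apply hj
      have : (j : ℤ) = (i : ℤ) := by linarith
      exact Fin.ext (by exact_mod_cast this)
    · intro h0
      exact absurd (Finset.mem_univ _) h0
  have h2 : ‖∮ z in C(0, 1), (∑ j, c j * z ^ (j : ℕ)) * (z ^ ((i : ℕ) + 1))⁻¹‖ ≤
      2 * Real.pi * 1 * M := by
    refine circleIntegral.norm_integral_le_of_norm_le_const zero_le_one fun z hz => ?_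
    have hz1 : ‖z‖ = 1 := by simpa using hz
    rw [norm_mul, norm_inv, norm_pow, hz1, one_pow, inv_one, mul_one]
    exact h z hz1.le
  rw [h1, norm_mul] at h2
  have h3 : ‖(2 * Real.pi * Complex.I : ℂ)‖ = 2 * Real.pi := by
    rw [norm_mul, norm_mul, Complex.norm_I, mul_one, Complex.norm_real,
      Real.norm_of_nonneg Real.pi_pos.le]
    norm_num
  rw [h3] at h2
  have h4 := Real.pi_pos
  nlinarith

/-- `1 - r ^ i ≤ i (1 - r)` -/
theorem one_sub_pow_le {r : ℝ} (h0 : 0 ≤ r) (h1 : r ≤ 1) (i : ℕ) : 1 - r ^ i ≤ i * (1 - r) := by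
  induction i with
  | zero => simp
  | succ i ih =>
    have h2 : r ^ i ≤ 1 := pow_le_one₀ h0 h1
    have h3 : 0 ≤ r ^ i := pow_nonneg h0 i
    push_cast
    rw [pow_succ]
    nlinarith

variable {E : Type*} [NormedAddCommGroup E] [InnerProductSpace ℂ E] [FiniteDimensional ℂ E]
  [MeasurableSpace E] [BorelSpace E]

/-- Functions which are polynomials of bounded degree along the orthogonal planes. -/
theorem AS.of_poly {P : E →L[ℂ] E} (hP : Prj P) {u : E → ℂ}
    (h1 : DifferentiableOn ℂ u (ball 0 1)) (h2 : ∃ C : ℝ, ∀ z ∈ ball (0 : E) 1, ‖u z‖ ≤ C) {d : ℕ}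
    (h : ∀ z ∈ ball (0 : E) 1, ∃ c : Fin (d + 1) → ℂ, ∀ t : ℂ, ‖t‖ ≤ 1 →
      u (P z + t • (z - P z)) = ∑ i, c i * t ^ (i : ℕ)) : AS P u := by
  obtain ⟨C, hC⟩ := h2
  have hC0 : 0 ≤ C := (norm_nonneg _).trans (hC 0 (mem_ball_self one_pos))
  refine ⟨h1, ⟨C, hC⟩, fun ε hε => ?_⟩
  obtain ⟨K, hK⟩ : ∃ K : ℝ, K = ((d : ℝ) + 1) * ((d + 1) * (C + 1)) := ⟨_, rfl⟩
  have hK0 : 0 < K := by rw [hK]; positivity
  refine ⟨max 0 (1 - ε / K), max_lt one_pos (by
    have : 0 < ε / K := by positivity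
    linarith), fun r hr hr1 z hz => ?_⟩
  have hr0 : 0 ≤ r := (le_max_left _ _).trans hr
  have hr2 : 1 - r ≤ ε / K := by
    have := (le_max_right _ _).trans hr
    linarith
  obtain ⟨c, hc⟩ := h z hz
  have hz1 := mem_ball_zero_iff.1 hz
  have hmap : ∀ t : ℂ, ‖t‖ ≤ 1 → P z + t • (z - P z) ∈ ball (0 : E) 1 := by
    intro t ht
    have e1 : ‖P z + t • (z - P z)‖ ^ 2 = ‖P z‖ ^ 2 + ‖t‖ ^ 2 * ‖z - P z‖ ^ 2 := by
      rw [norm_add_sq (𝕜 := ℂ), inner_smul_right]
      have e2 : ⟪P z, z - P z⟫_ℂ = 0 := by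
        rw [hP.sa, map_sub, hP.idem, sub_self, inner_zero_right]
      rw [e2, mul_zero, map_zero, norm_smul]
      ring
    have hpy := pyth hP z
    have e3 : ‖t‖ ^ 2 ≤ 1 := pow_le_one₀ (norm_nonneg _) ht
    have e4 : ‖P z + t • (z - P z)‖ ^ 2 ≤ ‖z‖ ^ 2 := by
      rw [e1, hpy]
      nlinarith [sq_nonneg ‖z - P z‖]
    rw [mem_ball_zero_iff]
    exact (le_of_sq_le_sq e4 (norm_nonneg _)).trans_lt hz1
  have hci : ∀ i, ‖c i‖ ≤ C := coeff_le fun t ht => by
    rw [← hc t ht]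
    exact hC _ (hmap t ht)
  have e5 := hc 1 (by simp)
  have e6 := hc (r : ℂ) (by rw [Complex.norm_real, Real.norm_of_nonneg hr0]; exact hr1.le)
  rw [one_smul, add_sub_cancel] at e5
  rw [e5, e6, ← Finset.sum_sub_distrib]
  calc ‖∑ i : Fin (d + 1), (c i * 1 ^ (i : ℕ) - c i * (r : ℂ) ^ (i : ℕ))‖
      ≤ ∑ i : Fin (d + 1), ‖c i * 1 ^ (i : ℕ) - c i * (r : ℂ) ^ (i : ℕ)‖ := norm_sum_le _ _
    _ ≤ ∑ _i : Fin (d + 1), (C + 1) * ((d + 1) * (1 - r)) := by
        refine Finset.sum_le_sum fun i _ => ?_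
        rw [← mul_sub, norm_mul, one_pow]
        have e7 : ‖(1 : ℂ) - (r : ℂ) ^ (i : ℕ)‖ = 1 - r ^ (i : ℕ) := by
          rw [← Complex.ofReal_one, ← Complex.ofReal_pow, ← Complex.ofReal_sub, Complex.norm_real,
            Real.norm_of_nonneg]
          have := pow_le_one₀ (n := (i : ℕ)) hr0 hr1.le
          linarith
        rw [e7]
        have e8 := one_sub_pow_le hr0 hr1.le (i : ℕ)
        have e9 : ((i : ℕ) : ℝ) ≤ d + 1 := by
          have := i.2
          exact_mod_cast this.le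
        have e10 : 0 ≤ 1 - r := by linarith
        refine mul_le_mul ((hci i).trans (by linarith)) (e8.trans
          (mul_le_mul_of_nonneg_right e9 e10)) ?_ (by linarith)
        have := pow_le_one₀ (n := (i : ℕ)) hr0 hr1.le
        linarith
    _ = K * (1 - r) := by
        rw [Finset.sum_const, Finset.card_univ, Fintype.card_fin, nsmul_eq_mul, hK]
        push_cast
        ring
    _ ≤ K * (ε / K) := mul_le_mul_of_nonneg_left hr2 hK0.le
    _ = ε := by field_simp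

end Pool.Agent.MPca0fc2.SP
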