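import Mathlib
import Pool.Agent.Lib.MP_ca0fc2_an.SP.S13

set_option autoImplicit false
set_option linter.unusedSectionVars false

open Metric Set MeasureTheory Filter Topology
open scoped InnerProductSpace ENNReal ContDiff

/-! # Functions with summable gradient off a set; automorphisms -/

namespace Pool.Agent.MPca0fc2.SP

open Pool.Agent.Lib.MP_ca0fc2_an
open Pool.Agent.MPca0fc2.PT
open Pool.Agent.MPca0fc2.QT
open Pool.Agent.MPca0fc2.TS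
open Pool.Agent.MPca0fc2.TE
open Pool.Agent.MPca0fc2.TK
open Pool.Agent.MPca0fc2.VK
open Pool.Agent.MPca0fc2.PV
open Pool.Agent.MPca0fc2.CE

variable {E : Type*} [NormedAddCommGroup E] [InnerProductSpace ℂ E] [FiniteDimensional ℂ E]
  [MeasurableSpace E] [BorelSpace E]

theorem calm_in {M S : Set E} (h : ∀ b ∈ M, ‖b‖ < 1 → b ∈ S) {u : E → ℂ} (hu : Calm 1 M u) (p : E) :
    MixN 1 S p u := by
  obtain ⟨h1, h2, W, hW, h3⟩ := hu
  refine mix_of h1 h2 one_pos hW fun k z hz _ hS => ?_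
  have h4 := h3 k z hz fun b hb hb1 => hS b (h b hb hb1) hb1
  rw [Real.sqrt_eq_rpow]
  exact h4

/-- `‖w - z‖² ≤ 2 |1 - ⟪w, z⟫|` in the ball -/
theorem dist_le_den {w z : E} (hw : ‖w‖ < 1) (hz : ‖z‖ < 1) : ‖w - z‖ ^ 2 ≤ 2 * ‖1 - ⟪w, z⟫_ℂ‖ := by
  have h1 : ‖w - z‖ ^ 2 = ‖w‖ ^ 2 - 2 * (⟪w, z⟫_ℂ).re + ‖z‖ ^ 2 := norm_sub_sq (𝕜 := ℂ) w z
  have h2 : (1 - ⟪w, z⟫_ℂ).re ≤ ‖1 - ⟪w, z⟫_ℂ‖ := Complex.re_le_norm _
  rw [Complex.sub_re, Complex.one_re] at h2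
  nlinarith [norm_nonneg w, norm_nonneg z]

theorem calm_off {M S : Set E} {b₀ : E} (hb₀ : b₀ ∈ S) (hb₁ : ‖b₀‖ < 1) {p : E} {ρ : ℝ}
    (hρ : 0 < ρ) (hM : ∀ b ∈ M, ‖b‖ < 1 → ρ ≤ ‖b - p‖) {u : E → ℂ} (hu : Calm 1 M u) :
    MixN 1 S p u := by
  obtain ⟨h1, ⟨C, h2⟩, W, hW, h3⟩ := hu
  obtain ⟨B, hB⟩ := W6_IG_bdd h1 h2
  obtain ⟨c, hc⟩ : ∃ c : ℝ, c = (ρ ^ 2 / 8) ^ 2 * (1 - ‖b₀‖ ^ 2) / 4 := ⟨_, rfl⟩
  have hb2 : 0 < 1 - ‖b₀‖ ^ 2 := by nlinarith [norm_nonneg b₀]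
  have hc0 : 0 < c := by rw [hc]; positivity
  obtain ⟨m, hm⟩ := pow_unbounded_of_one_lt (1 / c) (by norm_num : (1 : ℝ) < 2)
  have hmc : 1 < 2 ^ m * c := by
    rw [div_lt_iff₀ hc0] at hm
    exact hm
  refine mix_of h1 ⟨C, h2⟩ (r := ρ / 2) (by positivity)
    (W := fun k => if k < m then B else W (k - m)) ?_ fun k z hz hzp hS => ?_
  · refine (summable_nat_add_iff m).1 ?_
    simpa using hW
  · have hz1 : ‖z‖ < 1 := mem_ball_zero_iff.1 hz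
    by_cases hk : k < m
    · simp only [hk, if_true]
      rw [Real.sqrt_eq_rpow]
      exact hB z hz
    · simp only [hk, if_false]
      have h4 := hS b₀ hb₀ hb₁
      have hd : 0 < 1 - ‖z‖ ^ 2 := by nlinarith [norm_nonneg z]
      -- the distance to `b₀`
      have h5 : ‖1 - ⟪b₀, z⟫_ℂ‖ ≤ 2 := by
        have e1 : ‖⟪b₀, z⟫_ℂ‖ ≤ ‖b₀‖ * ‖z‖ := norm_inner_le_norm _ _
        have e2 := norm_sub_le (1 : ℂ) ⟪b₀, z⟫_ℂ
        rw [norm_one] at e2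
        nlinarith [norm_nonneg b₀, norm_nonneg z]
      have h6 : 0 < ‖1 - ⟪b₀, z⟫_ℂ‖ := by
        have e1 : ‖⟪b₀, z⟫_ℂ‖ ≤ ‖b₀‖ * ‖z‖ := norm_inner_le_norm _ _
        have e2 := norm_sub_norm_le (1 : ℂ) ⟪b₀, z⟫_ℂ
        rw [norm_one] at e2
        nlinarith [norm_nonneg b₀, norm_nonneg z]
      have h7 : (2 : ℝ) ^ k * ((1 - ‖b₀‖ ^ 2) * (1 - ‖z‖ ^ 2)) ≤ 4 := by
        unfold PT.HH at h4
        rw [← mul_div_assoc, div_le_one (by positivity)] at h4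
        nlinarith
      rw [Real.sqrt_eq_rpow]
      refine h3 _ z hz fun b hb hb1 => ?_
      have h8 := dist_le_den hb1 hz1
      have h9 : ρ / 2 ≤ ‖b - z‖ := by
        have e1 := hM b hb hb1
        have e2 : ‖b - p‖ ≤ ‖b - z‖ + ‖z - p‖ := by
          have e3 := norm_add_le (b - z) (z - p)
          rwa [sub_add_sub_cancel] at e3
        linarith
      have h10 : ρ ^ 2 / 8 ≤ ‖1 - ⟪b, z⟫_ℂ‖ := by nlinarith
      have h11 : 0 < ‖1 - ⟪b, z⟫_ℂ‖ := lt_of_lt_of_le (by positivity) h10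
      have h12 : (ρ ^ 2 / 8) ^ 2 ≤ ‖1 - ⟪b, z⟫_ℂ‖ ^ 2 := pow_le_pow_left₀ (by positivity) h10 2
      have h13 : (2 : ℝ) ^ k = 2 ^ (k - m) * 2 ^ m := by
        rw [← pow_add]
        congr 1
        omega
      have hbp : 0 ≤ 1 - ‖b‖ ^ 2 := by nlinarith [norm_nonneg b]
      have hbp1 : 1 - ‖b‖ ^ 2 ≤ 1 := by nlinarith [sq_nonneg ‖b‖]
      unfold PT.HH
      rw [← mul_div_assoc, div_le_one (by positivity)]
      refine le_trans ?_ h12
      have h14 : (0 : ℝ) < 2 ^ (k - m) := by positivity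
      have h15 : (2 : ℝ) ^ (k - m) * (1 - ‖z‖ ^ 2) * (2 ^ m * c) ≤ (ρ ^ 2 / 8) ^ 2 := by
        calc (2 : ℝ) ^ (k - m) * (1 - ‖z‖ ^ 2) * (2 ^ m * c)
            = (2 ^ k * ((1 - ‖b₀‖ ^ 2) * (1 - ‖z‖ ^ 2))) * ((ρ ^ 2 / 8) ^ 2 / 4) := by
              rw [h13, hc]; ring
          _ ≤ 4 * ((ρ ^ 2 / 8) ^ 2 / 4) := mul_le_mul_of_nonneg_right h7 (by positivity)
          _ = (ρ ^ 2 / 8) ^ 2 := by ring
      calc (2 : ℝ) ^ (k - m) * ((1 - ‖b‖ ^ 2) * (1 - ‖z‖ ^ 2))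
          ≤ (2 : ℝ) ^ (k - m) * (1 * (1 - ‖z‖ ^ 2)) := by gcongr
        _ = (2 : ℝ) ^ (k - m) * (1 - ‖z‖ ^ 2) := by rw [one_mul]
        _ ≤ (2 : ℝ) ^ (k - m) * (1 - ‖z‖ ^ 2) * (2 ^ m * c) :=
            le_mul_of_one_le_right (by positivity) hmc.le
        _ ≤ _ := h15

/-- invariance -/
theorem calm_gg {a : E} (ha : ‖a‖ < 1) {M : Set E} {u : E → ℂ} (hu : Calm 1 M u) :
    Calm 1 (gg (-a) '' M) (fun z => u (gg a z)) := by
  obtain ⟨h1, ⟨C, h2⟩, W, hW, h3⟩ := hu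
  have ha' : ‖-a‖ < 1 := by rwa [norm_neg]
  have hmap := Pool.Agent.MPca0fc2.TE.gg_maps (E := E) ha
  refine ⟨h1.comp (Pool.Agent.MPca0fc2.TE.gg_holo ha) hmap, ⟨C, fun z hz => h2 _ (hmap hz)⟩, W, hW,
    fun k z hz hb => ?_⟩
  have hz1 := mem_ball_zero_iff.1 hz
  have h4 := h3 k (gg a z) (hmap hz) fun b hb1 hb2 => by
    have e1 : ‖gg (-a) b‖ < 1 := gg_lt ha' hb2
    have e2 := hb (gg (-a) b) ⟨b, hb1, rfl⟩ e1
    have e3 : gg a (gg (-a) b) = b := by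
      have h := gg_neg_gg ha' hb2.le
      rwa [neg_neg] at h
    have e4 := HH_gg ha e1 hz1
    rw [e3] at e4
    rw [e4]
    exact e2
  refine le_trans ?_ h4
  have e5 := Pool.Agent.MPca0fc2.CG.IG_aut h1 (Pool.Agent.MPca0fc2.DA.gg_isAut ha) hz1
  exact Real.rpow_le_rpow (gd_IG_nonneg hz1) e5 (by norm_num)

/-- uniform limits -/
def CalmCl (M : Set E) (u : E → ℂ) : Prop :=
  DifferentiableOn ℂ u (ball 0 1) ∧ (∃ C : ℝ, ∀ z ∈ ball (0 : E) 1, ‖u z‖ ≤ C) ∧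
    ∀ ε > 0, ∃ v, Calm 1 M v ∧ ∀ z ∈ ball (0 : E) 1, ‖u z - v z‖ ≤ ε

theorem calmCl_in {M S : Set E} (h : ∀ b ∈ M, ‖b‖ < 1 → b ∈ S) {u : E → ℂ} (hu : CalmCl M u)
    (p : E) : u ∈ RegC {u | MixN 1 S p u} p := by
  refine ⟨hu.1, hu.2.1, fun ε hε => ?_⟩
  obtain ⟨v, hv, h1⟩ := hu.2.2 ε hε
  exact ⟨v, calm_in h hv p, 1, one_pos, fun z hz _ => h1 z hz⟩

theorem calmCl_off {M S : Set E} {b₀ : E} (hb₀ : b₀ ∈ S) (hb₁ : ‖b₀‖ < 1) {p : E} {ρ : ℝ}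
    (hρ : 0 < ρ) (hM : ∀ b ∈ M, ‖b‖ < 1 → ρ ≤ ‖b - p‖) {u : E → ℂ} (hu : CalmCl M u) :
    u ∈ RegC {u | MixN 1 S p u} p := by
  refine ⟨hu.1, hu.2.1, fun ε hε => ?_⟩
  obtain ⟨v, hv, h1⟩ := hu.2.2 ε hε
  exact ⟨v, calm_off hb₀ hb₁ hρ hM hv, 1, one_pos, fun z hz _ => h1 z hz⟩

theorem calmCl_gg {a : E} (ha : ‖a‖ < 1) {M : Set E} {u : E → ℂ} (hu : CalmCl M u) :
    CalmCl (gg (-a) '' M) (fun z => u (gg a z)) := by
  obtain ⟨h1, ⟨C, h2⟩, h3⟩ := hu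
  have hmap := Pool.Agent.MPca0fc2.TE.gg_maps (E := E) ha
  refine ⟨h1.comp (Pool.Agent.MPca0fc2.TE.gg_holo ha) hmap, ⟨C, fun z hz => h2 _ (hmap hz)⟩,
    fun ε hε => ?_⟩
  obtain ⟨v, hv, h4⟩ := h3 ε hε
  exact ⟨_, calm_gg ha hv, fun z hz => h4 _ (hmap hz)⟩

/-- linear subspaces -/
theorem calm_iff_CS (V : Submodule ℂ E) (u : E → ℂ) :
    Calm 1 (V : Set E) u ↔ CS (V.starProjection : E →L[ℂ] E) u := by
  have hP := prj_star V
  have hiff : ∀ (k : ℕ), ∀ z ∈ ball (0 : E) 1, (∀ b ∈ (V : Set E), ‖b‖ < 1 →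
      2 ^ k * PT.HH b z ≤ 1) ↔ 2 ^ k * ro (V.starProjection : E →L[ℂ] E) z ≤ 1 := by
    intro k z hz
    have hz1 := mem_ball_zero_iff.1 hz
    constructor
    · intro h
      have hPz : ‖V.starProjection z‖ < 1 := (V.norm_starProjection_apply_le z).trans_lt hz1
      have h4 := h (V.starProjection z) (V.starProjection_apply_mem z) hPz
      have h5 : PT.HH (V.starProjection z) z = ro (V.starProjection : E →L[ℂ] E) z := by
        have h6 : ⟪V.starProjection z, z⟫_ℂ = ((‖V.starProjection z‖ ^ 2 : ℝ) : ℂ) := by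
          have e1 : ⟪V.starProjection z, z⟫_ℂ = ⟪V.starProjection z, V.starProjection z⟫_ℂ := by
            have e2 := hP.sa (V.starProjection z) z
            rw [hP.idem] at e2
            exact e2
          rw [e1, inner_self_eq_norm_sq_to_K]
          norm_cast
        unfold PT.HH PV.ro
        rw [h6]
        have h7 : ‖(1 : ℂ) - ((‖V.starProjection z‖ ^ 2 : ℝ) : ℂ)‖ =
            1 - ‖V.starProjection z‖ ^ 2 := by
          rw [← Complex.ofReal_one, ← Complex.ofReal_sub, Complex.norm_real, Real.norm_of_nonneg]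
          nlinarith [norm_nonneg (V.starProjection z)]
        rw [h7]
        have h8 : 0 < 1 - ‖V.starProjection z‖ ^ 2 := by
          nlinarith [norm_nonneg (V.starProjection z)]
        field_simp
      rw [h5] at h4
      exact h4
    · intro h b hb hb1
      refine le_trans (mul_le_mul_of_nonneg_left (HH_le_ro hP ⟨b, ?_⟩ hb1 hz1)
        (by positivity)) h
      exact Submodule.starProjection_eq_self_iff.2 hb
  constructor
  · rintro ⟨h1, h2, W, hW, h3⟩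
    refine ⟨h1, h2, W, hW, fun k z hz hk => ?_⟩
    rw [Real.sqrt_eq_rpow]
    exact h3 k z hz ((hiff k z hz).2 hk)
  · rintro ⟨h1, h2, W, hW, h3⟩
    refine ⟨h1, h2, W, hW, fun k z hz hk => ?_⟩
    rw [← Real.sqrt_eq_rpow]
    exact h3 k z hz ((hiff k z hz).1 hk)

theorem calmCl_iff_AS (V : Submodule ℂ E) (u : E → ℂ) :
    CalmCl (V : Set E) u ↔ AS (V.starProjection : E →L[ℂ] E) u := by
  have hP := prj_star V
  constructor
  · rintro ⟨h1, h2, h3⟩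
    refine ⟨h1, h2, fun ε hε => ?_⟩
    obtain ⟨v, hv, h4⟩ := h3 (ε / 3) (by positivity)
    obtain ⟨-, -, h5⟩ := ((calm_iff_CS V v).1 hv).as hP
    obtain ⟨r₀, hr₀, h6⟩ := h5 (ε / 3) (by positivity)
    refine ⟨max 0 r₀, max_lt one_pos hr₀, fun r hr hr1 z hz => ?_⟩
    have hr0 : 0 ≤ r := (le_max_left _ _).trans hr
    have hmap : V.starProjection z + (r : ℂ) • (z - V.starProjection z) ∈ ball (0 : E) 1 := by
      rw [mem_ball_zero_iff]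
      exact (pt_le hP hr0 hr1.le z).trans_lt (mem_ball_zero_iff.1 hz)
    have e1 := h4 z hz
    have e2 := h6 r ((le_max_right _ _).trans hr) hr1 z hz
    have e3 := h4 _ hmap
    rw [norm_sub_rev] at e3
    calc ‖u z - u (V.starProjection z + (r : ℂ) • (z - V.starProjection z))‖
        = ‖(u z - v z) + (v z - v (V.starProjection z + (r : ℂ) • (z - V.starProjection z))) +
          (v (V.starProjection z + (r : ℂ) • (z - V.starProjection z)) -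
            u (V.starProjection z + (r : ℂ) • (z - V.starProjection z)))‖ := by
          congr 1; ring
      _ ≤ ‖u z - v z‖ + ‖v z - v (V.starProjection z + (r : ℂ) • (z - V.starProjection z))‖ +
          ‖v (V.starProjection z + (r : ℂ) • (z - V.starProjection z)) -
            u (V.starProjection z + (r : ℂ) • (z - V.starProjection z))‖ := norm_add₃_le
      _ ≤ ε := by linarith
  · intro h
    refine ⟨h.1, h.2.1, fun ε hε => ?_⟩
    obtain ⟨v, hv, h1⟩ := h.approx hP hε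
    exact ⟨v, (calm_iff_CS V v).2 hv, h1⟩

end Pool.Agent.MPca0fc2.SP
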