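import Mathlib
import Pool.Agent.Lib.MP_ca0fc2_an.SP.S14
import Pool.Agent.Lib.MP_ca0fc2_an.Mg.G060

set_option autoImplicit false
set_option linter.unusedSectionVars false

open Metric Set MeasureTheory Filter Topology
open scoped InnerProductSpace ENNReal ContDiff

/-! # Characters over one boundary point, and local solutions -/

namespace Pool.Agent.MPca0fc2.SP

open Pool.Agent.Lib.MP_ca0fc2_an
open Pool.Agent.MPca0fc2.PT
open Pool.Agent.MPca0fc2.QT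
open Pool.Agent.MPca0fc2.TS
open Pool.Agent.MPca0fc2.TE
open Pool.Agent.MPca0fc2.TK
open Pool.Agent.MPca0fc2.VK
open Pool.Agent.MPca0fc2.PV
open Pool.Agent.MPca0fc2.CE

variable {n : ℕ}

theorem S15_refine {p : EuclideanSpace ℂ (Fin n)}
    {A1 A2 : Set (EuclideanSpace ℂ (Fin n) → ℂ)} (hS : GoodC p A1 A2)
    (X : Char Unit (EuclideanSpace ℂ (Fin n))) (hX : Over X p) {k : ℕ}
    {a : Fin k → EuclideanSpace ℂ (Fin n) → ℂ} (ha : ∀ i, a i ∈ RegC A1 p) {ε : ℝ} (hε : 0 < ε) :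
    ∃ (s : ℝ) (F : Fin k → EuclideanSpace ℂ (Fin n) → ℂ), 0 < s ∧ (∀ i, F i ∈ A1) ∧
      ∀ z ∈ ball (0 : EuclideanSpace ℂ (Fin n)) 1, ‖z - p‖ < s →
        (∀ i, ‖F i z - X.φ (fun _ => F i)‖ < s) → ∀ i, ‖a i z - X.φ (fun _ => a i)‖ < ε := by
  classical
  choose F hF sj hs0 hFz' using fun i => (ha i).2.2 (ε / 4) (by positivity)
  obtain ⟨s, hs, hsj⟩ : ∃ s₀ : ℝ, 0 < s₀ ∧ ∀ j, s₀ ≤ sj j := by
    rcases isEmpty_or_nonempty (Fin k) with h0 | h0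
    · exact ⟨1, one_pos, fun j => h0.elim j⟩
    · obtain ⟨j, hj⟩ := Finite.exists_min sj
      exact ⟨sj j, hs0 j, hj⟩
  have hFz : ∀ i, ∀ z ∈ ball (0 : EuclideanSpace ℂ (Fin n)) 1, ‖z - p‖ < s →
      ‖a i z - F i z‖ ≤ ε / 4 := fun i z hz hzp => hFz' i z hz (hzp.trans_le (hsj i))
  refine ⟨min s (ε / 4), F, lt_min hs (by positivity), hF, fun z hz hzp hc i => ?_⟩
  have hBa : BH fun (_ : Unit) => a i := by
    obtain ⟨h1, ⟨C, hC⟩, -⟩ := ha i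
    exact ⟨fun _ => h1, C, fun _ => hC⟩
  have hBF : BH fun (_ : Unit) => F i := by
    obtain ⟨h1, C, hC⟩ := hS.bh (F i) (Or.inl (hF i))
    exact ⟨fun _ => h1, C, fun _ => hC⟩
  have h1 : ‖X.φ (fun _ z => a i z - F i z)‖ ≤ ε / 4 := by
    obtain ⟨B, hB⟩ := (hBa.sub hBF).bdd
    exact char_cellC hS X hX (m := 0) (a := fun i => i.elim0) (fun i => i.elim0) hs
      ((hBa.sub hBF).holo ()) (hB ()) (by positivity) fun z hz hzp _ => hFz i z hz hzp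
  rw [X.map_sub hBa hBF] at h1
  have h2 := hFz i z hz (hzp.trans_le (min_le_left _ _))
  have h3 := (hc i).trans_le (min_le_right _ _)
  calc ‖a i z - X.φ (fun _ => a i)‖
      = ‖(a i z - F i z) + (F i z - X.φ (fun _ => F i)) +
          -(X.φ (fun _ => a i) - X.φ (fun _ => F i))‖ := by congr 1; ring
    _ ≤ ‖a i z - F i z‖ + ‖F i z - X.φ (fun _ => F i)‖ +
          ‖-(X.φ (fun _ => a i) - X.φ (fun _ => F i))‖ := norm_add₃_le
    _ < ε := by rw [norm_neg]; linarith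

theorem S15_ext {p : EuclideanSpace ℂ (Fin n)}
    {A1 A2 : Set (EuclideanSpace ℂ (Fin n) → ℂ)} (hS : GoodC p A1 A2)
    (Φ : IND.Char (ball (0 : EuclideanSpace ℂ (Fin n)) 1) Unit) (hX : Over (W9_X Φ) p) :
    IND.Ext (ball 0 1) (RegC A1 p) Φ := by
  intro N w hBw hΦw k a ha ε hε C hsol
  obtain ⟨s, F, hs, hFc, hFz⟩ := S15_refine hS (W9_X Φ) hX ha hε
  obtain ⟨g, hg, hgC, hg1⟩ := hsol
  choose M hM using fun j => (hBw j).bdd
  have hsub : {z | z ∈ ball (0 : EuclideanSpace ℂ (Fin n)) 1 ∧ ‖z - p‖ < s ∧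
      ∀ i, ‖F i z - (W9_X Φ).φ (fun _ => F i)‖ < s} ⊆
      cellOn (ball 0 1) a (fun i => Φ.φ (IND.cf (a i))) ε :=
    fun z hz => ⟨hz.1, hFz z hz.1 hz.2.1 hz.2.2⟩
  obtain ⟨j, hj⟩ := hS.sol (W9_X Φ) hX k F hFc s hs N w g (max (∑ j, |M j|) C)
    (fun j => (hBw j).holo ()) (fun j z hz => ((hM j () z hz).trans ((le_abs_self _).trans
      (Finset.single_le_sum (f := fun j => |M j|) (fun _ _ => abs_nonneg _)
        (Finset.mem_univ j)))).trans (le_max_left _ _))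
    (fun j => (hg j).mono hsub)
    (fun z hz h1 h2 => ⟨hg1 z (hsub ⟨hz, h1, h2⟩), fun j =>
      (hgC j z (hsub ⟨hz, h1, h2⟩)).trans (le_max_right _ _)⟩)
  exact hj (hΦw j)

/-- The characters over one boundary point (the proof of `CE.main_cellC` at `p`). -/
theorem cellC_at {N : ℕ} {f : Fin N → EuclideanSpace ℂ (Fin n) → ℂ}
    (hf : ∀ j, IsHinf (ball 0 1) (f j)) {δ : ℝ} (hδ : 0 < δ)
    (hfδ : ∀ z ∈ ball (0 : EuclideanSpace ℂ (Fin n)) 1, δ ^ 2 ≤ ∑ j, ‖f j z‖ ^ 2)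
    {p : EuclideanSpace ℂ (Fin n)} (hp1 : ‖p‖ = 1)
    {A1 A2 : Set (EuclideanSpace ℂ (Fin n) → ℂ)} (hG : GoodC p A1 A2)
    {π : EuclideanSpace ℂ (Fin n) → ℂ} {v : Fin N → EuclideanSpace ℂ (Fin n) → ℂ} {e : ℝ}
    (hπ : DifferentiableOn ℂ π (ball 0 1))
    (hπ1 : ∀ z ∈ ball (0 : EuclideanSpace ℂ (Fin n)) 1, ‖π z‖ < 1)
    (hv : ∀ j, v j ∈ Algebra.adjoin ℂ (RegC A1 p ∪ HinfOf π)) (he0 : 0 ≤ e) (he : 2 * e < δ)
    (hfv : ∀ z ∈ ball (0 : EuclideanSpace ℂ (Fin n)) 1, ∑ j, ‖f j z - v j z‖ ^ 2 ≤ e ^ 2)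
    (Φ : IND.Char (ball (0 : EuclideanSpace ℂ (Fin n)) 1) Unit) (hOv : Over (W9_X Φ) p) :
    ∃ j, Φ.φ (IND.cf (f j)) ≠ 0 := by
  classical
  have hfB : ∀ j, IND.BH (ball (0 : EuclideanSpace ℂ (Fin n)) 1) (IND.cf (f j)) :=
    fun j => IND.bh_of_hinf (hf j)
  by_contra hcon
  push Not at hcon
  obtain ⟨X, hXdef⟩ : ∃ X : Char Unit (EuclideanSpace ℂ (Fin n)), X = W9_X Φ := ⟨_, rfl⟩
  have hXφ : ∀ F, X.φ F = Φ.φ F := fun F => by rw [hXdef]; rfl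
  have hXp : Over X p := by rw [hXdef]; exact hOv
  obtain ⟨m, a, s, hs, ha⟩ : ∃ (m : ℕ) (a : Fin m → EuclideanSpace ℂ (Fin n) → ℂ) (s : ℝ),
      0 < s ∧ ∀ i, a i ∈ RegC A1 p := ⟨0, fun i => i.elim0, 1, one_pos, fun i => i.elim0⟩
  have hExt := S15_ext hG Φ hOv
  -- the function which localizes to `p`
  obtain ⟨l, hl⟩ : ∃ l : EuclideanSpace ℂ (Fin n) → ℂ, l = fun z => ⟪p, z⟫_ℂ := ⟨_, rfl⟩
  have hld : Differentiable ℂ l := by
    rw [hl]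
    exact (innerSL ℂ p).differentiable
  have hlH : IsHinf (ball (0 : EuclideanSpace ℂ (Fin n)) 1) l := by
    refine ⟨hld.differentiableOn, 1, fun z hz => ?_⟩
    rw [hl]
    refine (norm_inner_le_norm _ _).trans ?_
    rw [hp1, one_mul]
    exact (mem_ball_zero_iff.1 hz).le
  have hlR : l ∈ RegC A1 p := by
    refine regC_of_tendsto hG hlH (c := l p) ?_
    exact (hld.continuous.tendsto p).mono_left nhdsWithin_le_nhds
  have hlΦ : Φ.φ (IND.cf l) = 1 := by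
    have h1 := hXp p
    rw [hXφ] at h1
    have h2 : Φ.φ (IND.cf l) = ⟪p, p⟫_ℂ := by
      rw [hl]; exact h1
    rw [h2, inner_self_eq_norm_sq_to_K, hp1]
    simp
  -- the cell
  obtain ⟨s', hs'⟩ : ∃ s' : ℝ, s' = min s (s ^ 2 / 2) := ⟨_, rfl⟩
  have hs'0 : 0 < s' := by rw [hs']; exact lt_min hs (by positivity)
  obtain ⟨a', ha'⟩ : ∃ a' : Fin (m + 1) → EuclideanSpace ℂ (Fin n) → ℂ, a' = Fin.snoc a l :=
    ⟨_, rfl⟩
  have ha'c : ∀ i : Fin m, a' i.castSucc = a i := fun i => by rw [ha', Fin.snoc_castSucc]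
  have ha'l : a' (Fin.last m) = l := by rw [ha', Fin.snoc_last]
  have ha'R : ∀ i, a' i ∈ RegC A1 p := by
    intro i
    refine Fin.lastCases ?_ (fun i => ?_) i
    · rw [ha'l]; exact hlR
    · rw [ha'c]; exact ha i
  have hnear : ∀ z ∈ ball (0 : EuclideanSpace ℂ (Fin n)) 1, ‖l z - 1‖ < s' → ‖z - p‖ < s := by
    intro z hz h1
    have hz1 : ‖z‖ < 1 := mem_ball_zero_iff.1 hz
    have h2 : ‖z - p‖ ^ 2 ≤ 2 * ‖l z - 1‖ := by
      have h3 : ‖z - p‖ ^ 2 = ‖z‖ ^ 2 - 2 * (⟪p, z⟫_ℂ).re + ‖p‖ ^ 2 := by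
        rw [@norm_sub_sq ℂ, ← inner_conj_symm, RCLike.conj_re]
        rfl
      have h4 : 1 - (⟪p, z⟫_ℂ).re ≤ ‖l z - 1‖ := by
        have h5 := Complex.abs_re_le_norm (l z - 1)
        rw [hl] at h5 ⊢
        simp only [Complex.sub_re, Complex.one_re] at h5
        have := neg_abs_le ((⟪p, z⟫_ℂ).re - 1)
        linarith
      rw [h3, hp1]
      nlinarith [norm_nonneg z]
    have h6 : s' ≤ s ^ 2 / 2 := by rw [hs']; exact min_le_right _ _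
    have h7 : ‖z - p‖ ^ 2 < s ^ 2 := by linarith
    exact lt_of_pow_lt_pow_left₀ 2 hs.le h7
  obtain ⟨Δ₁, hΔ₁⟩ : ∃ Δ₁ : Set (EuclideanSpace ℂ (Fin n)),
    Δ₁ = cellOn (ball 0 1) a' (fun i => Φ.φ (IND.cf (a' i))) s' := ⟨_, rfl⟩
  have hsub : Δ₁ ⊆ {z | z ∈ ball 0 1 ∧ ‖z - p‖ < s ∧
      ∀ i, ‖a i z - Φ.φ (IND.cf (a i))‖ < s} := by
    rw [hΔ₁]
    rintro z ⟨hz, hza⟩
    refine ⟨hz, ?_, fun i => ?_⟩
    · have h1 : ‖a' (Fin.last m) z - Φ.φ (IND.cf (a' (Fin.last m)))‖ < s' := hza (Fin.last m)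
      rw [ha'l, hlΦ] at h1
      exact hnear z hz h1
    · have h1 : ‖a' i.castSucc z - Φ.φ (IND.cf (a' i.castSucc))‖ < s' := hza i.castSucc
      rw [ha'c] at h1
      exact h1.trans_le (by rw [hs']; exact min_le_left _ _)
  have hsubB : Δ₁ ⊆ ball 0 1 := fun z hz => (hsub hz).1
  have hRH : ∀ u ∈ RegC A1 p, IsHinf (ball 0 1) u := fun u hu => ⟨hu.1, hu.2.1⟩
  obtain ⟨Φ₁, hE₁, hΦ₁⟩ := IND.exists_ext isOpen_ball hRH hExt ha'R hs'0
  have hopen : IsOpen (cellOn (ball 0 1) a' (fun i => Φ.φ (IND.cf (a' i))) s') :=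
    CXS.isOpen_cellOn isOpen_ball (fun i => (ha'R i).1) _ _
  rw [← hΔ₁] at hopen
  have hf1 : ∀ j, IND.BH Δ₁ (IND.cf (f j)) := fun j =>
    ⟨fun _ => ((hf j).1).mono hsubB, (hf j).2.choose, fun _ z hz =>
      (hf j).2.choose_spec z (hsubB hz)⟩
  subst hΔ₁
  have hπ' := hπ.mono hsubB
  have hπ1' : ∀ z ∈ cellOn (ball 0 1) a' (fun i => Φ.φ (IND.cf (a' i))) s', ‖π z‖ < 1 :=
    fun z hz => hπ1 z (hsubB hz)
  have hAH1 : ∀ u ∈ RegC A1 p, IsHinf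
      (cellOn (ball 0 1) a' (fun i => Φ.φ (IND.cf (a' i))) s') u := fun u hu =>
    ⟨hu.1.mono hsubB, hu.2.1.choose, fun z hz => hu.2.1.choose_spec z (hsubB hz)⟩
  have hbd : ∀ g ∈ RegC A1 p ∪ HinfOf π, IND.BH
      (cellOn (ball 0 1) a' (fun i => Φ.φ (IND.cf (a' i))) s') (IND.cf g) := by
    rintro x (hx | hx)
    · exact IND.bh_of_hinf (hAH1 x hx)
    · obtain ⟨g, hg, ⟨M, hM⟩, hx⟩ := hx
      refine ⟨fun _ => ?_, M, fun _ z hz => ?_⟩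
      · have h1 : DifferentiableOn ℂ (g ∘ π)
            (cellOn (ball 0 1) a' (fun i => Φ.φ (IND.cf (a' i))) s') :=
          hg.comp hπ' fun z hz => mem_ball_zero_iff.2 (hπ1' z hz)
        exact h1.congr fun z _ => hx z
      · change ‖x z‖ ≤ M
        rw [hx z]
        exact hM _ (mem_ball_zero_iff.2 (hπ1' z hz))
  have hvB : ∀ j, IND.BH (cellOn (ball 0 1) a' (fun i => Φ.φ (IND.cf (a' i))) s')
      (IND.cf (v j)) := by
    intro j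
    have hvj := hv j
    generalize v j = q at hvj
    induction hvj using Algebra.adjoin_induction with
    | mem x hx => exact hbd x hx
    | algebraMap c => exact IND.BH.const c
    | add x y _ _ hx hy => exact hx.add hy
    | mul x y _ _ hx hy => exact hx.mul hy
  have hkill := W9_kill Φ₁ (f := f) (v := v) hf1 hvB (fun j => by rw [hΦ₁ _ (hfB j)]; exact hcon j)
    he0 (fun z hz => hfv z (hsubB hz))
  have hN : 0 < √(N : ℝ) + 1 := by positivity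
  obtain ⟨t, ht⟩ : ∃ t : ℝ, t = (δ - 2 * e) / (2 * (√(N : ℝ) + 1)) := ⟨_, rfl⟩
  have ht0 : 0 < t := by rw [ht]; exact div_pos (by linarith) (by positivity)
  have htN : √(N : ℝ) * t < δ - 2 * e := by
    have h1 : √(N : ℝ) * t = (√(N : ℝ) / (√(N : ℝ) + 1)) * ((δ - 2 * e) / 2) := by
      rw [ht]
      field_simp
    rw [h1]
    have h2 : √(N : ℝ) / (√(N : ℝ) + 1) ≤ 1 := by
      rw [div_le_one hN]
      linarith
    have h3 := mul_le_of_le_one_left (show 0 ≤ (δ - 2 * e) / 2 by linarith) h2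
    linarith
  obtain ⟨z, hz, hz1⟩ := IND.cluster_alg hopen hAH1 hE₁ hπ' hπ1' (q := v)
    (fun j => ⟨(hvB j).holo (), fun ε hε => ⟨v j, hv j, fun z _ => by
      rw [sub_self, norm_zero]; exact hε.le⟩⟩) ht0
  have h5 : ∑ j, ‖v j z - Φ₁.φ (IND.cf (v j))‖ ^ 2 ≤ (√(N : ℝ) * t) ^ 2 := by
    calc ∑ j, ‖v j z - Φ₁.φ (IND.cf (v j))‖ ^ 2 ≤ ∑ _j : Fin N, t ^ 2 :=
          Finset.sum_le_sum fun j _ => pow_le_pow_left₀ (norm_nonneg _) (hz1 j).le 2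
      _ = (√(N : ℝ) * t) ^ 2 := by
          rw [Finset.sum_const, Finset.card_univ, Fintype.card_fin, nsmul_eq_mul, mul_pow,
            Real.sq_sqrt (Nat.cast_nonneg N)]
  have h6 := W9_tri (x := fun j => f j z - v j z)
    (y := fun j => v j z - Φ₁.φ (IND.cf (v j))) (w := fun j => Φ₁.φ (IND.cf (v j)))
    he0 (by positivity) he0 (hfv z (hsubB hz)) h5 hkill
  have h7 := hfδ z (hsubB hz)
  have h8 : ∀ j, f j z - v j z + (v j z - Φ₁.φ (IND.cf (v j))) + Φ₁.φ (IND.cf (v j)) = f j z :=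
    fun j => by ring
  simp only [h8] at h6
  have h9 : e + √(N : ℝ) * t + e < δ := by linarith
  have h10 : 0 ≤ e + √(N : ℝ) * t + e := by positivity
  nlinarith

end Pool.Agent.MPca0fc2.SP
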