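import Mathlib
import Pool.Agent.Lib.MP_ca0fc2_an.SP.S15
import Pool.Agent.Lib.MP_ca0fc2_an.CE.H11
import Pool.Agent.Lib.MP_ca0fc2_an.VK.E4

set_option autoImplicit false
set_option linter.unusedSectionVars false

open Metric Set MeasureTheory Filter Topology
open scoped InnerProductSpace ENNReal ContDiff

/-! # Local solutions for families of complex affine subspaces -/

namespace Pool.Agent.MPca0fc2.SP

open Pool.Agent.Lib.MP_ca0fc2_an
open Pool.Agent.MPca0fc2.PT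
open Pool.Agent.MPca0fc2.QT
open Pool.Agent.MPca0fc2.TS
open Pool.Agent.MPca0fc2.TE
open Pool.Agent.MPca0fc2.TK
open Pool.Agent.MPca0fc2.VK
open Pool.Agent.MPca0fc2.PV
open Pool.Agent.MPca0fc2.CE

variable {n : ℕ}

/-- local solutions from the characters over `p` -/
theorem local_of_chars {N : ℕ} {f : Fin N → EuclideanSpace ℂ (Fin n) → ℂ}
    (hf : ∀ j, IsHinf (ball 0 1) (f j)) {p : EuclideanSpace ℂ (Fin n)} (hp : ‖p‖ = 1)
    (H : ∀ Φ : IND.Char (ball (0 : EuclideanSpace ℂ (Fin n)) 1) Unit, Over (W9_X Φ) p →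
      ∃ j, Φ.φ (IND.cf (f j)) ≠ 0) :
    ∃ r > 0, ∃ C, SolvableOn f (ball 0 1 ∩ ball p r) C := by
  obtain ⟨l, hl⟩ : ∃ l : EuclideanSpace ℂ (Fin n) → ℂ, l = fun z => 1 - ⟪p, z⟫_ℂ := ⟨_, rfl⟩
  have hlH : IsHinf (ball (0 : EuclideanSpace ℂ (Fin n)) 1) l := by
    rw [hl]
    refine ⟨(differentiableOn_const _).sub (innerSL ℂ p).differentiable.differentiableOn, 2,
      fun z hz => ?_⟩
    have h1 : ‖⟪p, z⟫_ℂ‖ ≤ ‖p‖ * ‖z‖ := norm_inner_le_norm _ _
    rw [hp, one_mul] at h1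
    have h2 := norm_sub_le (1 : ℂ) ⟪p, z⟫_ℂ
    rw [norm_one] at h2
    linarith [(mem_ball_zero_iff.1 hz)]
  have hfB : ∀ j, IND.BH (ball (0 : EuclideanSpace ℂ (Fin n)) 1) (IND.cf (f j)) :=
    fun j => IND.bh_of_hinf (hf j)
  obtain ⟨C, h, h1, h2, h3⟩ := IND.unimod_of_chars (n := n) isOpen_ball
    (f := Fin.snoc (α := fun _ => EuclideanSpace ℂ (Fin n) → ℂ) f l) (fun j => by
      refine Fin.lastCases ?_ (fun i => ?_) j
      · rw [Fin.snoc_last]; exact IND.bh_of_hinf hlH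
      · rw [Fin.snoc_castSucc]; exact hfB i) (fun Φ => by
    by_cases h0 : Φ.φ (IND.cf l) = 0
    · obtain ⟨q, hq, hXq⟩ := (W9_X Φ).exists_point
      have h4 : ⟪p, q⟫_ℂ = 1 := by
        have e1 := hXq p
        have e2 := (W9_X Φ).map_sub (BH.const (I := Unit) (E := EuclideanSpace ℂ (Fin n)) 1)
          (BH.inner (I := Unit) p)
        have e3 : (W9_X Φ).φ (fun _ z => 1 - ⟪p, z⟫_ℂ) =
          (W9_X Φ).φ (fun _ _ => (1 : ℂ)) - (W9_X Φ).φ (fun _ z => ⟪p, z⟫_ℂ) := e2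
        have e4 : (W9_X Φ).φ (fun _ z => 1 - ⟪p, z⟫_ℂ) = 0 := by
          rw [hl] at h0
          exact h0
        rw [e4, (W9_X Φ).map_const, e1] at e3
        exact (sub_eq_zero.1 e3.symm).symm
      have h5 : q = p := by
        have e1 : ‖q - p‖ ^ 2 = ‖q‖ ^ 2 - 2 * (⟪q, p⟫_ℂ).re + ‖p‖ ^ 2 :=
          norm_sub_sq (𝕜 := ℂ) q p
        have e2 : (⟪q, p⟫_ℂ).re = 1 := by
          rw [← inner_conj_symm, h4]
          simp
        rw [e2, hp] at e1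
        have e3 : ‖q - p‖ ^ 2 ≤ 0 := by rw [e1]; nlinarith [norm_nonneg q]
        have e4 : ‖q - p‖ = 0 := by
          have := sq_nonneg ‖q - p‖
          exact pow_eq_zero_iff two_ne_zero |>.1 (le_antisymm e3 this)
        exact sub_eq_zero.1 (norm_eq_zero.1 e4)
      subst h5
      obtain ⟨j, hj⟩ := H Φ hXq
      exact ⟨j.castSucc, by rw [Fin.snoc_castSucc]; exact hj⟩
    · exact ⟨Fin.last N, by rw [Fin.snoc_last]; exact h0⟩)
  obtain ⟨r, hr⟩ : ∃ r : ℝ, r = 1 / (2 * (|C| + 1)) := ⟨_, rfl⟩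
  have hr0 : 0 < r := by rw [hr]; positivity
  have hden : ∀ z ∈ ball (0 : EuclideanSpace ℂ (Fin n)) 1 ∩ ball p r,
      1 / 2 ≤ ‖1 - l z * h (Fin.last N) z‖ := by
    intro z hz
    have e1 : ‖l z‖ ≤ r := by
      have e2 : l z = ⟪p, p - z⟫_ℂ := by
        rw [hl, inner_sub_right, inner_self_eq_norm_sq_to_K, hp]
        norm_num
      rw [e2]
      refine (norm_inner_le_norm _ _).trans ?_
      rw [hp, one_mul, ← dist_eq_norm, dist_comm]
      exact (mem_ball.1 hz.2).le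
    have e3 := h2 (Fin.last N) z hz.1
    have e4 : ‖l z * h (Fin.last N) z‖ ≤ 1 / 2 := by
      rw [norm_mul]
      calc ‖l z‖ * ‖h (Fin.last N) z‖ ≤ r * (|C| + 1) :=
            mul_le_mul e1 (e3.trans (by linarith [le_abs_self C])) (norm_nonneg _) hr0.le
        _ = 1 / 2 := by rw [hr]; field_simp
    have e5 := norm_sub_norm_le (1 : ℂ) (l z * h (Fin.last N) z)
    rw [norm_one] at e5
    linarith
  refine ⟨r, hr0, 2 * |C|, fun j z => h j.castSucc z / (1 - l z * h (Fin.last N) z), fun j => ?_,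
    fun j z hz => ?_, fun z hz => ?_⟩
  · have hd1 : DifferentiableOn ℂ (h j.castSucc) (ball 0 1 ∩ ball p r) :=
      (h1 j.castSucc).mono inter_subset_left
    have hd2 : DifferentiableOn ℂ (fun z => 1 - l z * h (Fin.last N) z) (ball 0 1 ∩ ball p r) :=
      (differentiableOn_const _).sub ((hlH.1.mul (h1 (Fin.last N))).mono inter_subset_left)
    have hd3 := hd1.mul (hd2.inv fun z hz h0 => by
      have := hden z hz
      rw [h0, norm_zero] at this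
      linarith)
    exact hd3.congr fun z _ => div_eq_mul_inv _ _
  · have e1 := hden z hz
    rw [norm_div, div_le_iff₀ (by linarith)]
    have e2 := h2 j.castSucc z hz.1
    nlinarith [le_abs_self C, abs_nonneg C]
  · have e1 := h3 z hz.1
    rw [Fin.sum_univ_castSucc] at e1
    simp only [Fin.snoc_castSucc, Fin.snoc_last] at e1
    have e2 : 1 - l z * h (Fin.last N) z ≠ 0 := fun h0 => by
      have := hden z hz
      rw [h0, norm_zero] at this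
      linarith
    simp only [mul_div_assoc']
    rw [← Finset.sum_div, div_eq_one_iff_eq e2]
    linear_combination e1

theorem gg_cont {b x : EuclideanSpace ℂ (Fin n)} (hb : ‖b‖ < 1) (hx : ‖x‖ = 1) {ε : ℝ}
    (hε : 0 < ε) : ∃ r > 0, ∀ y : EuclideanSpace ℂ (Fin n), ‖y - x‖ < r →
      ‖gg b y - gg b x‖ < ε := by
  have h := (hasFDerivAt_gg hb hx.le).continuousAt
  rw [Metric.continuousAt_iff] at h
  obtain ⟨r, hr, h⟩ := h ε hε
  refine ⟨r, hr, fun y hy => ?_⟩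
  rw [← dist_eq_norm]
  exact h (by rw [dist_eq_norm]; exact hy)

theorem gg_back {a : EuclideanSpace ℂ (Fin n)} (ha : ‖a‖ < 1) {x : EuclideanSpace ℂ (Fin n)}
    (hx : ‖x‖ ≤ 1) : gg a (gg (-a) x) = x := by
  have ha' : ‖-a‖ < 1 := by rwa [norm_neg]
  have h := gg_neg_gg ha' hx
  rwa [neg_neg] at h

/-- transport of local solutions -/
theorem local_gg {N : ℕ} {f : Fin N → EuclideanSpace ℂ (Fin n) → ℂ}
    {a : EuclideanSpace ℂ (Fin n)} (ha : ‖a‖ < 1) {p : EuclideanSpace ℂ (Fin n)} (hp : ‖p‖ = 1)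
    (h : ∃ r > 0, ∃ C, SolvableOn (fun j z => f j (gg a z)) (ball 0 1 ∩ ball (gg (-a) p) r) C) :
    ∃ r > 0, ∃ C, SolvableOn f (ball 0 1 ∩ ball p r) C := by
  obtain ⟨r, hr, C, k, h1, h2, h3⟩ := h
  have ha' : ‖-a‖ < 1 := by rwa [norm_neg]
  obtain ⟨r', hr', hr''⟩ := gg_cont ha' hp hr
  have hmap : ∀ z ∈ ball (0 : EuclideanSpace ℂ (Fin n)) 1 ∩ ball p r',
      gg (-a) z ∈ ball (0 : EuclideanSpace ℂ (Fin n)) 1 ∩ ball (gg (-a) p) r := by
    intro z hz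
    refine ⟨Pool.Agent.MPca0fc2.TE.gg_maps ha' hz.1, ?_⟩
    rw [mem_ball, dist_eq_norm]
    exact hr'' z (by rw [← dist_eq_norm]; exact mem_ball.1 hz.2)
  refine ⟨r', hr', C, fun j z => k j (gg (-a) z), fun j => ?_, fun j z hz => h2 j _ (hmap z hz),
    fun z hz => ?_⟩
  · exact (h1 j).comp ((Pool.Agent.MPca0fc2.TE.gg_holo ha').mono inter_subset_left) hmap
  · have h4 := h3 _ (hmap z hz)
    have h5 := gg_back ha (mem_ball_zero_iff.1 hz.1).le
    simp only [h5] at h4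
    exact h4

/-- the classes of the subspaces of a family -/
def Gen (𝓢 : Set (AffineSubspace ℂ (EuclideanSpace ℂ (Fin n)))) :
    Set (EuclideanSpace ℂ (Fin n) → ℂ) :=
  {u | ∃ S ∈ 𝓢, CalmCl (S : Set (EuclideanSpace ℂ (Fin n))) u}

theorem RegC.mono {A A' : Set (EuclideanSpace ℂ (Fin n) → ℂ)} (h : A ⊆ A')
    {p : EuclideanSpace ℂ (Fin n)} : RegC A p ⊆ RegC A' p := by
  rintro u ⟨h1, h2, h3⟩
  refine ⟨h1, h2, fun ε hε => ?_⟩
  obtain ⟨F, hF, s, hs, h4⟩ := h3 ε hε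
  exact ⟨F, h hF, s, hs, h4⟩

/-- finitely many lines through `p` are enough for one function -/
theorem lines_of_adjoin {𝓢 : Set (AffineSubspace ℂ (EuclideanSpace ℂ (Fin n)))}
    {p : EuclideanSpace ℂ (Fin n)} (hp : ‖p‖ = 1)
    (hline : ∀ S ∈ 𝓢, p ∈ S → Module.finrank ℂ S.direction ≤ 1 ∧ ∃ x ∈ S, ‖x‖ < 1)
    {π : EuclideanSpace ℂ (Fin n) → ℂ} {v : EuclideanSpace ℂ (Fin n) → ℂ}
    (hv : v ∈ Algebra.adjoin ℂ (Gen 𝓢 ∪ HinfOf π)) :
    ∃ A : Set (EuclideanSpace ℂ (Fin n)), A.Finite ∧ (∀ a ∈ A, ‖a‖ < 1) ∧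
      ∀ A' : Set (EuclideanSpace ℂ (Fin n)), A ⊆ A' →
        v ∈ Algebra.adjoin ℂ (RegC {u | MixN 1 (linU A' p) p u} p ∪ HinfOf π) := by
  have h0lin : ∀ (A' : Set (EuclideanSpace ℂ (Fin n))) (x : EuclideanSpace ℂ (Fin n)), x ∈ A' →
      x ∈ linU A' p := fun A' x hx => ⟨x, hx, 0, by simp⟩
  induction hv using Algebra.adjoin_induction with
  | mem u hu =>
    rcases hu with ⟨S, hS, hu⟩ | hu
    · by_cases hpS : p ∈ S
      · obtain ⟨hdim, x, hx, hx1⟩ := hline S hS hpS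
        refine ⟨{x}, finite_singleton x, fun a ha => by rw [mem_singleton_iff.1 ha]; exact hx1,
          fun A' hA' => Algebra.subset_adjoin (Or.inl ?_)⟩
        refine calmCl_in (S := linU A' p) (fun b hb _ => ⟨x, hA' (mem_singleton x), ?_⟩) hu p
        -- `b` is on the line through `x` and `p`
        have hne : p - x ≠ 0 := fun h0 => by
          rw [sub_eq_zero.1 h0] at hp
          linarith
        have hpx : p - x ∈ S.direction := AffineSubspace.vsub_mem_direction hpS hx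
        have hbx : b - x ∈ S.direction := AffineSubspace.vsub_mem_direction hb hx
        obtain ⟨c, hc⟩ := exists_smul_eq_of_finrank_eq_one
          (le_antisymm hdim (Module.finrank_pos_iff_exists_ne_zero.2
            ⟨⟨p - x, hpx⟩, fun h0 => hne (congrArg Subtype.val h0)⟩))
          (x := (⟨p - x, hpx⟩ : S.direction)) (fun h0 => hne (congrArg Subtype.val h0))
          (⟨b - x, hbx⟩ : S.direction)
        have hc' : c • (p - x) = b - x := congrArg Subtype.val hc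
        exact ⟨c, by rw [hc', add_sub_cancel]⟩
      · have hcl : IsClosed (S : Set (EuclideanSpace ℂ (Fin n))) :=
          AffineSubspace.closed_of_finiteDimensional S
        obtain ⟨ρ, hρ, hρS⟩ := Metric.isOpen_iff.1 hcl.isOpen_compl p hpS
        refine ⟨{0}, finite_singleton 0, fun a ha => by rw [mem_singleton_iff.1 ha]; simp,
          fun A' hA' => Algebra.subset_adjoin (Or.inl ?_)⟩
        refine calmCl_off (b₀ := 0) (h0lin A' 0 (hA' (mem_singleton 0))) (by simp) hρ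
          (fun b hb _ => ?_) hu
        by_contra hlt
        exact hρS (show b ∈ ball p ρ by
          rw [mem_ball, dist_eq_norm]; exact not_le.1 hlt) hb
    · exact ⟨∅, finite_empty, fun a ha => absurd ha (notMem_empty a),
        fun A' _ => Algebra.subset_adjoin (Or.inr hu)⟩
  | algebraMap c =>
    exact ⟨∅, finite_empty, fun a ha => absurd ha (notMem_empty a),
      fun A' _ => Subalgebra.algebraMap_mem _ c⟩
  | add u v _ _ hu hv =>
    obtain ⟨A, h1, h2, h3⟩ := hu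
    obtain ⟨B, h4, h5, h6⟩ := hv
    exact ⟨A ∪ B, h1.union h4, fun a ha => ha.elim (h2 a) (h5 a), fun A' hA' =>
      add_mem (h3 A' (subset_union_left.trans hA')) (h6 A' (subset_union_right.trans hA'))⟩
  | mul u v _ _ hu hv =>
    obtain ⟨A, h1, h2, h3⟩ := hu
    obtain ⟨B, h4, h5, h6⟩ := hv
    exact ⟨A ∪ B, h1.union h4, fun a ha => ha.elim (h2 a) (h5 a), fun A' hA' =>
      mul_mem (h3 A' (subset_union_left.trans hA')) (h6 A' (subset_union_right.trans hA'))⟩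

/-- Local solutions at a point where only lines of the family pass. -/
theorem local_lines (hn : 2 ≤ n) {𝓢 : Set (AffineSubspace ℂ (EuclideanSpace ℂ (Fin n)))}
    {p : EuclideanSpace ℂ (Fin n)} (hp : ‖p‖ = 1)
    (hline : ∀ S ∈ 𝓢, p ∈ S → Module.finrank ℂ S.direction ≤ 1 ∧ ∃ x ∈ S, ‖x‖ < 1)
    {π : EuclideanSpace ℂ (Fin n) → ℂ} (hπ : DifferentiableOn ℂ π (ball 0 1))
    (hπ1 : ∀ z ∈ ball (0 : EuclideanSpace ℂ (Fin n)) 1, ‖π z‖ < 1) {N : ℕ}
    {f v : Fin N → EuclideanSpace ℂ (Fin n) → ℂ} (hf : ∀ j, IsHinf (ball 0 1) (f j)) {δ : ℝ}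
    (hδ : 0 < δ)
    (hfδ : ∀ z ∈ ball (0 : EuclideanSpace ℂ (Fin n)) 1, δ ^ 2 ≤ ∑ j, ‖f j z‖ ^ 2)
    (hv : ∀ j, v j ∈ Algebra.adjoin ℂ (Gen 𝓢 ∪ HinfOf π)) {e : ℝ} (he0 : 0 ≤ e)
    (he : 2 * e < δ)
    (hfv : ∀ z ∈ ball (0 : EuclideanSpace ℂ (Fin n)) 1, ∑ j, ‖f j z - v j z‖ ^ 2 ≤ e ^ 2) :
    ∃ r > 0, ∃ C, SolvableOn f (ball 0 1 ∩ ball p r) C := by
  have hE : 2 ≤ Module.finrank ℂ (EuclideanSpace ℂ (Fin n)) := by
    rw [finrank_euclideanSpace_fin]; exact hn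
  choose A hAf hA1 hAv using fun j => lines_of_adjoin hp hline (hv j)
  obtain ⟨A', hA'⟩ : ∃ A' : Set (EuclideanSpace ℂ (Fin n)), A' = {0} ∪ ⋃ j, A j := ⟨_, rfl⟩
  have hA'f : A'.Finite := by
    rw [hA']
    exact (finite_singleton 0).union (finite_iUnion hAf)
  have hA'n : A'.Nonempty := by rw [hA']; exact ⟨0, Or.inl rfl⟩
  have hA'1 : ∀ a ∈ A', ‖a‖ < 1 := by
    rw [hA']
    rintro a (ha | ha)
    · rw [mem_singleton_iff.1 ha]; simp
    · obtain ⟨j, hj⟩ := mem_iUnion.1 ha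
      exact hA1 j a hj
  have hsub : ∀ j, A j ⊆ A' := fun j => by
    rw [hA']
    exact (subset_iUnion A j).trans subset_union_right
  exact local_of_chars hf hp fun Φ hΦ => cellC_at hf hδ hfδ hp
    (good_linH hE hp hA'f hA'n hA'1) hπ hπ1 (fun j => hAv j A' (hsub j)) he0 he hfv Φ hΦ

/-- the family at a point of one of its members -/
theorem gen_reg {𝓢 : Set (AffineSubspace ℂ (EuclideanSpace ℂ (Fin n)))}
    {S : AffineSubspace ℂ (EuclideanSpace ℂ (Fin n))} {a : EuclideanSpace ℂ (Fin n)}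
    (ha : ‖a‖ < 1)
    (haS : ∀ ζ : EuclideanSpace ℂ (Fin n), ‖ζ‖ ≤ 1 → (ζ ∈ S ↔ gg (-a) ζ ∈ S.direction))
    {p : EuclideanSpace ℂ (Fin n)} (hp : ‖p‖ = 1) (hp' : ‖gg (-a) p‖ = 1)
    (hother : ∀ T ∈ 𝓢, T = S ∨ p ∉ T) {v : EuclideanSpace ℂ (Fin n) → ℂ} (hv : v ∈ Gen 𝓢) :
    (fun z => v (gg a z)) ∈
      RegC {u | MixN 1 (range S.direction.starProjection) (gg (-a) p) u} (gg (-a) p) := by
  have ha' : ‖-a‖ < 1 := by rwa [norm_neg]
  obtain ⟨T, hT, hvT⟩ := hv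
  obtain ⟨M, hM⟩ : ∃ M : Set (EuclideanSpace ℂ (Fin n)), M = {b | b ∈ T ∧ ‖b‖ < 1} := ⟨_, rfl⟩
  have hvM : CalmCl M v := by
    refine ⟨hvT.1, hvT.2.1, fun ε hε => ?_⟩
    obtain ⟨w, ⟨h1, h2, W, hW, h3⟩, h4⟩ := hvT.2.2 ε hε
    refine ⟨w, ⟨h1, h2, W, hW, fun k z hz hb => h3 k z hz fun b hb1 hb2 => hb b ?_ hb2⟩, h4⟩
    rw [hM]
    exact ⟨hb1, hb2⟩
  have hvg := calmCl_gg ha hvM
  rcases hother T hT with rfl | hpT
  · refine calmCl_in (fun b hb _ => ?_) hvg _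
    obtain ⟨b', hb', rfl⟩ := hb
    rw [hM] at hb'
    exact ⟨gg (-a) b', Submodule.starProjection_eq_self_iff.2 ((haS b' hb'.2.le).1 hb'.1)⟩
  · have hcl : IsClosed (T : Set (EuclideanSpace ℂ (Fin n))) :=
      AffineSubspace.closed_of_finiteDimensional T
    obtain ⟨ρ, hρ, hρT⟩ := Metric.isOpen_iff.1 hcl.isOpen_compl p hpT
    obtain ⟨ρ', hρ', hρ''⟩ := gg_cont ha hp' hρ
    refine calmCl_off (S := range S.direction.starProjection) (b₀ := 0) ⟨0, map_zero _⟩ (by simp)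
      hρ' (fun b hb _ => ?_) hvg
    obtain ⟨b', hb', rfl⟩ := hb
    rw [hM] at hb'
    by_contra hlt
    have h1 := hρ'' _ (not_le.1 hlt)
    rw [gg_back ha hb'.2.le, gg_back ha hp.le] at h1
    exact hρT (show b' ∈ ball p ρ by rw [mem_ball, dist_eq_norm]; exact h1) hb'.1

/-- products and sums -/
theorem adjoin_reg (hn : 2 ≤ n) {𝓢 : Set (AffineSubspace ℂ (EuclideanSpace ℂ (Fin n)))}
    {S : AffineSubspace ℂ (EuclideanSpace ℂ (Fin n))} {a : EuclideanSpace ℂ (Fin n)}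
    (ha : ‖a‖ < 1)
    (haS : ∀ ζ : EuclideanSpace ℂ (Fin n), ‖ζ‖ ≤ 1 → (ζ ∈ S ↔ gg (-a) ζ ∈ S.direction))
    {p : EuclideanSpace ℂ (Fin n)} (hp : ‖p‖ = 1) (hp' : ‖gg (-a) p‖ = 1)
    (hother : ∀ T ∈ 𝓢, T = S ∨ p ∉ T) {v : EuclideanSpace ℂ (Fin n) → ℂ}
    (hv : v ∈ Algebra.adjoin ℂ (Gen 𝓢)) :
    (fun z => v (gg a z)) ∈
      RegC {u | MixN 1 (range S.direction.starProjection) (gg (-a) p) u} (gg (-a) p) := by
  have hE : 2 ≤ Module.finrank ℂ (EuclideanSpace ℂ (Fin n)) := by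
    rw [finrank_euclideanSpace_fin]; exact hn
  induction hv using Algebra.adjoin_induction with
  | mem u hu => exact gen_reg ha haS hp hp' hother hu
  | algebraMap c =>
    exact RegC.adjoin hE (A := ∅) (fun u hu => absurd hu (notMem_empty u))
      (Subalgebra.algebraMap_mem _ c)
  | add u v _ _ hu hv =>
    exact RegC.adjoin hE (fun u hu => hu)
      (add_mem (Algebra.subset_adjoin hu) (Algebra.subset_adjoin hv))
  | mul u v _ _ hu hv =>
    exact RegC.adjoin hE (fun u hu => hu)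
      (mul_mem (Algebra.subset_adjoin hu) (Algebra.subset_adjoin hv))

theorem adjoin_reg' {𝓢 : Set (AffineSubspace ℂ (EuclideanSpace ℂ (Fin n)))}
    {S : AffineSubspace ℂ (EuclideanSpace ℂ (Fin n))} {a : EuclideanSpace ℂ (Fin n)}
    (ha : ‖a‖ < 1)
    (haS : ∀ ζ : EuclideanSpace ℂ (Fin n), ‖ζ‖ ≤ 1 → (ζ ∈ S ↔ gg (-a) ζ ∈ S.direction))
    {p : EuclideanSpace ℂ (Fin n)} (hp : ‖p‖ = 1) (hp' : ‖gg (-a) p‖ = 1)
    (hother : ∀ T ∈ 𝓢, T = S ∨ p ∉ T) {π v : EuclideanSpace ℂ (Fin n) → ℂ}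
    (hv : v ∈ Algebra.adjoin ℂ (Gen 𝓢 ∪ HinfOf π)) :
    (fun z => v (gg a z)) ∈ Algebra.adjoin ℂ
      (RegC {u | MixN 1 (range S.direction.starProjection) (gg (-a) p) u} (gg (-a) p) ∪
        HinfOf fun z => π (gg a z)) := by
  induction hv using Algebra.adjoin_induction with
  | mem u hu =>
    rcases hu with hu | ⟨g, h1, h2, h3⟩
    · exact Algebra.subset_adjoin (Or.inl (gen_reg ha haS hp hp' hother hu))
    · exact Algebra.subset_adjoin (Or.inr ⟨g, h1, h2, fun z => h3 _⟩)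
  | algebraMap c => exact Subalgebra.algebraMap_mem _ c
  | add u v _ _ hu hv => exact add_mem hu hv
  | mul u v _ _ hu hv => exact mul_mem hu hv

/-- Local solutions at a point of one member of the family. -/
theorem local_sub (hn : 2 ≤ n) {𝓢 : Set (AffineSubspace ℂ (EuclideanSpace ℂ (Fin n)))}
    {p : EuclideanSpace ℂ (Fin n)} (hp : ‖p‖ = 1)
    {S : AffineSubspace ℂ (EuclideanSpace ℂ (Fin n))} {x₀ : EuclideanSpace ℂ (Fin n)}
    (hx₀ : x₀ ∈ S) (hx1 : ‖x₀‖ < 1) (hother : ∀ T ∈ 𝓢, T = S ∨ p ∉ T)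
    (hSl : ∀ (N : ℕ) (q : EuclideanSpace ℂ (Fin n)), SlM N S.direction.starProjection q)
    {π : EuclideanSpace ℂ (Fin n) → ℂ} (hπ : DifferentiableOn ℂ π (ball 0 1))
    (hπ1 : ∀ z ∈ ball (0 : EuclideanSpace ℂ (Fin n)) 1, ‖π z‖ < 1) {N : ℕ}
    {f v : Fin N → EuclideanSpace ℂ (Fin n) → ℂ} (hf : ∀ j, IsHinf (ball 0 1) (f j)) {δ : ℝ}
    (hδ : 0 < δ)
    (hfδ : ∀ z ∈ ball (0 : EuclideanSpace ℂ (Fin n)) 1, δ ^ 2 ≤ ∑ j, ‖f j z‖ ^ 2)
    (hv : ∀ j, v j ∈ Algebra.adjoin ℂ (Gen 𝓢 ∪ HinfOf π)) {e : ℝ} (he0 : 0 ≤ e)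
    (he : 2 * e < δ)
    (hfv : ∀ z ∈ ball (0 : EuclideanSpace ℂ (Fin n)) 1, ∑ j, ‖f j z - v j z‖ ^ 2 ≤ e ^ 2) :
    ∃ r > 0, ∃ C, SolvableOn f (ball 0 1 ∩ ball p r) C := by
  have hE : 2 ≤ Module.finrank ℂ (EuclideanSpace ℂ (Fin n)) := by
    rw [finrank_euclideanSpace_fin]; exact hn
  obtain ⟨a, ha, haS⟩ := affine_aut hx₀ hx1
  have ha' : ‖-a‖ < 1 := by rwa [norm_neg]
  obtain ⟨Cd, hCd, hdk⟩ := dk_gg ha
  have hp' : ‖gg (-a) p‖ = 1 := by
    have h := (hdk {p} (by simpa using hp) (singleton_nonempty p)).1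
    simpa using h
  have hmap := Pool.Agent.MPca0fc2.TE.gg_maps (E := EuclideanSpace ℂ (Fin n)) ha
  have hholo := Pool.Agent.MPca0fc2.TE.gg_holo (E := EuclideanSpace ℂ (Fin n)) ha
  refine local_gg ha hp ?_
  have hfa : ∀ j, IsHinf (ball 0 1) fun z => f j (gg a z) := fun j =>
    ⟨(hf j).1.comp hholo hmap, (hf j).2.choose, fun z hz => (hf j).2.choose_spec _ (hmap hz)⟩
  exact local_of_chars hfa hp' fun Φ hΦ => cellC_at hfa hδ (fun z hz => hfδ _ (hmap hz)) hp'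
    (goodL hE (prj_star S.direction) hp' fun N => hSl N _)
    (π := fun z => π (gg a z)) (hπ.comp hholo hmap) (fun z hz => hπ1 _ (hmap hz))
    (v := fun j z => v j (gg a z)) (fun j => adjoin_reg' ha haS hp hp' hother (hv j)) he0 he
    (fun z hz => hfv _ (hmap hz)) Φ hΦ

/-- The same for one arbitrary function, and a fixed number of functions. -/
theorem local_one (hn : 2 ≤ n) {𝓢 : Set (AffineSubspace ℂ (EuclideanSpace ℂ (Fin n)))}
    {p : EuclideanSpace ℂ (Fin n)} (hp : ‖p‖ = 1)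
    {S : AffineSubspace ℂ (EuclideanSpace ℂ (Fin n))} {x₀ : EuclideanSpace ℂ (Fin n)}
    (hx₀ : x₀ ∈ S) (hx1 : ‖x₀‖ < 1) (hother : ∀ T ∈ 𝓢, T = S ∨ p ∉ T) {N : ℕ}
    (hSl : ∀ q : EuclideanSpace ℂ (Fin n), SlM N S.direction.starProjection q)
    {f : Fin N → EuclideanSpace ℂ (Fin n) → ℂ} (hf : ∀ j, IsHinf (ball 0 1) (f j)) {δ : ℝ}
    (hδ : 0 < δ)
    (hfδ : ∀ z ∈ ball (0 : EuclideanSpace ℂ (Fin n)) 1, δ ≤ ∑ j, ‖f j z‖ ^ 2) (j₀ : Fin N)
    (hv : ∀ j, j ≠ j₀ → ∀ ε > 0, ∃ v ∈ Algebra.adjoin ℂ (Gen 𝓢),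
      ∀ z ∈ ball (0 : EuclideanSpace ℂ (Fin n)) 1, ‖f j z - v z‖ ≤ ε) :
    ∃ r > 0, ∃ C, SolvableOn f (ball 0 1 ∩ ball p r) C := by
  have hE : 2 ≤ Module.finrank ℂ (EuclideanSpace ℂ (Fin n)) := by
    rw [finrank_euclideanSpace_fin]; exact hn
  obtain ⟨a, ha, haS⟩ := affine_aut hx₀ hx1
  have ha' : ‖-a‖ < 1 := by rwa [norm_neg]
  obtain ⟨Cd, hCd, hdk⟩ := dk_gg ha
  have hp' : ‖gg (-a) p‖ = 1 := by
    have h := (hdk {p} (by simpa using hp) (singleton_nonempty p)).1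
    simpa using h
  have hmap := Pool.Agent.MPca0fc2.TE.gg_maps (E := EuclideanSpace ℂ (Fin n)) ha
  have hholo := Pool.Agent.MPca0fc2.TE.gg_holo (E := EuclideanSpace ℂ (Fin n)) ha
  refine local_gg ha hp ?_
  have hfa : ∀ j, IsHinf (ball 0 1) fun z => f j (gg a z) := fun j =>
    ⟨(hf j).1.comp hholo hmap, (hf j).2.choose, fun z hz => (hf j).2.choose_spec _ (hmap hz)⟩
  choose hfd B hB using hfa
  refine local_of_chars (fun j => ⟨hfd j, B j, hB j⟩) hp' fun Φ hΦ => ?_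
  obtain ⟨j, hj⟩ := loc_one hE (prj_star S.direction) hp' (hSl _) (F := fun j z => f j (gg a z))
    hfd (B := ∑ j, |B j|) (fun j z hz => (hB j z hz).trans ((le_abs_self _).trans
      (Finset.single_le_sum (f := fun j => |B j|) (fun _ _ => abs_nonneg _)
        (Finset.mem_univ j)))) hδ (fun z hz => hfδ _ (hmap hz)) j₀ (fun j hj ε hε => by
      obtain ⟨v, hv1, hv2⟩ := hv j hj (ε / 2) (by positivity)
      obtain ⟨w, hw, s, hs, h1⟩ := (adjoin_reg hn ha haS hp hp' hother hv1).2.2 (ε / 2)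
        (by positivity)
      refine ⟨w, hw, s, hs, fun z hz hzp => ?_⟩
      have e1 := hv2 _ (hmap hz)
      have e2 := h1 z hz hzp
      calc ‖f j (gg a z) - w z‖ = ‖(f j (gg a z) - v (gg a z)) + (v (gg a z) - w z)‖ := by
            congr 1; ring
        _ ≤ ‖f j (gg a z) - v (gg a z)‖ + ‖v (gg a z) - w z‖ := norm_add_le _ _
        _ ≤ ε := by linarith) (W9_X Φ) hΦ
  exact ⟨j, hj⟩

end Pool.Agent.MPca0fc2.SP
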