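import Mathlib
import Pool.Agent.Lib.MP_ca0fc2_an.SP.S16

set_option autoImplicit false
set_option linter.unusedSectionVars false

open Metric Set MeasureTheory Filter Topology
open scoped InnerProductSpace ENNReal ContDiff

/-! # The corona theorem for families of complex affine subspaces -/

namespace Pool.Agent.MPca0fc2.SP

open Pool.Agent.Lib.MP_ca0fc2_an
open Pool.Agent.MPca0fc2.PT
open Pool.Agent.MPca0fc2.QT
open Pool.Agent.MPca0fc2.TS
open Pool.Agent.MPca0fc2.TE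
open Pool.Agent.MPca0fc2.TK
open Pool.Agent.MPca0fc2.VK
open Pool.Agent.MPca0fc2.PV
open Pool.Agent.MPca0fc2.CE

variable {n : ℕ}

/-- local solutions near all boundary points give global solutions -/
theorem glue (hn : 2 ≤ n) {N : ℕ} {f : Fin N → EuclideanSpace ℂ (Fin n) → ℂ}
    (hf : ∀ j, IsHinf (ball 0 1) (f j)) {δ : ℝ} (hδ : 0 < δ)
    (hfδ : ∀ z ∈ ball (0 : EuclideanSpace ℂ (Fin n)) 1, δ ≤ ∑ j, ‖f j z‖ ^ 2)
    (H : ∀ p : EuclideanSpace ℂ (Fin n), ‖p‖ = 1 →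
      ∃ r > 0, ∃ C, SolvableOn f (ball 0 1 ∩ ball p r) C) :
    ∃ C, SolvableOn f (ball 0 1) C := by
  obtain ⟨U, ρ₀, hh, c, hs, -⟩ := Pool.Agent.MPca0fc2.LV.support_of_domain
    (Pool.Agent.MPca0fc2.TB.isStrictlyPscDomain_ball (n := n))
  choose hfd K hK using hf
  refine Pool.Agent.MPca0fc2.FD.fibre_loc' hn hs (f := f) (M := ∑ j, |K j|) hfd
    (fun j z hz => (hK j z hz).trans ((le_abs_self _).trans
      (Finset.single_le_sum (f := fun j => |K j|) (fun _ _ => abs_nonneg _)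
        (Finset.mem_univ j)))) fun p hp => ?_
  by_cases hpD : p ∈ ball (0 : EuclideanSpace ℂ (Fin n)) 1
  · exact Pool.Agent.MPca0fc2.FD.solv_interior isOpen_ball hfd hδ hfδ hpD
  · refine H p (le_antisymm ?_ ?_)
    · rw [closure_ball 0 one_ne_zero] at hp
      exact mem_closedBall_zero_iff.1 hp
    · rw [mem_ball_zero_iff] at hpD
      exact not_lt.1 hpD

/-- A family of complex affine subspaces which meet the ball, two of which have a common boundary point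
only if both have dimension at most one; the dimensions are at most `k`. -/
structure Fam (k : ℕ) (𝓢 : Set (AffineSubspace ℂ (EuclideanSpace ℂ (Fin n)))) : Prop where
  meets : ∀ S ∈ 𝓢, ∃ x ∈ S, ‖x‖ < 1
  dim : ∀ S ∈ 𝓢, Module.finrank ℂ S.direction ≤ k
  apart : ∀ S ∈ 𝓢, ∀ T ∈ 𝓢, S ≠ T → ∀ p, ‖p‖ = 1 → p ∈ S → p ∈ T →
    Module.finrank ℂ S.direction ≤ 1

theorem exists_small {δ : ℝ} (hδ : 0 < δ) (N : ℕ) : ∃ t > 0, 2 * (√(N : ℝ) * t) < δ := by
  have hN : 0 < √(N : ℝ) + 1 := by positivity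
  refine ⟨δ / (4 * (√(N : ℝ) + 1)), by positivity, ?_⟩
  have h1 : √(N : ℝ) * (δ / (4 * (√(N : ℝ) + 1))) = (√(N : ℝ) / (√(N : ℝ) + 1)) * (δ / 4) := by
    field_simp
  rw [h1]
  have h2 : √(N : ℝ) / (√(N : ℝ) + 1) * (δ / 4) ≤ δ / 4 := by
    refine mul_le_of_le_one_left (by positivity) ?_
    rw [div_le_one hN]
    linarith
  linarith

theorem sum_small {N : ℕ} {f v : Fin N → EuclideanSpace ℂ (Fin n) → ℂ} {t : ℝ}
    (h : ∀ j, ∀ z ∈ ball (0 : EuclideanSpace ℂ (Fin n)) 1, ‖f j z - v j z‖ ≤ t)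
    {z : EuclideanSpace ℂ (Fin n)} (hz : z ∈ ball (0 : EuclideanSpace ℂ (Fin n)) 1) :
    ∑ j, ‖f j z - v j z‖ ^ 2 ≤ (√(N : ℝ) * t) ^ 2 := by
  calc ∑ j, ‖f j z - v j z‖ ^ 2 ≤ ∑ _j : Fin N, t ^ 2 :=
        Finset.sum_le_sum fun j _ => pow_le_pow_left₀ (norm_nonneg _) (h j z hz) 2
    _ = (√(N : ℝ) * t) ^ 2 := by
        rw [Finset.sum_const, Finset.card_univ, Fintype.card_fin, nsmul_eq_mul, mul_pow,
          Real.sq_sqrt (Nat.cast_nonneg N)]

end Pool.Agent.MPca0fc2.SP
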