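import Mathlib

set_option autoImplicit false
set_option linter.unusedSectionVars false

open Metric Set Filter Topology

/-! # Lacunary series with a nearly constant weighted norm -/

namespace Pool.Agent.MPca0fc2.SP

/-- the normalised monomials -/
noncomputable def mo (M N : ℕ) (x : ℂ) : ℂ :=
  ((((N + M : ℕ) : ℝ) / N) ^ N * (((N + M : ℕ) : ℝ) / M) ^ M : ℝ) * x ^ (2 * N)

theorem mo_diff (M N : ℕ) : Differentiable ℂ (mo M N) := by
  unfold mo
  exact (differentiable_const _).mul (differentiable_id.pow _)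

theorem mo_norm {M : ℕ} (N : ℕ) {x : ℂ} (_hx : ‖x‖ < 1) :
    ‖mo M N x‖ * (1 - ‖x‖ ^ 2) ^ M =
      (‖x‖ ^ 2 * (((N + M : ℕ) : ℝ) / N)) ^ N *
        ((1 - ‖x‖ ^ 2) * (((N + M : ℕ) : ℝ) / M)) ^ M := by
  unfold mo
  rw [norm_mul, Complex.norm_real, norm_pow, Real.norm_of_nonneg (by positivity), pow_mul,
    mul_pow, mul_pow]
  ring

/-- upper bound -/
theorem mo_le {M : ℕ} (hM : 1 ≤ M) (N : ℕ) {x : ℂ} (hx : ‖x‖ < 1) {y : ℝ}
    (hy : y = (1 - ‖x‖ ^ 2) * (((N + M : ℕ) : ℝ) / M)) :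
    ‖mo M N x‖ * (1 - ‖x‖ ^ 2) ^ M ≤ (y * Real.exp (1 - y)) ^ M := by
  have hx0 := norm_nonneg x
  have hx2 : 0 < 1 - ‖x‖ ^ 2 := by nlinarith
  have hM0 : (0 : ℝ) < M := by exact_mod_cast hM
  have hy0 : 0 ≤ y := by rw [hy]; positivity
  have e0 : (y * Real.exp (1 - y)) ^ M = Real.exp ((M : ℝ) * (1 - y)) * y ^ M := by
    rw [mul_pow, ← Real.exp_nat_mul, mul_comm]
  rw [mo_norm N hx, ← hy, e0]
  refine mul_le_mul_of_nonneg_right ?_ (by positivity)
  rcases Nat.eq_zero_or_pos N with rfl | hN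
  · rw [pow_zero]
    apply Real.one_le_exp
    have h1 : y ≤ 1 := by
      rw [hy, Nat.zero_add, div_self hM0.ne', mul_one]
      nlinarith
    exact mul_nonneg hM0.le (by linarith)
  · have hN0 : (0 : ℝ) < N := by exact_mod_cast hN
    have h1 : ‖x‖ ^ 2 * (((N + M : ℕ) : ℝ) / N) = (M : ℝ) * (1 - y) / N + 1 := by
      rw [hy]
      push_cast
      field_simp
      ring
    rw [h1]
    have h2 := Real.add_one_le_exp ((M : ℝ) * (1 - y) / N)
    have h3 : 0 ≤ (M : ℝ) * (1 - y) / N + 1 := by rw [← h1]; positivity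
    calc ((M : ℝ) * (1 - y) / N + 1) ^ N ≤ (Real.exp ((M : ℝ) * (1 - y) / N)) ^ N :=
          pow_le_pow_left₀ h3 h2 N
      _ = Real.exp ((M : ℝ) * (1 - y)) := by
          rw [← Real.exp_nat_mul]
          congr 1
          field_simp

/-- lower bound -/
theorem le_mo {M : ℕ} (hM : 1 ≤ M) (N : ℕ) {x : ℂ} (hx : ‖x‖ < 1) {y : ℝ}
    (hy : y = (1 - ‖x‖ ^ 2) * (((N + M : ℕ) : ℝ) / M)) (hy1 : y ≤ 1) :
    y ^ M ≤ ‖mo M N x‖ * (1 - ‖x‖ ^ 2) ^ M := by
  have hx0 := norm_nonneg x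
  have hx2 : 0 < 1 - ‖x‖ ^ 2 := by nlinarith
  have hM0 : (0 : ℝ) < M := by exact_mod_cast hM
  have hy0 : 0 ≤ y := by rw [hy]; positivity
  rw [mo_norm N hx, ← hy]
  refine le_mul_of_one_le_left (by positivity) ?_
  rcases Nat.eq_zero_or_pos N with rfl | hN
  · rw [pow_zero]
  · have hN0 : (0 : ℝ) < N := by exact_mod_cast hN
    have h1 : ‖x‖ ^ 2 * (((N + M : ℕ) : ℝ) / N) = (M : ℝ) * (1 - y) / N + 1 := by
      rw [hy]
      push_cast
      field_simp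
      ring
    rw [h1]
    apply one_le_pow₀
    have : 0 ≤ (M : ℝ) * (1 - y) / N := by
      have h2 : 0 ≤ 1 - y := by linarith
      positivity
    linarith

theorem psi_le_mul {y : ℝ} (hy : 0 ≤ y) : y * Real.exp (1 - y) ≤ 3 * y := by
  have h1 : Real.exp (1 - y) ≤ Real.exp 1 := Real.exp_le_exp.2 (by linarith)
  have h2 := Real.exp_one_lt_d9
  nlinarith

theorem psi_le_div {y : ℝ} (hy : 0 < y) : y * Real.exp (1 - y) ≤ 6 / y := by
  have h2 := Real.exp_one_lt_d9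
  have h3 : y ^ 2 / 2 ≤ Real.exp y := by
    have := Real.quadratic_le_exp_of_nonneg hy.le
    nlinarith
  rw [le_div_iff₀ hy, Real.exp_sub]
  rw [mul_div_assoc', div_mul_eq_mul_div, div_le_iff₀ (Real.exp_pos y)]
  nlinarith [Real.exp_pos y, sq_nonneg y]

theorem psi_nonneg {y : ℝ} (hy : 0 ≤ y) : 0 ≤ y * Real.exp (1 - y) := by positivity

theorem psi_le_one {y : ℝ} (hy : 0 ≤ y) : y * Real.exp (1 - y) ≤ 1 := by
  have h := Real.add_one_le_exp (y - 1)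
  have h1 : y ≤ Real.exp (y - 1) := by linarith
  calc y * Real.exp (1 - y) ≤ Real.exp (y - 1) * Real.exp (1 - y) :=
        mul_le_mul_of_nonneg_right h1 (Real.exp_pos _).le
    _ = 1 := by rw [← Real.exp_add]; norm_num

/-- the exponents plus `M` -/
noncomputable def XX (θ : ℝ) (M : ℕ) : ℕ → ℕ
  | 0 => M
  | l + 1 => ⌊θ * (XX θ M l : ℝ)⌋₊

theorem XX_ge {κ θ : ℝ} (hκ : 1 < κ) {M : ℕ} (hM1 : 1 ≤ M) (hM : 1 ≤ (θ - κ) * M) :
    ∀ l, M ≤ XX θ M l ∧ κ * (XX θ M l : ℝ) ≤ XX θ M (l + 1) ∧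
      (XX θ M (l + 1) : ℝ) ≤ θ * XX θ M l := by
  have hM0 : (0 : ℝ) < M := by exact_mod_cast hM1
  have hθκ : 0 < θ - κ := by
    by_contra h
    push Not at h
    nlinarith
  have hθ : 0 < θ := by linarith
  have step : ∀ l, M ≤ XX θ M l → κ * (XX θ M l : ℝ) ≤ XX θ M (l + 1) ∧
      (XX θ M (l + 1) : ℝ) ≤ θ * XX θ M l := by
    intro l hl
    have hl' : (M : ℝ) ≤ XX θ M l := by exact_mod_cast hl
    have h1 : (XX θ M (l + 1) : ℝ) = (⌊θ * (XX θ M l : ℝ)⌋₊ : ℝ) := rfl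
    have h2 := Nat.floor_le (show 0 ≤ θ * (XX θ M l : ℝ) by positivity)
    have h3 := Nat.lt_floor_add_one (θ * (XX θ M l : ℝ))
    constructor
    · rw [h1]
      nlinarith
    · rw [h1]
      exact h2
  intro l
  have key : M ≤ XX θ M l := by
    induction l with
    | zero => exact le_rfl
    | succ l ih =>
      have h1 := (step l ih).1
      have hl' : (M : ℝ) ≤ XX θ M l := by exact_mod_cast ih
      have h2 : (M : ℝ) ≤ XX θ M (l + 1) := by nlinarith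
      exact_mod_cast h2
  exact ⟨key, step l key⟩

theorem XX_pow {κ θ : ℝ} (hκ : 1 < κ) {M : ℕ} (hM1 : 1 ≤ M) (hM : 1 ≤ (θ - κ) * M) (l j : ℕ) :
    κ ^ j * (XX θ M l : ℝ) ≤ XX θ M (l + j) := by
  induction j with
  | zero => simp
  | succ j ih =>
    have h1 := (XX_ge hκ hM1 hM (l + j)).2.1
    have h2 : (XX θ M (l + (j + 1)) : ℝ) = XX θ M (l + j + 1) := by rw [add_assoc]
    rw [h2, pow_succ]
    nlinarith

end Pool.Agent.MPca0fc2.SP
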