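import Mathlib
import Pool.Agent.Lib.MP_ca0fc2_an.SP.S18

set_option autoImplicit false
set_option linter.unusedSectionVars false

open Metric Set Filter Topology

/-! # Lacunary series with a nearly constant weighted norm, continued -/

namespace Pool.Agent.MPca0fc2.SP

/-- two-sided geometric sums -/
theorem sum_bd {f : ℕ → ℝ} (c : ℕ) {A B : ℝ} (hf0 : ∀ j, 0 ≤ f j)
    (h1 : ∀ j < c, f j ≤ A * (1 / 2) ^ (c - 1 - j)) (h2 : ∀ j, f (j + c) ≤ B * (1 / 2) ^ j) :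
    Summable f ∧ ∑' j, f j ≤ 2 * |A| + 2 * B := by
  have hg : HasSum (fun j : ℕ => B * (1 / 2 : ℝ) ^ j) (B * 2) := hasSum_geometric_two.mul_left B
  have hs : Summable fun j => f (j + c) :=
    Summable.of_nonneg_of_le (fun j => hf0 _) h2 hg.summable
  have hsf : Summable f := (summable_nat_add_iff c).1 hs
  refine ⟨hsf, ?_⟩
  rw [← hsf.sum_add_tsum_nat_add c]
  have e1 : ∑' j, f (j + c) ≤ B * 2 := by
    rw [← hg.tsum_eq]
    exact hs.tsum_le_tsum h2 hg.summable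
  have e2 : ∑ j ∈ Finset.range c, f j ≤ |A| * 2 := by
    calc ∑ j ∈ Finset.range c, f j ≤ ∑ j ∈ Finset.range c, |A| * (1 / 2) ^ (c - 1 - j) := by
          refine Finset.sum_le_sum fun j hj => (h1 j (Finset.mem_range.1 hj)).trans ?_
          exact mul_le_mul_of_nonneg_right (le_abs_self A) (by positivity)
      _ = ∑ j ∈ Finset.range c, |A| * (1 / 2) ^ j :=
          Finset.sum_range_reflect (fun j => |A| * (1 / 2 : ℝ) ^ j) c
      _ ≤ ∑' j : ℕ, |A| * (1 / 2 : ℝ) ^ j :=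
          (summable_geometric_two.mul_left |A|).sum_le_tsum _ fun j _ => by positivity
      _ = |A| * 2 := by rw [tsum_mul_left, tsum_geometric_two]
  linarith

/-- the quantities of one sequence of exponents -/
theorem seq_first {z : ℕ → ℝ} {q : ℝ} (hq : 2 ≤ q) (hz0 : ∀ j, 0 < z j)
    (hz : ∀ j, q * z j ≤ z (j + 1)) :
    ∃ c : ℕ, (∀ j < c, z j ≤ (1 / 2) ^ (c - 1 - j)) ∧ ∀ j, 2 ^ j ≤ z (j + c) := by
  have hgrow : ∀ l j, 2 ^ j * z l ≤ z (j + l) := by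
    intro l j
    induction j with
    | zero => simp
    | succ j ih =>
      have h1 := hz (j + l)
      have h2 : z (j + 1 + l) = z (j + l + 1) := by congr 1; omega
      rw [h2, pow_succ]
      have := hz0 (j + l)
      nlinarith
  have hex : ∃ j, 1 < z j := by
    obtain ⟨j, hj⟩ := pow_unbounded_of_one_lt (1 / z 0) (one_lt_two : (1 : ℝ) < 2)
    refine ⟨j, ?_⟩
    have h1 := hgrow 0 j
    rw [add_zero] at h1
    have h2 := hz0 0
    rw [div_lt_iff₀ h2] at hj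
    linarith
  classical
  refine ⟨Nat.find hex, fun j hj => ?_, fun j => ?_⟩
  · have h1 : z (Nat.find hex - 1) ≤ 1 := not_lt.1 (Nat.find_min hex (by omega))
    have h2 := hgrow j (Nat.find hex - 1 - j)
    have h3 : Nat.find hex - 1 - j + j = Nat.find hex - 1 := by omega
    rw [h3] at h2
    rw [one_div, inv_pow, ← one_div, le_div_iff₀ (by positivity), mul_comm]
    exact h2.trans h1
  · have h1 := Nat.find_spec hex
    refine le_trans ?_ (hgrow (Nat.find hex) j)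
    have : (0 : ℝ) < 2 ^ j := by positivity
    nlinarith

/-- the numbers `y` -/
noncomputable def yy (θ : ℝ) (M : ℕ) (x : ℂ) (l : ℕ) : ℝ :=
  (1 - ‖x‖ ^ 2) * ((XX θ M l : ℝ) / M)

/-- the terms -/
noncomputable def te (θ : ℝ) (M : ℕ) (l : ℕ) (x : ℂ) : ℂ := mo M (XX θ M l - M) x

section

variable {κ θ : ℝ} {M : ℕ}

theorem yy_eq (hκ : 1 < κ) (hM1 : 1 ≤ M) (hM : 1 ≤ (θ - κ) * M) (x : ℂ) (l : ℕ) :
    yy θ M x l = (1 - ‖x‖ ^ 2) * (((XX θ M l - M + M : ℕ) : ℝ) / M) := by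
  rw [Nat.sub_add_cancel (XX_ge hκ hM1 hM l).1]
  rfl

theorem yy_pos (hκ : 1 < κ) (hM1 : 1 ≤ M) (hM : 1 ≤ (θ - κ) * M) {x : ℂ} (hx : ‖x‖ < 1)
    (l : ℕ) : 0 < yy θ M x l := by
  have h0 := norm_nonneg x
  have hx2 : 0 < 1 - ‖x‖ ^ 2 := by nlinarith
  have h1 : (0 : ℝ) < XX θ M l := by
    have := (XX_ge hκ hM1 hM l).1
    exact_mod_cast (show 0 < XX θ M l by omega)
  have hM0 : (0 : ℝ) < M := by exact_mod_cast hM1
  unfold yy
  positivity

theorem yy_pow (hκ : 1 < κ) (hM1 : 1 ≤ M) (hM : 1 ≤ (θ - κ) * M) {x : ℂ} (hx : ‖x‖ < 1)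
    (l j : ℕ) : κ ^ j * yy θ M x l ≤ yy θ M x (l + j) := by
  have h0 := norm_nonneg x
  have hx2 : 0 < 1 - ‖x‖ ^ 2 := by nlinarith
  have hM0 : (0 : ℝ) < M := by exact_mod_cast hM1
  have h1 := XX_pow hκ hM1 hM l j
  unfold yy
  calc κ ^ j * ((1 - ‖x‖ ^ 2) * ((XX θ M l : ℝ) / M)) =
      (1 - ‖x‖ ^ 2) * ((κ ^ j * (XX θ M l : ℝ)) / M) := by ring
    _ ≤ _ := by gcongr

theorem yy_succ (hκ : 1 < κ) (hM1 : 1 ≤ M) (hM : 1 ≤ (θ - κ) * M) {x : ℂ} (hx : ‖x‖ < 1)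
    (l : ℕ) : yy θ M x (l + 1) ≤ θ * yy θ M x l := by
  have h0 := norm_nonneg x
  have hx2 : 0 < 1 - ‖x‖ ^ 2 := by nlinarith
  have hM0 : (0 : ℝ) < M := by exact_mod_cast hM1
  have h1 := (XX_ge hκ hM1 hM l).2.2
  unfold yy
  calc (1 - ‖x‖ ^ 2) * ((XX θ M (l + 1) : ℝ) / M) ≤ (1 - ‖x‖ ^ 2) * ((θ * (XX θ M l : ℝ)) / M) := by
        gcongr
    _ = _ := by ring

theorem te_le (hκ : 1 < κ) (hM1 : 1 ≤ M) (hM : 1 ≤ (θ - κ) * M) {x : ℂ} (hx : ‖x‖ < 1)
    (l : ℕ) : ‖te θ M l x‖ * (1 - ‖x‖ ^ 2) ^ M ≤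
      (yy θ M x l * Real.exp (1 - yy θ M x l)) ^ M :=
  mo_le hM1 _ hx (yy_eq hκ hM1 hM x l)

theorem te_le_small (hκ : 1 < κ) (hM1 : 1 ≤ M) (hM : 1 ≤ (θ - κ) * M) {x : ℂ} (hx : ‖x‖ < 1)
    {l : ℕ} {a : ℝ} (h : 3 * yy θ M x l ≤ a) :
    ‖te θ M l x‖ * (1 - ‖x‖ ^ 2) ^ M ≤ a ^ M := by
  have h1 := yy_pos hκ hM1 hM hx l
  exact (te_le hκ hM1 hM hx l).trans
    (pow_le_pow_left₀ (psi_nonneg h1.le) ((psi_le_mul h1.le).trans h) M)

theorem te_le_large (hκ : 1 < κ) (hM1 : 1 ≤ M) (hM : 1 ≤ (θ - κ) * M) {x : ℂ} (hx : ‖x‖ < 1)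
    {l : ℕ} {a : ℝ} (h : 6 / yy θ M x l ≤ a) :
    ‖te θ M l x‖ * (1 - ‖x‖ ^ 2) ^ M ≤ a ^ M := by
  have h1 := yy_pos hκ hM1 hM hx l
  exact (te_le hκ hM1 hM hx l).trans
    (pow_le_pow_left₀ (psi_nonneg h1.le) ((psi_le_div h1).trans h) M)

theorem te_le_one (hκ : 1 < κ) (hM1 : 1 ≤ M) (hM : 1 ≤ (θ - κ) * M) {x : ℂ} (hx : ‖x‖ < 1)
    {l : ℕ} {a : ℝ} (ha : yy θ M x l * Real.exp (1 - yy θ M x l) ≤ a) :
    ‖te θ M l x‖ * (1 - ‖x‖ ^ 2) ^ M ≤ a := by
  have h1 := yy_pos hκ hM1 hM hx l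
  refine (te_le hκ hM1 hM hx l).trans ((pow_le_of_le_one (psi_nonneg h1.le)
    (psi_le_one h1.le) (by omega)).trans ha)

/-- the sums over the classes -/
theorem class_sum (hκ : 1 < κ) (hM1 : 1 ≤ M) (hM : 1 ≤ (θ - κ) * M) {K : ℕ} (hK : 2 ≤ κ ^ K)
    {x : ℂ} (hx : ‖x‖ < 1) (i : ℕ) :
    Summable (fun j => ‖te θ M (i + j * K) x‖ * (1 - ‖x‖ ^ 2) ^ M) ∧
      ∑' j, ‖te θ M (i + j * K) x‖ * (1 - ‖x‖ ^ 2) ^ M ≤ 18 := by
  have h0 := norm_nonneg x
  have hx2 : 0 < 1 - ‖x‖ ^ 2 := by nlinarith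
  obtain ⟨c, hc1, hc2⟩ := seq_first (z := fun j => yy θ M x (i + j * K)) hK
    (fun j => yy_pos hκ hM1 hM hx _) (fun j => by
      have h1 := yy_pow hκ hM1 hM hx (i + j * K) K
      have h2 : i + (j + 1) * K = i + j * K + K := by ring
      rw [h2]
      exact h1)
  obtain ⟨h1, h2⟩ := sum_bd (f := fun j => ‖te θ M (i + j * K) x‖ * (1 - ‖x‖ ^ 2) ^ M) c
    (A := 3) (B := 6) (fun j => by positivity) (fun j hj => by
      refine te_le_one hκ hM1 hM hx ((psi_le_mul (yy_pos hκ hM1 hM hx _).le).trans ?_)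
      exact mul_le_mul_of_nonneg_left (hc1 j hj) (by norm_num)) (fun j => by
      refine te_le_one hκ hM1 hM hx ((psi_le_div (yy_pos hκ hM1 hM hx _)).trans ?_)
      have h3 := hc2 j
      rw [div_eq_mul_inv, one_div, inv_pow]
      exact mul_le_mul_of_nonneg_left (inv_anti₀ (by positivity) h3) (by norm_num))
  refine ⟨h1, h2.trans ?_⟩
  norm_num

/-- the functions -/
noncomputable def vv (θ : ℝ) (M K : ℕ) (i : ℕ) (x : ℂ) : ℂ := ∑' j, te θ M (i + j * K) x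

theorem te_summable (hκ : 1 < κ) (hM1 : 1 ≤ M) (hM : 1 ≤ (θ - κ) * M) {K : ℕ}
    (hK : 2 ≤ κ ^ K) {x : ℂ} (hx : ‖x‖ < 1) (i : ℕ) :
    Summable fun j => ‖te θ M (i + j * K) x‖ := by
  have h0 := norm_nonneg x
  have hx2 : 0 < 1 - ‖x‖ ^ 2 := by nlinarith
  have h1 := (class_sum hκ hM1 hM hK hx i).1.mul_right ((1 - ‖x‖ ^ 2) ^ M)⁻¹
  refine h1.congr fun j => ?_
  have : (1 - ‖x‖ ^ 2) ^ M ≠ 0 := by positivity
  field_simp

theorem vv_diff (hκ : 1 < κ) (hM1 : 1 ≤ M) (hM : 1 ≤ (θ - κ) * M) {K : ℕ}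
    (hK : 2 ≤ κ ^ K) (i : ℕ) : DifferentiableOn ℂ (vv θ M K i) (ball 0 1) := by
  intro x hx
  have hx1 : ‖x‖ < 1 := mem_ball_zero_iff.1 hx
  obtain ⟨ρ, hρ1, hρ2⟩ := exists_between hx1
  have hρ0 : 0 ≤ ρ := (norm_nonneg x).trans hρ1.le
  have hρn : ‖(ρ : ℂ)‖ = ρ := by rw [Complex.norm_real, Real.norm_of_nonneg hρ0]
  have h1 := te_summable (x := (ρ : ℂ)) hκ hM1 hM hK (by rw [hρn]; exact hρ2) i
  have h2 : DifferentiableOn ℂ (vv θ M K i) (ball 0 ρ) := by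
    refine Complex.differentiableOn_tsum_of_summable_norm h1
      (fun j => (mo_diff _ _).differentiableOn) isOpen_ball fun j w hw => ?_
    have hw1 : ‖w‖ ≤ ρ := (mem_ball_zero_iff.1 hw).le
    unfold te mo
    rw [norm_mul, norm_mul, norm_pow, norm_pow, hρn]
    exact mul_le_mul_of_nonneg_left (pow_le_pow_left₀ (norm_nonneg w) hw1 _) (norm_nonneg _)
  exact (h2.differentiableAt (isOpen_ball.mem_nhds (mem_ball_zero_iff.2 hρ1))).differentiableWithinAt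

theorem vv_le (hκ : 1 < κ) (hM1 : 1 ≤ M) (hM : 1 ≤ (θ - κ) * M) {K : ℕ}
    (hK : 2 ≤ κ ^ K) (i : ℕ) {x : ℂ} (hx : ‖x‖ < 1) :
    ‖vv θ M K i x‖ * (1 - ‖x‖ ^ 2) ^ M ≤ 18 := by
  have h0 := norm_nonneg x
  have hx2 : 0 < 1 - ‖x‖ ^ 2 := by nlinarith
  have h1 := te_summable hκ hM1 hM hK hx i
  have h2 : ‖vv θ M K i x‖ ≤ ∑' j, ‖te θ M (i + j * K) x‖ := norm_tsum_le_tsum_norm h1
  refine (mul_le_mul_of_nonneg_right h2 (by positivity)).trans ?_
  rw [← tsum_mul_right]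
  exact (class_sum hκ hM1 hM hK hx i).2

/-- the lower bound -/
theorem le_vv (hκ : 1 < κ) (hθκ : κ ≤ θ) (hM1 : 1 ≤ M) (hM : 1 ≤ (θ - κ) * M) {K : ℕ}
    (hK : 72 * θ ^ 2 ≤ κ ^ K) {x : ℂ} (hx : ‖x‖ < 1) :
    ∃ i < K, (1 / 2) * (1 / θ) ^ M ≤ ‖vv θ M K i x‖ * (1 - ‖x‖ ^ 2) ^ M := by
  have h0 := norm_nonneg x
  have hx2 : 0 < 1 - ‖x‖ ^ 2 := by nlinarith
  have hθ1 : 1 < θ := hκ.trans_le hθκ
  have hK2 : 2 ≤ κ ^ K := by nlinarith
  have hM0 : (0 : ℝ) < M := by exact_mod_cast hM1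
  have hK0 : 0 < K := by
    rcases Nat.eq_zero_or_pos K with h | h
    · rw [h, pow_zero] at hK2
      norm_num at hK2
    · exact h
  obtain ⟨Q, hQ⟩ : ∃ Q : ℝ, Q = κ ^ K := ⟨_, rfl⟩
  have hQ2 : 2 ≤ Q := by rw [hQ]; exact hK2
  -- the last index with `y ≤ 1`
  have hy0 : yy θ M x 0 ≤ 1 := by
    have : yy θ M x 0 = 1 - ‖x‖ ^ 2 := by
      unfold yy
      rw [show XX θ M 0 = M from rfl, div_self hM0.ne', mul_one]
    rw [this]
    nlinarith
  have hex : ∃ l, 1 < yy θ M x l := by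
    obtain ⟨j, hj⟩ := pow_unbounded_of_one_lt (1 / yy θ M x 0) hκ
    refine ⟨j, ?_⟩
    have h1 := yy_pow hκ hM1 hM hx 0 j
    rw [zero_add] at h1
    rw [div_lt_iff₀ (yy_pos hκ hM1 hM hx 0)] at hj
    linarith
  classical
  obtain ⟨l, hl1, hl2⟩ : ∃ l, yy θ M x l ≤ 1 ∧ 1 < yy θ M x (l + 1) := by
    have h1 := Nat.find_spec hex
    have h2 : Nat.find hex ≠ 0 := fun h => by
      rw [h] at h1
      linarith
    refine ⟨Nat.find hex - 1, not_lt.1 (Nat.find_min hex (by omega)), ?_⟩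
    rw [Nat.sub_add_cancel (Nat.one_le_iff_ne_zero.2 h2)]
    exact h1
  have hly : 1 / θ ≤ yy θ M x l := by
    have h1 := yy_succ hκ hM1 hM hx l
    rw [div_le_iff₀ (by linarith), mul_comm]
    linarith
  have hlpos := yy_pos hκ hM1 hM hx l
  refine ⟨l % K, Nat.mod_lt _ hK0, ?_⟩
  have hdec : l % K + (l / K) * K = l := by rw [mul_comm]; exact Nat.mod_add_div l K
  obtain ⟨b, hb⟩ : ∃ b, b = l / K := ⟨_, rfl⟩
  rw [← hb] at hdec
  -- the main term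
  have hmain : (1 / θ) ^ M ≤ ‖te θ M (l % K + b * K) x‖ * (1 - ‖x‖ ^ 2) ^ M := by
    rw [hdec]
    refine (pow_le_pow_left₀ (by positivity) hly M).trans ?_
    exact le_mo hM1 _ hx (yy_eq hκ hM1 hM x l) hl1
  -- the other terms
  obtain ⟨A, hA⟩ : ∃ A : ℝ, A = (6 * θ / Q) ^ M := ⟨_, rfl⟩
  have hA0 : 0 ≤ A := by rw [hA]; positivity
  have hgeo : ∀ j : ℕ, (6 * θ / Q ^ (j + 1)) ^ M ≤ A * (1 / 2) ^ j := by
    intro j
    have e1 : 6 * θ / Q ^ (j + 1) = (6 * θ / Q) * (1 / Q) ^ j := by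
      rw [pow_succ, one_div, inv_pow, div_mul_eq_div_div_swap, div_eq_mul_inv (6 * θ / Q)]
    rw [e1, mul_pow, ← hA]
    refine mul_le_mul_of_nonneg_left ?_ hA0
    have e2 : (1 / Q) ^ j ≤ (1 / 2) ^ j :=
      pow_le_pow_left₀ (by positivity) (one_div_le_one_div_of_le (by norm_num) hQ2) j
    have e3 : (1 / Q) ^ j ≤ 1 := pow_le_one₀ (by positivity) (by
      rw [div_le_one (by linarith)]
      linarith)
    exact (pow_le_of_le_one (by positivity) e3 (by omega)).trans e2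
  have hQpow : ∀ j : ℕ, κ ^ (j * K) = Q ^ j := fun j => by rw [hQ, ← pow_mul, mul_comm]
  obtain ⟨F, hF⟩ : ∃ F : ℕ → ℝ, F = fun j => if j = b then 0 else
    ‖te θ M (l % K + j * K) x‖ * (1 - ‖x‖ ^ 2) ^ M := ⟨_, rfl⟩
  obtain ⟨hF1, hF2⟩ := sum_bd (f := F) b (A := A) (B := 2 * A) (fun j => by
      rw [hF]
      dsimp only
      split_ifs
      · exact le_rfl
      · positivity) (fun j hj => by
      rw [hF]
      dsimp only
      rw [if_neg hj.ne]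
      obtain ⟨s, rfl⟩ : ∃ s, b = j + (s + 1) := ⟨b - j - 1, by omega⟩
      have e1 : j + (s + 1) - 1 - j = s := by omega
      rw [e1]
      refine le_trans ?_ (hgeo s)
      refine te_le_small hκ hM1 hM hx ?_
      have e2 := yy_pow hκ hM1 hM hx (l % K + j * K) ((s + 1) * K)
      have e3 : l % K + j * K + (s + 1) * K = l := by
        have e6 : l % K + j * K + (s + 1) * K = l % K + (j + (s + 1)) * K := by ring
        rw [e6, hdec]
      rw [e3, hQpow] at e2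
      have e4 : yy θ M x (l % K + j * K) ≤ 1 / Q ^ (s + 1) := by
        rw [le_div_iff₀ (by positivity), mul_comm]
        exact e2.trans hl1
      have e5 : (0 : ℝ) < 1 / Q ^ (s + 1) := by positivity
      have e6 : 6 * θ / Q ^ (s + 1) = 6 * θ * (1 / Q ^ (s + 1)) := by ring
      rw [e6]
      nlinarith) (fun j => by
      rw [hF]
      dsimp only
      rcases Nat.eq_zero_or_pos j with rfl | hj
      · rw [if_pos (by omega)]
        positivity
      · rw [if_neg (by omega)]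
        obtain ⟨s, rfl⟩ : ∃ s, j = s + 1 := ⟨j - 1, by omega⟩
        have e0 : 2 * A * (1 / 2 : ℝ) ^ (s + 1) = A * (1 / 2) ^ s := by rw [pow_succ]; ring
        rw [e0]
        refine le_trans ?_ (hgeo s)
        refine te_le_large hκ hM1 hM hx ?_
        have e2 := yy_pow hκ hM1 hM hx l ((s + 1) * K)
        have e3 : l + (s + 1) * K = l % K + (s + 1 + b) * K := by
          have e6 : l % K + (s + 1 + b) * K = (l % K + b * K) + (s + 1) * K := by ring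
          rw [e6, hdec]
        rw [e3, hQpow] at e2
        have e4 : Q ^ (s + 1) / θ ≤ yy θ M x (l % K + (s + 1 + b) * K) := by
          refine le_trans ?_ e2
          rw [div_eq_mul_one_div]
          exact mul_le_mul_of_nonneg_left hly (by positivity)
        calc 6 / yy θ M x (l % K + (s + 1 + b) * K) ≤ 6 / (Q ^ (s + 1) / θ) := by
              gcongr
          _ = 6 * θ / Q ^ (s + 1) := by
              field_simp)
  have hsum := (class_sum hκ hM1 hM hK2 hx (l % K)).1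
  have hte := te_summable hκ hM1 hM hK2 hx (l % K)
  have hv : vv θ M K (l % K) x = te θ M (l % K + b * K) x +
      ∑' j, if j = b then 0 else te θ M (l % K + j * K) x := by
    unfold vv
    exact hte.of_norm.tsum_eq_add_tsum_ite b
  have hF3 : Summable fun j => ‖if j = b then (0 : ℂ) else te θ M (l % K + j * K) x‖ := by
    refine Summable.of_nonneg_of_le (fun j => norm_nonneg _) (fun j => ?_) hte
    split_ifs
    · rw [norm_zero]
      exact norm_nonneg _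
    · exact le_rfl
  have hrest : ‖∑' j, if j = b then (0 : ℂ) else te θ M (l % K + j * K) x‖ *
      (1 - ‖x‖ ^ 2) ^ M ≤ 2 * |A| + 2 * (2 * A) := by
    refine (mul_le_mul_of_nonneg_right (norm_tsum_le_tsum_norm hF3) (by positivity)).trans ?_
    rw [← tsum_mul_right]
    refine le_trans (le_of_eq ?_) hF2
    refine tsum_congr fun j => ?_
    rw [hF]
    dsimp only
    split_ifs
    · rw [norm_zero, zero_mul]
    · rfl
  rw [abs_of_nonneg hA0] at hrest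
  have hA6 : 6 * A ≤ (1 / 2) * (1 / θ) ^ M := by
    have h1 : 6 * θ / Q ≤ (1 / 12) * (1 / θ) := by
      rw [div_le_iff₀ (by linarith), hQ]
      have h2 : (1 / 12) * (1 / θ) * (72 * θ ^ 2) ≤ (1 / 12) * (1 / θ) * κ ^ K :=
        mul_le_mul_of_nonneg_left hK (by positivity)
      have h3 : (1 / 12) * (1 / θ) * (72 * θ ^ 2) = 6 * θ := by
        field_simp
        norm_num
      linarith
    have h2 : A ≤ ((1 / 12) * (1 / θ)) ^ M := by
      rw [hA]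
      exact pow_le_pow_left₀ (by positivity) h1 M
    rw [mul_pow] at h2
    have h3 : (1 / 12 : ℝ) ^ M ≤ 1 / 12 := pow_le_of_le_one (by norm_num) (by norm_num) (by omega)
    have h4 : 0 ≤ (1 / θ) ^ M := by positivity
    nlinarith
  have hfin : ‖te θ M (l % K + b * K) x‖ ≤ ‖vv θ M K (l % K) x‖ +
      ‖∑' j, if j = b then (0 : ℂ) else te θ M (l % K + j * K) x‖ := by
    rw [hv]
    have := norm_sub_le (te θ M (l % K + b * K) x +
      ∑' j, if j = b then (0 : ℂ) else te θ M (l % K + j * K) x)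
      (∑' j, if j = b then (0 : ℂ) else te θ M (l % K + j * K) x)
    rwa [add_sub_cancel_right] at this
  have h5 := mul_le_mul_of_nonneg_right hfin (show 0 ≤ (1 - ‖x‖ ^ 2) ^ M by positivity)
  rw [add_mul] at h5
  linarith

end

end Pool.Agent.MPca0fc2.SP
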