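import Mathlib
import Pool.Agent.Lib.MP_ca0fc2_an.SP.S19

set_option autoImplicit false
set_option linter.unusedSectionVars false

open Metric Set Filter Topology

/-! # Functions of one variable which separate tubes -/

namespace Pool.Agent.MPca0fc2.SP

theorem lac {s : ℝ} (hs0 : 0 < s) (hs1 : s < 1) :
    ∃ (s₁ : ℝ) (M K : ℕ) (v : Fin K → ℂ → ℂ) (α β : ℝ), s < s₁ ∧ s₁ < 1 ∧ 0 < α ∧ α < β ∧
      1 ≤ M ∧
      (∀ i, DifferentiableOn ℂ (v i) (ball 0 1)) ∧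
      (∀ x : ℂ, ‖x‖ < 1 → s ^ M * ((1 - ‖x‖ ^ 2) ^ M * √(∑ i, ‖v i x‖ ^ 2)) ≤ α) ∧
      ∀ x : ℂ, ‖x‖ < 1 → β ≤ s₁ ^ M * ((1 - ‖x‖ ^ 2) ^ M * √(∑ i, ‖v i x‖ ^ 2)) := by
  obtain ⟨κ, hκ, hκs⟩ : ∃ κ : ℝ, 1 < κ ∧ κ ^ 3 * s < 1 := by
    have h1 : Tendsto (fun κ : ℝ => κ ^ 3 * s) (𝓝[>] 1) (𝓝 (1 ^ 3 * s)) := by
      have : Continuous fun κ : ℝ => κ ^ 3 * s := by fun_prop
      exact (this.tendsto 1).mono_left nhdsWithin_le_nhds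
    have h2 : ∀ᶠ κ : ℝ in 𝓝[>] 1, κ ^ 3 * s < 1 :=
      h1.eventually (Iio_mem_nhds (by rw [one_pow, one_mul]; exact hs1))
    obtain ⟨κ, h3, h4⟩ := (h2.and self_mem_nhdsWithin).exists
    exact ⟨κ, h4, h3⟩
  obtain ⟨θ, hθ⟩ : ∃ θ : ℝ, θ = κ ^ 2 := ⟨_, rfl⟩
  have hκθ : κ < θ := by rw [hθ]; nlinarith
  obtain ⟨K, hK⟩ := pow_unbounded_of_one_lt (72 * θ ^ 2) hκ
  have hθ1 : 1 < θ := hκ.trans hκθ
  have hK0 : 0 < K := by
    rcases Nat.eq_zero_or_pos K with h | h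
    · rw [h, pow_zero] at hK
      nlinarith
    · exact h
  have hKR : (0 : ℝ) < K := by exact_mod_cast hK0
  obtain ⟨M₁, hM₁⟩ := pow_unbounded_of_one_lt (36 * √(K : ℝ)) hκ
  obtain ⟨M₂, hM₂⟩ := exists_nat_ge (1 / (θ - κ))
  obtain ⟨M, hM⟩ : ∃ M : ℕ, M = M₁ + M₂ + 1 := ⟨_, rfl⟩
  have hM1 : 1 ≤ M := by omega
  have hMθ : 1 ≤ (θ - κ) * M := by
    rw [div_le_iff₀ (by linarith)] at hM₂
    have h1 : (M₂ : ℝ) ≤ M := by exact_mod_cast (by omega : M₂ ≤ M)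
    nlinarith
  have hMκ : 36 * √(K : ℝ) < κ ^ M := hM₁.trans_le (pow_le_pow_right₀ hκ.le (by omega))
  have hK2 : 2 ≤ κ ^ K := by nlinarith
  have hs1' : 0 < κ ^ 3 * s := by positivity
  refine ⟨κ ^ 3 * s, M, K, fun i => vv θ M K i, s ^ M * (18 * √(K : ℝ)),
    s ^ M * (κ ^ M * (1 / 2)), ?_, hκs, by positivity, ?_, hM1, fun i => vv_diff hκ hM1 hMθ hK2 i,
    fun x hx => ?_, fun x hx => ?_⟩
  · have h1 : 1 < κ ^ 3 := one_lt_pow₀ hκ (by norm_num)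
    nlinarith
  · refine mul_lt_mul_of_pos_left ?_ (by positivity)
    linarith
  · have hx0 := norm_nonneg x
    have hx2 : 0 < 1 - ‖x‖ ^ 2 := by nlinarith
    refine mul_le_mul_of_nonneg_left ?_ (by positivity)
    have hp : 0 < (1 - ‖x‖ ^ 2) ^ M := by positivity
    have h1 : ∑ i : Fin K, ‖vv θ M K i x‖ ^ 2 ≤ K * (18 / (1 - ‖x‖ ^ 2) ^ M) ^ 2 := by
      calc ∑ i : Fin K, ‖vv θ M K i x‖ ^ 2 ≤ ∑ _i : Fin K, (18 / (1 - ‖x‖ ^ 2) ^ M) ^ 2 := by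
            refine Finset.sum_le_sum fun i _ => pow_le_pow_left₀ (norm_nonneg _) ?_ 2
            rw [le_div_iff₀ hp]
            exact vv_le hκ hM1 hMθ hK2 i hx
        _ = K * (18 / (1 - ‖x‖ ^ 2) ^ M) ^ 2 := by
            rw [Finset.sum_const, Finset.card_univ, Fintype.card_fin, nsmul_eq_mul]
    calc (1 - ‖x‖ ^ 2) ^ M * √(∑ i : Fin K, ‖vv θ M K i x‖ ^ 2)
        ≤ (1 - ‖x‖ ^ 2) ^ M * √(K * (18 / (1 - ‖x‖ ^ 2) ^ M) ^ 2) :=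
          mul_le_mul_of_nonneg_left (Real.sqrt_le_sqrt h1) hp.le
      _ = 18 * √(K : ℝ) := by
          rw [Real.sqrt_mul hKR.le, Real.sqrt_sq (by positivity)]
          field_simp
  · have hx0 := norm_nonneg x
    have hx2 : 0 < 1 - ‖x‖ ^ 2 := by nlinarith
    have hp : 0 < (1 - ‖x‖ ^ 2) ^ M := by positivity
    obtain ⟨i, hi, h1⟩ := le_vv hκ hκθ.le hM1 hMθ hK.le hx
    have h2 : ‖vv θ M K i x‖ ≤ √(∑ i : Fin K, ‖vv θ M K i x‖ ^ 2) := by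
      obtain ⟨g, hg⟩ : ∃ g : Fin K → ℝ, g = fun i : Fin K => ‖vv θ M K i x‖ ^ 2 := ⟨_, rfl⟩
      have h3 : g ⟨i, hi⟩ ≤ ∑ i, g i :=
        Finset.single_le_sum (fun j _ => by rw [hg]; exact sq_nonneg _) (Finset.mem_univ _)
      rw [hg] at h3
      exact Real.le_sqrt_of_sq_le h3
    have h3 : (1 / 2) * (1 / θ) ^ M ≤ (1 - ‖x‖ ^ 2) ^ M * √(∑ i : Fin K, ‖vv θ M K i x‖ ^ 2) := by
      refine h1.trans ?_
      rw [mul_comm]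
      exact mul_le_mul_of_nonneg_left h2 hp.le
    calc s ^ M * (κ ^ M * (1 / 2)) = (κ ^ 3 * s) ^ M * ((1 / 2) * (1 / θ) ^ M) := by
          have e1 : κ ^ 3 * s * (1 / θ) = κ * s := by
            rw [hθ]
            field_simp
          have e2 : (κ ^ 3 * s) ^ M * ((1 / 2) * (1 / θ) ^ M) =
              (1 / 2) * (κ ^ 3 * s * (1 / θ)) ^ M := by
            rw [mul_pow (κ ^ 3 * s) (1 / θ) M]
            ring
          rw [e2, e1, mul_pow]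
          ring
      _ ≤ _ := mul_le_mul_of_nonneg_left h3 (by positivity)

end Pool.Agent.MPca0fc2.SP
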