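import Mathlib
import Pool.Agent.Lib.MP_ca0fc2_an.SP.S13
import Pool.Agent.Lib.MP_ca0fc2_an.SP.S14
import Pool.Agent.Lib.MP_ca0fc2_an.SP.S20

set_option autoImplicit false
set_option linter.unusedSectionVars false

open Metric Set MeasureTheory Filter Topology
open scoped InnerProductSpace ENNReal ContDiff

/-! # Tame functions which separate tubes around a complex line -/

namespace Pool.Agent.MPca0fc2.SP

open Pool.Agent.Lib.MP_ca0fc2_an
open Pool.Agent.MPca0fc2.PT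
open Pool.Agent.MPca0fc2.QT
open Pool.Agent.MPca0fc2.TS
open Pool.Agent.MPca0fc2.TE
open Pool.Agent.MPca0fc2.TK
open Pool.Agent.MPca0fc2.VK
open Pool.Agent.MPca0fc2.PV
open Pool.Agent.MPca0fc2.CE

variable {n : ℕ}

theorem sepL {V : Submodule ℂ (EuclideanSpace ℂ (Fin n))} (hV : Module.finrank ℂ V = 1)
    {s : ℝ} (hs0 : 0 < s) (hs1 : s < 1) :
    ∃ (s₁ : ℝ) (m : ℕ) (W : Fin m → EuclideanSpace ℂ (Fin n) → ℂ) (α β : ℝ),
      s < s₁ ∧ s₁ < 1 ∧ 0 < α ∧ α < β ∧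
      (∀ i, AS (V.starProjection : EuclideanSpace ℂ (Fin n) →L[ℂ] _) (W i)) ∧
      (∀ z ∈ ball (0 : EuclideanSpace ℂ (Fin n)) 1, 1 - s ≤ ro V.starProjection z →
        √(∑ i, ‖W i z‖ ^ 2) ≤ α) ∧
      (∀ z ∈ ball (0 : EuclideanSpace ℂ (Fin n)) 1, ro V.starProjection z ≤ 1 - s₁ →
        β ≤ √(∑ i, ‖W i z‖ ^ 2)) ∧
      (∀ i, ∀ z ∈ V, W i z = 0) ∧
      ∃ M : ℕ, ∀ z ∈ ball (0 : EuclideanSpace ℂ (Fin n)) 1,
        β * (1 - ro V.starProjection z) ^ M ≤ √(∑ i, ‖W i z‖ ^ 2) := by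
  classical
  -- a unit vector
  obtain ⟨e, heV, he1, hspan⟩ : ∃ e ∈ V, ‖e‖ = 1 ∧ V = Submodule.span ℂ {e} := by
    obtain ⟨v, hv0, hv⟩ := finrank_eq_one_iff'.1 hV
    have hvn : ‖(v : EuclideanSpace ℂ (Fin n))‖ ≠ 0 := fun h =>
      hv0 (Subtype.ext (norm_eq_zero.1 h))
    have hvn' : (((‖(v : EuclideanSpace ℂ (Fin n))‖ : ℝ) : ℂ))⁻¹ ≠ 0 :=
      inv_ne_zero (Complex.ofReal_ne_zero.2 hvn)
    refine ⟨(((‖(v : EuclideanSpace ℂ (Fin n))‖ : ℝ) : ℂ))⁻¹ • (v : EuclideanSpace ℂ (Fin n)),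
      V.smul_mem _ v.2, ?_, ?_⟩
    · rw [norm_smul, norm_inv, Complex.norm_real, norm_norm, inv_mul_cancel₀ hvn]
    · refine le_antisymm (fun x hx => ?_) ?_
      · obtain ⟨c, hc⟩ := hv ⟨x, hx⟩
        have hc' : c • (v : EuclideanSpace ℂ (Fin n)) = x := congrArg Subtype.val hc
        rw [Submodule.mem_span_singleton]
        refine ⟨c * ((‖(v : EuclideanSpace ℂ (Fin n))‖ : ℝ) : ℂ), ?_⟩
        rw [smul_smul, mul_assoc, mul_inv_cancel₀ (Complex.ofReal_ne_zero.2 hvn), mul_one, hc']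
      · rw [Submodule.span_singleton_le_iff_mem]
        exact V.smul_mem _ v.2
  have hPe : ∀ z, V.starProjection z = ⟪e, z⟫_ℂ • e := fun z => by
    rw [hspan]
    exact Submodule.starProjection_unit_singleton ℂ he1 z
  have hPn : ∀ z, ‖V.starProjection z‖ = ‖⟪e, z⟫_ℂ‖ := fun z => by
    rw [hPe, norm_smul, he1, mul_one]
  have hP := prj_star V
  obtain ⟨s₁, M, K, v, α, β, hss, hs₁, hα, hαβ, hM1, hvd, hvu, hvl⟩ := lac hs0 hs1
  obtain ⟨ι, hι⟩ : ∃ ι : Type, ι = (Fin K × (Fin (2 * M) → Fin n)) := ⟨_, rfl⟩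
  subst hι
  obtain ⟨W₀, hW₀⟩ : ∃ W₀ : (Fin K × (Fin (2 * M) → Fin n)) → EuclideanSpace ℂ (Fin n) → ℂ,
      W₀ = fun i z => v i.1 ⟪e, z⟫_ℂ * ∏ t, (z - V.starProjection z) (i.2 t) := ⟨_, rfl⟩
  have hx1 : ∀ z ∈ ball (0 : EuclideanSpace ℂ (Fin n)) 1, ‖⟪e, z⟫_ℂ‖ < 1 := fun z hz => by
    refine (norm_inner_le_norm e z).trans_lt ?_
    rw [he1, one_mul]
    exact mem_ball_zero_iff.1 hz
  -- the norm
  have hnorm : ∀ z ∈ ball (0 : EuclideanSpace ℂ (Fin n)) 1, √(∑ i, ‖W₀ i z‖ ^ 2) =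
      (1 - ro V.starProjection z) ^ M *
        ((1 - ‖⟪e, z⟫_ℂ‖ ^ 2) ^ M * √(∑ i, ‖v i ⟪e, z⟫_ℂ‖ ^ 2)) := by
    intro z hz
    have hx := hx1 z hz
    have hx0 := norm_nonneg ⟪e, z⟫_ℂ
    have hx2 : 0 < 1 - ‖⟪e, z⟫_ℂ‖ ^ 2 := by nlinarith
    have hpy := pyth hP z
    have hro : (1 - ro V.starProjection z) * (1 - ‖⟪e, z⟫_ℂ‖ ^ 2) =
        ‖z - V.starProjection z‖ ^ 2 := by
      unfold ro
      rw [hPn]
      rw [hPn] at hpy
      field_simp
      rw [hpy]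
      ring
    have hsum : ∑ i, ‖W₀ i z‖ ^ 2 =
        (∑ i, ‖v i ⟪e, z⟫_ℂ‖ ^ 2) * (‖z - V.starProjection z‖ ^ 2) ^ (2 * M) := by
      rw [EuclideanSpace.norm_sq_eq, Fintype.sum_pow, Finset.sum_mul_sum, ← Finset.univ_product_univ,
        Finset.sum_product]
      refine Finset.sum_congr rfl fun i _ => Finset.sum_congr rfl fun w _ => ?_
      rw [hW₀]
      dsimp only
      rw [norm_mul, mul_pow, norm_prod, Finset.prod_pow]
    rw [hsum, Real.sqrt_mul (Finset.sum_nonneg fun i _ => by positivity), ← mul_assoc, ← mul_pow,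
      hro, pow_mul', Real.sqrt_sq (by positivity), mul_comm]
  have hsq : ∀ z ∈ ball (0 : EuclideanSpace ℂ (Fin n)) 1,
      0 ≤ (1 - ‖⟪e, z⟫_ℂ‖ ^ 2) ^ M * √(∑ i, ‖v i ⟪e, z⟫_ℂ‖ ^ 2) := fun z hz => by
    have hx := hx1 z hz
    have hx0 := norm_nonneg ⟪e, z⟫_ℂ
    have hx2 : 0 < 1 - ‖⟪e, z⟫_ℂ‖ ^ 2 := by nlinarith
    positivity
  have hro01 : ∀ z ∈ ball (0 : EuclideanSpace ℂ (Fin n)) 1,
      0 < ro V.starProjection z ∧ ro V.starProjection z ≤ 1 := fun z hz =>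
    ro_pos hP (mem_ball_zero_iff.mp hz)
  have hd : ∀ i, DifferentiableOn ℂ (W₀ i) (ball 0 1) := by
    intro i
    rw [hW₀]
    refine DifferentiableOn.mul ?_ ?_
    · exact (hvd i.1).comp (innerSL ℂ e).differentiable.differentiableOn fun z hz =>
        mem_ball_zero_iff.2 (hx1 z hz)
    · refine Differentiable.differentiableOn ?_
      have h1 : ∀ t : Fin (2 * M), Differentiable ℂ
          fun z : EuclideanSpace ℂ (Fin n) => (z - V.starProjection z) (i.2 t) := fun t =>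
        ((EuclideanSpace.proj (𝕜 := ℂ) (i.2 t)).differentiable).comp
          (differentiable_id.sub (V.starProjection).differentiable)
      intro z
      exact (HasFDerivAt.finsetProd fun t _ => (h1 t z).hasFDerivAt).differentiableAt
  have hbd : ∀ i, ∃ C : ℝ, ∀ z ∈ ball (0 : EuclideanSpace ℂ (Fin n)) 1, ‖W₀ i z‖ ≤ C := by
    intro i
    refine ⟨α / s ^ M, fun z hz => ?_⟩
    have h1 : ‖W₀ i z‖ ≤ √(∑ i, ‖W₀ i z‖ ^ 2) := by
      apply Real.le_sqrt_of_sq_le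
      obtain ⟨g, hg⟩ : ∃ g : (Fin K × (Fin (2 * M) → Fin n)) → ℝ, g = fun i => ‖W₀ i z‖ ^ 2 :=
        ⟨_, rfl⟩
      have h3 : g i ≤ ∑ i, g i :=
        Finset.single_le_sum (fun j _ => by rw [hg]; exact sq_nonneg _) (Finset.mem_univ _)
      rwa [hg] at h3
    rw [hnorm z hz] at h1
    have h2 := hvu _ (hx1 z hz)
    have h3 : (1 - ro V.starProjection z) ^ M ≤ 1 :=
      pow_le_one₀ (by linarith [(hro01 z hz).2]) (by linarith [(hro01 z hz).1])
    have h4 := hsq z hz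
    rw [le_div_iff₀ (by positivity)]
    have hsM : 0 < s ^ M := by positivity
    calc ‖W₀ i z‖ * s ^ M ≤ (1 - ro V.starProjection z) ^ M *
          ((1 - ‖⟪e, z⟫_ℂ‖ ^ 2) ^ M * √(∑ i, ‖v i ⟪e, z⟫_ℂ‖ ^ 2)) * s ^ M :=
          mul_le_mul_of_nonneg_right h1 hsM.le
      _ ≤ 1 * ((1 - ‖⟪e, z⟫_ℂ‖ ^ 2) ^ M * √(∑ i, ‖v i ⟪e, z⟫_ℂ‖ ^ 2)) * s ^ M := by gcongr
      _ ≤ α := by
          rw [one_mul, mul_comm]
          exact h2
  have hAS : ∀ i, AS (V.starProjection : EuclideanSpace ℂ (Fin n) →L[ℂ] _) (W₀ i) := by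
    intro i
    refine AS.of_poly hP (hd i) (hbd i) (d := 2 * M) fun z hz => ?_
    refine ⟨fun j => if j = Fin.last (2 * M) then W₀ i z else 0, fun t ht => ?_⟩
    have h1 : V.starProjection (V.starProjection z + t • (z - V.starProjection z)) =
        V.starProjection z := by
      rw [map_add, map_smul, map_sub, hP.idem, sub_self, smul_zero, add_zero]
    have h2 : ⟪e, V.starProjection z + t • (z - V.starProjection z)⟫_ℂ = ⟪e, z⟫_ℂ := by
      have hPee : V.starProjection e = e := Submodule.starProjection_eq_self_iff.2 heV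
      have h3 : ∀ y, ⟪e, y⟫_ℂ = ⟪e, V.starProjection y⟫_ℂ := fun y => by
        have h4 := hP.sa e y
        rwa [hPee] at h4
      rw [h3, h1, ← h3]
    have h5 : V.starProjection z + t • (z - V.starProjection z) -
        V.starProjection (V.starProjection z + t • (z - V.starProjection z)) =
        t • (z - V.starProjection z) := by
      rw [h1, add_sub_cancel_left]
    rw [Finset.sum_eq_single (Fin.last (2 * M))]
    · beta_reduce
      rw [if_pos rfl, hW₀]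
      dsimp only
      rw [h2, h5]
      simp only [PiLp.smul_apply, smul_eq_mul, Finset.prod_mul_distrib, Finset.prod_const,
        Finset.card_univ, Fintype.card_fin, Fin.val_last]
      ring
    · intro j _ hj
      beta_reduce
      rw [if_neg hj, zero_mul]
    · intro h
      exact absurd (Finset.mem_univ _) h
  obtain ⟨m, hm⟩ : ∃ m, m = Fintype.card (Fin K × (Fin (2 * M) → Fin n)) := ⟨_, rfl⟩
  obtain ⟨eq⟩ : Nonempty (Fin m ≃ (Fin K × (Fin (2 * M) → Fin n))) := by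
    rw [hm]
    exact ⟨(Fintype.equivFin _).symm⟩
  have hsumeq : ∀ z, ∑ i, ‖W₀ (eq i) z‖ ^ 2 = ∑ i, ‖W₀ i z‖ ^ 2 := fun z =>
    eq.sum_comp fun i => ‖W₀ i z‖ ^ 2
  refine ⟨s₁, m, fun i => W₀ (eq i), α, β, hss, hs₁, hα, hαβ, fun i => hAS _, fun z hz h => ?_,
    fun z hz h => ?_, fun i z hz => ?_, M, fun z hz => ?_⟩
  · rw [hsumeq, hnorm z hz]
    refine le_trans ?_ (hvu _ (hx1 z hz))
    refine mul_le_mul_of_nonneg_right ?_ (hsq z hz)
    exact pow_le_pow_left₀ (by linarith [(hro01 z hz).2]) (by linarith) M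
  · rw [hsumeq, hnorm z hz]
    refine (hvl _ (hx1 z hz)).trans ?_
    refine mul_le_mul_of_nonneg_right ?_ (hsq z hz)
    exact pow_le_pow_left₀ (hs0.trans hss).le (by linarith) M
  · have h0 : z - V.starProjection z = 0 := by
      rw [Submodule.starProjection_eq_self_iff.2 hz, sub_self]
    rw [hW₀]
    dsimp only
    rw [h0]
    have hne : Nonempty (Fin (2 * M)) := ⟨⟨0, by omega⟩⟩
    rw [Finset.prod_eq_zero (Finset.mem_univ hne.some) (by rfl), mul_zero]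
  · rw [hsumeq, hnorm z hz, mul_comm]
    refine mul_le_mul_of_nonneg_left ?_ (pow_nonneg (by linarith [(hro01 z hz).2]) M)
    refine (hvl _ (hx1 z hz)).trans ?_
    refine mul_le_of_le_one_left (hsq z hz) ?_
    exact pow_le_one₀ (hs0.trans hss).le hs₁.le

end Pool.Agent.MPca0fc2.SP
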