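import Mathlib
import Pool.Agent.Lib.MP_ca0fc2_an.SP.S16
import Pool.Agent.Lib.MP_ca0fc2_an.SP.S21
import Pool.Agent.Lib.MP_ca0fc2_an.TQ.W9

set_option autoImplicit false
set_option linter.unusedSectionVars false

open Metric Set MeasureTheory Filter Topology
open scoped InnerProductSpace ENNReal ContDiff

/-! # Tubes around complex affine subspaces -/

namespace Pool.Agent.MPca0fc2.SP

open Pool.Agent.Lib.MP_ca0fc2_an
open Pool.Agent.MPca0fc2.PT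
open Pool.Agent.MPca0fc2.QT
open Pool.Agent.MPca0fc2.TS
open Pool.Agent.MPca0fc2.TE
open Pool.Agent.MPca0fc2.TK
open Pool.Agent.MPca0fc2.VK
open Pool.Agent.MPca0fc2.PV
open Pool.Agent.MPca0fc2.CE

variable {n : ℕ}

/-- the points of the ball at a bounded distance from `S` -/
def Tub (c : ℝ) (S : Set (EuclideanSpace ℂ (Fin n))) (z : EuclideanSpace ℂ (Fin n)) : Prop :=
  ∃ w ∈ S, ‖w‖ < 1 ∧ c < PT.HH w z

theorem HH_proj (V : Submodule ℂ (EuclideanSpace ℂ (Fin n))) {z : EuclideanSpace ℂ (Fin n)}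
    (hz : ‖z‖ < 1) : PT.HH (V.starProjection z) z = ro V.starProjection z := by
  have hP := prj_star V
  have hPz : ‖V.starProjection z‖ < 1 := (V.norm_starProjection_apply_le z).trans_lt hz
  have h6 : ⟪V.starProjection z, z⟫_ℂ = ((‖V.starProjection z‖ ^ 2 : ℝ) : ℂ) := by
    have e1 : ⟪V.starProjection z, z⟫_ℂ = ⟪V.starProjection z, V.starProjection z⟫_ℂ := by
      have e2 := hP.sa (V.starProjection z) z
      rw [hP.idem] at e2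
      exact e2
    rw [e1, inner_self_eq_norm_sq_to_K]
    norm_cast
  unfold PT.HH PV.ro
  rw [h6]
  have h7 : ‖(1 : ℂ) - ((‖V.starProjection z‖ ^ 2 : ℝ) : ℂ)‖ =
      1 - ‖V.starProjection z‖ ^ 2 := by
    rw [← Complex.ofReal_one, ← Complex.ofReal_sub, Complex.norm_real, Real.norm_of_nonneg]
    nlinarith [norm_nonneg (V.starProjection z)]
  rw [h7]
  have h8 : 0 < 1 - ‖V.starProjection z‖ ^ 2 := by
    nlinarith [norm_nonneg (V.starProjection z)]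
  field_simp

theorem tub_linear (V : Submodule ℂ (EuclideanSpace ℂ (Fin n))) {c : ℝ}
    {z : EuclideanSpace ℂ (Fin n)} (hz : ‖z‖ < 1) :
    Tub c (V : Set (EuclideanSpace ℂ (Fin n))) z ↔ c < ro V.starProjection z := by
  constructor
  · rintro ⟨w, hw, hw1, h⟩
    exact h.trans_le (HH_le_ro (prj_star V)
      ⟨w, Submodule.starProjection_eq_self_iff.2 hw⟩ hw1 hz)
  · intro h
    exact ⟨V.starProjection z, V.starProjection_apply_mem z,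
      (V.norm_starProjection_apply_le z).trans_lt hz, by rw [HH_proj V hz]; exact h⟩

theorem tub_gg {S : AffineSubspace ℂ (EuclideanSpace ℂ (Fin n))} {a : EuclideanSpace ℂ (Fin n)}
    (ha : ‖a‖ < 1)
    (haS : ∀ ζ : EuclideanSpace ℂ (Fin n), ‖ζ‖ ≤ 1 → (ζ ∈ S ↔ gg (-a) ζ ∈ S.direction)) {c : ℝ}
    {z : EuclideanSpace ℂ (Fin n)} (hz : ‖z‖ < 1) :
    Tub c (S : Set (EuclideanSpace ℂ (Fin n))) z ↔
      c < ro S.direction.starProjection (gg (-a) z) := by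
  have ha' : ‖-a‖ < 1 := by rwa [norm_neg]
  rw [← tub_linear S.direction (gg_lt ha' hz)]
  constructor
  · rintro ⟨w, hw, hw1, h⟩
    exact ⟨gg (-a) w, (haS w hw1.le).1 hw, gg_lt ha' hw1, by rw [HH_gg ha' hw1 hz]; exact h⟩
  · rintro ⟨w, hw, hw1, h⟩
    have e1 : gg (-a) (gg a w) = w := gg_neg_gg ha hw1.le
    have e2 : ‖gg a w‖ < 1 := gg_lt ha hw1
    refine ⟨gg a w, (haS _ e2.le).2 (by rw [e1]; exact hw), e2, ?_⟩
    rw [← HH_gg ha' e2 hz, e1]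
    exact h

theorem CalmCl.mono_ball {M S : Set (EuclideanSpace ℂ (Fin n))} (h : ∀ b ∈ M, ‖b‖ < 1 → b ∈ S)
    {u : EuclideanSpace ℂ (Fin n) → ℂ} (hu : CalmCl M u) : CalmCl S u := by
  refine ⟨hu.1, hu.2.1, fun ε hε => ?_⟩
  obtain ⟨w, ⟨h1, h2, W, hW, h3⟩, h4⟩ := hu.2.2 ε hε
  exact ⟨w, ⟨h1, h2, W, hW, fun k z hz hb => h3 k z hz fun b hb1 hb2 => hb b (h b hb1 hb2) hb2⟩, h4⟩

/-- Tame functions which separate the tubes around a complex line. -/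
theorem sepA {S : AffineSubspace ℂ (EuclideanSpace ℂ (Fin n))}
    (hS : Module.finrank ℂ S.direction = 1) {x₀ : EuclideanSpace ℂ (Fin n)} (hx₀ : x₀ ∈ S)
    (hx1 : ‖x₀‖ < 1) {c : ℝ} (hc0 : 0 < c) (hc1 : c < 1) :
    ∃ (c₁ : ℝ) (m : ℕ) (W : Fin m → EuclideanSpace ℂ (Fin n) → ℂ) (α β : ℝ),
      0 < c₁ ∧ 0 < α ∧ α < β ∧
      (∀ i, CalmCl (S : Set (EuclideanSpace ℂ (Fin n))) (W i)) ∧
      (∀ z ∈ ball (0 : EuclideanSpace ℂ (Fin n)) 1, Tub c (S : Set _) z →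
        √(∑ i, ‖W i z‖ ^ 2) ≤ α) ∧
      (∀ z ∈ ball (0 : EuclideanSpace ℂ (Fin n)) 1, ¬ Tub c₁ (S : Set _) z →
        β ≤ √(∑ i, ‖W i z‖ ^ 2)) ∧
      (∀ i, ∀ z ∈ S, ‖z‖ < 1 → W i z = 0) ∧
      ∃ M : ℕ, ∀ z ∈ ball (0 : EuclideanSpace ℂ (Fin n)) 1, ∀ c₂ < 1,
        ¬ Tub c₂ (S : Set (EuclideanSpace ℂ (Fin n))) z →
          β * (1 - c₂) ^ M ≤ √(∑ i, ‖W i z‖ ^ 2) := by
  obtain ⟨a, ha, haS⟩ := affine_aut hx₀ hx1
  have ha' : ‖-a‖ < 1 := by rwa [norm_neg]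
  obtain ⟨s₁, m, W, α, β, hs, hs₁, hα, hαβ, hW, hWu, hWl, hW0, M, hWM⟩ :=
    sepL hS (s := 1 - c) (by linarith) (by linarith)
  refine ⟨1 - s₁, m, fun i z => W i (gg (-a) z), α, β, by linarith, hα, hαβ, fun i => ?_,
    fun z hz h => ?_, fun z hz h => ?_, fun i z hz hz1 => hW0 i _ ((haS z hz1.le).1 hz), M,
    fun z hz c₂ hc₂ h => ?_⟩
  · have h1 : CalmCl {b | b ∈ S.direction ∧ ‖b‖ < 1} (W i) := by
      have h2 := (calmCl_iff_AS S.direction (W i)).2 (hW i)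
      exact CalmCl.mono_ball (M := (S.direction : Set (EuclideanSpace ℂ (Fin n))))
        (S := {b | b ∈ S.direction ∧ ‖b‖ < 1}) (fun b hb hb1 => ⟨hb, hb1⟩) h2
    have h2 := calmCl_gg ha' h1
    rw [neg_neg] at h2
    refine h2.mono_ball ?_
    rintro _ ⟨b, ⟨hb, hb1⟩, rfl⟩ _
    refine (haS _ (gg_lt ha hb1).le).2 ?_
    rw [gg_neg_gg ha hb1.le]
    exact hb
  · refine hWu _ (mem_ball_zero_iff.2 (gg_lt ha' (mem_ball_zero_iff.1 hz))) ?_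
    have h1 := (tub_gg ha haS (mem_ball_zero_iff.1 hz)).1 h
    linarith
  · refine hWl _ (mem_ball_zero_iff.2 (gg_lt ha' (mem_ball_zero_iff.1 hz))) ?_
    rw [tub_gg ha haS (mem_ball_zero_iff.1 hz)] at h
    push Not at h
    linarith
  · rw [tub_gg ha haS (mem_ball_zero_iff.1 hz)] at h
    push Not at h
    refine le_trans ?_ (hWM _ (mem_ball_zero_iff.2 (gg_lt ha' (mem_ball_zero_iff.1 hz))))
    refine mul_le_mul_of_nonneg_left ?_ (hα.trans hαβ).le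
    exact pow_le_pow_left₀ (by linarith) (by linarith) M

/-- Tubes do not reach the other boundary points. -/
theorem tub_away {S : Set (EuclideanSpace ℂ (Fin n))} (hS : IsClosed S)
    {p : EuclideanSpace ℂ (Fin n)} (hp : ‖p‖ = 1) (hpS : p ∉ S) {c : ℝ} (hc : 0 < c) :
    ∃ ρ > 0, ∀ z ∈ ball (0 : EuclideanSpace ℂ (Fin n)) 1, ‖z - p‖ < ρ → ¬ Tub c S z := by
  obtain ⟨d, hd, hdS⟩ := Metric.isOpen_iff.1 hS.isOpen_compl p hpS
  refine ⟨min (d / 2) (c * (d / 2) ^ 4 / 8), lt_min (by positivity) (by positivity),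
    fun z hz hzp hT => ?_⟩
  obtain ⟨w, hw, hw1, h⟩ := hT
  have hz1 := mem_ball_zero_iff.1 hz
  have h1 : ‖z - p‖ < d / 2 := hzp.trans_le (min_le_left _ _)
  have h2 : ‖z - p‖ < c * (d / 2) ^ 4 / 8 := hzp.trans_le (min_le_right _ _)
  have h3 : 1 - ‖z‖ ≤ ‖z - p‖ := by
    have := norm_sub_norm_le p z
    rw [hp, norm_sub_rev] at this
    exact this
  have h4 : 1 - ‖z‖ ^ 2 ≤ 2 * ‖z - p‖ := by nlinarith [norm_nonneg z]
  have hz0 : 0 < 1 - ‖z‖ ^ 2 := by nlinarith [norm_nonneg z]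
  have hw0 : 0 < 1 - ‖w‖ ^ 2 := by nlinarith [norm_nonneg w]
  have hden : 0 < ‖1 - ⟪w, z⟫_ℂ‖ := by
    rw [norm_pos_iff, sub_ne_zero]
    intro h0
    have h5 := norm_inner_le_norm (𝕜 := ℂ) w z
    rw [← h0, norm_one] at h5
    nlinarith [norm_nonneg w, norm_nonneg z]
  have h5 : c * ‖1 - ⟪w, z⟫_ℂ‖ ^ 2 < 1 - ‖z‖ ^ 2 := by
    unfold PT.HH at h
    rw [lt_div_iff₀ (by positivity)] at h
    nlinarith [sq_nonneg ‖w‖]
  have h6 := dist_le_den hw1 hz1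
  have h7 : ‖w - z‖ ^ 4 ≤ 4 * ‖1 - ⟪w, z⟫_ℂ‖ ^ 2 := by
    have h8 : (‖w - z‖ ^ 2) ^ 2 ≤ (2 * ‖1 - ⟪w, z⟫_ℂ‖) ^ 2 :=
      pow_le_pow_left₀ (sq_nonneg _) h6 2
    nlinarith
  have h8 : ‖w - z‖ ^ 4 < (d / 2) ^ 4 := by
    have h9 : c * ‖w - z‖ ^ 4 < c * (d / 2) ^ 4 := by nlinarith
    exact lt_of_mul_lt_mul_left h9 hc.le
  have h9 : ‖w - z‖ < d / 2 := lt_of_pow_lt_pow_left₀ 4 (by positivity) h8
  refine hdS (show w ∈ ball p d from ?_) hw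
  rw [mem_ball, dist_eq_norm]
  calc ‖w - p‖ = ‖(w - z) + (z - p)‖ := by congr 1; abel
    _ ≤ ‖w - z‖ + ‖z - p‖ := norm_add_le _ _
    _ < d := by linarith

end Pool.Agent.MPca0fc2.SP
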