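import Mathlib
import Pool.Agent.Lib.MP_ca0fc2_an.SP.S22

set_option autoImplicit false
set_option linter.unusedSectionVars false

open Metric Set MeasureTheory Filter Topology
open scoped InnerProductSpace ENNReal ContDiff

/-! # Solutions which are bounded on tubes, and cells -/

namespace Pool.Agent.MPca0fc2.SP

open Pool.Agent.Lib.MP_ca0fc2_an
open Pool.Agent.MPca0fc2.PT
open Pool.Agent.MPca0fc2.QT
open Pool.Agent.MPca0fc2.TS
open Pool.Agent.MPca0fc2.TE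
open Pool.Agent.MPca0fc2.TK
open Pool.Agent.MPca0fc2.VK
open Pool.Agent.MPca0fc2.PV
open Pool.Agent.MPca0fc2.CE

variable {n : ℕ}

/-- All data have solutions which are bounded on the tubes around `S`. -/
theorem tube_sol (hn : 2 ≤ n) {S : AffineSubspace ℂ (EuclideanSpace ℂ (Fin n))}
    {x₀ : EuclideanSpace ℂ (Fin n)} (hx₀ : x₀ ∈ S) (hx1 : ‖x₀‖ < 1) {N : ℕ}
    (hSl : SlN N S.direction.starProjection) {f : Fin N → EuclideanSpace ℂ (Fin n) → ℂ}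
    (hf : ∀ j, IsHinf (ball 0 1) (f j)) {δ : ℝ} (hδ : 0 < δ)
    (hfδ : ∀ z ∈ ball (0 : EuclideanSpace ℂ (Fin n)) 1, δ ≤ ∑ j, ‖f j z‖ ^ 2) {c : ℝ}
    (hc : 0 < c) :
    ∃ (h : Fin N → EuclideanSpace ℂ (Fin n) → ℂ) (C : ℝ),
      (∀ j, DifferentiableOn ℂ (h j) (ball 0 1)) ∧
      (∀ z ∈ ball (0 : EuclideanSpace ℂ (Fin n)) 1, ∑ j, f j z * h j z = 1) ∧
      ∀ z ∈ ball (0 : EuclideanSpace ℂ (Fin n)) 1, Tub c (S : Set _) z → ∀ j, ‖h j z‖ ≤ C := by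
  have hE : 2 ≤ Module.finrank ℂ (EuclideanSpace ℂ (Fin n)) := by
    rw [finrank_euclideanSpace_fin]; exact hn
  obtain ⟨a, ha, haS⟩ := affine_aut hx₀ hx1
  have ha' : ‖-a‖ < 1 := by rwa [norm_neg]
  choose hfd B hB using hf
  obtain ⟨B', hB'⟩ : ∃ B' : ℝ, B' = ∑ j, |B j| := ⟨_, rfl⟩
  have hBB : ∀ j, |B j| ≤ B' := fun j => by
    rw [hB']
    exact Finset.single_le_sum (f := fun j => |B j|) (fun _ _ => abs_nonneg _)
      (Finset.mem_univ j)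
  have hB'0 : 0 ≤ B' := by rw [hB']; exact Finset.sum_nonneg fun j _ => abs_nonneg _
  obtain ⟨lam, hlam⟩ : ∃ lam : ℝ, lam = √N * B' + 1 := ⟨_, rfl⟩
  have hlam0 : 0 < lam := by rw [hlam]; positivity
  have hnorm : ∀ j z, ‖(lam : ℂ)⁻¹ * f j z‖ ^ 2 = ‖f j z‖ ^ 2 / lam ^ 2 := by
    intro j z
    rw [norm_mul, norm_inv, Complex.norm_real, Real.norm_of_nonneg hlam0.le]
    field_simp
  have hF : ∀ z ∈ ball (0 : EuclideanSpace ℂ (Fin n)) 1,
      δ / lam ^ 2 ≤ ∑ j, ‖(lam : ℂ)⁻¹ * f j z‖ ^ 2 ∧ ∑ j, ‖(lam : ℂ)⁻¹ * f j z‖ ^ 2 ≤ 1 := by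
    intro z hz
    simp only [hnorm]
    rw [← Finset.sum_div]
    constructor
    · exact div_le_div_of_nonneg_right (hfδ z hz) (by positivity)
    · rw [div_le_one (by positivity)]
      calc ∑ j, ‖f j z‖ ^ 2 ≤ ∑ _j : Fin N, B' ^ 2 := by
            refine Finset.sum_le_sum fun j _ => ?_
            exact pow_le_pow_left₀ (norm_nonneg _)
              ((hB j z hz).trans ((le_abs_self _).trans (hBB j))) 2
        _ = N * B' ^ 2 := by simp
        _ = (√N * B') ^ 2 := by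
            rw [mul_pow, Real.sq_sqrt (Nat.cast_nonneg N)]
        _ ≤ lam ^ 2 := by
            refine pow_le_pow_left₀ (by positivity) ?_ 2
            rw [hlam]
            linarith
  have hmap := Pool.Agent.MPca0fc2.TE.gg_maps (E := EuclideanSpace ℂ (Fin n)) ha
  have hholo := Pool.Agent.MPca0fc2.TE.gg_holo (E := EuclideanSpace ℂ (Fin n)) ha
  obtain ⟨g, A, hg1, hg2⟩ := hSl (fun j z => (lam : ℂ)⁻¹ * f j (gg a z))
    (fun j => ((hfd j).comp hholo hmap).const_mul _)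
    ⟨lam⁻¹ * B', fun j z hz => by
      rw [norm_mul, norm_inv, Complex.norm_real, Real.norm_of_nonneg hlam0.le]
      exact mul_le_mul_of_nonneg_left ((hB j _ (hmap hz)).trans ((le_abs_self _).trans (hBB j)))
        (by positivity)⟩
    ⟨δ / lam ^ 2, by positivity, fun z hz => (hF _ (hmap hz)).1⟩
  obtain ⟨A', hA'⟩ : ∃ A' : ℝ, A' = √N * |A| + 1 := ⟨_, rfl⟩
  obtain ⟨C, hC, h1⟩ := Pool.Agent.MPca0fc2.TQ.seq_gen (E := EuclideanSpace ℂ (Fin n)) (C₀ := 1)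
    hE N le_rfl one_pos (show 0 < δ / lam ^ 2 by positivity)
    (show 0 < A' by rw [hA']; positivity)
  have hid : IsBallAut (id : EuclideanSpace ℂ (Fin n) → EuclideanSpace ℂ (Fin n)) id :=
    ⟨differentiableOn_id, differentiableOn_id, fun z hz => hz, fun z hz => hz, fun z _ => rfl,
      fun z _ => rfl⟩
  obtain ⟨h, h2, h3, -, h5⟩ := h1 (fun j z => (lam : ℂ)⁻¹ * f j z)
    (fun j => (hfd j).const_mul _) hF (gg a) (gg (-a)) (Pool.Agent.MPca0fc2.DA.gg_isAut ha)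
    S.direction.starProjection (prj_star _) g hg1 (fun z hz => by
      obtain ⟨e1, e2⟩ := hg2 z hz
      refine ⟨e1, ?_⟩
      calc ∑ j, ‖g j (S.direction.starProjection z)‖ ^ 2 ≤ ∑ _j : Fin N, |A| ^ 2 :=
            Finset.sum_le_sum fun j _ => pow_le_pow_left₀ (norm_nonneg _)
              ((e2 j).trans (le_abs_self _)) 2
        _ = N * |A| ^ 2 := by simp
        _ = (√N * |A|) ^ 2 := by
            rw [mul_pow, Real.sq_sqrt (Nat.cast_nonneg N)]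
        _ ≤ A' ^ 2 := by
            refine pow_le_pow_left₀ (by positivity) ?_ 2
            rw [hA']
            linarith)
    (fun _ => id '' Pool.Agent.MPca0fc2.TQ.rball (fun j : Fin 0 => Fin.elim0 j)) fun _ =>
      ⟨id, id, hid, Or.inl ⟨0, fun j => Fin.elim0 j,
        ⟨fun j => Fin.elim0 j, fun j => Fin.elim0 j⟩, rfl⟩⟩
  refine ⟨fun j z => (lam : ℂ)⁻¹ * h j z, lam⁻¹ * (C * (1 + Real.log (1 / c))),
    fun j => (h2 j).const_mul _, fun z hz => ?_, fun z hz hT j => ?_⟩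
  · rw [← h3 z hz]
    exact Finset.sum_congr rfl fun j _ => by ring
  · obtain ⟨w, hw, hw1, hcw⟩ := hT
    have hz1 := mem_ball_zero_iff.1 hz
    rw [norm_mul, norm_inv, Complex.norm_real, Real.norm_of_nonneg hlam0.le]
    refine mul_le_mul_of_nonneg_left ?_ (by positivity)
    have e1 : ‖gg (-a) w‖ < 1 := gg_lt ha' hw1
    have e2 : gg a (gg (-a) w) = w := by
      have h := gg_neg_gg ha' hw1.le
      rwa [neg_neg] at h
    have e3 := (h5 z hz).1 (gg (-a) w) (mem_ball_zero_iff.2 e1)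
      (Submodule.starProjection_eq_self_iff.2 ((haS w hw1.le).1 hw)) j
    rw [e2] at e3
    refine e3.trans (mul_le_mul_of_nonneg_left ?_ hC.le)
    have hz0 : 0 < 1 - ‖z‖ ^ 2 := by nlinarith [norm_nonneg z]
    have hw0 : 0 < 1 - ‖w‖ ^ 2 := by nlinarith [norm_nonneg w]
    have hsym : ‖1 - ⟪z, w⟫_ℂ‖ = ‖1 - ⟪w, z⟫_ℂ‖ := by
      have h := Complex.norm_conj (1 - ⟪w, z⟫_ℂ)
      rw [map_sub, map_one, inner_conj_symm] at h
      exact h
    have hden : 0 < ‖1 - ⟪w, z⟫_ℂ‖ := by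
      rw [norm_pos_iff, sub_ne_zero]
      intro h0
      have h5 := norm_inner_le_norm (𝕜 := ℂ) w z
      rw [← h0, norm_one] at h5
      nlinarith [norm_nonneg w, norm_nonneg z]
    have e4 : Pool.Agent.MPca0fc2.TQ.chh z w = 1 / PT.HH w z := by
      unfold Pool.Agent.MPca0fc2.TQ.chh PT.HH
      rw [hsym, one_div_div]
      congr 1
      ring
    have hHH : 0 < PT.HH w z := hc.trans hcw
    rw [e4]
    have e5 : Real.log (1 / PT.HH w z) ≤ Real.log (1 / c) := by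
      apply Real.log_le_log (by positivity)
      exact one_div_le_one_div_of_le hc hcw.le
    linarith

/-- `cellC_at` for data which are bounded below on a cell. -/
theorem cellC_cell {N : ℕ} {f : Fin N → EuclideanSpace ℂ (Fin n) → ℂ}
    (hf : ∀ j, IsHinf (ball 0 1) (f j)) {δ : ℝ} (hδ : 0 < δ)
    {p : EuclideanSpace ℂ (Fin n)} (hp1 : ‖p‖ = 1)
    {A1 A2 : Set (EuclideanSpace ℂ (Fin n) → ℂ)} (hG : GoodC p A1 A2)
    {π : EuclideanSpace ℂ (Fin n) → ℂ} {v : Fin N → EuclideanSpace ℂ (Fin n) → ℂ} {e : ℝ}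
    (hπ : DifferentiableOn ℂ π (ball 0 1))
    (hπ1 : ∀ z ∈ ball (0 : EuclideanSpace ℂ (Fin n)) 1, ‖π z‖ < 1)
    (hv : ∀ j, v j ∈ Algebra.adjoin ℂ (RegC A1 p ∪ HinfOf π)) (he0 : 0 ≤ e) (he : 2 * e < δ)
    (hfv : ∀ z ∈ ball (0 : EuclideanSpace ℂ (Fin n)) 1, ∑ j, ‖f j z - v j z‖ ^ 2 ≤ e ^ 2)
    (Φ : IND.Char (ball (0 : EuclideanSpace ℂ (Fin n)) 1) Unit) (hOv : Over (W9_X Φ) p)
    {m : ℕ} {a : Fin m → EuclideanSpace ℂ (Fin n) → ℂ} {s : ℝ} (hs : 0 < s)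
    (ha : ∀ i, a i ∈ RegC A1 p)
    (hfδ : ∀ z ∈ ball (0 : EuclideanSpace ℂ (Fin n)) 1, ‖z - p‖ < s →
      (∀ i, ‖a i z - Φ.φ (IND.cf (a i))‖ < s) → δ ^ 2 ≤ ∑ j, ‖f j z‖ ^ 2) :
    ∃ j, Φ.φ (IND.cf (f j)) ≠ 0 := by
  classical
  have hfB : ∀ j, IND.BH (ball (0 : EuclideanSpace ℂ (Fin n)) 1) (IND.cf (f j)) :=
    fun j => IND.bh_of_hinf (hf j)
  by_contra hcon
  push Not at hcon
  obtain ⟨X, hXdef⟩ : ∃ X : Char Unit (EuclideanSpace ℂ (Fin n)), X = W9_X Φ := ⟨_, rfl⟩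
  have hXφ : ∀ F, X.φ F = Φ.φ F := fun F => by rw [hXdef]; rfl
  have hXp : Over X p := by rw [hXdef]; exact hOv
  have hExt := S15_ext hG Φ hOv
  -- the function which localizes to `p`
  obtain ⟨l, hl⟩ : ∃ l : EuclideanSpace ℂ (Fin n) → ℂ, l = fun z => ⟪p, z⟫_ℂ := ⟨_, rfl⟩
  have hld : Differentiable ℂ l := by
    rw [hl]
    exact (innerSL ℂ p).differentiable
  have hlH : IsHinf (ball (0 : EuclideanSpace ℂ (Fin n)) 1) l := by
    refine ⟨hld.differentiableOn, 1, fun z hz => ?_⟩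
    rw [hl]
    refine (norm_inner_le_norm _ _).trans ?_
    rw [hp1, one_mul]
    exact (mem_ball_zero_iff.1 hz).le
  have hlR : l ∈ RegC A1 p := by
    refine regC_of_tendsto hG hlH (c := l p) ?_
    exact (hld.continuous.tendsto p).mono_left nhdsWithin_le_nhds
  have hlΦ : Φ.φ (IND.cf l) = 1 := by
    have h1 := hXp p
    rw [hXφ] at h1
    have h2 : Φ.φ (IND.cf l) = ⟪p, p⟫_ℂ := by
      rw [hl]; exact h1
    rw [h2, inner_self_eq_norm_sq_to_K, hp1]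
    simp
  -- the cell
  obtain ⟨s', hs'⟩ : ∃ s' : ℝ, s' = min s (s ^ 2 / 2) := ⟨_, rfl⟩
  have hs'0 : 0 < s' := by rw [hs']; exact lt_min hs (by positivity)
  obtain ⟨a', ha'⟩ : ∃ a' : Fin (m + 1) → EuclideanSpace ℂ (Fin n) → ℂ, a' = Fin.snoc a l :=
    ⟨_, rfl⟩
  have ha'c : ∀ i : Fin m, a' i.castSucc = a i := fun i => by rw [ha', Fin.snoc_castSucc]
  have ha'l : a' (Fin.last m) = l := by rw [ha', Fin.snoc_last]
  have ha'R : ∀ i, a' i ∈ RegC A1 p := by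
    intro i
    refine Fin.lastCases ?_ (fun i => ?_) i
    · rw [ha'l]; exact hlR
    · rw [ha'c]; exact ha i
  have hnear : ∀ z ∈ ball (0 : EuclideanSpace ℂ (Fin n)) 1, ‖l z - 1‖ < s' → ‖z - p‖ < s := by
    intro z hz h1
    have hz1 : ‖z‖ < 1 := mem_ball_zero_iff.1 hz
    have h2 : ‖z - p‖ ^ 2 ≤ 2 * ‖l z - 1‖ := by
      have h3 : ‖z - p‖ ^ 2 = ‖z‖ ^ 2 - 2 * (⟪p, z⟫_ℂ).re + ‖p‖ ^ 2 := by
        rw [@norm_sub_sq ℂ, ← inner_conj_symm, RCLike.conj_re]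
        rfl
      have h4 : 1 - (⟪p, z⟫_ℂ).re ≤ ‖l z - 1‖ := by
        have h5 := Complex.abs_re_le_norm (l z - 1)
        rw [hl] at h5 ⊢
        simp only [Complex.sub_re, Complex.one_re] at h5
        have := neg_abs_le ((⟪p, z⟫_ℂ).re - 1)
        linarith
      rw [h3, hp1]
      nlinarith [norm_nonneg z]
    have h6 : s' ≤ s ^ 2 / 2 := by rw [hs']; exact min_le_right _ _
    have h7 : ‖z - p‖ ^ 2 < s ^ 2 := by linarith
    exact lt_of_pow_lt_pow_left₀ 2 hs.le h7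
  obtain ⟨Δ₁, hΔ₁⟩ : ∃ Δ₁ : Set (EuclideanSpace ℂ (Fin n)),
    Δ₁ = cellOn (ball 0 1) a' (fun i => Φ.φ (IND.cf (a' i))) s' := ⟨_, rfl⟩
  have hsub : Δ₁ ⊆ {z | z ∈ ball 0 1 ∧ ‖z - p‖ < s ∧
      ∀ i, ‖a i z - Φ.φ (IND.cf (a i))‖ < s} := by
    rw [hΔ₁]
    rintro z ⟨hz, hza⟩
    refine ⟨hz, ?_, fun i => ?_⟩
    · have h1 : ‖a' (Fin.last m) z - Φ.φ (IND.cf (a' (Fin.last m)))‖ < s' := hza (Fin.last m)
      rw [ha'l, hlΦ] at h1
      exact hnear z hz h1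
    · have h1 : ‖a' i.castSucc z - Φ.φ (IND.cf (a' i.castSucc))‖ < s' := hza i.castSucc
      rw [ha'c] at h1
      exact h1.trans_le (by rw [hs']; exact min_le_left _ _)
  have hsubB : Δ₁ ⊆ ball 0 1 := fun z hz => (hsub hz).1
  have hRH : ∀ u ∈ RegC A1 p, IsHinf (ball 0 1) u := fun u hu => ⟨hu.1, hu.2.1⟩
  obtain ⟨Φ₁, hE₁, hΦ₁⟩ := IND.exists_ext isOpen_ball hRH hExt ha'R hs'0
  have hopen : IsOpen (cellOn (ball 0 1) a' (fun i => Φ.φ (IND.cf (a' i))) s') :=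
    CXS.isOpen_cellOn isOpen_ball (fun i => (ha'R i).1) _ _
  rw [← hΔ₁] at hopen
  have hf1 : ∀ j, IND.BH Δ₁ (IND.cf (f j)) := fun j =>
    ⟨fun _ => ((hf j).1).mono hsubB, (hf j).2.choose, fun _ z hz =>
      (hf j).2.choose_spec z (hsubB hz)⟩
  subst hΔ₁
  have hπ' := hπ.mono hsubB
  have hπ1' : ∀ z ∈ cellOn (ball 0 1) a' (fun i => Φ.φ (IND.cf (a' i))) s', ‖π z‖ < 1 :=
    fun z hz => hπ1 z (hsubB hz)
  have hAH1 : ∀ u ∈ RegC A1 p, IsHinf
      (cellOn (ball 0 1) a' (fun i => Φ.φ (IND.cf (a' i))) s') u := fun u hu =>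
    ⟨hu.1.mono hsubB, hu.2.1.choose, fun z hz => hu.2.1.choose_spec z (hsubB hz)⟩
  have hbd : ∀ g ∈ RegC A1 p ∪ HinfOf π, IND.BH
      (cellOn (ball 0 1) a' (fun i => Φ.φ (IND.cf (a' i))) s') (IND.cf g) := by
    rintro x (hx | hx)
    · exact IND.bh_of_hinf (hAH1 x hx)
    · obtain ⟨g, hg, ⟨M, hM⟩, hx⟩ := hx
      refine ⟨fun _ => ?_, M, fun _ z hz => ?_⟩
      · have h1 : DifferentiableOn ℂ (g ∘ π)
            (cellOn (ball 0 1) a' (fun i => Φ.φ (IND.cf (a' i))) s') :=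
          hg.comp hπ' fun z hz => mem_ball_zero_iff.2 (hπ1' z hz)
        exact h1.congr fun z _ => hx z
      · change ‖x z‖ ≤ M
        rw [hx z]
        exact hM _ (mem_ball_zero_iff.2 (hπ1' z hz))
  have hvB : ∀ j, IND.BH (cellOn (ball 0 1) a' (fun i => Φ.φ (IND.cf (a' i))) s')
      (IND.cf (v j)) := by
    intro j
    have hvj := hv j
    generalize v j = q at hvj
    induction hvj using Algebra.adjoin_induction with
    | mem x hx => exact hbd x hx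
    | algebraMap c => exact IND.BH.const c
    | add x y _ _ hx hy => exact hx.add hy
    | mul x y _ _ hx hy => exact hx.mul hy
  have hkill := W9_kill Φ₁ (f := f) (v := v) hf1 hvB (fun j => by rw [hΦ₁ _ (hfB j)]; exact hcon j)
    he0 (fun z hz => hfv z (hsubB hz))
  have hN : 0 < √(N : ℝ) + 1 := by positivity
  obtain ⟨t, ht⟩ : ∃ t : ℝ, t = (δ - 2 * e) / (2 * (√(N : ℝ) + 1)) := ⟨_, rfl⟩
  have ht0 : 0 < t := by rw [ht]; exact div_pos (by linarith) (by positivity)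
  have htN : √(N : ℝ) * t < δ - 2 * e := by
    have h1 : √(N : ℝ) * t = (√(N : ℝ) / (√(N : ℝ) + 1)) * ((δ - 2 * e) / 2) := by
      rw [ht]
      field_simp
    rw [h1]
    have h2 : √(N : ℝ) / (√(N : ℝ) + 1) ≤ 1 := by
      rw [div_le_one hN]
      linarith
    have h3 := mul_le_of_le_one_left (show 0 ≤ (δ - 2 * e) / 2 by linarith) h2
    linarith
  obtain ⟨z, hz, hz1⟩ := IND.cluster_alg hopen hAH1 hE₁ hπ' hπ1' (q := v)
    (fun j => ⟨(hvB j).holo (), fun ε hε => ⟨v j, hv j, fun z _ => by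
      rw [sub_self, norm_zero]; exact hε.le⟩⟩) ht0
  have h5 : ∑ j, ‖v j z - Φ₁.φ (IND.cf (v j))‖ ^ 2 ≤ (√(N : ℝ) * t) ^ 2 := by
    calc ∑ j, ‖v j z - Φ₁.φ (IND.cf (v j))‖ ^ 2 ≤ ∑ _j : Fin N, t ^ 2 :=
          Finset.sum_le_sum fun j _ => pow_le_pow_left₀ (norm_nonneg _) (hz1 j).le 2
      _ = (√(N : ℝ) * t) ^ 2 := by
          rw [Finset.sum_const, Finset.card_univ, Fintype.card_fin, nsmul_eq_mul, mul_pow,
            Real.sq_sqrt (Nat.cast_nonneg N)]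
  have h6 := W9_tri (x := fun j => f j z - v j z)
    (y := fun j => v j z - Φ₁.φ (IND.cf (v j))) (w := fun j => Φ₁.φ (IND.cf (v j)))
    he0 (by positivity) he0 (hfv z (hsubB hz)) h5 hkill
  have h7 := hfδ z (hsubB hz) (hsub hz).2.1 (hsub hz).2.2
  have h8 : ∀ j, f j z - v j z + (v j z - Φ₁.φ (IND.cf (v j))) + Φ₁.φ (IND.cf (v j)) = f j z :=
    fun j => by ring
  simp only [h8] at h6
  have h9 : e + √(N : ℝ) * t + e < δ := by linarith
  have h10 : 0 ≤ e + √(N : ℝ) * t + e := by positivity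
  nlinarith

end Pool.Agent.MPca0fc2.SP
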