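import Mathlib
import Pool.Agent.Lib.MP_ca0fc2_an.SP.S23

set_option autoImplicit false
set_option linter.unusedSectionVars false

open Metric Set MeasureTheory Filter Topology
open scoped InnerProductSpace ENNReal ContDiff

/-! # Arbitrary functions in the tubes around complex lines -/

namespace Pool.Agent.MPca0fc2.SP

open Pool.Agent.Lib.MP_ca0fc2_an
open Pool.Agent.MPca0fc2.PT
open Pool.Agent.MPca0fc2.QT
open Pool.Agent.MPca0fc2.TS
open Pool.Agent.MPca0fc2.TE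
open Pool.Agent.MPca0fc2.TK
open Pool.Agent.MPca0fc2.VK
open Pool.Agent.MPca0fc2.PV
open Pool.Agent.MPca0fc2.CE

variable {n : ℕ}

/-- Two cells have a common refinement. -/
theorem cell_join {R : Set (EuclideanSpace ℂ (Fin n) → ℂ)}
    (Φ : IND.Char (ball (0 : EuclideanSpace ℂ (Fin n)) 1) Unit) {p : EuclideanSpace ℂ (Fin n)}
    {ι : Type*} (t : Finset ι) (Q : ι → EuclideanSpace ℂ (Fin n) → Prop)
    (h : ∀ S ∈ t, ∃ (k : ℕ) (a : Fin k → EuclideanSpace ℂ (Fin n) → ℂ) (s : ℝ), 0 < s ∧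
      (∀ i, a i ∈ R) ∧ ∀ z ∈ ball (0 : EuclideanSpace ℂ (Fin n)) 1, ‖z - p‖ < s →
        (∀ i, ‖a i z - Φ.φ (IND.cf (a i))‖ < s) → Q S z) :
    ∃ (k : ℕ) (a : Fin k → EuclideanSpace ℂ (Fin n) → ℂ) (s : ℝ), 0 < s ∧
      (∀ i, a i ∈ R) ∧ ∀ z ∈ ball (0 : EuclideanSpace ℂ (Fin n)) 1, ‖z - p‖ < s →
        (∀ i, ‖a i z - Φ.φ (IND.cf (a i))‖ < s) → ∀ S ∈ t, Q S z := by
  classical
  induction t using Finset.induction_on with
  | empty =>
    exact ⟨0, fun i => i.elim0, 1, one_pos, fun i => i.elim0, fun z _ _ _ S hS =>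
      absurd hS (Finset.notMem_empty S)⟩
  | insert S t hSt ih =>
    obtain ⟨k, a, s, hs, ha, h1⟩ := ih fun T hT => h T (Finset.mem_insert_of_mem hT)
    obtain ⟨k', a', s', hs', ha', h1'⟩ := h S (Finset.mem_insert_self S t)
    refine ⟨k + k', Fin.append a a', min s s', lt_min hs hs', fun i => ?_,
      fun z hz hzp hza T hT => ?_⟩
    · refine Fin.addCases (fun i => ?_) (fun i => ?_) i
      · rw [Fin.append_left]; exact ha i
      · rw [Fin.append_right]; exact ha' i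
    · rcases Finset.mem_insert.1 hT with rfl | hT
      · refine h1' z hz (hzp.trans_le (min_le_right _ _)) fun i => ?_
        have h2 := hza (Fin.natAdd k i)
        rw [Fin.append_right] at h2
        exact h2.trans_le (min_le_right _ _)
      · refine h1 z hz (hzp.trans_le (min_le_left _ _)) (fun i => ?_) T hT
        have h2 := hza (Fin.castAdd k' i)
        rw [Fin.append_left] at h2
        exact h2.trans_le (min_le_left _ _)

theorem vec_close {m : ℕ} {x y : Fin m → ℂ} {s : ℝ} (hs : 0 ≤ s) (h : ∀ i, ‖x i - y i‖ ≤ s) :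
    |√(∑ i, ‖x i‖ ^ 2) - √(∑ i, ‖y i‖ ^ 2)| ≤ √m * s := by
  have e1 : ∀ w : Fin m → ℂ, √(∑ i, ‖w i‖ ^ 2) = ‖(WithLp.toLp 2 w : EuclideanSpace ℂ (Fin m))‖ :=
    fun w => by rw [EuclideanSpace.norm_eq]
  rw [e1 x, e1 y]
  refine (abs_norm_sub_norm_le _ _).trans ?_
  rw [← WithLp.toLp_sub, EuclideanSpace.norm_eq, Real.sqrt_le_left (by positivity), mul_pow,
    Real.sq_sqrt (Nat.cast_nonneg m)]
  calc ∑ i, ‖(WithLp.toLp 2 (x - y) : EuclideanSpace ℂ (Fin m)) i‖ ^ 2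
      ≤ ∑ _i : Fin m, s ^ 2 := Finset.sum_le_sum fun i _ =>
        pow_le_pow_left₀ (norm_nonneg _) (h i) 2
    _ = m * s ^ 2 := by
        rw [Finset.sum_const, Finset.card_univ, Fintype.card_fin, nsmul_eq_mul]

/-- Local solutions near `p`: the functions of the algebra suffice off the tubes around finitely many
complex lines. -/
theorem local_tubes (hn : 2 ≤ n) {𝓢 : Set (AffineSubspace ℂ (EuclideanSpace ℂ (Fin n)))}
    {p : EuclideanSpace ℂ (Fin n)} (hp : ‖p‖ = 1)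
    (hline : ∀ S ∈ 𝓢, p ∈ S → Module.finrank ℂ S.direction ≤ 1 ∧ ∃ x ∈ S, ‖x‖ < 1)
    {π : EuclideanSpace ℂ (Fin n) → ℂ} (hπ : DifferentiableOn ℂ π (ball 0 1))
    (hπ1 : ∀ z ∈ ball (0 : EuclideanSpace ℂ (Fin n)) 1, ‖π z‖ < 1) {N : ℕ}
    {f : Fin N → EuclideanSpace ℂ (Fin n) → ℂ} (hf : ∀ j, IsHinf (ball 0 1) (f j)) {δ : ℝ}
    (hδ : 0 < δ)
    (hfδ : ∀ z ∈ ball (0 : EuclideanSpace ℂ (Fin n)) 1, δ ≤ ∑ j, ‖f j z‖ ^ 2)
    {𝓣 : Set (AffineSubspace ℂ (EuclideanSpace ℂ (Fin n)))} (h𝓣 : 𝓣.Finite)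
    (h𝓣1 : ∀ S ∈ 𝓣, ∃ x ∈ S, ‖x‖ < 1)
    (h𝓣2 : ∀ S ∈ 𝓣, p ∈ S → Module.finrank ℂ S.direction ≤ 1) {c : ℝ} (hc0 : 0 < c)
    (hc1 : c < 1) {F v : Fin N → EuclideanSpace ℂ (Fin n) → ℂ}
    (hF : ∀ j, F j = f j ∨ F j = fun _ => 0)
    (hv : ∀ j, v j ∈ Algebra.adjoin ℂ (Gen 𝓢 ∪ HinfOf π)) {δ' e : ℝ} (hδ' : 0 < δ')
    (he0 : 0 ≤ e) (he : 2 * e < δ')
    (hFv : ∀ z ∈ ball (0 : EuclideanSpace ℂ (Fin n)) 1, ∑ j, ‖F j z - v j z‖ ^ 2 ≤ e ^ 2)
    (hFδ : ∀ z ∈ ball (0 : EuclideanSpace ℂ (Fin n)) 1,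
      (∀ S ∈ 𝓣, ¬ Tub c (S : Set (EuclideanSpace ℂ (Fin n))) z) → δ' ^ 2 ≤ ∑ j, ‖F j z‖ ^ 2) :
    ∃ r > 0, ∃ C, SolvableOn f (ball 0 1 ∩ ball p r) C := by
  classical
  have hE : 2 ≤ Module.finrank ℂ (EuclideanSpace ℂ (Fin n)) := by
    rw [finrank_euclideanSpace_fin]; exact hn
  choose A hAf hA1 hAv using fun j => lines_of_adjoin hp hline (hv j)
  choose! x hxS hx1 using h𝓣1
  obtain ⟨A', hA'⟩ : ∃ A' : Set (EuclideanSpace ℂ (Fin n)), A' = {0} ∪ (⋃ j, A j) ∪ x '' 𝓣 :=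
    ⟨_, rfl⟩
  have hA'f : A'.Finite := by
    rw [hA']
    exact ((finite_singleton 0).union (finite_iUnion hAf)).union (h𝓣.image x)
  have hA'n : A'.Nonempty := by rw [hA']; exact ⟨0, Or.inl (Or.inl rfl)⟩
  have hA'1 : ∀ a ∈ A', ‖a‖ < 1 := by
    rw [hA']
    rintro a ((ha | ha) | ha)
    · rw [mem_singleton_iff.1 ha]; simp
    · obtain ⟨j, hj⟩ := mem_iUnion.1 ha
      exact hA1 j a hj
    · obtain ⟨S, hS, rfl⟩ := ha
      exact hx1 S hS
  have hsub : ∀ j, A j ⊆ A' := fun j => by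
    rw [hA']
    exact (subset_iUnion A j).trans (subset_union_right.trans subset_union_left)
  have hxA' : ∀ S ∈ 𝓣, x S ∈ A' := fun S hS => by
    rw [hA']
    exact Or.inr ⟨S, hS, rfl⟩
  refine local_of_chars hf hp fun Φ hΦ => ?_
  by_contra hcon
  push Not at hcon
  have hG := good_linH hE hp hA'f hA'n hA'1
  have hExt := S15_ext hG Φ hΦ
  have hFΦ : ∀ j, Φ.φ (IND.cf (F j)) = 0 := by
    intro j
    rcases hF j with h | h
    · rw [h]; exact hcon j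
    · rw [h]; exact Φ.map_const 0
  have hFH : ∀ j, IsHinf (ball 0 1) (F j) := by
    intro j
    rcases hF j with h | h
    · rw [h]; exact hf j
    · rw [h]; exact ⟨differentiableOn_const _, 0, fun z _ => by simp⟩
  -- the cells off the tubes
  have hcell : ∀ S ∈ h𝓣.toFinset, ∃ (k : ℕ) (a : Fin k → EuclideanSpace ℂ (Fin n) → ℂ) (s : ℝ),
      0 < s ∧ (∀ i, a i ∈ RegC {u | MixN 1 (linU A' p) p u} p) ∧
      ∀ z ∈ ball (0 : EuclideanSpace ℂ (Fin n)) 1, ‖z - p‖ < s →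
        (∀ i, ‖a i z - Φ.φ (IND.cf (a i))‖ < s) →
          ¬ Tub c (S : Set (EuclideanSpace ℂ (Fin n))) z := by
    intro S hS
    rw [Set.Finite.mem_toFinset] at hS
    by_cases hpS : p ∈ S
    swap
    · obtain ⟨ρ, hρ, h1⟩ := tub_away (AffineSubspace.closed_of_finiteDimensional S) hp hpS hc0
      exact ⟨0, fun i => i.elim0, ρ, hρ, fun i => i.elim0, fun z hz hzp _ => h1 z hz hzp⟩
    have hxS' := hxS S hS
    have hx1' := hx1 S hS
    have hne : p - x S ≠ 0 := fun h0 => by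
      rw [sub_eq_zero.1 h0] at hp
      linarith
    have hpx : p - x S ∈ S.direction := AffineSubspace.vsub_mem_direction hpS hxS'
    have hdim : Module.finrank ℂ S.direction = 1 :=
      le_antisymm (h𝓣2 S hS hpS) (Module.finrank_pos_iff_exists_ne_zero.2
        ⟨⟨p - x S, hpx⟩, fun h0 => hne (congrArg Subtype.val h0)⟩)
    obtain ⟨c₁, m, W, α, β, hc₁, hα, hαβ, hW, hWu, hWl, -, -⟩ := sepA hdim hxS' hx1' hc0 hc1
    have hWR : ∀ i, W i ∈ RegC {u | MixN 1 (linU A' p) p u} p := by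
      intro i
      refine calmCl_in (S := linU A' p) (fun b hb _ => ⟨x S, hxA' S hS, ?_⟩) (hW i) p
      have hbx : b - x S ∈ S.direction := AffineSubspace.vsub_mem_direction hb hxS'
      obtain ⟨c, hc⟩ := exists_smul_eq_of_finrank_eq_one hdim
        (x := (⟨p - x S, hpx⟩ : S.direction)) (fun h0 => hne (congrArg Subtype.val h0))
        (⟨b - x S, hbx⟩ : S.direction)
      have hc' : c • (p - x S) = b - x S := congrArg Subtype.val hc
      exact ⟨c, by rw [hc', add_sub_cancel]⟩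
    obtain ⟨s, hs⟩ : ∃ s : ℝ, s = (β - α) / (4 * (√m + 1)) := ⟨_, rfl⟩
    have hs0 : 0 < s := by
      rw [hs]
      exact div_pos (by linarith) (by positivity)
    have hms : √m * s ≤ (β - α) / 4 := by
      have h1 : √m * s = (√m / (√m + 1)) * ((β - α) / 4) := by
        rw [hs]
        field_simp
      rw [h1]
      refine mul_le_of_le_one_left (by linarith) ?_
      rw [div_le_one (by positivity)]
      linarith
    have hclose : ∀ z : EuclideanSpace ℂ (Fin n), (∀ i, ‖W i z - Φ.φ (IND.cf (W i))‖ < s) →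
        |√(∑ i, ‖W i z‖ ^ 2) - √(∑ i, ‖Φ.φ (IND.cf (W i))‖ ^ 2)| ≤ (β - α) / 4 :=
      fun z hz => (vec_close hs0.le fun i => (hz i).le).trans hms
    by_cases hω : √(∑ i, ‖Φ.φ (IND.cf (W i))‖ ^ 2) < (α + β) / 2
    · -- the cell is contained in a tube, where there are bounded solutions for all data
      exfalso
      obtain ⟨h, C, h1, h2, h3⟩ := tube_sol hn hxS' hx1'
        (sl_of_q1 hn S.direction fun h => absurd h (by omega)) hf hδ hfδ hc₁
      refine hExt N f (fun j => IND.bh_of_hinf (hf j)) hcon m W hWR s hs0 C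
        ⟨h, fun j => (h1 j).mono fun z hz => hz.1, fun j z hz => ?_, fun z hz => h2 z hz.1⟩
      refine h3 z hz.1 ?_ j
      by_contra hT
      have h4 := hWl z hz.1 hT
      have h5 := (abs_le.1 (hclose z hz.2)).2
      linarith
    · push Not at hω
      refine ⟨m, W, s, hs0, hWR, fun z hz _ hza hT => ?_⟩
      have h4 := hWu z hz hT
      have h5 := (abs_le.1 (hclose z hza)).1
      linarith
  obtain ⟨k, a, s, hs, ha, hcell'⟩ := cell_join Φ h𝓣.toFinset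
    (fun S z => ¬ Tub c (S : Set (EuclideanSpace ℂ (Fin n))) z) hcell
  obtain ⟨j, hj⟩ := cellC_cell hFH hδ' hp hG hπ hπ1 (fun j => hAv j A' (hsub j)) he0 he hFv Φ hΦ
    hs ha fun z hz hzp hza => hFδ z hz fun S hS =>
      hcell' z hz hzp hza S (h𝓣.mem_toFinset.2 hS)
  exact hj (hFΦ j)

end Pool.Agent.MPca0fc2.SP
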