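import Mathlib
import Pool.Agent.Lib.MP_ca0fc2_an.SP.S24
import Pool.Agent.Lib.MP_ca0fc2_an.SP.S17

set_option autoImplicit false
set_option linter.unusedSectionVars false

open Metric Set MeasureTheory Filter Topology
open scoped InnerProductSpace ENNReal ContDiff

/-! # Arbitrary functions in the tubes around complex affine subspaces -/

namespace Pool.Agent.MPca0fc2.SP

open Pool.Agent.Lib.MP_ca0fc2_an
open Pool.Agent.MPca0fc2.PT
open Pool.Agent.MPca0fc2.QT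
open Pool.Agent.MPca0fc2.TS
open Pool.Agent.MPca0fc2.TE
open Pool.Agent.MPca0fc2.TK
open Pool.Agent.MPca0fc2.VK
open Pool.Agent.MPca0fc2.PV
open Pool.Agent.MPca0fc2.CE

variable {n : ℕ}

/-- finitely many positive numbers have a positive lower bound -/
theorem exists_lower {ι : Type*} (t : Finset ι) (s : ι → ℝ) (hs : ∀ i ∈ t, 0 < s i) :
    ∃ r > 0, ∀ i ∈ t, r ≤ s i := by
  classical
  induction t using Finset.induction_on with
  | empty => exact ⟨1, one_pos, fun i hi => absurd hi (Finset.notMem_empty i)⟩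
  | insert a t ha ih =>
    obtain ⟨r, hr, h⟩ := ih fun i hi => hs i (Finset.mem_insert_of_mem hi)
    refine ⟨min r (s a), lt_min hr (hs a (Finset.mem_insert_self a t)), fun i hi => ?_⟩
    rcases Finset.mem_insert.1 hi with rfl | hi
    · exact min_le_right _ _
    · exact (min_le_left _ _).trans (h i hi)

/-- Local solutions at a point of one member of the family. -/
theorem local_tubes_sub (hn : 2 ≤ n) {𝓢 : Set (AffineSubspace ℂ (EuclideanSpace ℂ (Fin n)))}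
    {p : EuclideanSpace ℂ (Fin n)} (hp : ‖p‖ = 1)
    {S : AffineSubspace ℂ (EuclideanSpace ℂ (Fin n))} {x₀ : EuclideanSpace ℂ (Fin n)}
    (hx₀ : x₀ ∈ S) (hx1 : ‖x₀‖ < 1) (hother : ∀ T ∈ 𝓢, T = S ∨ p ∉ T) {N : ℕ}
    (hSl : SlN N S.direction.starProjection)
    {f : Fin N → EuclideanSpace ℂ (Fin n) → ℂ} (hf : ∀ j, IsHinf (ball 0 1) (f j)) {δ : ℝ}
    (hδ : 0 < δ)
    (hfδ : ∀ z ∈ ball (0 : EuclideanSpace ℂ (Fin n)) 1, δ ≤ ∑ j, ‖f j z‖ ^ 2)
    {𝓣 : Set (AffineSubspace ℂ (EuclideanSpace ℂ (Fin n)))} (h𝓣 : 𝓣.Finite) (h𝓣S : 𝓣 ⊆ 𝓢)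
    {c : ℝ} (hc0 : 0 < c) {F : Fin N → EuclideanSpace ℂ (Fin n) → ℂ}
    (hF : ∀ j, F j = f j ∨ F j = fun _ => 0)
    (hv : ∀ j, ∀ ε > 0, ∃ v ∈ Algebra.adjoin ℂ (Gen 𝓢),
      ∀ z ∈ ball (0 : EuclideanSpace ℂ (Fin n)) 1, ‖F j z - v z‖ ≤ ε) {δ' : ℝ} (hδ' : 0 < δ')
    (hFδ : ∀ z ∈ ball (0 : EuclideanSpace ℂ (Fin n)) 1,
      (∀ S ∈ 𝓣, ¬ Tub c (S : Set (EuclideanSpace ℂ (Fin n))) z) → δ' ≤ ∑ j, ‖F j z‖ ^ 2) :
    ∃ r > 0, ∃ C, SolvableOn f (ball 0 1 ∩ ball p r) C := by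
  classical
  have hE : 2 ≤ Module.finrank ℂ (EuclideanSpace ℂ (Fin n)) := by
    rw [finrank_euclideanSpace_fin]; exact hn
  obtain ⟨h, C, h1, h2, h3⟩ := tube_sol hn hx₀ hx1 hSl hf hδ hfδ hc0
  obtain ⟨a, ha, haS⟩ := affine_aut hx₀ hx1
  have ha' : ‖-a‖ < 1 := by rwa [norm_neg]
  obtain ⟨Cd, hCd, hdk⟩ := dk_gg ha
  have hp' : ‖gg (-a) p‖ = 1 := by
    have h := (hdk {p} (by simpa using hp) (singleton_nonempty p)).1
    simpa using h
  have hmap := Pool.Agent.MPca0fc2.TE.gg_maps (E := EuclideanSpace ℂ (Fin n)) ha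
  have hholo := Pool.Agent.MPca0fc2.TE.gg_holo (E := EuclideanSpace ℂ (Fin n)) ha
  refine local_gg ha hp ?_
  have hfa : ∀ j, IsHinf (ball 0 1) fun z => f j (gg a z) := fun j =>
    ⟨(hf j).1.comp hholo hmap, (hf j).2.choose, fun z hz => (hf j).2.choose_spec _ (hmap hz)⟩
  have hFa : ∀ j, IsHinf (ball 0 1) fun z => F j (gg a z) := by
    intro j
    rcases hF j with h | h
    · rw [h]; exact hfa j
    · rw [h]; exact ⟨differentiableOn_const _, 0, fun z _ => by simp⟩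
  refine local_of_chars hfa hp' fun Φ hΦ => ?_
  by_contra hcon
  push Not at hcon
  obtain ⟨X, hX⟩ : ∃ X : Char Unit (EuclideanSpace ℂ (Fin n)), X = W9_X Φ := ⟨_, rfl⟩
  have hXf : ∀ j, X.φ (fun _ z => f j (gg a z)) = 0 := fun j => by rw [hX]; exact hcon j
  have hXp : Over X (gg (-a) p) := by rw [hX]; exact hΦ
  have hXF : ∀ j, X.φ (fun _ z => F j (gg a z)) = 0 := by
    intro j
    rcases hF j with h | h
    · rw [h]; exact hXf j
    · rw [h]; exact X.map_const 0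
  have hBF : ∀ j, BH (fun (_ : Unit) z => F j (gg a z)) := fun j =>
    ⟨fun _ => (hFa j).1, (hFa j).2.choose, fun _ z hz => (hFa j).2.choose_spec z hz⟩
  -- the approximations
  obtain ⟨t, ht0, ht⟩ : ∃ t > 0, 2 * (√(N : ℝ) * t) < √δ' := exists_small (Real.sqrt_pos.2 hδ') N
  obtain ⟨τ, hτ⟩ : ∃ τ : ℝ, τ = t / 5 := ⟨_, rfl⟩
  have hτ0 : 0 < τ := by rw [hτ]; positivity
  have hex : ∀ j, ∃ b, MixN 1 (range S.direction.starProjection) (gg (-a) p) b ∧ ∃ s > 0,
      ∀ z ∈ ball (0 : EuclideanSpace ℂ (Fin n)) 1, ‖z - gg (-a) p‖ < s →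
        ‖F j (gg a z) - b z‖ ≤ 2 * τ := by
    intro j
    obtain ⟨v, hv1, hv2⟩ := hv j τ hτ0
    obtain ⟨b, hb, s, hs, h4⟩ := (adjoin_reg hn ha haS hp hp'
      (fun T hT => hother T hT) hv1).2.2 τ hτ0
    refine ⟨b, hb, s, hs, fun z hz hzp => ?_⟩
    have e1 := hv2 _ (hmap hz)
    have e2 := h4 z hz hzp
    calc ‖F j (gg a z) - b z‖ = ‖(F j (gg a z) - v (gg a z)) + (v (gg a z) - b z)‖ := by
          congr 1; ring
      _ ≤ ‖F j (gg a z) - v (gg a z)‖ + ‖v (gg a z) - b z‖ := norm_add_le _ _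
      _ ≤ 2 * τ := by linarith
  choose b hbM s hs0 hbF using hex
  obtain ⟨s₁, hs₁, hs₁'⟩ := exists_lower Finset.univ s fun j _ => hs0 j
  have hXb : ∀ j, ‖X.φ (fun _ => b j)‖ ≤ 2 * τ := by
    intro j
    have e1 : X.φ (fun _ => b j) = X.φ (fun _ z => b j z - F j (gg a z)) := by
      have e2 := X.map_sub (mix_bh (hbM j)) (hBF j)
      have e3 : X.φ (fun _ z => b j z - F j (gg a z)) =
          X.φ (fun _ => b j) - X.φ (fun _ z => F j (gg a z)) := e2
      rw [e3, hXF j, sub_zero]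
    rw [e1]
    refine bound_near hp' hXp ((mix_bh (hbM j)).sub (hBF j)) hs₁ (by positivity) fun z hz hzp => ?_
    rw [norm_sub_rev]
    exact hbF j z hz (hzp.trans_le (hs₁' j (Finset.mem_univ j)))
  -- the other tubes are far away
  have haway : ∀ T ∈ h𝓣.toFinset, ∃ ρ > 0, T ≠ S → ∀ z ∈ ball (0 : EuclideanSpace ℂ (Fin n)) 1,
      ‖z - gg (-a) p‖ < ρ → ¬ Tub c (T : Set (EuclideanSpace ℂ (Fin n))) (gg a z) := by
    intro T hT
    rw [Set.Finite.mem_toFinset] at hT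
    by_cases hTS : T = S
    · exact ⟨1, one_pos, fun h => absurd hTS h⟩
    · have hpT : p ∉ T := (hother T (h𝓣S hT)).resolve_left hTS
      obtain ⟨ρ, hρ, h4⟩ := tub_away (AffineSubspace.closed_of_finiteDimensional T) hp hpT hc0
      obtain ⟨ρ', hρ', h5⟩ := gg_cont ha hp' hρ
      refine ⟨ρ', hρ', fun _ z hz hzp => h4 _ (hmap hz) ?_⟩
      have h6 := h5 z hzp
      rwa [gg_back ha hp.le] at h6
  choose! ρ hρ0 hρ using haway
  obtain ⟨s₂, hs₂, hs₂'⟩ := exists_lower h𝓣.toFinset ρ hρ0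
  obtain ⟨r, hr⟩ : ∃ r : ℝ, r = min (min s₁ s₂) τ := ⟨_, rfl⟩
  have hr0 : 0 < r := by rw [hr]; exact lt_min (lt_min hs₁ hs₂) hτ0
  have hr1 : r ≤ s₁ := by rw [hr]; exact (min_le_left _ _).trans (min_le_left _ _)
  have hr2 : r ≤ s₂ := by rw [hr]; exact (min_le_left _ _).trans (min_le_right _ _)
  have hr3 : r ≤ τ := by rw [hr]; exact min_le_right _ _
  -- the cell is contained in the tube
  have hcell : ∀ z ∈ ball (0 : EuclideanSpace ℂ (Fin n)) 1, ‖z - gg (-a) p‖ < r →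
      (∀ j, ‖b j z - X.φ (fun _ => b j)‖ < r) →
      Tub c (S : Set (EuclideanSpace ℂ (Fin n))) (gg a z) := by
    intro z hz hzp hzb
    have e1 : ∀ j, ‖F j (gg a z)‖ ≤ t := by
      intro j
      have e2 := hbF j z hz (hzp.trans_le (hr1.trans (hs₁' j (Finset.mem_univ j))))
      have e3 := (hzb j).le.trans hr3
      have e4 := hXb j
      calc ‖F j (gg a z)‖ = ‖(F j (gg a z) - b j z) + (b j z - X.φ (fun _ => b j)) +
            X.φ (fun _ => b j)‖ := by congr 1; ring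
        _ ≤ ‖F j (gg a z) - b j z‖ + ‖b j z - X.φ (fun _ => b j)‖ + ‖X.φ (fun _ => b j)‖ :=
            norm_add₃_le
        _ ≤ t := by
            have : t = 5 * τ := by rw [hτ]; ring
            linarith
    have e5 : ∑ j, ‖F j (gg a z)‖ ^ 2 < δ' := by
      calc ∑ j, ‖F j (gg a z)‖ ^ 2 ≤ ∑ _j : Fin N, t ^ 2 :=
            Finset.sum_le_sum fun j _ => pow_le_pow_left₀ (norm_nonneg _) (e1 j) 2
        _ = (√(N : ℝ) * t) ^ 2 := by
            rw [Finset.sum_const, Finset.card_univ, Fintype.card_fin, nsmul_eq_mul, mul_pow,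
              Real.sq_sqrt (Nat.cast_nonneg N)]
        _ < √δ' ^ 2 := by
            have h0 : 0 ≤ √(N : ℝ) * t := by positivity
            refine pow_lt_pow_left₀ (by linarith) h0 two_ne_zero
        _ = δ' := Real.sq_sqrt hδ'.le
    by_contra hT
    refine absurd (hFδ _ (hmap hz) fun T hTT hT' => ?_) (not_le.2 e5)
    by_cases hTS : T = S
    · rw [hTS] at hT'
      exact hT hT'
    · have hTT' := h𝓣.mem_toFinset.2 hTT
      exact hρ T hTT' hTS z hz (hzp.trans_le (hr2.trans (hs₂' T hTT'))) hT'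
  choose hfd' B hB using hfa
  obtain ⟨g, A, hg1, hg2⟩ := hSl (fun j z => f j (gg a z)) hfd'
    ⟨∑ j, |B j|, fun j z hz => (hB j z hz).trans ((le_abs_self _).trans
      (Finset.single_le_sum (f := fun j => |B j|) (fun _ _ => abs_nonneg _)
        (Finset.mem_univ j)))⟩ ⟨δ, hδ, fun z hz => hfδ _ (hmap hz)⟩
  have hsol := cellL hE (prj_star S.direction) hp' (f := fun j z => f j (gg a z))
    (b := fun j z => b j z - X.φ (fun _ => b j)) (B := ∑ j, |B j| + |C|) hfd'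
    (fun j z hz => ((hB j z hz).trans ((le_abs_self _).trans
      (Finset.single_le_sum (f := fun j => |B j|) (fun _ _ => abs_nonneg _)
        (Finset.mem_univ j)))).trans (le_add_of_nonneg_right (abs_nonneg C)))
    (fun j => (hbM j).sub_const _) hr0 (k := fun j z => h j (gg a z))
    (fun j => ((h1 j).comp hholo hmap).mono fun z hz => hz.1)
    (fun z hz hzp hzb => ⟨h2 _ (hmap hz), fun j =>
      (h3 _ (hmap hz) (hcell z hz hzp hzb) j).trans ((le_abs_self C).trans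
        (le_add_of_nonneg_left (Finset.sum_nonneg fun _ _ => abs_nonneg _)))⟩)
    ⟨g, fun _ _ => 0, fun _ => 0, |A|, hg1, fun _ => differentiableOn_const _,
      differentiableOn_const _, fun z hz => by
        obtain ⟨e1, e2⟩ := hg2 z hz
        refine ⟨?_, fun j => (e2 j).trans (le_abs_self A), fun _ => by simp, by simp⟩
        simp only [mul_zero, Finset.sum_const_zero, add_zero]
        exact e1⟩
  exact contra hp' hXp (f := fun j z => f j (gg a z))
    (b := fun j z => b j z - X.φ (fun _ => b j)) (fun j => ⟨fun _ => hfd' j, B j, fun _ => hB j⟩)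
    (fun j => mix_bh ((hbM j).sub_const _)) hXf (fun j => char_sub (mix_bh (hbM j))) hsol

end Pool.Agent.MPca0fc2.SP
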