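import Mathlib
import Pool.Agent.Lib.MP_ca0fc2_an.SP.S25

set_option autoImplicit false
set_option linter.unusedSectionVars false

open Metric Set MeasureTheory Filter Topology
open scoped InnerProductSpace ENNReal ContDiff

/-! # Arbitrary functions in tubes: global solutions -/

namespace Pool.Agent.MPca0fc2.SP

open Pool.Agent.Lib.MP_ca0fc2_an
open Pool.Agent.MPca0fc2.PT
open Pool.Agent.MPca0fc2.QT
open Pool.Agent.MPca0fc2.TS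
open Pool.Agent.MPca0fc2.TE
open Pool.Agent.MPca0fc2.TK
open Pool.Agent.MPca0fc2.VK
open Pool.Agent.MPca0fc2.PV
open Pool.Agent.MPca0fc2.CE

variable {n : ℕ}

/-- Lines: functions of the algebra generated by the classes and by the functions of `π` suffice off
the tubes. -/
theorem tubes_map (hn : 2 ≤ n) {𝓢 : Set (AffineSubspace ℂ (EuclideanSpace ℂ (Fin n)))}
    (hS : ∀ S ∈ 𝓢, Module.finrank ℂ S.direction ≤ 1 ∧ ∃ x ∈ S, ‖x‖ < 1)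
    {π : EuclideanSpace ℂ (Fin n) → ℂ} (hπ : DifferentiableOn ℂ π (ball 0 1))
    (hπ1 : ∀ z ∈ ball (0 : EuclideanSpace ℂ (Fin n)) 1, ‖π z‖ < 1) {N : ℕ}
    {f : Fin N → EuclideanSpace ℂ (Fin n) → ℂ} (hf : ∀ j, IsHinf (ball 0 1) (f j)) {δ : ℝ}
    (hδ : 0 < δ)
    (hfδ : ∀ z ∈ ball (0 : EuclideanSpace ℂ (Fin n)) 1, δ ≤ ∑ j, ‖f j z‖ ^ 2)
    {𝓣 : Set (AffineSubspace ℂ (EuclideanSpace ℂ (Fin n)))} (h𝓣 : 𝓣.Finite) (h𝓣S : 𝓣 ⊆ 𝓢)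
    {c : ℝ} (hc0 : 0 < c) (hc1 : c < 1) {F : Fin N → EuclideanSpace ℂ (Fin n) → ℂ}
    (hF : ∀ j, F j = f j ∨ F j = fun _ => 0)
    (hv : ∀ j, ∀ ε > 0, ∃ v ∈ Algebra.adjoin ℂ (Gen 𝓢 ∪ HinfOf π),
      ∀ z ∈ ball (0 : EuclideanSpace ℂ (Fin n)) 1, ‖F j z - v z‖ ≤ ε) {δ' : ℝ} (hδ' : 0 < δ')
    (hFδ : ∀ z ∈ ball (0 : EuclideanSpace ℂ (Fin n)) 1,
      (∀ S ∈ 𝓣, ¬ Tub c (S : Set (EuclideanSpace ℂ (Fin n))) z) → δ' ≤ ∑ j, ‖F j z‖ ^ 2) :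
    ∃ C, SolvableOn f (ball 0 1) C := by
  have hs0 : 0 < √δ' := Real.sqrt_pos.2 hδ'
  have hs2 : √δ' ^ 2 = δ' := Real.sq_sqrt hδ'.le
  obtain ⟨t, ht0, ht⟩ := exists_small hs0 N
  choose v hv1 hv2 using fun j => hv j t ht0
  refine glue hn hf hδ hfδ fun p hp => ?_
  exact local_tubes hn hp (fun S hSS _ => hS S hSS) hπ hπ1 hf hδ hfδ h𝓣
    (fun S hSS => (hS S (h𝓣S hSS)).2) (fun S hSS _ => (hS S (h𝓣S hSS)).1) hc0 hc1 hF hv1 hs0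
    (by positivity) ht (fun z hz => sum_small hv2 hz)
    (fun z hz hT => by rw [hs2]; exact hFδ z hz hT)

/-- Families of subspaces. -/
theorem tubes_family (hn : 2 ≤ n) {N k : ℕ} (hN : 1 ≤ N)
    {𝓢 : Set (AffineSubspace ℂ (EuclideanSpace ℂ (Fin n)))} (hS : Fam k 𝓢)
    (hQ : ∀ m, 2 ≤ m → m ≤ k → ∀ D : Set (EuclideanSpace ℂ (Fin m)),
      IsStrictlyPscDomain D → Pool.Agent.MPca0fc2AD.Q1On N D)
    {f : Fin N → EuclideanSpace ℂ (Fin n) → ℂ} (hf : ∀ j, IsHinf (ball 0 1) (f j)) {δ : ℝ}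
    (hδ : 0 < δ)
    (hfδ : ∀ z ∈ ball (0 : EuclideanSpace ℂ (Fin n)) 1, δ ≤ ∑ j, ‖f j z‖ ^ 2)
    {𝓣 : Set (AffineSubspace ℂ (EuclideanSpace ℂ (Fin n)))} (h𝓣 : 𝓣.Finite) (h𝓣S : 𝓣 ⊆ 𝓢)
    {c : ℝ} (hc0 : 0 < c) (hc1 : c < 1) {F : Fin N → EuclideanSpace ℂ (Fin n) → ℂ}
    (hF : ∀ j, F j = f j ∨ F j = fun _ => 0)
    (hv : ∀ j, ∀ ε > 0, ∃ v ∈ Algebra.adjoin ℂ (Gen 𝓢),
      ∀ z ∈ ball (0 : EuclideanSpace ℂ (Fin n)) 1, ‖F j z - v z‖ ≤ ε) {δ' : ℝ} (hδ' : 0 < δ')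
    (hFδ : ∀ z ∈ ball (0 : EuclideanSpace ℂ (Fin n)) 1,
      (∀ S ∈ 𝓣, ¬ Tub c (S : Set (EuclideanSpace ℂ (Fin n))) z) → δ' ≤ ∑ j, ‖F j z‖ ^ 2) :
    ∃ C, SolvableOn f (ball 0 1) C := by
  have hs0 : 0 < √δ' := Real.sqrt_pos.2 hδ'
  have hs2 : √δ' ^ 2 = δ' := Real.sq_sqrt hδ'.le
  obtain ⟨t, ht0, ht⟩ := exists_small hs0 N
  choose v hv1 hv2 using fun j => hv j t ht0
  refine glue hn hf hδ hfδ fun p hp => ?_
  by_cases hp2 : ∃ S ∈ 𝓢, p ∈ S ∧ 2 ≤ Module.finrank ℂ S.direction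
  · obtain ⟨S, hSS, hpS, hdim⟩ := hp2
    obtain ⟨x, hx, hx1⟩ := hS.meets S hSS
    refine local_tubes_sub hn hp hx hx1 (fun T hT => ?_) (sl_of_q1 hn S.direction fun h2 =>
      hQ _ h2 (hS.dim S hSS) _ Pool.Agent.MPca0fc2.TB.isStrictlyPscDomain_ball) hf hδ hfδ h𝓣 h𝓣S
      hc0 hF hv hδ' hFδ
    by_cases hTS : T = S
    · exact Or.inl hTS
    · refine Or.inr fun hpT => ?_
      have := hS.apart S hSS T hT (Ne.symm hTS) p hp hpS hpT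
      omega
  · push Not at hp2
    exact local_tubes hn hp (fun S hSS hpS => ⟨by have := hp2 S hSS hpS; omega,
      hS.meets S hSS⟩) (π := fun _ => 0) (differentiableOn_const _) (fun z _ => by simp) hf hδ hfδ
      h𝓣 (fun S hSS => hS.meets S (h𝓣S hSS))
      (fun S hSS hpS => by have := hp2 S (h𝓣S hSS) hpS; omega) hc0 hc1 hF
      (fun j => Algebra.adjoin_mono subset_union_left (hv1 j)) hs0
      (by positivity) ht (fun z hz => sum_small hv2 hz)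
      (fun z hz hT => by rw [hs2]; exact hFδ z hz hT)

end Pool.Agent.MPca0fc2.SP
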