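import Mathlib
import Pool.Agent.Lib.MP_ca0fc2_an.SP.S26

set_option autoImplicit false
set_option linter.unusedSectionVars false

open Metric Set MeasureTheory Filter Topology
open scoped InnerProductSpace ENNReal ContDiff

/-! # The closure of a complex line in the maximal ideal space -/

namespace Pool.Agent.MPca0fc2.SP

open Pool.Agent.Lib.MP_ca0fc2_an
open Pool.Agent.MPca0fc2.PT
open Pool.Agent.MPca0fc2.QT
open Pool.Agent.MPca0fc2.TS
open Pool.Agent.MPca0fc2.TE
open Pool.Agent.MPca0fc2.TK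
open Pool.Agent.MPca0fc2.VK
open Pool.Agent.MPca0fc2.PV
open Pool.Agent.MPca0fc2.CE

variable {n : ℕ}

/-- the Schwarz-Pick lemma -/
theorem pick_HH {w z : EuclideanSpace ℂ (Fin n)} (hw : ‖w‖ < 1) (hz : ‖z‖ < 1)
    {G : EuclideanSpace ℂ (Fin n) → ℂ} (hG : DifferentiableOn ℂ G (ball 0 1)) {B : ℝ}
    (hB : ∀ x ∈ ball (0 : EuclideanSpace ℂ (Fin n)) 1, ‖G x‖ ≤ B) :
    ‖G z - G w‖ ≤ 2 * B * √(1 - PT.HH w z) := by
  have hw' : ‖-w‖ < 1 := by rwa [norm_neg]
  have hmap := Pool.Agent.MPca0fc2.TE.gg_maps (E := EuclideanSpace ℂ (Fin n)) hw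
  have hholo := Pool.Agent.MPca0fc2.TE.gg_holo (E := EuclideanSpace ℂ (Fin n)) hw
  have h0 : (0 : EuclideanSpace ℂ (Fin n)) ∈ ball (0 : EuclideanSpace ℂ (Fin n)) 1 :=
    mem_ball_self one_pos
  have hB0 : 0 ≤ B := (norm_nonneg _).trans (hB 0 h0)
  have e1 : ‖gg (-w) z‖ < 1 := gg_lt hw' hz
  have e2 : gg w (gg (-w) z) = z := by
    have h := gg_neg_gg hw' hz.le
    rwa [neg_neg] at h
  have e3 : gg w 0 = w := by
    have h := gg_neg_gg hw' hw.le
    rw [neg_neg] at h
    have h1 : gg (-w) w = 0 := by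
      have h2 := norm_gg hw' hw.le
      rw [norm_neg, inner_neg_left, inner_self_eq_norm_sq_to_K] at h2
      have h3 : ‖(1 : ℂ) + -((‖w‖ : ℂ) ^ 2)‖ = 1 - ‖w‖ ^ 2 := by
        have h4 : (1 : ℂ) + -((‖w‖ : ℂ) ^ 2) = ((1 - ‖w‖ ^ 2 : ℝ) : ℂ) := by push_cast; ring
        rw [h4, Complex.norm_real, Real.norm_of_nonneg]
        nlinarith [norm_nonneg w]
      have h5 : 0 < 1 - ‖w‖ ^ 2 := by nlinarith [norm_nonneg w]
      erw [h3] at h2
      rw [← pow_two, div_self (by positivity)] at h2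
      have h6 : ‖gg (-w) w‖ ^ 2 = 0 := by linarith
      exact norm_eq_zero.1 (pow_eq_zero_iff two_ne_zero |>.1 h6)
    rwa [h1] at h
  have e4 : ‖gg (-w) z‖ = √(1 - PT.HH w z) := by
    have h := norm_gg hw' hz.le
    rw [norm_neg, inner_neg_left, ← sub_eq_add_neg] at h
    have h2 : PT.HH w z = 1 - ‖gg (-w) z‖ ^ 2 := by rw [h]; rfl
    rw [h2, sub_sub_cancel, Real.sqrt_sq (norm_nonneg _)]
  have h3 := Complex.dist_le_div_mul_dist_of_mapsTo_ball (R₂ := 2 * B)
    (hG.comp hholo hmap) (fun x hx => by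
      rw [mem_closedBall, dist_eq_norm]
      exact (norm_sub_le _ _).trans (by
        have h1 := hB _ (hmap hx)
        have h2 := hB _ (hmap h0)
        simp only [Function.comp_apply]
        linarith)) (mem_ball_zero_iff.2 e1)
  simp only [Function.comp_apply, e2, e3] at h3
  rw [dist_eq_norm, dist_eq_norm, sub_zero, div_one, e4] at h3
  exact h3

/-- Finitely many functions of the class of a complex line, whose common zero set is the closure of
the line. -/
theorem hull_line (hn : 2 ≤ n) {S : AffineSubspace ℂ (EuclideanSpace ℂ (Fin n))}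
    (hS : Module.finrank ℂ S.direction = 1) {x₀ : EuclideanSpace ℂ (Fin n)} (hx₀ : x₀ ∈ S)
    (hx1 : ‖x₀‖ < 1) :
    ∃ (m : ℕ) (u : Fin m → EuclideanSpace ℂ (Fin n) → ℂ),
      (∀ i, CalmCl (S : Set (EuclideanSpace ℂ (Fin n))) (u i)) ∧
      (∀ i, ∀ z ∈ S, ‖z‖ < 1 → u i z = 0) ∧
      ∀ (N : ℕ) (f : Fin N → EuclideanSpace ℂ (Fin n) → ℂ), (∀ j, IsHinf (ball 0 1) (f j)) →
        ((∃ δ > 0, ∀ z ∈ S, ‖z‖ < 1 → δ ≤ ∑ j, ‖f j z‖ ^ 2) ↔
          ∃ (h : Fin N → EuclideanSpace ℂ (Fin n) → ℂ)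
            (k : Fin m → EuclideanSpace ℂ (Fin n) → ℂ),
            (∀ j, IsHinf (ball 0 1) (h j)) ∧ (∀ i, IsHinf (ball 0 1) (k i)) ∧
            ∀ z ∈ ball (0 : EuclideanSpace ℂ (Fin n)) 1,
              ∑ j, f j z * h j z + ∑ i, u i z * k i z = 1) := by
  obtain ⟨c₁, m, W, α, β, hc₁, hα, hαβ, hW, -, -, hW0, M, hWM⟩ :=
    sepA hS hx₀ hx1 (c := 1 / 2) (by norm_num) (by norm_num)
  have hβ : 0 < β := hα.trans hαβ
  refine ⟨m, W, hW, hW0, fun N f hf => ⟨?_, ?_⟩⟩
  · rintro ⟨δ, hδ, hfδ⟩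
    choose hfd B hB using hf
    obtain ⟨B', hB'⟩ : ∃ B' : ℝ, B' = ∑ j, |B j| := ⟨_, rfl⟩
    have hBB : ∀ j, |B j| ≤ B' := fun j => by
      rw [hB']
      exact Finset.single_le_sum (f := fun j => |B j|) (fun _ _ => abs_nonneg _)
        (Finset.mem_univ j)
    have hB'0 : 0 ≤ B' := by rw [hB']; exact Finset.sum_nonneg fun j _ => abs_nonneg _
    have hsδ : 0 < √δ := Real.sqrt_pos.2 hδ
    obtain ⟨s, hs⟩ : ∃ s : ℝ, s = min (1 / 2) (√δ / (4 * (√N + 1) * (B' + 1))) := ⟨_, rfl⟩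
    have hs0 : 0 < s := by rw [hs]; exact lt_min (by norm_num) (by positivity)
    have hs1 : s ≤ √δ / (4 * (√N + 1) * (B' + 1)) := by rw [hs]; exact min_le_right _ _
    have hsN : √N * (2 * B' * s) ≤ √δ / 2 := by
      have h1 : s * (4 * (√N + 1) * (B' + 1)) ≤ √δ := by
        rwa [le_div_iff₀ (by positivity)] at hs1
      have h2 : 0 ≤ s * √N := by positivity
      have h3 : 0 ≤ s * B' := by positivity
      nlinarith [h2, h3, hs0]
    -- the lower bound
    obtain ⟨δ₁, hδ₁⟩ : ∃ δ₁ : ℝ, δ₁ = min ((√δ / 2) ^ 2) ((β * (s ^ 2) ^ M) ^ 2) := ⟨_, rfl⟩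
    have hδ₁0 : 0 < δ₁ := by rw [hδ₁]; exact lt_min (by positivity) (by positivity)
    have hlow : ∀ z ∈ ball (0 : EuclideanSpace ℂ (Fin n)) 1,
        δ₁ ≤ ∑ j, ‖f j z‖ ^ 2 + ∑ i, ‖W i z‖ ^ 2 := by
      intro z hz
      have hz1 := mem_ball_zero_iff.1 hz
      have hf0 : 0 ≤ ∑ j, ‖f j z‖ ^ 2 := Finset.sum_nonneg fun _ _ => sq_nonneg _
      have hW0' : 0 ≤ ∑ i, ‖W i z‖ ^ 2 := Finset.sum_nonneg fun _ _ => sq_nonneg _
      by_cases hT : Tub (1 - s ^ 2) (S : Set (EuclideanSpace ℂ (Fin n))) z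
      · obtain ⟨w, hw, hw1, h⟩ := hT
        have h1 : √(1 - PT.HH w z) ≤ s := by
          rw [Real.sqrt_le_left hs0.le]
          linarith
        have h2 : ∀ j, ‖f j z - f j w‖ ≤ 2 * B' * s := by
          intro j
          refine (pick_HH hw1 hz1 (hfd j) (B := B') fun x hx =>
            (hB j x hx).trans ((le_abs_self _).trans (hBB j))).trans ?_
          exact mul_le_mul_of_nonneg_left h1 (by positivity)
        have h3 := vec_close (x := fun j => f j z) (y := fun j => f j w) (by positivity) h2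
        have h4 : √δ ≤ √(∑ j, ‖f j w‖ ^ 2) := Real.sqrt_le_sqrt (hfδ w hw hw1)
        have h5 : √δ / 2 ≤ √(∑ j, ‖f j z‖ ^ 2) := by
          have := (abs_le.1 h3).1
          linarith
        have h6 : (√δ / 2) ^ 2 ≤ ∑ j, ‖f j z‖ ^ 2 := by
          have := pow_le_pow_left₀ (by positivity) h5 2
          rwa [Real.sq_sqrt hf0] at this
        have h7 : δ₁ ≤ (√δ / 2) ^ 2 := by rw [hδ₁]; exact min_le_left _ _
        linarith
      · have h1 := hWM z hz (1 - s ^ 2) (by nlinarith) hT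
        rw [sub_sub_cancel] at h1
        have h2 := pow_le_pow_left₀ (by positivity) h1 2
        rw [Real.sq_sqrt hW0'] at h2
        have h3 : δ₁ ≤ (β * (s ^ 2) ^ M) ^ 2 := by rw [hδ₁]; exact min_le_right _ _
        linarith
    have hWH : ∀ i, IsHinf (ball 0 1) (W i) := fun i => ⟨(hW i).1, (hW i).2.1⟩
    have hsum : ∀ (x : Fin N → ℂ) (y : Fin m → ℂ),
        ∑ j, ‖Fin.append x y j‖ ^ 2 = ∑ j, ‖x j‖ ^ 2 + ∑ i, ‖y i‖ ^ 2 := by
      intro x y
      rw [Fin.sum_univ_add]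
      simp only [Fin.append_left, Fin.append_right]
    have happ : ∀ (x : Fin N → EuclideanSpace ℂ (Fin n) → ℂ)
        (y : Fin m → EuclideanSpace ℂ (Fin n) → ℂ) (j : Fin (N + m))
        (z : EuclideanSpace ℂ (Fin n)),
        Fin.append x y j z = Fin.append (fun j => x j z) (fun i => y i z) j := by
      intro x y j z
      refine Fin.addCases (fun j => ?_) (fun i => ?_) j
      · rw [Fin.append_left, Fin.append_left]
      · rw [Fin.append_right, Fin.append_right]
    obtain ⟨C, h, h1, h2, h3⟩ := tubes_map hn (𝓢 := {S}) (fun T hT => by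
        rw [mem_singleton_iff.1 hT]
        exact ⟨hS.le, x₀, hx₀, hx1⟩) (π := fun _ => 0) (differentiableOn_const _)
      (fun z _ => by simp) (N := N + m) (f := Fin.append f W)
      (fun j => by
        refine Fin.addCases (fun j => ?_) (fun i => ?_) j
        · rw [Fin.append_left]; exact ⟨hfd j, B j, hB j⟩
        · rw [Fin.append_right]; exact hWH i) hδ₁0
      (fun z hz => by
        simp only [happ]
        rw [hsum]
        exact hlow z hz) (𝓣 := {S}) (finite_singleton S) le_rfl (c := 1 / 2) (by norm_num)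
      (by norm_num) (F := Fin.append (fun _ _ => 0) W)
      (fun j => by
        refine Fin.addCases (fun j => ?_) (fun i => ?_) j
        · rw [Fin.append_left]; exact Or.inr rfl
        · rw [Fin.append_right, Fin.append_right]; exact Or.inl rfl)
      (fun j => by
        refine Fin.addCases (fun j => ?_) (fun i => ?_) j
        · rw [Fin.append_left]
          exact fun ε hε => ⟨0, zero_mem _, fun z _ => by simpa using hε.le⟩
        · rw [Fin.append_right]
          exact fun ε hε => ⟨W i, Algebra.subset_adjoin (Or.inl ⟨S, rfl, hW i⟩), fun z _ => by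
            rw [sub_self, norm_zero]; exact hε.le⟩) (δ' := (β * (1 / 2) ^ M) ^ 2) (by positivity)
      (fun z hz hT => by
        simp only [happ]
        rw [hsum]
        have h1 := hWM z hz (1 / 2) (by norm_num) (hT S rfl)
        have h2 := pow_le_pow_left₀ (by positivity) h1 2
        rw [Real.sq_sqrt (Finset.sum_nonneg fun _ _ => sq_nonneg _)] at h2
        have h3 : (1 : ℝ) - 1 / 2 = 1 / 2 := by norm_num
        rw [h3] at h2
        refine h2.trans ?_
        simp)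
    refine ⟨fun j => h (Fin.castAdd m j), fun i => h (Fin.natAdd N i),
      fun j => ⟨h1 _, C, h2 _⟩, fun i => ⟨h1 _, C, h2 _⟩, fun z hz => ?_⟩
    have h4 := h3 z hz
    rw [Fin.sum_univ_add] at h4
    simp only [Fin.append_left, Fin.append_right] at h4
    exact h4
  · rintro ⟨h, k, h1, -, h2⟩
    choose hhd C hC using h1
    refine ⟨(((∑ j, |C j|) ^ 2 + 1) * (N + 1))⁻¹, by positivity, fun z hz hz1 => ?_⟩
    refine low (R := fun j => h j z) ?_ fun j => (hC j z (mem_ball_zero_iff.2 hz1)).trans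
      ((le_abs_self _).trans (Finset.single_le_sum (f := fun j => |C j|)
        (fun _ _ => abs_nonneg _) (Finset.mem_univ j)))
    have h3 := h2 z (mem_ball_zero_iff.2 hz1)
    rw [Finset.sum_congr rfl (fun i _ => by rw [hW0 i z hz hz1, zero_mul] :
      ∀ i ∈ Finset.univ, W i z * k i z = 0), Finset.sum_const_zero, add_zero] at h3
    exact h3

end Pool.Agent.MPca0fc2.SP
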