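import Mathlib
import Pool.Agent.Lib.MP_ca0fc2_an.SP.S26

set_option autoImplicit false
set_option linter.unusedSectionVars false

open Metric Set MeasureTheory Filter Topology
open scoped InnerProductSpace ENNReal ContDiff

/-! # The corona problem is local with respect to tame functions -/

namespace Pool.Agent.MPca0fc2.SP

open Pool.Agent.Lib.MP_ca0fc2_an
open Pool.Agent.MPca0fc2.PT
open Pool.Agent.MPca0fc2.QT
open Pool.Agent.MPca0fc2.TS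
open Pool.Agent.MPca0fc2.TE
open Pool.Agent.MPca0fc2.TK
open Pool.Agent.MPca0fc2.VK
open Pool.Agent.MPca0fc2.PV
open Pool.Agent.MPca0fc2.CE

variable {n : ℕ}

/-- cells of approximations -/
theorem cell_approx (Φ : IND.Char (ball (0 : EuclideanSpace ℂ (Fin n)) 1) Unit) {m : ℕ}
    {u a : Fin m → EuclideanSpace ℂ (Fin n) → ℂ} (hu : ∀ i, IsHinf (ball 0 1) (u i))
    (ha : ∀ i, IsHinf (ball 0 1) (a i)) {ε : ℝ} (hε : 0 < ε)
    (hua : ∀ i, ∀ z ∈ ball (0 : EuclideanSpace ℂ (Fin n)) 1, ‖u i z - a i z‖ ≤ ε / 4)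
    {z : EuclideanSpace ℂ (Fin n)} (hz : z ∈ ball (0 : EuclideanSpace ℂ (Fin n)) 1)
    (hza : ∀ i, ‖a i z - Φ.φ (IND.cf (a i))‖ < ε / 4) :
    ∀ i, ‖u i z - Φ.φ (IND.cf (u i))‖ < ε := by
  intro i
  have hbu : IND.BH (ball (0 : EuclideanSpace ℂ (Fin n)) 1) (IND.cf (u i)) :=
    IND.bh_of_hinf (hu i)
  have hba : IND.BH (ball (0 : EuclideanSpace ℂ (Fin n)) 1) (IND.cf (a i)) :=
    IND.bh_of_hinf (ha i)
  have h1 : ‖(W9_X Φ).φ (fun _ => u i) - (W9_X Φ).φ (fun _ => a i)‖ ≤ ε / 4 := by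
    have h2 : BH fun (_ : Unit) => u i := by
      obtain ⟨h1, C, hC⟩ := hu i
      exact ⟨fun _ => h1, C, fun _ => hC⟩
    have h3 : BH fun (_ : Unit) => a i := by
      obtain ⟨h1, C, hC⟩ := ha i
      exact ⟨fun _ => h1, C, fun _ => hC⟩
    rw [← (W9_X Φ).map_sub h2 h3]
    exact (W9_X Φ).bound (h2.sub h3) (by positivity) fun _ z hz => hua i z hz
  have h4 : ‖Φ.φ (IND.cf (u i)) - Φ.φ (IND.cf (a i))‖ ≤ ε / 4 := h1
  have h5 := hua i z hz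
  have h6 := hza i
  calc ‖u i z - Φ.φ (IND.cf (u i))‖
      = ‖(u i z - a i z) + (a i z - Φ.φ (IND.cf (a i))) +
          -(Φ.φ (IND.cf (u i)) - Φ.φ (IND.cf (a i)))‖ := by congr 1; ring
    _ ≤ ‖u i z - a i z‖ + ‖a i z - Φ.φ (IND.cf (a i))‖ +
          ‖-(Φ.φ (IND.cf (u i)) - Φ.φ (IND.cf (a i)))‖ := norm_add₃_le
    _ < ε := by rw [norm_neg]; linarith

/-- The cell of a character which kills the data: there are no bounded solutions on it, and the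
functions of the algebra do not satisfy the corona condition on it. -/
theorem cells_at {p : EuclideanSpace ℂ (Fin n)} (hp : ‖p‖ = 1)
    {A1 A2 : Set (EuclideanSpace ℂ (Fin n) → ℂ)} (hG : GoodC p A1 A2)
    (Φ : IND.Char (ball (0 : EuclideanSpace ℂ (Fin n)) 1) Unit) (hΦ : Over (W9_X Φ) p) {N : ℕ}
    {f F v : Fin N → EuclideanSpace ℂ (Fin n) → ℂ} (hf : ∀ j, IsHinf (ball 0 1) (f j))
    (hcon : ∀ j, Φ.φ (IND.cf (f j)) = 0) (hF : ∀ j, F j = f j ∨ F j = fun _ => 0) {m : ℕ}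
    {u a : Fin m → EuclideanSpace ℂ (Fin n) → ℂ} (hu : ∀ i, IsHinf (ball 0 1) (u i))
    (ha : ∀ i, a i ∈ RegC A1 p) {ε : ℝ} (hε : 0 < ε)
    (hua : ∀ i, ∀ z ∈ ball (0 : EuclideanSpace ℂ (Fin n)) 1, ‖u i z - a i z‖ ≤ ε / 4)
    {π : EuclideanSpace ℂ (Fin n) → ℂ} (hπ : DifferentiableOn ℂ π (ball 0 1))
    (hπ1 : ∀ z ∈ ball (0 : EuclideanSpace ℂ (Fin n)) 1, ‖π z‖ < 1)
    (hv : ∀ j, v j ∈ Algebra.adjoin ℂ (RegC A1 p ∪ HinfOf π)) {δ' e : ℝ} (hδ' : 0 < δ')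
    (he0 : 0 ≤ e) (he : 2 * e < δ')
    (hFv : ∀ z ∈ ball (0 : EuclideanSpace ℂ (Fin n)) 1, ∑ j, ‖F j z - v j z‖ ^ 2 ≤ e ^ 2)
    (H : (∃ C, SolvableOn f {z | z ∈ ball 0 1 ∧ ∀ i, ‖u i z - Φ.φ (IND.cf (u i))‖ < ε} C) ∨
      ∀ z ∈ ball (0 : EuclideanSpace ℂ (Fin n)) 1, (∀ i, ‖u i z - Φ.φ (IND.cf (u i))‖ < ε) →
        δ' ^ 2 ≤ ∑ j, ‖F j z‖ ^ 2) : False := by
  have haH : ∀ i, IsHinf (ball 0 1) (a i) := fun i => ⟨(ha i).1, (ha i).2.1⟩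
  have hsub := fun (z : EuclideanSpace ℂ (Fin n)) (hz : z ∈ ball (0 : EuclideanSpace ℂ (Fin n)) 1)
    (hza : ∀ i, ‖a i z - Φ.φ (IND.cf (a i))‖ < ε / 4) => cell_approx Φ hu haH hε hua hz hza
  have hε4 : 0 < ε / 4 := by positivity
  rcases H with ⟨C, h, h1, h2, h3⟩ | H
  · exact S15_ext hG Φ hΦ N f (fun j => IND.bh_of_hinf (hf j)) hcon m a ha (ε / 4) hε4 C
      ⟨h, fun j => (h1 j).mono fun z hz => ⟨hz.1, hsub z hz.1 hz.2⟩,
        fun j z hz => h2 j z ⟨hz.1, hsub z hz.1 hz.2⟩, fun z hz => h3 z ⟨hz.1, hsub z hz.1 hz.2⟩⟩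
  · have hFH : ∀ j, IsHinf (ball 0 1) (F j) := by
      intro j
      rcases hF j with h | h
      · rw [h]; exact hf j
      · rw [h]; exact ⟨differentiableOn_const _, 0, fun z _ => by simp⟩
    obtain ⟨j, hj⟩ := cellC_cell hFH hδ' hp hG hπ hπ1 hv he0 he hFv Φ hΦ hε4 ha
      fun z hz _ hza => H z hz (hsub z hz hza)
    rcases hF j with h | h
    · rw [h] at hj
      exact hj (hcon j)
    · rw [h] at hj
      exact hj (Φ.map_const 0)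

/-- the constants -/
theorem adjoin_const (hE : 2 ≤ Module.finrank ℂ (EuclideanSpace ℂ (Fin n)))
    {S : Set (EuclideanSpace ℂ (Fin n))} {p : EuclideanSpace ℂ (Fin n)}
    {v : EuclideanSpace ℂ (Fin n) → ℂ}
    (hv : v ∈ Algebra.adjoin ℂ (RegC {u | MixN 1 S p u} p ∪ HinfOf fun _ => 0)) :
    v ∈ RegC {u | MixN 1 S p u} p := by
  refine RegC.adjoin hE (fun u hu => ?_) hv
  rcases hu with hu | ⟨g, -, -, h⟩
  · exact hu
  · have h1 : u = algebraMap ℂ (EuclideanSpace ℂ (Fin n) → ℂ) (g 0) := by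
      ext z
      rw [h z]
      rfl
    rw [h1]
    exact RegC.adjoin hE (A := ∅) (fun u hu => absurd hu (notMem_empty u))
      (Subalgebra.algebraMap_mem _ _)

/-- the hypothesis on the cell of a character, with a lower bound -/
theorem cell_hyp {N m : ℕ} {f F : Fin N → EuclideanSpace ℂ (Fin n) → ℂ}
    {u : Fin m → EuclideanSpace ℂ (Fin n) → ℂ} {ε : ℝ} {c : Fin m → ℂ}
    (H : (∃ C, SolvableOn f {z | z ∈ ball 0 1 ∧ ∀ i, ‖u i z - c i‖ < ε} C) ∨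
      ∃ δ > 0, ∀ z ∈ ball (0 : EuclideanSpace ℂ (Fin n)) 1, (∀ i, ‖u i z - c i‖ < ε) →
        δ ≤ ∑ j, ‖F j z‖ ^ 2) :
    ∃ δ' > 0, (∃ C, SolvableOn f {z | z ∈ ball 0 1 ∧ ∀ i, ‖u i z - c i‖ < ε} C) ∨
      ∀ z ∈ ball (0 : EuclideanSpace ℂ (Fin n)) 1, (∀ i, ‖u i z - c i‖ < ε) →
        δ' ^ 2 ≤ ∑ j, ‖F j z‖ ^ 2 := by
  rcases H with H | ⟨δ, hδ, H⟩
  · exact ⟨1, one_pos, Or.inl H⟩
  · exact ⟨√δ, Real.sqrt_pos.2 hδ, Or.inr fun z hz hzu => by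
      rw [Real.sq_sqrt hδ.le]
      exact H z hz hzu⟩

/-- Local solutions near `p`: only complex lines pass through `p`. -/
theorem local_cells (hn : 2 ≤ n) {𝓢 : Set (AffineSubspace ℂ (EuclideanSpace ℂ (Fin n)))}
    {p : EuclideanSpace ℂ (Fin n)} (hp : ‖p‖ = 1)
    (hline : ∀ S ∈ 𝓢, p ∈ S → Module.finrank ℂ S.direction ≤ 1 ∧ ∃ x ∈ S, ‖x‖ < 1)
    {π : EuclideanSpace ℂ (Fin n) → ℂ} (hπ : DifferentiableOn ℂ π (ball 0 1))
    (hπ1 : ∀ z ∈ ball (0 : EuclideanSpace ℂ (Fin n)) 1, ‖π z‖ < 1) {N : ℕ}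
    {f F : Fin N → EuclideanSpace ℂ (Fin n) → ℂ} (hf : ∀ j, IsHinf (ball 0 1) (f j))
    (hF : ∀ j, F j = f j ∨ F j = fun _ => 0)
    (hv : ∀ j, ∀ ε > 0, ∃ v ∈ Algebra.adjoin ℂ (Gen 𝓢 ∪ HinfOf π),
      ∀ z ∈ ball (0 : EuclideanSpace ℂ (Fin n)) 1, ‖F j z - v z‖ ≤ ε) {m : ℕ}
    {u : Fin m → EuclideanSpace ℂ (Fin n) → ℂ} (hu : ∀ i, IsHinf (ball 0 1) (u i))
    (hua : ∀ i, ∀ ε > 0, ∃ a ∈ Algebra.adjoin ℂ (Gen 𝓢),
      ∀ z ∈ ball (0 : EuclideanSpace ℂ (Fin n)) 1, ‖u i z - a z‖ ≤ ε) {ε : ℝ} (hε : 0 < ε)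
    (H : ∀ c : Fin m → ℂ,
      (∃ C, SolvableOn f {z | z ∈ ball 0 1 ∧ ∀ i, ‖u i z - c i‖ < ε} C) ∨
      ∃ δ > 0, ∀ z ∈ ball (0 : EuclideanSpace ℂ (Fin n)) 1, (∀ i, ‖u i z - c i‖ < ε) →
        δ ≤ ∑ j, ‖F j z‖ ^ 2) :
    ∃ r > 0, ∃ C, SolvableOn f (ball 0 1 ∩ ball p r) C := by
  classical
  have hE : 2 ≤ Module.finrank ℂ (EuclideanSpace ℂ (Fin n)) := by
    rw [finrank_euclideanSpace_fin]; exact hn
  refine local_of_chars hf hp fun Φ hΦ => ?_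
  by_contra hcon
  push Not at hcon
  obtain ⟨δ', hδ', H'⟩ := cell_hyp (H fun i => Φ.φ (IND.cf (u i)))
  obtain ⟨t, ht0, ht⟩ := exists_small hδ' N
  choose v hv1 hv2 using fun j => hv j t ht0
  choose a ha1 ha2 using fun i => hua i (ε / 4) (by positivity)
  choose A hAf hA1 hAv using fun j => lines_of_adjoin hp hline (hv1 j)
  choose A₁ hA₁f hA₁1 hA₁a using fun i => lines_of_adjoin hp hline (π := fun _ => 0)
    (Algebra.adjoin_mono subset_union_left (ha1 i))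
  obtain ⟨A', hA'⟩ : ∃ A' : Set (EuclideanSpace ℂ (Fin n)),
    A' = {0} ∪ (⋃ j, A j) ∪ ⋃ i, A₁ i := ⟨_, rfl⟩
  have hA'f : A'.Finite := by
    rw [hA']
    exact ((finite_singleton 0).union (finite_iUnion hAf)).union (finite_iUnion hA₁f)
  have hA'n : A'.Nonempty := by rw [hA']; exact ⟨0, Or.inl (Or.inl rfl)⟩
  have hA'1 : ∀ a ∈ A', ‖a‖ < 1 := by
    rw [hA']
    rintro a ((ha | ha) | ha)
    · rw [mem_singleton_iff.1 ha]; simp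
    · obtain ⟨j, hj⟩ := mem_iUnion.1 ha
      exact hA1 j a hj
    · obtain ⟨i, hi⟩ := mem_iUnion.1 ha
      exact hA₁1 i a hi
  have hsub : ∀ j, A j ⊆ A' := fun j => by
    rw [hA']
    exact (subset_iUnion A j).trans (subset_union_right.trans subset_union_left)
  have hsub₁ : ∀ i, A₁ i ⊆ A' := fun i => by
    rw [hA']
    exact (subset_iUnion A₁ i).trans subset_union_right
  exact cells_at hp (good_linH hE hp hA'f hA'n hA'1) Φ hΦ hf hcon hF hu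
    (fun i => adjoin_const hE (hA₁a i A' (hsub₁ i))) hε ha2 hπ hπ1
    (fun j => hAv j A' (hsub j)) hδ' (by positivity) ht (fun z hz => sum_small hv2 hz) H'

/-- Local solutions at a point of one member of the family, with all the functions of `π`. -/
theorem local_cells_map (hn : 2 ≤ n) {𝓢 : Set (AffineSubspace ℂ (EuclideanSpace ℂ (Fin n)))}
    {p : EuclideanSpace ℂ (Fin n)} (hp : ‖p‖ = 1)
    {S : AffineSubspace ℂ (EuclideanSpace ℂ (Fin n))} {x₀ : EuclideanSpace ℂ (Fin n)}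
    (hx₀ : x₀ ∈ S) (hx1 : ‖x₀‖ < 1) (hother : ∀ T ∈ 𝓢, T = S ∨ p ∉ T)
    (hSl : ∀ (N : ℕ) (q : EuclideanSpace ℂ (Fin n)), SlM N S.direction.starProjection q)
    {π : EuclideanSpace ℂ (Fin n) → ℂ} (hπ : DifferentiableOn ℂ π (ball 0 1))
    (hπ1 : ∀ z ∈ ball (0 : EuclideanSpace ℂ (Fin n)) 1, ‖π z‖ < 1) {N : ℕ}
    {f F : Fin N → EuclideanSpace ℂ (Fin n) → ℂ} (hf : ∀ j, IsHinf (ball 0 1) (f j))
    (hF : ∀ j, F j = f j ∨ F j = fun _ => 0)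
    (hv : ∀ j, ∀ ε > 0, ∃ v ∈ Algebra.adjoin ℂ (Gen 𝓢 ∪ HinfOf π),
      ∀ z ∈ ball (0 : EuclideanSpace ℂ (Fin n)) 1, ‖F j z - v z‖ ≤ ε) {m : ℕ}
    {u : Fin m → EuclideanSpace ℂ (Fin n) → ℂ} (hu : ∀ i, IsHinf (ball 0 1) (u i))
    (hua : ∀ i, ∀ ε > 0, ∃ a ∈ Algebra.adjoin ℂ (Gen 𝓢),
      ∀ z ∈ ball (0 : EuclideanSpace ℂ (Fin n)) 1, ‖u i z - a z‖ ≤ ε) {ε : ℝ} (hε : 0 < ε)
    (H : ∀ c : Fin m → ℂ,
      (∃ C, SolvableOn f {z | z ∈ ball 0 1 ∧ ∀ i, ‖u i z - c i‖ < ε} C) ∨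
      ∃ δ > 0, ∀ z ∈ ball (0 : EuclideanSpace ℂ (Fin n)) 1, (∀ i, ‖u i z - c i‖ < ε) →
        δ ≤ ∑ j, ‖F j z‖ ^ 2) :
    ∃ r > 0, ∃ C, SolvableOn f (ball 0 1 ∩ ball p r) C := by
  have hE : 2 ≤ Module.finrank ℂ (EuclideanSpace ℂ (Fin n)) := by
    rw [finrank_euclideanSpace_fin]; exact hn
  obtain ⟨a, ha, haS⟩ := affine_aut hx₀ hx1
  have ha' : ‖-a‖ < 1 := by rwa [norm_neg]
  obtain ⟨Cd, hCd, hdk⟩ := dk_gg ha
  have hp' : ‖gg (-a) p‖ = 1 := by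
    have h := (hdk {p} (by simpa using hp) (singleton_nonempty p)).1
    simpa using h
  have hmap := Pool.Agent.MPca0fc2.TE.gg_maps (E := EuclideanSpace ℂ (Fin n)) ha
  have hholo := Pool.Agent.MPca0fc2.TE.gg_holo (E := EuclideanSpace ℂ (Fin n)) ha
  refine local_gg ha hp ?_
  have hfa : ∀ j, IsHinf (ball 0 1) fun z => f j (gg a z) := fun j =>
    ⟨(hf j).1.comp hholo hmap, (hf j).2.choose, fun z hz => (hf j).2.choose_spec _ (hmap hz)⟩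
  have huaa : ∀ i, IsHinf (ball 0 1) fun z => u i (gg a z) := fun i =>
    ⟨(hu i).1.comp hholo hmap, (hu i).2.choose, fun z hz => (hu i).2.choose_spec _ (hmap hz)⟩
  refine local_of_chars hfa hp' fun Φ hΦ => ?_
  by_contra hcon
  push Not at hcon
  obtain ⟨δ', hδ', H'⟩ := cell_hyp (H fun i => Φ.φ (IND.cf fun z => u i (gg a z)))
  obtain ⟨t, ht0, ht⟩ := exists_small hδ' N
  choose v hv1 hv2 using fun j => hv j t ht0
  choose b hb1 hb2 using fun i => hua i (ε / 4) (by positivity)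
  refine cells_at (f := fun j z => f j (gg a z)) (F := fun j z => F j (gg a z))
    (v := fun j z => v j (gg a z)) (u := fun i z => u i (gg a z)) (a := fun i z => b i (gg a z))
    (π := fun z => π (gg a z)) hp'
    (goodL hE (prj_star S.direction) hp' fun N => hSl N _) Φ hΦ hfa hcon (fun j => ?_) huaa
    (fun i => adjoin_reg hn ha haS hp hp' hother (hb1 i)) hε (fun i z hz => hb2 i _ (hmap hz))
    (hπ.comp hholo hmap) (fun z hz => hπ1 _ (hmap hz))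
    (fun j => adjoin_reg' ha haS hp hp' hother (hv1 j)) hδ' (by positivity) ht
    (fun z hz => sum_small hv2 (hmap hz)) ?_
  · rcases hF j with h | h
    · exact Or.inl (by rw [h])
    · exact Or.inr (by rw [h])
  · rcases H' with ⟨C, h, h1, h2, h3⟩ | H'
    · exact Or.inl ⟨C, fun j z => h j (gg a z),
        fun j => (h1 j).comp (hholo.mono fun z hz => hz.1) fun z hz => ⟨hmap hz.1, hz.2⟩,
        fun j z hz => h2 j _ ⟨hmap hz.1, hz.2⟩, fun z hz => h3 _ ⟨hmap hz.1, hz.2⟩⟩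
    · exact Or.inr fun z hz hzu => H' _ (hmap hz) hzu

end Pool.Agent.MPca0fc2.SP
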