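import Mathlib
import Pool.Agent.Lib.MP_ca0fc2_an.SP.S28

set_option autoImplicit false
set_option linter.unusedSectionVars false

open Metric Set MeasureTheory Filter Topology
open scoped InnerProductSpace ENNReal ContDiff

/-! # The corona problem is local with respect to tame functions: subspaces -/

namespace Pool.Agent.MPca0fc2.SP

open Pool.Agent.Lib.MP_ca0fc2_an
open Pool.Agent.MPca0fc2.PT
open Pool.Agent.MPca0fc2.QT
open Pool.Agent.MPca0fc2.TS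
open Pool.Agent.MPca0fc2.TE
open Pool.Agent.MPca0fc2.TK
open Pool.Agent.MPca0fc2.VK
open Pool.Agent.MPca0fc2.PV
open Pool.Agent.MPca0fc2.CE

variable {n : ℕ}

/-- the hypothesis on the cell of a character, with a number `t` -/
theorem cell_hyp' {N m : ℕ} {f F : Fin N → EuclideanSpace ℂ (Fin n) → ℂ}
    {u : Fin m → EuclideanSpace ℂ (Fin n) → ℂ} {ε : ℝ} (hε : 0 < ε) {c : Fin m → ℂ}
    (H : (∃ C, SolvableOn f {z | z ∈ ball 0 1 ∧ ∀ i, ‖u i z - c i‖ < ε} C) ∨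
      ∃ δ > 0, ∀ z ∈ ball (0 : EuclideanSpace ℂ (Fin n)) 1, (∀ i, ‖u i z - c i‖ < ε) →
        δ ≤ ∑ j, ‖F j z‖ ^ 2) :
    ∃ t > 0, t < ε ∧ ((∃ C, SolvableOn f {z | z ∈ ball 0 1 ∧ ∀ i, ‖u i z - c i‖ < ε} C) ∨
      ∀ z ∈ ball (0 : EuclideanSpace ℂ (Fin n)) 1, (∀ i, ‖u i z - c i‖ < ε) →
        ¬ ∀ j, ‖F j z‖ ≤ t) := by
  rcases H with H | ⟨δ, hδ, H⟩
  · exact ⟨ε / 2, by positivity, by linarith, Or.inl H⟩
  · obtain ⟨t, ht0, ht⟩ := exists_small (Real.sqrt_pos.2 hδ) N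
    refine ⟨min t (ε / 2), lt_min ht0 (by positivity), (min_le_right _ _).trans_lt (by linarith),
      Or.inr fun z hz hzu hle => ?_⟩
    refine absurd (H z hz hzu) (not_le.2 ?_)
    calc ∑ j, ‖F j z‖ ^ 2 ≤ ∑ _j : Fin N, t ^ 2 :=
          Finset.sum_le_sum fun j _ => pow_le_pow_left₀ (norm_nonneg _)
            ((hle j).trans (min_le_left _ _)) 2
      _ = (√(N : ℝ) * t) ^ 2 := by
          rw [Finset.sum_const, Finset.card_univ, Fintype.card_fin, nsmul_eq_mul, mul_pow,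
            Real.sq_sqrt (Nat.cast_nonneg N)]
      _ < √δ ^ 2 := by
          have h0 : 0 ≤ √(N : ℝ) * t := by positivity
          refine pow_lt_pow_left₀ (by linarith) h0 two_ne_zero
      _ = δ := Real.sq_sqrt hδ.le

/-- Local solutions at a point of one member `S` of the family, for data with bounded solutions on
`S`. -/
theorem local_cells_slice (hn : 2 ≤ n) {𝓢 : Set (AffineSubspace ℂ (EuclideanSpace ℂ (Fin n)))}
    {p : EuclideanSpace ℂ (Fin n)} (hp : ‖p‖ = 1)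
    {S : AffineSubspace ℂ (EuclideanSpace ℂ (Fin n))} {x₀ : EuclideanSpace ℂ (Fin n)}
    (hx₀ : x₀ ∈ S) (hx1 : ‖x₀‖ < 1) (hother : ∀ T ∈ 𝓢, T = S ∨ p ∉ T) {N : ℕ}
    {f F : Fin N → EuclideanSpace ℂ (Fin n) → ℂ} (hf : ∀ j, IsHinf (ball 0 1) (f j))
    (hSl : ∃ (h : Fin N → EuclideanSpace ℂ (Fin n) → ℂ) (A : ℝ),
      (∀ j, DifferentiableOn ℂ (h j) (S ∩ ball 0 1)) ∧
      ∀ z ∈ S, ‖z‖ < 1 → ∑ j, f j z * h j z = 1 ∧ ∀ j, ‖h j z‖ ≤ A)
    (hF : ∀ j, F j = f j ∨ F j = fun _ => 0)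
    (hv : ∀ j, ∀ ε > 0, ∃ v ∈ Algebra.adjoin ℂ (Gen 𝓢),
      ∀ z ∈ ball (0 : EuclideanSpace ℂ (Fin n)) 1, ‖F j z - v z‖ ≤ ε) {m : ℕ}
    {u : Fin m → EuclideanSpace ℂ (Fin n) → ℂ} (hu : ∀ i, IsHinf (ball 0 1) (u i))
    (hua : ∀ i, ∀ ε > 0, ∃ a ∈ Algebra.adjoin ℂ (Gen 𝓢),
      ∀ z ∈ ball (0 : EuclideanSpace ℂ (Fin n)) 1, ‖u i z - a z‖ ≤ ε) {ε : ℝ} (hε : 0 < ε)
    (H : ∀ c : Fin m → ℂ,
      (∃ C, SolvableOn f {z | z ∈ ball 0 1 ∧ ∀ i, ‖u i z - c i‖ < ε} C) ∨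
      ∃ δ > 0, ∀ z ∈ ball (0 : EuclideanSpace ℂ (Fin n)) 1, (∀ i, ‖u i z - c i‖ < ε) →
        δ ≤ ∑ j, ‖F j z‖ ^ 2) :
    ∃ r > 0, ∃ C, SolvableOn f (ball 0 1 ∩ ball p r) C := by
  classical
  have hE : 2 ≤ Module.finrank ℂ (EuclideanSpace ℂ (Fin n)) := by
    rw [finrank_euclideanSpace_fin]; exact hn
  obtain ⟨a, ha, haS⟩ := affine_aut hx₀ hx1
  have ha' : ‖-a‖ < 1 := by rwa [norm_neg]
  obtain ⟨Cd, hCd, hdk⟩ := dk_gg ha
  have hp' : ‖gg (-a) p‖ = 1 := by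
    have h := (hdk {p} (by simpa using hp) (singleton_nonempty p)).1
    simpa using h
  have hmap := Pool.Agent.MPca0fc2.TE.gg_maps (E := EuclideanSpace ℂ (Fin n)) ha
  have hholo := Pool.Agent.MPca0fc2.TE.gg_holo (E := EuclideanSpace ℂ (Fin n)) ha
  refine local_gg ha hp ?_
  have hcomp : ∀ w : EuclideanSpace ℂ (Fin n) → ℂ, IsHinf (ball 0 1) w →
      IsHinf (ball 0 1) fun z => w (gg a z) := fun w hw =>
    ⟨hw.1.comp hholo hmap, hw.2.choose, fun z hz => hw.2.choose_spec _ (hmap hz)⟩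
  have hfa : ∀ j, IsHinf (ball 0 1) fun z => f j (gg a z) := fun j => hcomp _ (hf j)
  have hFH : ∀ j, IsHinf (ball 0 1) (F j) := by
    intro j
    rcases hF j with h | h
    · rw [h]; exact hf j
    · rw [h]; exact ⟨differentiableOn_const _, 0, fun z _ => by simp⟩
  refine local_of_chars hfa hp' fun Φ hΦ => ?_
  by_contra hcon
  push Not at hcon
  obtain ⟨X, hX⟩ : ∃ X : Char Unit (EuclideanSpace ℂ (Fin n)), X = W9_X Φ := ⟨_, rfl⟩
  have hXf : ∀ j, X.φ (fun _ z => f j (gg a z)) = 0 := fun j => by rw [hX]; exact hcon j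
  have hXp : Over X (gg (-a) p) := by rw [hX]; exact hΦ
  have hXF : ∀ j, X.φ (fun _ z => F j (gg a z)) = 0 := by
    intro j
    rcases hF j with h | h
    · rw [h]; exact hXf j
    · rw [h]; exact X.map_const 0
  obtain ⟨t, ht0, htε, H'⟩ := cell_hyp' hε (H fun i => X.φ (fun _ z => u i (gg a z)))
  -- all the tame functions
  obtain ⟨W, hW⟩ : ∃ W : Fin (m + N) → EuclideanSpace ℂ (Fin n) → ℂ, W = Fin.append u F :=
    ⟨_, rfl⟩
  have hWu : ∀ i, W (Fin.castAdd N i) = u i := fun i => by rw [hW, Fin.append_left]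
  have hWF : ∀ j, W (Fin.natAdd m j) = F j := fun j => by rw [hW, Fin.append_right]
  have hWH : ∀ k, IsHinf (ball 0 1) (W k) := by
    intro k
    refine Fin.addCases (fun i => ?_) (fun j => ?_) k
    · rw [hWu]; exact hu i
    · rw [hWF]; exact hFH j
  have hWa : ∀ k, ∀ ε > 0, ∃ v ∈ Algebra.adjoin ℂ (Gen 𝓢),
      ∀ z ∈ ball (0 : EuclideanSpace ℂ (Fin n)) 1, ‖W k z - v z‖ ≤ ε := by
    intro k
    refine Fin.addCases (fun i => ?_) (fun j => ?_) k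
    · rw [hWu]; exact hua i
    · rw [hWF]; exact hv j
  have hBW : ∀ k, BH (fun (_ : Unit) z => W k (gg a z)) := fun k =>
    ⟨fun _ => (hcomp _ (hWH k)).1, (hcomp _ (hWH k)).2.choose,
      fun _ z hz => (hcomp _ (hWH k)).2.choose_spec z hz⟩
  -- the approximations
  obtain ⟨τ, hτ⟩ : ∃ τ : ℝ, τ = t / 5 := ⟨_, rfl⟩
  have hτ0 : 0 < τ := by rw [hτ]; positivity
  have hex : ∀ k, ∃ b, MixN 1 (range S.direction.starProjection) (gg (-a) p) b ∧ ∃ s > 0,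
      ∀ z ∈ ball (0 : EuclideanSpace ℂ (Fin n)) 1, ‖z - gg (-a) p‖ < s →
        ‖W k (gg a z) - b z‖ ≤ 2 * τ := by
    intro k
    obtain ⟨v, hv1, hv2⟩ := hWa k τ hτ0
    obtain ⟨b, hb, s, hs, h4⟩ := (adjoin_reg hn ha haS hp hp'
      (fun T hT => hother T hT) hv1).2.2 τ hτ0
    refine ⟨b, hb, s, hs, fun z hz hzp => ?_⟩
    have e1 := hv2 _ (hmap hz)
    have e2 := h4 z hz hzp
    calc ‖W k (gg a z) - b z‖ = ‖(W k (gg a z) - v (gg a z)) + (v (gg a z) - b z)‖ := by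
          congr 1; ring
      _ ≤ ‖W k (gg a z) - v (gg a z)‖ + ‖v (gg a z) - b z‖ := norm_add_le _ _
      _ ≤ 2 * τ := by linarith
  choose b hbM s hs0 hbW using hex
  obtain ⟨s₁, hs₁, hs₁'⟩ := exists_lower Finset.univ s fun k _ => hs0 k
  have hXb : ∀ k, ‖X.φ (fun _ => b k) - X.φ (fun _ z => W k (gg a z))‖ ≤ 2 * τ := by
    intro k
    rw [← X.map_sub (mix_bh (hbM k)) (hBW k)]
    refine bound_near hp' hXp ((mix_bh (hbM k)).sub (hBW k)) hs₁ (by positivity)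
      fun z hz hzp => ?_
    rw [norm_sub_rev]
    exact hbW k z hz (hzp.trans_le (hs₁' k (Finset.mem_univ k)))
  obtain ⟨r, hr⟩ : ∃ r : ℝ, r = min s₁ τ := ⟨_, rfl⟩
  have hr0 : 0 < r := by rw [hr]; exact lt_min hs₁ hτ0
  have hr1 : r ≤ s₁ := by rw [hr]; exact min_le_left _ _
  have hr3 : r ≤ τ := by rw [hr]; exact min_le_right _ _
  have hcell : ∀ z ∈ ball (0 : EuclideanSpace ℂ (Fin n)) 1, ‖z - gg (-a) p‖ < r →
      (∀ k, ‖b k z - X.φ (fun _ => b k)‖ < r) →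
      ∀ k, ‖W k (gg a z) - X.φ (fun _ z => W k (gg a z))‖ ≤ t := by
    intro z hz hzp hzb k
    have e2 := hbW k z hz (hzp.trans_le (hr1.trans (hs₁' k (Finset.mem_univ k))))
    have e3 := (hzb k).le.trans hr3
    have e4 := hXb k
    calc ‖W k (gg a z) - X.φ (fun _ z => W k (gg a z))‖
        = ‖(W k (gg a z) - b k z) + (b k z - X.φ (fun _ => b k)) +
          (X.φ (fun _ => b k) - X.φ (fun _ z => W k (gg a z)))‖ := by congr 1; ring
      _ ≤ ‖W k (gg a z) - b k z‖ + ‖b k z - X.φ (fun _ => b k)‖ +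
          ‖X.φ (fun _ => b k) - X.φ (fun _ z => W k (gg a z))‖ := norm_add₃_le
      _ ≤ t := by
          have : t = 5 * τ := by rw [hτ]; ring
          linarith
  have hcellu : ∀ z ∈ ball (0 : EuclideanSpace ℂ (Fin n)) 1, ‖z - gg (-a) p‖ < r →
      (∀ k, ‖b k z - X.φ (fun _ => b k)‖ < r) →
      ∀ i, ‖u i (gg a z) - X.φ (fun _ z => u i (gg a z))‖ < ε := by
    intro z hz hzp hzb i
    have h := hcell z hz hzp hzb (Fin.castAdd N i)
    rw [hWu] at h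
    exact h.trans_lt htε
  have hcellF : ∀ z ∈ ball (0 : EuclideanSpace ℂ (Fin n)) 1, ‖z - gg (-a) p‖ < r →
      (∀ k, ‖b k z - X.φ (fun _ => b k)‖ < r) → ∀ j, ‖F j (gg a z)‖ ≤ t := by
    intro z hz hzp hzb j
    have h := hcell z hz hzp hzb (Fin.natAdd m j)
    rw [hWF, hXF j, sub_zero] at h
    exact h
  -- bounded solutions on the cell
  obtain ⟨h, C, h1, h2, h3⟩ : ∃ (h : Fin N → EuclideanSpace ℂ (Fin n) → ℂ) (C : ℝ),
      (∀ j, DifferentiableOn ℂ (h j) {z | z ∈ ball (0 : EuclideanSpace ℂ (Fin n)) 1 ∧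
        ‖z - gg (-a) p‖ < r ∧ ∀ k, ‖b k z - X.φ (fun _ => b k)‖ < r}) ∧
      (∀ z ∈ ball (0 : EuclideanSpace ℂ (Fin n)) 1, ‖z - gg (-a) p‖ < r →
        (∀ k, ‖b k z - X.φ (fun _ => b k)‖ < r) → ∑ j, f j (gg a z) * h j z = 1) ∧
      ∀ z ∈ ball (0 : EuclideanSpace ℂ (Fin n)) 1, ‖z - gg (-a) p‖ < r →
        (∀ k, ‖b k z - X.φ (fun _ => b k)‖ < r) → ∀ j, ‖h j z‖ ≤ C := by
    rcases H' with ⟨C, h, h1, h2, h3⟩ | H'
    · refine ⟨fun j z => h j (gg a z), C, fun j => ?_, fun z hz hzp hzb =>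
        h3 _ ⟨hmap hz, hcellu z hz hzp hzb⟩, fun z hz hzp hzb j =>
        h2 j _ ⟨hmap hz, hcellu z hz hzp hzb⟩⟩
      exact (h1 j).comp (hholo.mono fun z hz => hz.1) fun z hz =>
        ⟨hmap hz.1, hcellu z hz.1 hz.2.1 hz.2.2⟩
    · have hemp : ∀ z ∈ ball (0 : EuclideanSpace ℂ (Fin n)) 1, ‖z - gg (-a) p‖ < r →
          (∀ k, ‖b k z - X.φ (fun _ => b k)‖ < r) → False := fun z hz hzp hzb =>
        H' _ (hmap hz) (hcellu z hz hzp hzb) (hcellF z hz hzp hzb)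
      exact ⟨fun _ _ => 0, 0, fun j => differentiableOn_const _,
        fun z hz hzp hzb => (hemp z hz hzp hzb).elim,
        fun z hz hzp hzb => (hemp z hz hzp hzb).elim⟩
  choose hfd' B hB using hfa
  obtain ⟨g₀, A, hg1, hg2⟩ := hSl
  have hPm : ∀ z ∈ ball (0 : EuclideanSpace ℂ (Fin n)) 1,
      S.direction.starProjection z ∈ ball (0 : EuclideanSpace ℂ (Fin n)) 1 := fun z hz =>
    mem_ball_zero_iff.2 ((S.direction.norm_starProjection_apply_le z).trans_lt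
      (mem_ball_zero_iff.1 hz))
  have hPS : ∀ z ∈ ball (0 : EuclideanSpace ℂ (Fin n)) 1,
      gg a (S.direction.starProjection z) ∈ (S : Set (EuclideanSpace ℂ (Fin n))) ∩ ball 0 1 := by
    intro z hz
    have h1 := hmap (hPm z hz)
    refine ⟨(haS _ (mem_ball_zero_iff.1 h1).le).2 ?_, h1⟩
    rw [gg_neg_gg ha (mem_ball_zero_iff.1 (hPm z hz)).le]
    exact S.direction.starProjection_apply_mem z
  obtain ⟨g, hg⟩ : ∃ g : Fin N → EuclideanSpace ℂ (Fin n) → ℂ, g = fun j w => g₀ j (gg a w) :=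
    ⟨_, rfl⟩
  have hgd : ∀ j, DifferentiableOn ℂ (fun z => g j (S.direction.starProjection z)) (ball 0 1) := by
    intro j
    rw [hg]
    refine (hg1 j).comp (hholo.comp S.direction.starProjection.differentiable.differentiableOn
      hPm) fun z hz => hPS z hz
  have hg2' : ∀ z ∈ ball (0 : EuclideanSpace ℂ (Fin n)) 1,
      ∑ j, f j (gg a (S.direction.starProjection z)) * g j (S.direction.starProjection z) = 1 ∧
        ∀ j, ‖g j (S.direction.starProjection z)‖ ≤ A := by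
    intro z hz
    rw [hg]
    exact hg2 _ (hPS z hz).1 (mem_ball_zero_iff.1 (hPS z hz).2)
  have hsol := cellL hE (prj_star S.direction) hp' (f := fun j z => f j (gg a z))
    (b := fun k z => b k z - X.φ (fun _ => b k)) (B := ∑ j, |B j| + |C|) hfd'
    (fun j z hz => ((hB j z hz).trans ((le_abs_self _).trans
      (Finset.single_le_sum (f := fun j => |B j|) (fun _ _ => abs_nonneg _)
        (Finset.mem_univ j)))).trans (le_add_of_nonneg_right (abs_nonneg C)))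
    (fun k => (hbM k).sub_const _) hr0 (k := h) h1
    (fun z hz hzp hzb => ⟨h2 z hz hzp hzb, fun j =>
      (h3 z hz hzp hzb j).trans ((le_abs_self C).trans
        (le_add_of_nonneg_left (Finset.sum_nonneg fun _ _ => abs_nonneg _)))⟩)
    ⟨g, fun _ _ => 0, fun _ => 0, |A|, hgd, fun _ => differentiableOn_const _,
      differentiableOn_const _, fun z hz => by
        obtain ⟨e1, e2⟩ := hg2' z hz
        refine ⟨?_, fun j => (e2 j).trans (le_abs_self A), fun _ => by simp, by simp⟩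
        simp only [mul_zero, Finset.sum_const_zero, add_zero]
        exact e1⟩
  exact contra hp' hXp (f := fun j z => f j (gg a z))
    (b := fun k z => b k z - X.φ (fun _ => b k)) (fun j => ⟨fun _ => hfd' j, B j, fun _ => hB j⟩)
    (fun k => mix_bh ((hbM k).sub_const _)) hXf (fun k => char_sub (mix_bh (hbM k))) hsol

/-- Solutions on a subspace, from the corona theorem on it. -/
theorem slice_of_sl {S : AffineSubspace ℂ (EuclideanSpace ℂ (Fin n))}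
    {x₀ : EuclideanSpace ℂ (Fin n)} (hx₀ : x₀ ∈ S) (hx1 : ‖x₀‖ < 1) {N : ℕ}
    (hSl : SlN N S.direction.starProjection)
    {f : Fin N → EuclideanSpace ℂ (Fin n) → ℂ} (hf : ∀ j, IsHinf (ball 0 1) (f j)) {δ : ℝ}
    (hδ : 0 < δ)
    (hfδ : ∀ z ∈ ball (0 : EuclideanSpace ℂ (Fin n)) 1, δ ≤ ∑ j, ‖f j z‖ ^ 2) :
    ∃ (h : Fin N → EuclideanSpace ℂ (Fin n) → ℂ) (A : ℝ),
      (∀ j, DifferentiableOn ℂ (h j) (S ∩ ball 0 1)) ∧
      ∀ z ∈ S, ‖z‖ < 1 → ∑ j, f j z * h j z = 1 ∧ ∀ j, ‖h j z‖ ≤ A := by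
  obtain ⟨a, ha, haS⟩ := affine_aut hx₀ hx1
  have ha' : ‖-a‖ < 1 := by rwa [norm_neg]
  have hmap := Pool.Agent.MPca0fc2.TE.gg_maps (E := EuclideanSpace ℂ (Fin n)) ha
  have hholo := Pool.Agent.MPca0fc2.TE.gg_holo (E := EuclideanSpace ℂ (Fin n)) ha
  have hmap' := Pool.Agent.MPca0fc2.TE.gg_maps (E := EuclideanSpace ℂ (Fin n)) ha'
  have hholo' := Pool.Agent.MPca0fc2.TE.gg_holo (E := EuclideanSpace ℂ (Fin n)) ha'
  choose hfd B hB using hf
  obtain ⟨g, A, hg1, hg2⟩ := hSl (fun j z => f j (gg a z)) (fun j => (hfd j).comp hholo hmap)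
    ⟨∑ j, |B j|, fun j z hz => (hB j _ (hmap hz)).trans ((le_abs_self _).trans
      (Finset.single_le_sum (f := fun j => |B j|) (fun _ _ => abs_nonneg _)
        (Finset.mem_univ j)))⟩ ⟨δ, hδ, fun z hz => hfδ _ (hmap hz)⟩
  have hfix : ∀ z ∈ S, ‖z‖ < 1 →
      S.direction.starProjection (gg (-a) z) = gg (-a) z := fun z hz hz1 =>
    Submodule.starProjection_eq_self_iff.2 ((haS z hz1.le).1 hz)
  refine ⟨fun j z => g j (S.direction.starProjection (gg (-a) z)), A, fun j => ?_,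
    fun z hz hz1 => ?_⟩
  · exact ((hg1 j).comp hholo' hmap').mono inter_subset_right
  · obtain ⟨e1, e2⟩ := hg2 _ (hmap' (mem_ball_zero_iff.2 hz1))
    refine ⟨?_, e2⟩
    have e3 : gg a (gg (-a) z) = z := by
      have h := gg_neg_gg ha' hz1.le
      rwa [neg_neg] at h
    rw [hfix z hz hz1, e3] at e1
    rw [← e1]
    refine Finset.sum_congr rfl fun j _ => ?_
    show f j z * g j (S.direction.starProjection (gg (-a) z)) = _
    rw [hfix z hz hz1]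

/-- Local solutions at a point of one member of the family. -/
theorem local_cells_sub (hn : 2 ≤ n) {𝓢 : Set (AffineSubspace ℂ (EuclideanSpace ℂ (Fin n)))}
    {p : EuclideanSpace ℂ (Fin n)} (hp : ‖p‖ = 1)
    {S : AffineSubspace ℂ (EuclideanSpace ℂ (Fin n))} {x₀ : EuclideanSpace ℂ (Fin n)}
    (hx₀ : x₀ ∈ S) (hx1 : ‖x₀‖ < 1) (hother : ∀ T ∈ 𝓢, T = S ∨ p ∉ T) {N : ℕ}
    (hSl : SlN N S.direction.starProjection)
    {f F : Fin N → EuclideanSpace ℂ (Fin n) → ℂ} (hf : ∀ j, IsHinf (ball 0 1) (f j)) {δ : ℝ}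
    (hδ : 0 < δ)
    (hfδ : ∀ z ∈ ball (0 : EuclideanSpace ℂ (Fin n)) 1, δ ≤ ∑ j, ‖f j z‖ ^ 2)
    (hF : ∀ j, F j = f j ∨ F j = fun _ => 0)
    (hv : ∀ j, ∀ ε > 0, ∃ v ∈ Algebra.adjoin ℂ (Gen 𝓢),
      ∀ z ∈ ball (0 : EuclideanSpace ℂ (Fin n)) 1, ‖F j z - v z‖ ≤ ε) {m : ℕ}
    {u : Fin m → EuclideanSpace ℂ (Fin n) → ℂ} (hu : ∀ i, IsHinf (ball 0 1) (u i))
    (hua : ∀ i, ∀ ε > 0, ∃ a ∈ Algebra.adjoin ℂ (Gen 𝓢),
      ∀ z ∈ ball (0 : EuclideanSpace ℂ (Fin n)) 1, ‖u i z - a z‖ ≤ ε) {ε : ℝ} (hε : 0 < ε)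
    (H : ∀ c : Fin m → ℂ,
      (∃ C, SolvableOn f {z | z ∈ ball 0 1 ∧ ∀ i, ‖u i z - c i‖ < ε} C) ∨
      ∃ δ > 0, ∀ z ∈ ball (0 : EuclideanSpace ℂ (Fin n)) 1, (∀ i, ‖u i z - c i‖ < ε) →
        δ ≤ ∑ j, ‖F j z‖ ^ 2) :
    ∃ r > 0, ∃ C, SolvableOn f (ball 0 1 ∩ ball p r) C :=
  local_cells_slice hn hp hx₀ hx1 hother hf (slice_of_sl hx₀ hx1 hSl hf hδ hfδ) hF hv hu hua hε H

end Pool.Agent.MPca0fc2.SP
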