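import Mathlib
import Pool.Agent.Lib.MP_ca0fc2_an.SP.S29

set_option autoImplicit false
set_option linter.unusedSectionVars false

open Metric Set MeasureTheory Filter Topology
open scoped InnerProductSpace ENNReal ContDiff

/-! # The corona problem is local with respect to tame functions: global solutions -/

namespace Pool.Agent.MPca0fc2.SP

open Pool.Agent.Lib.MP_ca0fc2_an
open Pool.Agent.MPca0fc2.PT
open Pool.Agent.MPca0fc2.QT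
open Pool.Agent.MPca0fc2.TS
open Pool.Agent.MPca0fc2.TE
open Pool.Agent.MPca0fc2.TK
open Pool.Agent.MPca0fc2.VK
open Pool.Agent.MPca0fc2.PV
open Pool.Agent.MPca0fc2.CE

variable {n : ℕ}

/-- The corona condition on the ball: finitely many cells cover the ball. -/
theorem lower_of_cells {N m : ℕ} {f : Fin N → EuclideanSpace ℂ (Fin n) → ℂ}
    {u : Fin m → EuclideanSpace ℂ (Fin n) → ℂ} (hu : ∀ i, IsHinf (ball 0 1) (u i)) {ε : ℝ}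
    (hε : 0 < ε)
    (H : ∀ c : Fin m → ℂ, ∃ δ > 0, ∀ z ∈ ball (0 : EuclideanSpace ℂ (Fin n)) 1,
      (∀ i, ‖u i z - c i‖ < ε) → δ ≤ ∑ j, ‖f j z‖ ^ 2) :
    ∃ δ > 0, ∀ z ∈ ball (0 : EuclideanSpace ℂ (Fin n)) 1, δ ≤ ∑ j, ‖f j z‖ ^ 2 := by
  choose hud B hB using hu
  obtain ⟨M, hM⟩ : ∃ M : ℝ, M = ∑ i, |B i| := ⟨_, rfl⟩
  have hBM : ∀ i, |B i| ≤ M := fun i => by
    rw [hM]
    exact Finset.single_le_sum (f := fun i => |B i|) (fun _ _ => abs_nonneg _)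
      (Finset.mem_univ i)
  have hM0 : 0 ≤ M := by rw [hM]; exact Finset.sum_nonneg fun i _ => abs_nonneg _
  obtain ⟨t, -, htf, ht⟩ := finite_cover_balls_of_compact
    (isCompact_closedBall (0 : Fin m → ℂ) M) hε
  choose δ hδ hδc using H
  obtain ⟨d, hd, hd'⟩ := exists_lower htf.toFinset δ fun c _ => hδ c
  refine ⟨d, hd, fun z hz => ?_⟩
  have hmem : (fun i => u i z) ∈ closedBall (0 : Fin m → ℂ) M := by
    rw [mem_closedBall_zero_iff, pi_norm_le_iff_of_nonneg hM0]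
    exact fun i => (hB i z hz).trans ((le_abs_self _).trans (hBM i))
  obtain ⟨c, hct, hc⟩ := mem_iUnion₂.1 (ht hmem)
  refine (hd' c (htf.mem_toFinset.2 hct)).trans (hδc c z hz fun i => ?_)
  rw [mem_ball, dist_eq_norm] at hc
  exact (norm_le_pi_norm ((fun i => u i z) - c) i).trans_lt hc

theorem cells_lower {N m : ℕ} {f F : Fin N → EuclideanSpace ℂ (Fin n) → ℂ}
    (hF : ∀ j, F j = f j ∨ F j = fun _ => 0)
    {u : Fin m → EuclideanSpace ℂ (Fin n) → ℂ} (hu : ∀ i, IsHinf (ball 0 1) (u i)) {ε : ℝ}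
    (hε : 0 < ε)
    (H : ∀ c : Fin m → ℂ,
      (∃ C, SolvableOn f {z | z ∈ ball 0 1 ∧ ∀ i, ‖u i z - c i‖ < ε} C) ∨
      ∃ δ > 0, ∀ z ∈ ball (0 : EuclideanSpace ℂ (Fin n)) 1, (∀ i, ‖u i z - c i‖ < ε) →
        δ ≤ ∑ j, ‖F j z‖ ^ 2) :
    ∃ δ > 0, ∀ z ∈ ball (0 : EuclideanSpace ℂ (Fin n)) 1, δ ≤ ∑ j, ‖f j z‖ ^ 2 := by
  refine lower_of_cells hu hε fun c => ?_
  rcases H c with ⟨C, h, -, h2, h3⟩ | ⟨δ, hδ, h⟩
  · exact ⟨((C ^ 2 + 1) * (N + 1))⁻¹, by positivity, fun z hz hzu =>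
      low (R := fun j => h j z) (h3 z ⟨hz, hzu⟩) fun j => h2 j z ⟨hz, hzu⟩⟩
  · refine ⟨δ, hδ, fun z hz hzu => (h z hz hzu).trans (Finset.sum_le_sum fun j _ => ?_)⟩
    rcases hF j with h | h
    · rw [h]
    · rw [h, norm_zero, zero_pow two_ne_zero]
      exact sq_nonneg _

/-- Complex lines: data `f`, functions `F j = f j` or `0` of the algebra generated by the classes and by
the functions of `π`; on each cell of tame functions `u i` there are bounded solutions, or the `F j`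
satisfy the corona condition. -/
theorem cells_lines (hn : 2 ≤ n) {𝓢 : Set (AffineSubspace ℂ (EuclideanSpace ℂ (Fin n)))}
    (hS : ∀ S ∈ 𝓢, Module.finrank ℂ S.direction ≤ 1 ∧ ∃ x ∈ S, ‖x‖ < 1)
    {π : EuclideanSpace ℂ (Fin n) → ℂ} (hπ : DifferentiableOn ℂ π (ball 0 1))
    (hπ1 : ∀ z ∈ ball (0 : EuclideanSpace ℂ (Fin n)) 1, ‖π z‖ < 1) {N : ℕ}
    {f F : Fin N → EuclideanSpace ℂ (Fin n) → ℂ} (hf : ∀ j, IsHinf (ball 0 1) (f j))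
    (hF : ∀ j, F j = f j ∨ F j = fun _ => 0)
    (hv : ∀ j, ∀ ε > 0, ∃ v ∈ Algebra.adjoin ℂ (Gen 𝓢 ∪ HinfOf π),
      ∀ z ∈ ball (0 : EuclideanSpace ℂ (Fin n)) 1, ‖F j z - v z‖ ≤ ε) {m : ℕ}
    {u : Fin m → EuclideanSpace ℂ (Fin n) → ℂ} (hu : ∀ i, IsHinf (ball 0 1) (u i))
    (hua : ∀ i, ∀ ε > 0, ∃ a ∈ Algebra.adjoin ℂ (Gen 𝓢),
      ∀ z ∈ ball (0 : EuclideanSpace ℂ (Fin n)) 1, ‖u i z - a z‖ ≤ ε) {ε : ℝ} (hε : 0 < ε)
    (H : ∀ c : Fin m → ℂ,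
      (∃ C, SolvableOn f {z | z ∈ ball 0 1 ∧ ∀ i, ‖u i z - c i‖ < ε} C) ∨
      ∃ δ > 0, ∀ z ∈ ball (0 : EuclideanSpace ℂ (Fin n)) 1, (∀ i, ‖u i z - c i‖ < ε) →
        δ ≤ ∑ j, ‖F j z‖ ^ 2) :
    ∃ C, SolvableOn f (ball 0 1) C := by
  obtain ⟨δ, hδ, hfδ⟩ := cells_lower hF hu hε H
  exact glue hn hf hδ hfδ fun p hp =>
    local_cells hn hp (fun S hSS _ => hS S hSS) hπ hπ1 hf hF hv hu hua hε H

/-- Families of subspaces, a fixed number of functions. -/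
theorem cells_family (hn : 2 ≤ n) {N k : ℕ}
    {𝓢 : Set (AffineSubspace ℂ (EuclideanSpace ℂ (Fin n)))} (hS : Fam k 𝓢)
    (hQ : ∀ m, 2 ≤ m → m ≤ k → ∀ D : Set (EuclideanSpace ℂ (Fin m)),
      IsStrictlyPscDomain D → Pool.Agent.MPca0fc2AD.Q1On N D)
    {f F : Fin N → EuclideanSpace ℂ (Fin n) → ℂ} (hf : ∀ j, IsHinf (ball 0 1) (f j))
    (hF : ∀ j, F j = f j ∨ F j = fun _ => 0)
    (hv : ∀ j, ∀ ε > 0, ∃ v ∈ Algebra.adjoin ℂ (Gen 𝓢),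
      ∀ z ∈ ball (0 : EuclideanSpace ℂ (Fin n)) 1, ‖F j z - v z‖ ≤ ε) {m : ℕ}
    {u : Fin m → EuclideanSpace ℂ (Fin n) → ℂ} (hu : ∀ i, IsHinf (ball 0 1) (u i))
    (hua : ∀ i, ∀ ε > 0, ∃ a ∈ Algebra.adjoin ℂ (Gen 𝓢),
      ∀ z ∈ ball (0 : EuclideanSpace ℂ (Fin n)) 1, ‖u i z - a z‖ ≤ ε) {ε : ℝ} (hε : 0 < ε)
    (H : ∀ c : Fin m → ℂ,
      (∃ C, SolvableOn f {z | z ∈ ball 0 1 ∧ ∀ i, ‖u i z - c i‖ < ε} C) ∨
      ∃ δ > 0, ∀ z ∈ ball (0 : EuclideanSpace ℂ (Fin n)) 1, (∀ i, ‖u i z - c i‖ < ε) →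
        δ ≤ ∑ j, ‖F j z‖ ^ 2) :
    ∃ C, SolvableOn f (ball 0 1) C := by
  obtain ⟨δ, hδ, hfδ⟩ := cells_lower hF hu hε H
  refine glue hn hf hδ hfδ fun p hp => ?_
  by_cases hp2 : ∃ S ∈ 𝓢, p ∈ S ∧ 2 ≤ Module.finrank ℂ S.direction
  · obtain ⟨S, hSS, hpS, hdim⟩ := hp2
    obtain ⟨x, hx, hx1⟩ := hS.meets S hSS
    refine local_cells_sub hn hp hx hx1 (fun T hT => ?_) (sl_of_q1 hn S.direction fun h2 =>
      hQ _ h2 (hS.dim S hSS) _ Pool.Agent.MPca0fc2.TB.isStrictlyPscDomain_ball) hf hδ hfδ hF hv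
      hu hua hε H
    by_cases hTS : T = S
    · exact Or.inl hTS
    · refine Or.inr fun hpT => ?_
      have := hS.apart S hSS T hT (Ne.symm hTS) p hp hpS hpT
      omega
  · push Not at hp2
    exact local_cells hn hp (fun S hSS hpS => ⟨by have := hp2 S hSS hpS; omega,
      hS.meets S hSS⟩) (π := fun _ => 0) (differentiableOn_const _) (fun z _ => by simp) hf hF
      (fun j ε hε => by
        obtain ⟨v, hv1, hv2⟩ := hv j ε hε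
        exact ⟨v, Algebra.adjoin_mono subset_union_left hv1, hv2⟩) hu hua hε H

/-- Families of subspaces of any dimension: data with bounded solutions on the members of dimension at
least two. -/
theorem cells_data (hn : 2 ≤ n) {N k : ℕ}
    {𝓢 : Set (AffineSubspace ℂ (EuclideanSpace ℂ (Fin n)))} (hS : Fam k 𝓢)
    {f F : Fin N → EuclideanSpace ℂ (Fin n) → ℂ} (hf : ∀ j, IsHinf (ball 0 1) (f j))
    (hSol : ∀ S ∈ 𝓢, 2 ≤ Module.finrank ℂ S.direction →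
      ∃ (h : Fin N → EuclideanSpace ℂ (Fin n) → ℂ) (A : ℝ),
        (∀ j, DifferentiableOn ℂ (h j) (S ∩ ball 0 1)) ∧
        ∀ z ∈ S, ‖z‖ < 1 → ∑ j, f j z * h j z = 1 ∧ ∀ j, ‖h j z‖ ≤ A)
    (hF : ∀ j, F j = f j ∨ F j = fun _ => 0)
    (hv : ∀ j, ∀ ε > 0, ∃ v ∈ Algebra.adjoin ℂ (Gen 𝓢),
      ∀ z ∈ ball (0 : EuclideanSpace ℂ (Fin n)) 1, ‖F j z - v z‖ ≤ ε) {m : ℕ}
    {u : Fin m → EuclideanSpace ℂ (Fin n) → ℂ} (hu : ∀ i, IsHinf (ball 0 1) (u i))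
    (hua : ∀ i, ∀ ε > 0, ∃ a ∈ Algebra.adjoin ℂ (Gen 𝓢),
      ∀ z ∈ ball (0 : EuclideanSpace ℂ (Fin n)) 1, ‖u i z - a z‖ ≤ ε) {ε : ℝ} (hε : 0 < ε)
    (H : ∀ c : Fin m → ℂ,
      (∃ C, SolvableOn f {z | z ∈ ball 0 1 ∧ ∀ i, ‖u i z - c i‖ < ε} C) ∨
      ∃ δ > 0, ∀ z ∈ ball (0 : EuclideanSpace ℂ (Fin n)) 1, (∀ i, ‖u i z - c i‖ < ε) →
        δ ≤ ∑ j, ‖F j z‖ ^ 2) :
    ∃ C, SolvableOn f (ball 0 1) C := by
  obtain ⟨δ, hδ, hfδ⟩ := cells_lower hF hu hε H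
  refine glue hn hf hδ hfδ fun p hp => ?_
  by_cases hp2 : ∃ S ∈ 𝓢, p ∈ S ∧ 2 ≤ Module.finrank ℂ S.direction
  · obtain ⟨S, hSS, hpS, hdim⟩ := hp2
    obtain ⟨x, hx, hx1⟩ := hS.meets S hSS
    refine local_cells_slice hn hp hx hx1 (fun T hT => ?_) hf (hSol S hSS hdim) hF hv hu hua hε H
    by_cases hTS : T = S
    · exact Or.inl hTS
    · refine Or.inr fun hpT => ?_
      have := hS.apart S hSS T hT (Ne.symm hTS) p hp hpS hpT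
      omega
  · push Not at hp2
    exact local_cells hn hp (fun S hSS hpS => ⟨by have := hp2 S hSS hpS; omega,
      hS.meets S hSS⟩) (π := fun _ => 0) (differentiableOn_const _) (fun z _ => by simp) hf hF
      (fun j ε hε => by
        obtain ⟨v, hv1, hv2⟩ := hv j ε hε
        exact ⟨v, Algebra.adjoin_mono subset_union_left hv1, hv2⟩) hu hua hε H

end Pool.Agent.MPca0fc2.SP
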