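import Mathlib
import Pool.Agent.Lib.MP_ca0fc2_an.SP.S30

set_option autoImplicit false
set_option linter.unusedSectionVars false

open Metric Set MeasureTheory Filter Topology
open scoped InnerProductSpace ENNReal ContDiff

/-! # One arbitrary function, and functions which are tame along a flag -/

namespace Pool.Agent.MPca0fc2.SP

open Pool.Agent.Lib.MP_ca0fc2_an
open Pool.Agent.MPca0fc2.PT
open Pool.Agent.MPca0fc2.QT
open Pool.Agent.MPca0fc2.TS
open Pool.Agent.MPca0fc2.TE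
open Pool.Agent.MPca0fc2.TK
open Pool.Agent.MPca0fc2.VK
open Pool.Agent.MPca0fc2.PV
open Pool.Agent.MPca0fc2.CE

variable {n : ℕ}

/-- one invertible function -/
theorem inv_sol {N : ℕ} {f : Fin N → EuclideanSpace ℂ (Fin n) → ℂ}
    {D : Set (EuclideanSpace ℂ (Fin n))} (i : Fin N) (hf : DifferentiableOn ℂ (f i) D) {c : ℝ}
    (hc : 0 < c) (h : ∀ z ∈ D, c ≤ ‖f i z‖) : ∃ C, SolvableOn f D C := by
  classical
  have hne : ∀ z ∈ D, f i z ≠ 0 := fun z hz h0 => by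
    have := h z hz
    rw [h0, norm_zero] at this
    linarith
  refine ⟨c⁻¹, fun j z => if j = i then (f i z)⁻¹ else 0, fun j => ?_, fun j z hz => ?_,
    fun z hz => ?_⟩
  · by_cases hj : j = i
    · simp only [hj, if_true]
      exact hf.inv hne
    · simp only [hj, if_false]
      exact differentiableOn_const _
  · by_cases hj : j = i
    · simp only [hj, if_true]
      rw [norm_inv]
      exact inv_anti₀ hc (h z hz)
    · simp only [hj, if_false, norm_zero]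
      positivity
  · simp only [mul_ite, mul_zero]
    rw [Finset.sum_ite_eq' Finset.univ i fun j => f j z * (f i z)⁻¹]
    simp only [Finset.mem_univ, if_true]
    exact mul_inv_cancel₀ (hne z hz)

/-- one arbitrary function: there are bounded solutions on the small cells of the others -/
theorem one_cells {N : ℕ} {f : Fin N → EuclideanSpace ℂ (Fin n) → ℂ}
    (hf : ∀ j, IsHinf (ball 0 1) (f j)) {δ : ℝ} (hδ : 0 < δ)
    (hfδ : ∀ z ∈ ball (0 : EuclideanSpace ℂ (Fin n)) 1, δ ≤ ∑ j, ‖f j z‖ ^ 2) (j₀ : Fin N) :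
    ∃ ε > 0, ∀ u : Fin N → EuclideanSpace ℂ (Fin n) → ℂ, (∀ j, j ≠ j₀ → u j = f j) →
      ∀ c : Fin N → ℂ, ∃ C, SolvableOn f {z | z ∈ ball 0 1 ∧ ∀ i, ‖u i z - c i‖ < ε} C := by
  classical
  obtain ⟨t, ht0, ht⟩ := exists_small (Real.sqrt_pos.2 (show 0 < δ / 2 by positivity)) N
  obtain ⟨ε, hε⟩ : ∃ ε : ℝ, ε = t / 3 := ⟨_, rfl⟩
  have hε0 : 0 < ε := by rw [hε]; positivity
  refine ⟨ε, hε0, fun u hu1 c => ?_⟩
  by_cases hc : ∃ j, j ≠ j₀ ∧ 2 * ε ≤ ‖c j‖
  · obtain ⟨j, hj, hcj⟩ := hc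
    refine inv_sol j ((hf j).1.mono fun z hz => hz.1) hε0 fun z hz => ?_
    have h1 := hz.2 j
    rw [hu1 j hj] at h1
    have h2 := norm_sub_norm_le (c j) (f j z)
    rw [norm_sub_rev] at h2
    linarith
  · push Not at hc
    refine inv_sol j₀ ((hf j₀).1.mono fun z hz => hz.1) (c := √(δ / 2))
      (Real.sqrt_pos.2 (by positivity)) fun z hz => ?_
    have h1 : ∀ j, j ≠ j₀ → ‖f j z‖ ≤ t := by
      intro j hj
      have h1 := hz.2 j
      rw [hu1 j hj] at h1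
      have h2 := norm_sub_norm_le (f j z) (c j)
      have h3 := hc j hj
      rw [hε] at h1 h3
      linarith
    have h2 : ∑ j, ‖f j z‖ ^ 2 ≤ ‖f j₀ z‖ ^ 2 + (√(N : ℝ) * t) ^ 2 := by
      rw [← Finset.add_sum_erase Finset.univ _ (Finset.mem_univ j₀)]
      gcongr
      calc ∑ j ∈ Finset.univ.erase j₀, ‖f j z‖ ^ 2
          ≤ ∑ _j ∈ Finset.univ.erase j₀, t ^ 2 := Finset.sum_le_sum fun j hj =>
            pow_le_pow_left₀ (norm_nonneg _) (h1 j (Finset.ne_of_mem_erase hj)) 2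
        _ ≤ ∑ _j : Fin N, t ^ 2 := Finset.sum_le_sum_of_subset_of_nonneg
            (Finset.erase_subset _ _) fun _ _ _ => sq_nonneg t
        _ = (√(N : ℝ) * t) ^ 2 := by
          rw [Finset.sum_const, Finset.card_univ, Fintype.card_fin, nsmul_eq_mul, mul_pow,
            Real.sq_sqrt (Nat.cast_nonneg N)]
    have h3 : (√(N : ℝ) * t) ^ 2 ≤ δ / 2 := by
      have h4 : √(N : ℝ) * t ≤ √(δ / 2) := by
        have : 0 ≤ √(N : ℝ) * t := by positivity
        linarith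
      have h5 := pow_le_pow_left₀ (by positivity) h4 2
      rwa [Real.sq_sqrt (by positivity)] at h5
    rw [Real.sqrt_le_left (norm_nonneg _)]
    have h6 := hfδ z hz.1
    linarith

/-- one arbitrary function, the others in the algebra; bounded solutions on the subspaces -/
theorem one_data (hn : 2 ≤ n) {N k : ℕ}
    {𝓢 : Set (AffineSubspace ℂ (EuclideanSpace ℂ (Fin n)))} (hS : Fam k 𝓢)
    {f : Fin N → EuclideanSpace ℂ (Fin n) → ℂ} (hf : ∀ j, IsHinf (ball 0 1) (f j)) {δ : ℝ}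
    (hδ : 0 < δ)
    (hfδ : ∀ z ∈ ball (0 : EuclideanSpace ℂ (Fin n)) 1, δ ≤ ∑ j, ‖f j z‖ ^ 2) (j₀ : Fin N)
    (hSol : ∀ S ∈ 𝓢, 2 ≤ Module.finrank ℂ S.direction →
      ∃ (h : Fin N → EuclideanSpace ℂ (Fin n) → ℂ) (A : ℝ),
        (∀ j, DifferentiableOn ℂ (h j) (S ∩ ball 0 1)) ∧
        ∀ z ∈ S, ‖z‖ < 1 → ∑ j, f j z * h j z = 1 ∧ ∀ j, ‖h j z‖ ≤ A)
    (hv : ∀ j, j ≠ j₀ → ∀ ε > 0, ∃ v ∈ Algebra.adjoin ℂ (Gen 𝓢),
      ∀ z ∈ ball (0 : EuclideanSpace ℂ (Fin n)) 1, ‖f j z - v z‖ ≤ ε) :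
    ∃ C, SolvableOn f (ball 0 1) C := by
  classical
  obtain ⟨ε, hε0, hcell⟩ := one_cells hf hδ hfδ j₀
  obtain ⟨u, hu⟩ : ∃ u : Fin N → EuclideanSpace ℂ (Fin n) → ℂ,
    u = fun j => if j = j₀ then fun _ => 0 else f j := ⟨_, rfl⟩
  have hu0 : u j₀ = fun _ => 0 := by rw [hu]; simp
  have hu1 : ∀ j, j ≠ j₀ → u j = f j := fun j hj => by rw [hu]; simp [hj]
  refine cells_data hn hS hf hSol (F := fun _ _ => 0) (fun _ => Or.inr rfl)
    (fun _ ε hε => ⟨0, zero_mem _, fun z _ => by simpa using hε.le⟩) (u := u) (fun j => ?_)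
    (fun j => ?_) hε0 fun c => Or.inl (hcell u hu1 c)
  · by_cases hj : j = j₀
    · rw [hj, hu0]; exact ⟨differentiableOn_const _, 0, fun z _ => by simp⟩
    · rw [hu1 j hj]; exact hf j
  · by_cases hj : j = j₀
    · rw [hj, hu0]
      exact fun ε hε => ⟨0, zero_mem _, fun z _ => by simpa using hε.le⟩
    · rw [hu1 j hj]; exact hv j hj

end Pool.Agent.MPca0fc2.SP
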