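import Mathlib
import Pool.Agent.Lib.MP_ca0fc2_an.SP.S31

set_option autoImplicit false
set_option linter.unusedSectionVars false

open Metric Set MeasureTheory Filter Topology
open scoped InnerProductSpace ENNReal ContDiff

/-! # Functions which are tame along a flag -/

namespace Pool.Agent.MPca0fc2.SP

open Pool.Agent.Lib.MP_ca0fc2_an
open Pool.Agent.MPca0fc2.PT
open Pool.Agent.MPca0fc2.QT
open Pool.Agent.MPca0fc2.TS
open Pool.Agent.MPca0fc2.TE
open Pool.Agent.MPca0fc2.TK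
open Pool.Agent.MPca0fc2.VK
open Pool.Agent.MPca0fc2.PV
open Pool.Agent.MPca0fc2.CE

/-- tame along the flag of the orthonormal basis `e` -/
def FlagT {n : ℕ} (e : OrthonormalBasis (Fin n) ℂ (EuclideanSpace ℂ (Fin n)))
    (u : EuclideanSpace ℂ (Fin n) → ℂ) : Prop :=
  ∀ k : Fin n, 0 < (k : ℕ) → ∀ ε > 0, ∃ r₀ < 1, ∀ r : ℝ, r₀ ≤ r → r < 1 →
    ∀ z ∈ ball (0 : EuclideanSpace ℂ (Fin n)) 1, (∀ i, k < i → ⟪e i, z⟫_ℂ = 0) →
      ‖u z - u (z - ((1 - (r : ℂ)) * ⟪e k, z⟫_ℂ) • e k)‖ ≤ ε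

section maps

variable {n : ℕ} (e : OrthonormalBasis (Fin (n + 1)) ℂ (EuclideanSpace ℂ (Fin (n + 1))))

/-- the inclusion of the hyperplane -/
noncomputable def flJ : EuclideanSpace ℂ (Fin n) →L[ℂ] EuclideanSpace ℂ (Fin (n + 1)) :=
  ∑ i : Fin n, (EuclideanSpace.proj i : EuclideanSpace ℂ (Fin n) →L[ℂ] ℂ).smulRight (e i.castSucc)

theorem flJ_apply (w : EuclideanSpace ℂ (Fin n)) : flJ e w = ∑ i : Fin n, w i • e i.castSucc := by
  unfold flJ
  rw [sum_apply]
  rfl

theorem inner_flJ (w : EuclideanSpace ℂ (Fin n)) (k : Fin n) :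
    ⟪e k.castSucc, flJ e w⟫_ℂ = w k := by
  rw [flJ_apply, inner_sum]
  simp only [inner_smul_right, orthonormal_iff_ite.1 e.orthonormal, Fin.castSucc_inj]
  simp

theorem inner_last_flJ (w : EuclideanSpace ℂ (Fin n)) : ⟪e (Fin.last n), flJ e w⟫_ℂ = 0 := by
  rw [flJ_apply, inner_sum]
  refine Finset.sum_eq_zero fun i _ => ?_
  rw [inner_smul_right, e.orthonormal.2 (Fin.castSucc_lt_last i).ne', mul_zero]

theorem norm_flJ (w : EuclideanSpace ℂ (Fin n)) : ‖flJ e w‖ = ‖w‖ := by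
  have h1 : ‖flJ e w‖ ^ 2 = ‖w‖ ^ 2 := by
    rw [← e.sum_sq_norm_inner_right (flJ e w), Fin.sum_univ_castSucc, inner_last_flJ,
      EuclideanSpace.norm_sq_eq]
    simp only [inner_flJ, norm_zero]
    ring
  exact (pow_left_inj₀ (norm_nonneg _) (norm_nonneg _) two_ne_zero).1 h1

/-- the coordinates -/
noncomputable def flP : EuclideanSpace ℂ (Fin (n + 1)) →L[ℂ] EuclideanSpace ℂ (Fin n) :=
  ((EuclideanSpace.equiv (Fin n) ℂ).symm : (Fin n → ℂ) →L[ℂ] EuclideanSpace ℂ (Fin n)).comp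
    (ContinuousLinearMap.pi fun i => innerSL ℂ (e i.castSucc))

theorem flP_apply (z : EuclideanSpace ℂ (Fin (n + 1))) (i : Fin n) :
    flP e z i = ⟪e i.castSucc, z⟫_ℂ := rfl

theorem norm_flP (z : EuclideanSpace ℂ (Fin (n + 1))) : ‖flP e z‖ ≤ ‖z‖ := by
  have h1 : ‖flP e z‖ ^ 2 ≤ ‖z‖ ^ 2 := by
    rw [← e.sum_sq_norm_inner_right z, Fin.sum_univ_castSucc, EuclideanSpace.norm_sq_eq]
    simp only [flP_apply]
    have := sq_nonneg ‖⟪e (Fin.last n), z⟫_ℂ‖
    linarith
  exact (pow_le_pow_iff_left₀ (norm_nonneg _) (norm_nonneg _) two_ne_zero).1 h1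

theorem flJ_flP {z : EuclideanSpace ℂ (Fin (n + 1))} (hz : ⟪e (Fin.last n), z⟫_ℂ = 0) :
    flJ e (flP e z) = z := by
  rw [flJ_apply]
  conv_rhs => rw [← e.sum_repr' z, Fin.sum_univ_castSucc, hz, zero_smul, add_zero]
  rfl

/-- the hyperplane -/
noncomputable def flV : Submodule ℂ (EuclideanSpace ℂ (Fin (n + 1))) :=
  (Submodule.span ℂ {e (Fin.last n)})ᗮ

theorem mem_flV {z : EuclideanSpace ℂ (Fin (n + 1))} :
    z ∈ flV e ↔ ⟪e (Fin.last n), z⟫_ℂ = 0 := by
  unfold flV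
  rw [Submodule.mem_orthogonal_singleton_iff_inner_right]

theorem finrank_flV : Module.finrank ℂ (flV e) = n := by
  have : Fact (Module.finrank ℂ (EuclideanSpace ℂ (Fin (n + 1))) = n + 1) :=
    ⟨finrank_euclideanSpace_fin⟩
  refine Submodule.finrank_orthogonal_span_singleton (𝕜 := ℂ) fun h0 => ?_
  have := e.orthonormal.1 (Fin.last n)
  rw [h0, norm_zero] at this
  exact zero_ne_one this

theorem proj_flV (z : EuclideanSpace ℂ (Fin (n + 1))) :
    (flV e).starProjection z = z - ⟪e (Fin.last n), z⟫_ℂ • e (Fin.last n) := by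
  unfold flV
  rw [Submodule.starProjection_orthogonal_val,
    Submodule.starProjection_unit_singleton ℂ (e.orthonormal.1 _)]

/-- a function which is tame along the flag is tame along the hyperplane -/
theorem flag_calm {u : EuclideanSpace ℂ (Fin (n + 1)) → ℂ} (hn : 1 ≤ n)
    (hu : IsHinf (ball 0 1) u) (h : FlagT e u) :
    CalmCl (flV e : Set (EuclideanSpace ℂ (Fin (n + 1)))) u := by
  refine (calmCl_iff_AS (flV e) u).2 ⟨hu.1, hu.2, fun ε hε => ?_⟩
  obtain ⟨r₀, hr₀, h1⟩ := h (Fin.last n) (by rw [Fin.val_last]; omega) ε hε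
  refine ⟨r₀, hr₀, fun r hr hr1 z hz => ?_⟩
  have h2 := h1 r hr hr1 z hz fun i hi => absurd hi (not_lt.2 (Fin.le_last i))
  have e1 : (flV e).starProjection z + (r : ℂ) • (z - (flV e).starProjection z) =
      z - ((1 - (r : ℂ)) * ⟪e (Fin.last n), z⟫_ℂ) • e (Fin.last n) := by
    rw [proj_flV]
    module
  rw [e1]
  exact h2

theorem flag_restrict {u : EuclideanSpace ℂ (Fin (n + 1)) → ℂ} (h : FlagT e u) :
    FlagT (EuclideanSpace.basisFun (Fin n) ℂ) fun w => u (flJ e w) := by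
  intro k hk ε hε
  obtain ⟨r₀, hr₀, h1⟩ := h k.castSucc hk ε hε
  have hb : ∀ (i : Fin n) (w : EuclideanSpace ℂ (Fin n)),
      ⟪(EuclideanSpace.basisFun (Fin n) ℂ) i, w⟫_ℂ = w i := by
    intro i w
    rw [EuclideanSpace.basisFun_apply, EuclideanSpace.inner_single_left, map_one, one_mul]
  refine ⟨r₀, hr₀, fun r hr hr1 w hw hwk => ?_⟩
  have h2 := h1 r hr hr1 (flJ e w) (mem_ball_zero_iff.2 (by
    rw [norm_flJ]; exact mem_ball_zero_iff.1 hw)) fun i hi => by
      refine Fin.lastCases (motive := fun i => k.castSucc < i → ⟪e i, flJ e w⟫_ℂ = 0)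
        (fun _ => inner_last_flJ e w) (fun i hi => ?_) i hi
      rw [inner_flJ]
      have h3 := hwk i (Fin.castSucc_lt_castSucc_iff.1 hi)
      rwa [hb] at h3
  rw [inner_flJ] at h2
  rw [hb]
  have e1 : flJ e (w - ((1 - (r : ℂ)) * w k) • (EuclideanSpace.basisFun (Fin n) ℂ) k) =
      flJ e w - ((1 - (r : ℂ)) * w k) • e k.castSucc := by
    rw [map_sub, map_smul]
    congr 2
    rw [flJ_apply]
    rw [Finset.sum_eq_single k (fun i _ hi => by
      simp [EuclideanSpace.basisFun_apply, hi]) fun hk => absurd (Finset.mem_univ k) hk]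
    simp
  simp only [e1]
  exact h2

end maps

/-- **One arbitrary function, and functions which are tame along a flag.** -/
theorem flag_solve : ∀ n : ℕ, 1 ≤ n →
    ∀ (e : OrthonormalBasis (Fin (n + 1)) ℂ (EuclideanSpace ℂ (Fin (n + 1)))) {N : ℕ}
      {f : Fin N → EuclideanSpace ℂ (Fin (n + 1)) → ℂ}, (∀ j, IsHinf (ball 0 1) (f j)) →
      ∀ {δ : ℝ}, 0 < δ →
      (∀ z ∈ ball (0 : EuclideanSpace ℂ (Fin (n + 1))) 1, δ ≤ ∑ j, ‖f j z‖ ^ 2) →
      ∀ j₀ : Fin N, (∀ j, j ≠ j₀ → FlagT e (f j)) → ∃ C, SolvableOn f (ball 0 1) C := by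
  intro n hn
  induction n with
  | zero => omega
  | succ n ih =>
    intro e N f hf δ hδ hfδ j₀ hfl
    have hdim : Module.finrank ℂ (flV e) = n + 1 := finrank_flV e
    refine one_data (n := n + 1 + 1) (by omega) (k := n + 1)
      (𝓢 := {(flV e).toAffineSubspace}) ?_ hf hδ hfδ j₀ ?_ ?_
    · refine ⟨fun S hS => ?_, fun S hS => ?_, fun S hS T hT hST => ?_⟩
      · rw [mem_singleton_iff.1 hS]
        exact ⟨0, (flV e).zero_mem, by simp⟩
      · rw [mem_singleton_iff.1 hS, Submodule.toAffineSubspace_direction, hdim]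
      · rw [mem_singleton_iff.1 hS, mem_singleton_iff.1 hT] at hST
        exact absurd rfl hST
    · intro S hS hS2
      rw [mem_singleton_iff.1 hS, Submodule.toAffineSubspace_direction, hdim] at hS2
      rw [mem_singleton_iff.1 hS]
      have hmem : ∀ w ∈ ball (0 : EuclideanSpace ℂ (Fin (n + 1))) 1,
          flJ e w ∈ ball (0 : EuclideanSpace ℂ (Fin (n + 1 + 1))) 1 := fun w hw => by
        rw [mem_ball_zero_iff, norm_flJ]
        exact mem_ball_zero_iff.1 hw
      have hmemP : ∀ z ∈ ball (0 : EuclideanSpace ℂ (Fin (n + 1 + 1))) 1,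
          flP e z ∈ ball (0 : EuclideanSpace ℂ (Fin (n + 1))) 1 := fun z hz => by
        rw [mem_ball_zero_iff]
        exact (norm_flP e z).trans_lt (mem_ball_zero_iff.1 hz)
      obtain ⟨C, h, h1, h2, h3⟩ := ih (by omega) (EuclideanSpace.basisFun (Fin (n + 1)) ℂ)
        (f := fun j w => f j (flJ e w))
        (fun j => ⟨(hf j).1.comp (flJ e).differentiable.differentiableOn hmem, (hf j).2.choose,
          fun w hw => (hf j).2.choose_spec _ (hmem w hw)⟩) hδ (fun w hw => hfδ _ (hmem w hw)) j₀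
        fun j hj => flag_restrict e (hfl j hj)
      refine ⟨fun j z => h j (flP e z), C, fun j => ?_, fun z hz hz1 => ?_⟩
      · exact ((h1 j).comp (flP e).differentiable.differentiableOn hmemP).mono inter_subset_right
      · have hz' : z ∈ ball (0 : EuclideanSpace ℂ (Fin (n + 1 + 1))) 1 := mem_ball_zero_iff.2 hz1
        have hzV : z ∈ flV e := hz
        have h4 := h3 _ (hmemP z hz')
        simp only [flJ_flP e ((mem_flV e).1 hzV)] at h4
        exact ⟨h4, fun j => h2 j _ (hmemP z hz')⟩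
    · intro j hj ε hε
      refine ⟨f j, Algebra.subset_adjoin ⟨(flV e).toAffineSubspace, rfl, ?_⟩, fun z _ => by
        rw [sub_self, norm_zero]; exact hε.le⟩
      exact flag_calm e (by omega) (hf j) (hfl j hj)

end Pool.Agent.MPca0fc2.SP
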