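import Mathlib
import Pool.Agent.Lib.MP_ca0fc2_an.SP.S32

set_option autoImplicit false
set_option linter.unusedSectionVars false

open Metric Set MeasureTheory Filter Topology
open scoped InnerProductSpace ENNReal ContDiff

/-! # The corona problem is local with respect to functions which are tame along a flag -/

namespace Pool.Agent.MPca0fc2.SP

open Pool.Agent.Lib.MP_ca0fc2_an
open Pool.Agent.MPca0fc2.PT
open Pool.Agent.MPca0fc2.QT
open Pool.Agent.MPca0fc2.TS
open Pool.Agent.MPca0fc2.TE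
open Pool.Agent.MPca0fc2.TK
open Pool.Agent.MPca0fc2.VK
open Pool.Agent.MPca0fc2.PV
open Pool.Agent.MPca0fc2.CE

theorem flag_cells : ∀ n : ℕ, 1 ≤ n →
    ∀ (e : OrthonormalBasis (Fin (n + 1)) ℂ (EuclideanSpace ℂ (Fin (n + 1)))) {N : ℕ}
      {f F : Fin N → EuclideanSpace ℂ (Fin (n + 1)) → ℂ}, (∀ j, IsHinf (ball 0 1) (f j)) →
      (∀ j, F j = f j ∨ F j = fun _ => 0) → (∀ j, FlagT e (F j)) → ∀ {m : ℕ}
      {u : Fin m → EuclideanSpace ℂ (Fin (n + 1)) → ℂ}, (∀ i, IsHinf (ball 0 1) (u i)) →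
      (∀ i, FlagT e (u i)) → ∀ {ε : ℝ}, 0 < ε →
      (∀ c : Fin m → ℂ,
        (∃ C, SolvableOn f {z | z ∈ ball 0 1 ∧ ∀ i, ‖u i z - c i‖ < ε} C) ∨
        ∃ δ > 0, ∀ z ∈ ball (0 : EuclideanSpace ℂ (Fin (n + 1))) 1,
          (∀ i, ‖u i z - c i‖ < ε) → δ ≤ ∑ j, ‖F j z‖ ^ 2) →
      ∃ C, SolvableOn f (ball 0 1) C := by
  intro n hn
  induction n with
  | zero => omega
  | succ n ih =>
    intro e N f F hf hF hFl m u hu hul ε hε H
    have hdim : Module.finrank ℂ (flV e) = n + 1 := finrank_flV e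
    have hFH : ∀ j, IsHinf (ball 0 1) (F j) := by
      intro j
      rcases hF j with h | h
      · rw [h]; exact hf j
      · rw [h]; exact ⟨differentiableOn_const _, 0, fun z _ => by simp⟩
    have happ : ∀ w : EuclideanSpace ℂ (Fin (n + 1 + 1)) → ℂ, IsHinf (ball 0 1) w → FlagT e w →
        ∀ ε > 0, ∃ v ∈ Algebra.adjoin ℂ (Gen {(flV e).toAffineSubspace}),
          ∀ z ∈ ball (0 : EuclideanSpace ℂ (Fin (n + 1 + 1))) 1, ‖w z - v z‖ ≤ ε := by
      intro w hw hwl ε hε
      refine ⟨w, Algebra.subset_adjoin ⟨(flV e).toAffineSubspace, rfl, ?_⟩, fun z _ => by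
        rw [sub_self, norm_zero]; exact hε.le⟩
      exact flag_calm e (by omega) hw hwl
    refine cells_data (n := n + 1 + 1) (by omega) (k := n + 1)
      (𝓢 := {(flV e).toAffineSubspace}) ?_ hf ?_ hF (fun j => happ _ (hFH j) (hFl j)) hu
      (fun i => happ _ (hu i) (hul i)) hε H
    · refine ⟨fun S hS => ?_, fun S hS => ?_, fun S hS T hT hST => ?_⟩
      · rw [mem_singleton_iff.1 hS]
        exact ⟨0, (flV e).zero_mem, by simp⟩
      · rw [mem_singleton_iff.1 hS, Submodule.toAffineSubspace_direction, hdim]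
      · rw [mem_singleton_iff.1 hS, mem_singleton_iff.1 hT] at hST
        exact absurd rfl hST
    · intro S hS hS2
      rw [mem_singleton_iff.1 hS, Submodule.toAffineSubspace_direction, hdim] at hS2
      rw [mem_singleton_iff.1 hS]
      have hmem : ∀ w ∈ ball (0 : EuclideanSpace ℂ (Fin (n + 1))) 1,
          flJ e w ∈ ball (0 : EuclideanSpace ℂ (Fin (n + 1 + 1))) 1 := fun w hw => by
        rw [mem_ball_zero_iff, norm_flJ]
        exact mem_ball_zero_iff.1 hw
      have hmemP : ∀ z ∈ ball (0 : EuclideanSpace ℂ (Fin (n + 1 + 1))) 1,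
          flP e z ∈ ball (0 : EuclideanSpace ℂ (Fin (n + 1))) 1 := fun z hz => by
        rw [mem_ball_zero_iff]
        exact (norm_flP e z).trans_lt (mem_ball_zero_iff.1 hz)
      have hHJ : ∀ w : EuclideanSpace ℂ (Fin (n + 1 + 1)) → ℂ, IsHinf (ball 0 1) w →
          IsHinf (ball 0 1) fun x => w (flJ e x) := fun w hw =>
        ⟨hw.1.comp (flJ e).differentiable.differentiableOn hmem, hw.2.choose,
          fun x hx => hw.2.choose_spec _ (hmem x hx)⟩
      obtain ⟨C, h, h1, h2, h3⟩ := ih (by omega) (EuclideanSpace.basisFun (Fin (n + 1)) ℂ)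
        (f := fun j w => f j (flJ e w)) (F := fun j w => F j (flJ e w)) (fun j => hHJ _ (hf j))
        (fun j => by
          rcases hF j with h | h
          · exact Or.inl (by rw [h])
          · exact Or.inr (by rw [h])) (fun j => flag_restrict e (hFl j))
        (u := fun i w => u i (flJ e w)) (fun i => hHJ _ (hu i))
        (fun i => flag_restrict e (hul i)) hε (fun c => by
          rcases H c with ⟨C, h, h1, h2, h3⟩ | ⟨δ, hδ, h⟩
          · exact Or.inl ⟨C, fun j w => h j (flJ e w),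
              fun j => (h1 j).comp (flJ e).differentiable.differentiableOn
                fun w hw => ⟨hmem w hw.1, hw.2⟩,
              fun j w hw => h2 j _ ⟨hmem w hw.1, hw.2⟩, fun w hw => h3 _ ⟨hmem w hw.1, hw.2⟩⟩
          · exact Or.inr ⟨δ, hδ, fun w hw hwu => h _ (hmem w hw) hwu⟩)
      refine ⟨fun j z => h j (flP e z), C, fun j => ?_, fun z hz hz1 => ?_⟩
      · exact ((h1 j).comp (flP e).differentiable.differentiableOn hmemP).mono inter_subset_right
      · have hz' : z ∈ ball (0 : EuclideanSpace ℂ (Fin (n + 1 + 1))) 1 := mem_ball_zero_iff.2 hz1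
        have hzV : z ∈ flV e := hz
        have h4 := h3 _ (hmemP z hz')
        simp only [flJ_flP e ((mem_flV e).1 hzV)] at h4
        exact ⟨h4, fun j => h2 j _ (hmemP z hz')⟩

end Pool.Agent.MPca0fc2.SP
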