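import Mathlib
import Pool.Agent.Lib.MP_ca0fc2_an.SP.S30

set_option autoImplicit false
set_option linter.unusedSectionVars false

open Metric Set MeasureTheory Filter Topology
open scoped InnerProductSpace ENNReal ContDiff

/-! # Algebras over which the corona problem is local, and all the functions of one holomorphic map -/

namespace Pool.Agent.MPca0fc2.SP

open Pool.Agent.Lib.MP_ca0fc2_an
open Pool.Agent.MPca0fc2.PT
open Pool.Agent.MPca0fc2.QT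
open Pool.Agent.MPca0fc2.TS
open Pool.Agent.MPca0fc2.TE
open Pool.Agent.MPca0fc2.TK
open Pool.Agent.MPca0fc2.VK
open Pool.Agent.MPca0fc2.PV
open Pool.Agent.MPca0fc2.CE

variable {n : ℕ}

theorem locOn_of_cells {𝓐 : Set (EuclideanSpace ℂ (Fin n) → ℂ)}
    (H : ∀ (N : ℕ) (f : Fin N → EuclideanSpace ℂ (Fin n) → ℂ), (∀ j, IsHinf (ball 0 1) (f j)) →
      ∀ (m : ℕ) (u : Fin m → EuclideanSpace ℂ (Fin n) → ℂ), (∀ i, u i ∈ 𝓐) → ∀ ε > 0,
      (∀ c : Fin m → ℂ, ∃ C, SolvableOn f {z | z ∈ ball 0 1 ∧ ∀ i, ‖u i z - c i‖ < ε} C) →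
      ∃ C, SolvableOn f (ball 0 1) C) :
    CXS.LocOn (ball (0 : EuclideanSpace ℂ (Fin n)) 1) 𝓐 := by
  intro N k f a C ε hf ha hε hsol
  refine H N f hf k a ha (ε / 2) (by positivity) fun c => ?_
  by_cases hne : ∃ b, b ∈ ball (0 : EuclideanSpace ℂ (Fin n)) 1 ∧ ∀ i, ‖a i b - c i‖ < ε / 2
  · obtain ⟨b, hb, hbc⟩ := hne
    refine ⟨C, CXS.solv_sub (hsol b hb) (fun z hz => ⟨hz.1, fun i => ?_⟩) le_rfl⟩
    have h1 := hz.2 i
    have h2 := hbc i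
    calc ‖a i z - a i b‖ = ‖(a i z - c i) - (a i b - c i)‖ := by congr 1; ring
      _ ≤ ‖a i z - c i‖ + ‖a i b - c i‖ := norm_sub_le _ _
      _ < ε := by linarith
  · push Not at hne
    have hemp : ∀ z ∈ {z | z ∈ ball (0 : EuclideanSpace ℂ (Fin n)) 1 ∧
        ∀ i, ‖a i z - c i‖ < ε / 2}, False := by
      rintro z ⟨hz, hzc⟩
      obtain ⟨i, hi⟩ := hne z hz
      exact absurd (hzc i) (not_lt.2 hi)
    exact ⟨0, fun _ _ => 0, fun j => differentiableOn_const _,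
      fun j z hz => (hemp z hz).elim, fun z hz => (hemp z hz).elim⟩

/-- If the corona problem is local over `𝓐` then also with all the functions of one holomorphic map. -/
theorem loc_map {𝓐 : Set (EuclideanSpace ℂ (Fin n) → ℂ)}
    (hA : CXS.LocOn (ball (0 : EuclideanSpace ℂ (Fin n)) 1) 𝓐)
    (hAH : ∀ u ∈ 𝓐, IsHinf (ball 0 1) u)
    {π : EuclideanSpace ℂ (Fin n) → ℂ} (hπ : DifferentiableOn ℂ π (ball 0 1))
    (hπ1 : ∀ z ∈ ball (0 : EuclideanSpace ℂ (Fin n)) 1, ‖π z‖ < 1) {N : ℕ}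
    {f F : Fin N → EuclideanSpace ℂ (Fin n) → ℂ} (hf : ∀ j, IsHinf (ball 0 1) (f j))
    (hF : ∀ j, F j = f j ∨ F j = fun _ => 0)
    (hv : ∀ j, ∀ ε > 0, ∃ v ∈ Algebra.adjoin ℂ (𝓐 ∪ HinfOf π),
      ∀ z ∈ ball (0 : EuclideanSpace ℂ (Fin n)) 1, ‖F j z - v z‖ ≤ ε) {m : ℕ}
    {u : Fin m → EuclideanSpace ℂ (Fin n) → ℂ} (hu : ∀ i, u i ∈ 𝓐) {ε : ℝ} (hε : 0 < ε)
    (H : ∀ c : Fin m → ℂ,
      (∃ C, SolvableOn f {z | z ∈ ball 0 1 ∧ ∀ i, ‖u i z - c i‖ < ε} C) ∨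
      ∃ δ > 0, ∀ z ∈ ball (0 : EuclideanSpace ℂ (Fin n)) 1, (∀ i, ‖u i z - c i‖ < ε) →
        δ ≤ ∑ j, ‖F j z‖ ^ 2) :
    ∃ C, SolvableOn f (ball 0 1) C := by
  classical
  have hfB : ∀ j, IND.BH (ball (0 : EuclideanSpace ℂ (Fin n)) 1) (IND.cf (f j)) :=
    fun j => IND.bh_of_hinf (hf j)
  have hFH : ∀ j, IsHinf (ball 0 1) (F j) := by
    intro j
    rcases hF j with h | h
    · rw [h]; exact hf j
    · rw [h]; exact ⟨differentiableOn_const _, 0, fun z _ => by simp⟩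
  obtain ⟨C, h, h1, h2, h3⟩ := IND.unimod_of_chars (n := n) isOpen_ball (f := f) hfB fun Φ => by
    by_contra hcon
    push Not at hcon
    have hExt := IND.ext_of_loc hA hAH Φ
    have hF0 : ∀ j, Φ.φ (IND.cf (F j)) = 0 := by
      intro j
      rcases hF j with h | h
      · rw [h]; exact hcon j
      · rw [h]; exact Φ.map_const 0
    rcases H fun i => Φ.φ (IND.cf (u i)) with ⟨C, hC⟩ | ⟨δ, hδ, hδF⟩
    · exact hExt N f hfB hcon m u hu ε hε C hC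
    · obtain ⟨Φ₁, hE₁, hΦ₁⟩ := IND.exists_ext isOpen_ball hAH hExt hu hε
      obtain ⟨Δ, hΔ⟩ : ∃ Δ : Set (EuclideanSpace ℂ (Fin n)),
        Δ = cellOn (ball 0 1) u (fun i => Φ.φ (IND.cf (u i))) ε := ⟨_, rfl⟩
      have hopen : IsOpen (cellOn (ball 0 1) u (fun i => Φ.φ (IND.cf (u i))) ε) :=
        CXS.isOpen_cellOn isOpen_ball (fun i => (hAH _ (hu i)).1) _ _
      have hsub : cellOn (ball 0 1) u (fun i => Φ.φ (IND.cf (u i))) ε ⊆ ball 0 1 :=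
        fun z hz => hz.1
      obtain ⟨t, ht0, ht⟩ := exists_small (Real.sqrt_pos.2 hδ) N
      obtain ⟨z, hz, hz1⟩ := IND.cluster_alg hopen (A := 𝓐) (fun a ha =>
        ⟨(hAH a ha).1.mono hsub, (hAH a ha).2.choose,
          fun z hz => (hAH a ha).2.choose_spec z (hsub hz)⟩) hE₁ (hπ.mono hsub)
        (fun z hz => hπ1 z (hsub hz)) (q := F) (fun j => ⟨(hFH j).1.mono hsub, fun ε hε => by
          obtain ⟨v, hv1, hv2⟩ := hv j ε hε
          exact ⟨v, hv1, fun z hz => hv2 z (hsub hz)⟩⟩) ht0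
      have h4 : ∀ j, ‖F j z‖ ≤ t := by
        intro j
        have h5 := hz1 j
        rw [hΦ₁ _ (IND.bh_of_hinf (hFH j)), hF0 j, sub_zero] at h5
        exact h5.le
      refine absurd (hδF z hz.1 hz.2) (not_le.2 ?_)
      calc ∑ j, ‖F j z‖ ^ 2 ≤ ∑ _j : Fin N, t ^ 2 :=
            Finset.sum_le_sum fun j _ => pow_le_pow_left₀ (norm_nonneg _) (h4 j) 2
        _ = (√(N : ℝ) * t) ^ 2 := by
            rw [Finset.sum_const, Finset.card_univ, Fintype.card_fin, nsmul_eq_mul, mul_pow,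
              Real.sq_sqrt (Nat.cast_nonneg N)]
        _ < √δ ^ 2 := by
            have h0 : 0 ≤ √(N : ℝ) * t := by positivity
            refine pow_lt_pow_left₀ (by linarith) h0 two_ne_zero
        _ = δ := Real.sq_sqrt hδ.le
  exact ⟨C, h, h1, h2, h3⟩

/-- the condition `LocOn`, with cells around arbitrary points and no uniform bound -/
theorem cells_of_locOn {𝓐 : Set (EuclideanSpace ℂ (Fin n) → ℂ)}
    (hA : CXS.LocOn (ball (0 : EuclideanSpace ℂ (Fin n)) 1) 𝓐)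
    (hAH : ∀ u ∈ 𝓐, IsHinf (ball 0 1) u) {N : ℕ}
    {f : Fin N → EuclideanSpace ℂ (Fin n) → ℂ} (hf : ∀ j, IsHinf (ball 0 1) (f j)) {m : ℕ}
    {u : Fin m → EuclideanSpace ℂ (Fin n) → ℂ} (hu : ∀ i, u i ∈ 𝓐) {ε : ℝ} (hε : 0 < ε)
    (H : ∀ c : Fin m → ℂ,
      ∃ C, SolvableOn f {z | z ∈ ball 0 1 ∧ ∀ i, ‖u i z - c i‖ < ε} C) :
    ∃ C, SolvableOn f (ball 0 1) C :=
  loc_map hA hAH (π := fun _ => 0) (differentiableOn_const _) (fun z _ => by simp) hf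
    (F := fun _ _ => 0) (fun _ => Or.inr rfl)
    (fun _ ε hε => ⟨0, zero_mem _, fun z _ => by simpa using hε.le⟩) hu hε fun c => Or.inl (H c)

/-- the closed algebra generated by the classes of lines -/
theorem locOn_lines (hn : 2 ≤ n) {𝓢 : Set (AffineSubspace ℂ (EuclideanSpace ℂ (Fin n)))}
    (hS : ∀ S ∈ 𝓢, Module.finrank ℂ S.direction ≤ 1 ∧ ∃ x ∈ S, ‖x‖ < 1) :
    CXS.LocOn (ball (0 : EuclideanSpace ℂ (Fin n)) 1)
      {u | IsHinf (ball 0 1) u ∧ ∀ ε > 0, ∃ v ∈ Algebra.adjoin ℂ (Gen 𝓢),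
        ∀ z ∈ ball (0 : EuclideanSpace ℂ (Fin n)) 1, ‖u z - v z‖ ≤ ε} := by
  refine locOn_of_cells fun N f hf k u hu ε hε H => ?_
  exact cells_lines hn hS (π := fun _ => 0) (differentiableOn_const _) (fun z _ => by simp) hf
    (F := fun _ _ => 0) (fun _ => Or.inr rfl)
    (fun _ ε hε => ⟨0, zero_mem _, fun z _ => by simpa using hε.le⟩) (fun i => (hu i).1)
    (fun i => (hu i).2) hε fun c => Or.inl (H c)

end Pool.Agent.MPca0fc2.SP
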