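import Mathlib
import Pool.Agent.Lib.MP_ca0fc2_an.SP.S4

set_option autoImplicit false
set_option linter.unusedSectionVars false

open Metric Set MeasureTheory Filter Topology
open scoped InnerProductSpace ENNReal ContDiff

/-! # Characters and functions which are tame off a complex subspace -/

namespace Pool.Agent.MPca0fc2.SP

open Pool.Agent.Lib.MP_ca0fc2_an
open Pool.Agent.MPca0fc2.PT
open Pool.Agent.MPca0fc2.QT
open Pool.Agent.MPca0fc2.TS
open Pool.Agent.MPca0fc2.TE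
open Pool.Agent.MPca0fc2.TK
open Pool.Agent.MPca0fc2.VK
open Pool.Agent.MPca0fc2.PV
open Pool.Agent.MPca0fc2.CE

variable {E : Type*} [NormedAddCommGroup E] [InnerProductSpace ℂ E] [FiniteDimensional ℂ E]
  [MeasurableSpace E] [BorelSpace E]

private theorem S5_BH {u : E → ℂ} (hu : DifferentiableOn ℂ u (ball 0 1)) {C : ℝ}
    (hC : ∀ z ∈ ball (0 : E) 1, ‖u z‖ ≤ C) : BH (fun _ : Unit => u) :=
  ⟨fun _ => hu, C, fun _ z hz => hC z hz⟩

/-- sums of products with functions in the kernel are in the kernel -/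
private theorem S5_char (X : Char Unit E) {N : ℕ} {b h : Fin N → E → ℂ}
    (hb : ∀ i, BH (fun _ : Unit => b i)) (hh : ∀ i, BH (fun _ : Unit => h i))
    (h0 : ∀ i, X.φ (fun _ => b i) = 0) :
    BH (fun (_ : Unit) z => ∑ i, b i z * h i z) ∧ X.φ (fun _ z => ∑ i, b i z * h i z) = 0 := by
  have h1 : ∀ k ∈ (Finset.univ : Finset (Fin N)), BH (fun (_ : Unit) z => b k z * h k z) :=
    fun k _ => (hb k).mul (hh k)
  refine ⟨BH.sum h1, ?_⟩
  rw [X.map_sum h1]
  apply Finset.sum_eq_zero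
  intro k _
  rw [X.map_mul (hb k) (hh k), h0 k, zero_mul]

private theorem S5_over {p : E} (hp : ‖p‖ = 1) {X : Char Unit E} (hX : Over X p) :
    X.φ (fun _ z => 1 - ⟪p, z⟫_ℂ) = 0 := by
  have h1 := X.map_sub (BH.const (I := Unit) (E := E) 1) (BH.inner (I := Unit) p)
  have h2 : X.φ (fun _ z => 1 - ⟪p, z⟫_ℂ) = X.φ (fun _ _ => (1 : ℂ)) - X.φ (fun _ z => ⟪p, z⟫_ℂ) := h1
  rw [h2, X.map_const, hX p, inner_self_eq_norm_sq_to_K, hp]
  norm_num

private theorem S5_sub {X : Char Unit E} {u : E → ℂ} (hu : BH (fun _ : Unit => u)) :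
    X.φ (fun _ z => u z - X.φ (fun _ => u)) = 0 := by
  have h1 := X.map_sub hu (BH.const (I := Unit) (E := E) (X.φ (fun _ => u)))
  have h2 : X.φ (fun _ z => u z - X.φ (fun _ => u)) =
      X.φ (fun _ => u) - X.φ (fun _ _ => X.φ (fun _ => u)) := h1
  rw [h2, X.map_const, sub_self]

private theorem S5_dist {p z : E} (hp : ‖p‖ = 1) (hz : ‖z‖ < 1) {s : ℝ} (hs : 0 < s)
    (h : ‖1 - ⟪p, z⟫_ℂ‖ < s ^ 2 / 2) : ‖z - p‖ < s := by
  have h1 : ‖z - p‖ ^ 2 = ‖z‖ ^ 2 - 2 * RCLike.re ⟪z, p⟫_ℂ + ‖p‖ ^ 2 := norm_sub_sq z p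
  have h2 : RCLike.re ⟪z, p⟫_ℂ = (⟪p, z⟫_ℂ).re := by
    rw [← inner_conj_symm z p]; exact Complex.conj_re _
  have h3 : (1 - ⟪p, z⟫_ℂ).re ≤ ‖1 - ⟪p, z⟫_ℂ‖ := Complex.re_le_norm _
  rw [Complex.sub_re, Complex.one_re] at h3
  rw [h2, hp] at h1
  have h4 : ‖z‖ ^ 2 < 1 := by
    have := norm_nonneg z
    nlinarith
  have h5 : ‖z - p‖ ^ 2 < s ^ 2 := by rw [h1]; nlinarith
  exact lt_of_pow_lt_pow_left₀ 2 hs.le h5

private theorem S5_low {n : ℕ} {F R : Fin n → ℂ} {C : ℝ} (h : ∑ j, F j * R j = 1)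
    (hR : ∀ j, ‖R j‖ ≤ C) : ((C ^ 2 + 1) * (n + 1))⁻¹ ≤ ∑ j, ‖F j‖ ^ 2 := by
  have h1 : (1 : ℝ) ≤ C * ∑ j, ‖F j‖ := by
    calc (1 : ℝ) = ‖∑ j, F j * R j‖ := by rw [h, norm_one]
      _ ≤ ∑ j, ‖F j * R j‖ := norm_sum_le _ _
      _ ≤ ∑ j, C * ‖F j‖ := by
          refine Finset.sum_le_sum fun j _ => ?_
          rw [norm_mul, mul_comm]
          exact mul_le_mul_of_nonneg_right (hR j) (norm_nonneg _)
      _ = C * ∑ j, ‖F j‖ := by rw [Finset.mul_sum]
  have h2 : (∑ j, ‖F j‖) ^ 2 ≤ n * ∑ j, ‖F j‖ ^ 2 := by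
    have := sq_sum_le_card_mul_sum_sq (s := (Finset.univ : Finset (Fin n))) (f := fun j => ‖F j‖)
    simpa using this
  have h0 : 0 ≤ ∑ j, ‖F j‖ := Finset.sum_nonneg fun j _ => norm_nonneg _
  have hS : 0 ≤ ∑ j, ‖F j‖ ^ 2 := Finset.sum_nonneg fun j _ => sq_nonneg _
  have h3 : (1 : ℝ) ≤ C ^ 2 * (n * ∑ j, ‖F j‖ ^ 2) := by
    calc (1 : ℝ) ≤ (C * ∑ j, ‖F j‖) ^ 2 := by nlinarith
      _ = C ^ 2 * (∑ j, ‖F j‖) ^ 2 := by ring
      _ ≤ C ^ 2 * (n * ∑ j, ‖F j‖ ^ 2) := mul_le_mul_of_nonneg_left h2 (sq_nonneg _)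
  have hn : (0 : ℝ) ≤ n := Nat.cast_nonneg n
  rw [inv_le_iff_one_le_mul₀' (by positivity)]
  nlinarith [mul_nonneg (sq_nonneg C) hS, mul_nonneg hn hS]

/-- data `f`, tame functions `b` with the value `0` at a character, and a bounded solution for `f` where
the `b i` are small -/
theorem cell_char (hE : 2 ≤ Module.finrank ℂ E) {P : E →L[ℂ] E} (hP : Prj P)
    (hS : ∀ N, SlN N P) (X : Char Unit E) {N l : ℕ} {f k : Fin N → E → ℂ} {b : Fin l → E → ℂ}
    (hb : ∀ i, TP P (b i)) (hb0 : ∀ i, X.φ (fun _ => b i) = 0) {B r : ℝ} (hr : 0 < r)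
    (hf : ∀ j, DifferentiableOn ℂ (f j) (ball 0 1)) (hfB : ∀ j, ∀ z ∈ ball (0 : E) 1, ‖f j z‖ ≤ B)
    (hk : ∀ j, DifferentiableOn ℂ (k j) {z | z ∈ ball (0 : E) 1 ∧ ∑ i, ‖b i z‖ ^ 2 < r ^ 2})
    (hkz : ∀ z ∈ ball (0 : E) 1, ∑ i, ‖b i z‖ ^ 2 < r ^ 2 →
      ∑ j, f j z * k j z = 1 ∧ ∀ j, ‖k j z‖ ≤ B) : ∃ j, X.φ (fun _ => f j) ≠ 0 := by
  classical
  by_contra hno
  push Not at hno
  have hE1 := exists_unit hE
  obtain ⟨W, s, L, ν, -, hW, hs, hs1, hL, hν, hWb⟩ := TP_common hE1 hb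
  choose hbd hbC hbT using hb
  choose C hC using hbC
  obtain ⟨B', hB'⟩ : ∃ B' : ℝ, B' = |B| + ∑ i, |C i| := ⟨_, rfl⟩
  have hCs : 0 ≤ ∑ i, |C i| := Finset.sum_nonneg fun i _ => abs_nonneg _
  have hBB : B ≤ B' := by rw [hB']; linarith [le_abs_self B]
  have hCB : ∀ i, C i ≤ B' := fun i => by
    have h1 : |C i| ≤ ∑ i, |C i| :=
      Finset.single_le_sum (f := fun i => |C i|) (fun _ _ => abs_nonneg _) (Finset.mem_univ i)
    rw [hB']
    linarith [le_abs_self (C i), abs_nonneg B]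
  -- the solution on the range of `P`
  obtain ⟨g, A, hg1, hg2⟩ := hS (N + l) (Fin.append f b) (fun j => by
      refine Fin.addCases (fun i => ?_) (fun i => ?_) j
      · rw [Fin.append_left]; exact hf i
      · rw [Fin.append_right]; exact hbd i)
    ⟨B', fun j => by
      refine Fin.addCases (fun i => ?_) (fun i => ?_) j
      · rw [Fin.append_left]; exact fun z hz => (hfB i z hz).trans hBB
      · rw [Fin.append_right]; exact fun z hz => (hC i z hz).trans (hCB i)⟩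
    ⟨min (r ^ 2) (((B ^ 2 + 1) * ((N : ℝ) + 1))⁻¹), lt_min (by positivity) (by positivity),
      fun z hz => by
        rw [Fin.sum_univ_add]
        simp only [Fin.append_left, Fin.append_right]
        have e1 : 0 ≤ ∑ j, ‖f j z‖ ^ 2 := Finset.sum_nonneg fun j _ => sq_nonneg _
        have e2 : 0 ≤ ∑ i, ‖b i z‖ ^ 2 := Finset.sum_nonneg fun j _ => sq_nonneg _
        rcases lt_or_ge (∑ i, ‖b i z‖ ^ 2) (r ^ 2) with h1 | h1
        · obtain ⟨h2, h3⟩ := hkz z hz h1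
          have h4 := S5_low h2 h3
          exact (min_le_right _ _).trans (by linarith)
        · exact (min_le_left _ _).trans (by linarith)⟩
  obtain ⟨h, h', C', hh, hh', hfin⟩ := cellP hE hP hf hbd (B := B')
    (fun j z hz => (hfB j z hz).trans hBB) (fun i z hz => (hC i z hz).trans (hCB i)) hr hk
    (fun z hz hzb => ⟨(hkz z hz hzb).1, fun j => ((hkz z hz hzb).2 j).trans hBB⟩)
    hW hs hs1 hL hν (fun n z hz hn i => hWb i n z hz hn) hg1 hg2
  obtain ⟨e1, e2⟩ := S5_char X (b := f) (h := h) (fun j => S5_BH (hf j) (hfB j))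
    (fun j => S5_BH (hh j) fun z hz => (hfin z hz).2.1 j) hno
  obtain ⟨e3, e4⟩ := S5_char X (b := b) (h := h') (fun i => S5_BH (hbd i) (hC i))
    (fun i => S5_BH (hh' i) fun z hz => (hfin z hz).2.2 i) hb0
  have h1 := X.map_add e1 e3
  rw [e2, e4, add_zero] at h1
  have h4 : X.φ (fun _ z => (∑ j, f j z * h j z) + (∑ i, b i z * h' i z)) =
      X.φ (fun _ _ => (1 : ℂ)) :=
    X.congr (BH.const 1) fun _ z hz => (hfin z hz).1
  rw [X.map_const] at h4
  exact one_ne_zero (h4.symm.trans h1)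

/-- The tame functions are good at each boundary point, if the corona theorem holds on the range of
`P`. -/
theorem goodP (hE : 2 ≤ Module.finrank ℂ E) {P : E →L[ℂ] E} (hP : Prj P) (hS : ∀ N, SlN N P)
    {p : E} (hp : ‖p‖ = 1) : GoodC p {u | TP P u} {u | TP P u} := by
  classical
  refine ⟨?_, ?_, ?_, fun c => TP.const P c⟩
  · intro X hX m a ha s hs N f k B hf hfB hk hfk
    obtain ⟨b, hb⟩ : ∃ b : Fin (m + 1) → E → ℂ, b =
      Fin.cons (α := fun _ => E → ℂ) (fun z => 1 - ⟪p, z⟫_ℂ)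
        (fun i z => a i z - X.φ (fun _ => a i)) := ⟨_, rfl⟩
    have hb0 : b 0 = fun z => 1 - ⟪p, z⟫_ℂ := by rw [hb]; rfl
    have hbs : ∀ i : Fin m, b i.succ = fun z => a i z - X.φ (fun _ => a i) := fun i => by
      rw [hb]; rfl
    obtain ⟨r, hr⟩ : ∃ r : ℝ, r = min s (s ^ 2 / 2) := ⟨_, rfl⟩
    have hr0 : 0 < r := by rw [hr]; exact lt_min hs (by positivity)
    have hcell : ∀ z ∈ ball (0 : E) 1, ∑ i, ‖b i z‖ ^ 2 < r ^ 2 →
        ‖z - p‖ < s ∧ ∀ i, ‖a i z - X.φ (fun _ => a i)‖ < s := by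
      intro z hz h1
      have h2 : ∀ i, ‖b i z‖ < r := by
        intro i
        have h3 : ‖b i z‖ ^ 2 ≤ ∑ i, ‖b i z‖ ^ 2 :=
          Finset.single_le_sum (f := fun i => ‖b i z‖ ^ 2) (fun _ _ => by positivity)
            (Finset.mem_univ i)
        exact lt_of_pow_lt_pow_left₀ 2 hr0.le (h3.trans_lt h1)
      constructor
      · have h3 := h2 0
        rw [hb0] at h3
        exact S5_dist hp (mem_ball_zero_iff.1 hz) hs
          (h3.trans_le (by rw [hr]; exact min_le_right _ _))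
      · intro i
        have h3 := h2 i.succ
        rw [hbs] at h3
        exact h3.trans_le (by rw [hr]; exact min_le_left _ _)
    refine cell_char hE hP hS X (b := b) (k := k) (fun i => ?_) (fun i => ?_) hr0 hf hfB
      (fun j => (hk j).mono ?_) (fun z hz hzb => ?_)
    · refine Fin.cases ?_ (fun i => ?_) i
      · rw [hb0]; exact TP.affine hP p
      · rw [hbs]; exact (ha i).sub_const _
    · refine Fin.cases ?_ (fun i => ?_) i
      · rw [hb0]; exact S5_over hp hX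
      · rw [hbs]; exact S5_sub (ha i).bh
    · exact fun z hz => ⟨hz.1, hcell z hz.1 hz.2⟩
    · exact hfk z hz (hcell z hz hzb).1 (hcell z hz hzb).2
  · intro X hX m a ha N v hv s hs
    by_contra hno
    push Not at hno
    obtain ⟨b', hb'⟩ : ∃ b' : Fin (m + N) → E → ℂ, b' = Fin.append
      (fun i z => a i z - X.φ (fun _ => a i)) (fun j z => v j z - X.φ (fun _ => v j)) := ⟨_, rfl⟩
    have hb'l : ∀ i : Fin m, b' (Fin.castAdd N i) = fun z => a i z - X.φ (fun _ => a i) := fun i => by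
      rw [hb']; exact Fin.append_left _ _ i
    have hb'r : ∀ j : Fin N, b' (Fin.natAdd m j) = fun z => v j z - X.φ (fun _ => v j) := fun j => by
      rw [hb']; exact Fin.append_right _ _ j
    obtain ⟨b, hb⟩ : ∃ b : Fin (m + N + 1) → E → ℂ, b =
      Fin.cons (α := fun _ => E → ℂ) (fun z => 1 - ⟪p, z⟫_ℂ) b' := ⟨_, rfl⟩
    have hb0 : b 0 = fun z => 1 - ⟪p, z⟫_ℂ := by rw [hb]; rfl
    have hbs : ∀ i, b (Fin.succ i) = b' i := fun i => by rw [hb]; rfl
    obtain ⟨r, hr⟩ : ∃ r : ℝ, r = min s (s ^ 2 / 2) := ⟨_, rfl⟩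
    have hr0 : 0 < r := by rw [hr]; exact lt_min hs (by positivity)
    have hrs : r ≤ s := by rw [hr]; exact min_le_left _ _
    have hrs2 : r ≤ s ^ 2 / 2 := by rw [hr]; exact min_le_right _ _
    have hlow : ∀ z ∈ ball (0 : E) 1, ¬ ∑ i, ‖b i z‖ ^ 2 < r ^ 2 := by
      intro z hz hcon
      have hlt : ∀ i, ‖b i z‖ < r := by
        intro i
        have h3 : ‖b i z‖ ^ 2 ≤ ∑ i, ‖b i z‖ ^ 2 :=
          Finset.single_le_sum (f := fun i => ‖b i z‖ ^ 2) (fun _ _ => by positivity)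
            (Finset.mem_univ i)
        exact lt_of_pow_lt_pow_left₀ 2 hr0.le (h3.trans_lt hcon)
      have h1 := hlt 0
      rw [hb0] at h1
      have hzp : ‖z - p‖ < s := S5_dist hp (mem_ball_zero_iff.1 hz) hs (h1.trans_le hrs2)
      have ha' : ∀ i, ‖a i z - X.φ (fun _ => a i)‖ < s := by
        intro i
        have h2 := hlt (Fin.succ (Fin.castAdd N i))
        rw [hbs, hb'l] at h2
        exact h2.trans_le hrs
      obtain ⟨j, hj⟩ := hno z hz hzp ha'
      have h2 := hlt (Fin.succ (Fin.natAdd m j))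
      rw [hbs, hb'r] at h2
      exact absurd (h2.trans_le hrs) (not_lt.2 hj)
    obtain ⟨j, -⟩ := cell_char hE hP hS X (N := 0) (f := fun i => i.elim0) (b := b)
      (k := fun i => i.elim0) (B := 0) (fun i => by
        refine Fin.cases ?_ (fun i => ?_) i
        · rw [hb0]; exact TP.affine hP p
        · rw [hbs]
          refine Fin.addCases (fun i => ?_) (fun j => ?_) i
          · rw [hb'l]; exact (ha i).sub_const _
          · rw [hb'r]; exact (hv j).sub_const _)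
      (fun i => by
        refine Fin.cases ?_ (fun i => ?_) i
        · rw [hb0]; exact S5_over hp hX
        · rw [hbs]
          refine Fin.addCases (fun i => ?_) (fun j => ?_) i
          · rw [hb'l]; exact S5_sub (ha i).bh
          · rw [hb'r]; exact S5_sub (hv j).bh)
      hr0 (fun i => i.elim0) (fun i => i.elim0) (fun i => i.elim0)
      (fun z hz h => absurd h (hlow z hz))
    exact j.elim0
  · rintro u (hu | hu)
    · exact ⟨hu.1, hu.2.1⟩
    · exact ⟨hu.1, hu.2.1⟩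

end Pool.Agent.MPca0fc2.SP
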